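import Pool.Agent.Helper89.Dual.Plane
set_option autoImplicit false

/-!
Tilings of the plane by convex tiles of bounded size: local structure.
-/

namespace Pool.Agent.Helper89.Dual

open Complex Set Metric Filter Topology

structure CT {ι : Type} (A : ι → Set ℂ) (c : ι → ℂ) (u U : ℝ) : Prop where
  hu : 0 < u
  conv : ∀ i, Convex ℝ (A i)
  closed : ∀ i, IsClosed (A i)
  inner : ∀ i, closedBall (c i) u ⊆ A i
  outer : ∀ i, A i ⊆ closedBall (c i) U
  cover : ∀ z, ∃ i, z ∈ A i
  disj : ∀ i j, i ≠ j → Disjoint (interior (A i)) (interior (A j))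

/-- vertices: points in at least three tiles -/
def IsV {ι : Type} (A : ι → Set ℂ) (z : ℂ) : Prop :=
  ∃ i j k, i ≠ j ∧ j ≠ k ∧ i ≠ k ∧ z ∈ A i ∧ z ∈ A j ∧ z ∈ A k

/-- adjacency: two tiles with at least two common points -/
def Adj {ι : Type} (A : ι → Set ℂ) (i j : ι) : Prop :=
  i ≠ j ∧ ∃ a b, a ≠ b ∧ a ∈ A i ∧ a ∈ A j ∧ b ∈ A i ∧ b ∈ A j

variable {ι : Type} {A : ι → Set ℂ} {c : ι → ℂ} {u U : ℝ}

theorem Adj.symm {i j : ι} (h : Adj A i j) : Adj A j i := by
  obtain ⟨h1, a, b, h2, h3, h4, h5, h6⟩ := h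
  exact ⟨h1.symm, a, b, h2, h4, h3, h6, h5⟩

theorem adj_comm' {i j : ι} : Adj A i j ↔ Adj A j i := ⟨Adj.symm, Adj.symm⟩

namespace CT

theorem c_int (h : CT A c u U) (i : ι) : c i ∈ interior (A i) :=
  mem_interior.2 ⟨ball (c i) u, ball_subset_closedBall.trans (h.inner i), isOpen_ball,
    mem_ball_self h.hu⟩

theorem c_mem (h : CT A c u U) (i : ι) : c i ∈ A i := interior_subset (h.c_int i)

theorem compact (h : CT A c u U) (i : ι) : IsCompact (A i) :=
  (isCompact_closedBall (c i) U).of_isClosed_subset (h.closed i) (h.outer i)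

theorem closure_int (h : CT A c u U) (i : ι) : closure (interior (A i)) = A i := by
  rw [(h.conv i).closure_interior_eq_closure_of_nonempty_interior ⟨_, h.c_int i⟩,
    (h.closed i).closure_eq]

theorem int_disj (h : CT A c u U) {i j : ι} (hij : i ≠ j) : Disjoint (interior (A i)) (A j) := by
  rw [← h.closure_int j]
  exact (h.disj i j hij).closure_right isOpen_interior

theorem not_int (h : CT A c u U) {i j : ι} (hij : i ≠ j) {z : ℂ} (hz : z ∈ A j) :
    z ∉ interior (A i) := fun hh => Set.disjoint_left.1 (h.int_disj hij) hh hz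

theorem eq_of_int (h : CT A c u U) {i j : ι} {z : ℂ} (hz : z ∈ interior (A i)) (hz' : z ∈ A j) :
    i = j := by
  by_contra hij
  exact h.not_int hij hz' hz

theorem U_nonneg (h : CT A c u U) : 0 ≤ U := by
  obtain ⟨i, -⟩ := h.cover 0
  have := h.outer i (h.c_mem i)
  rw [mem_closedBall, dist_self] at this
  exact this

theorem u_le_U (h : CT A c u U) : u ≤ U := by
  obtain ⟨i, -⟩ := h.cover 0
  have h1 : c i + (u : ℂ) ∈ closedBall (c i) u := by
    rw [mem_closedBall, dist_eq_norm, add_sub_cancel_left, Complex.norm_real, Real.norm_eq_abs,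
      abs_of_pos h.hu]
  have := h.outer i (h.inner i h1)
  rw [mem_closedBall, dist_eq_norm, add_sub_cancel_left, Complex.norm_real, Real.norm_eq_abs,
      abs_of_pos h.hu] at this
  exact this

theorem dist_c (h : CT A c u U) {i j : ι} (hij : i ≠ j) : u < dist (c i) (c j) := by
  by_contra hc
  push Not at hc
  have : c i ∈ A j := h.inner j (by rw [mem_closedBall]; exact hc)
  exact hij (h.eq_of_int (h.c_int i) this)

theorem grid_inj (h : CT A c u U) :
    Function.Injective (fun i => ((⌊2 * (c i).re / u⌋, ⌊2 * (c i).im / u⌋) : ℤ × ℤ)) := by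
  intro i j hij
  by_contra hne
  have hd := h.dist_c hne
  simp only [Prod.mk.injEq] at hij
  have h1 := Int.abs_sub_lt_one_of_floor_eq_floor hij.1
  have h2 := Int.abs_sub_lt_one_of_floor_eq_floor hij.2
  have hu := h.hu
  have h3 : |(c i).re - (c j).re| < u / 2 := by
    have : 2 * (c i).re / u - 2 * (c j).re / u = ((c i).re - (c j).re) * (2 / u) := by
      field_simp
    rw [this, abs_mul, abs_of_pos (show 0 < 2 / u by positivity)] at h1
    rw [← lt_div_iff₀ (by positivity)] at h1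
    calc _ < 1 / (2 / u) := h1
      _ = u / 2 := by field_simp
  have h4 : |(c i).im - (c j).im| < u / 2 := by
    have : 2 * (c i).im / u - 2 * (c j).im / u = ((c i).im - (c j).im) * (2 / u) := by
      field_simp
    rw [this, abs_mul, abs_of_pos (show 0 < 2 / u by positivity)] at h2
    rw [← lt_div_iff₀ (by positivity)] at h2
    calc _ < 1 / (2 / u) := h2
      _ = u / 2 := by field_simp
  have h5 := Complex.norm_le_abs_re_add_abs_im (c i - c j)
  rw [dist_eq_norm] at hd
  rw [Complex.sub_re, Complex.sub_im] at h5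
  linarith

/-- uniform local finiteness -/
theorem count (h : CT A c u U) (ρ : ℝ) :
    ∃ N : ℕ, ∀ z : ℂ, ∃ s : Finset ι, s.card ≤ N ∧
      ∀ i, (A i ∩ closedBall z ρ).Nonempty → i ∈ s := by
  classical
  set g : ι → ℤ × ℤ := fun i => ((⌊2 * (c i).re / u⌋, ⌊2 * (c i).im / u⌋) : ℤ × ℤ) with hg
  have hu := h.hu
  refine ⟨(⌈4 * (ρ + U) / u⌉₊ + 2) * (⌈4 * (ρ + U) / u⌉₊ + 2), fun z => ?_⟩
  set Q : Finset (ℤ × ℤ) :=
    Finset.Icc ⌊2 * (z.re - (ρ + U)) / u⌋ ⌊2 * (z.re + (ρ + U)) / u⌋ ×ˢ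
    Finset.Icc ⌊2 * (z.im - (ρ + U)) / u⌋ ⌊2 * (z.im + (ρ + U)) / u⌋ with hQ
  have hfin : (g ⁻¹' (Q : Set (ℤ × ℤ))).Finite :=
    Set.Finite.preimage h.grid_inj.injOn Q.finite_toSet
  refine ⟨hfin.toFinset, ?_, ?_⟩
  · have h1 : hfin.toFinset.card ≤ Q.card := by
      apply Finset.card_le_card_of_injOn g
      · intro i hi
        rw [Finset.mem_coe, Set.Finite.mem_toFinset] at hi
        exact hi
      · exact h.grid_inj.injOn
    have key : ∀ x : ℝ, (Finset.Icc ⌊2 * (x - (ρ + U)) / u⌋ ⌊2 * (x + (ρ + U)) / u⌋).card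
        ≤ ⌈4 * (ρ + U) / u⌉₊ + 2 := by
      intro x
      rw [Int.card_Icc]
      have e1 := Int.floor_le (2 * (x + (ρ + U)) / u)
      have e2 := Int.sub_one_lt_floor (2 * (x - (ρ + U)) / u)
      have e3 := Nat.le_ceil (4 * (ρ + U) / u)
      have e4 : 2 * (x + (ρ + U)) / u - 2 * (x - (ρ + U)) / u = 4 * (ρ + U) / u := by
        field_simp; ring
      have e5 : ((⌊2 * (x + (ρ + U)) / u⌋ + 1 - ⌊2 * (x - (ρ + U)) / u⌋ : ℤ) : ℝ)
          < ((⌈4 * (ρ + U) / u⌉₊ + 2 : ℕ) : ℤ) := by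
        push_cast
        linarith
      have e6 : (⌊2 * (x + (ρ + U)) / u⌋ + 1 - ⌊2 * (x - (ρ + U)) / u⌋ : ℤ)
          < ((⌈4 * (ρ + U) / u⌉₊ + 2 : ℕ) : ℤ) := by exact_mod_cast e5
      omega
    calc hfin.toFinset.card ≤ Q.card := h1
      _ ≤ _ := by
        rw [hQ, Finset.card_product]
        exact Nat.mul_le_mul (key z.re) (key z.im)
  · rintro i ⟨x, hx1, hx2⟩
    rw [Set.Finite.mem_toFinset]
    have hd : dist (c i) z ≤ ρ + U := by
      have a1 := h.outer i hx1
      rw [mem_closedBall] at a1 hx2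
      have := dist_triangle (c i) x z
      rw [dist_comm (c i) x] at this
      linarith
    rw [dist_eq_norm] at hd
    have r1 := (Complex.abs_re_le_norm (c i - z)).trans hd
    have r2 := (Complex.abs_im_le_norm (c i - z)).trans hd
    rw [Complex.sub_re, abs_le] at r1
    rw [Complex.sub_im, abs_le] at r2
    show g i ∈ (Q : Set (ℤ × ℤ))
    rw [hQ, hg]
    simp only [Finset.coe_product, Finset.coe_Icc, Set.mem_prod, Set.mem_Icc]
    refine ⟨⟨?_, ?_⟩, ⟨?_, ?_⟩⟩ <;> apply Int.floor_le_floor <;>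
      apply div_le_div_of_nonneg_right _ hu.le <;> linarith

theorem finite_meet (h : CT A c u U) (z : ℂ) (ρ : ℝ) :
    {i | (A i ∩ closedBall z ρ).Nonempty}.Finite := by
  obtain ⟨N, hN⟩ := h.count ρ
  obtain ⟨s, -, hs⟩ := hN z
  exact s.finite_toSet.subset (fun i hi => hs i hi)

/-- small balls only meet the tiles through the centre -/
theorem local_ball (h : CT A c u U) (z : ℂ) :
    ∃ δ > 0, ∀ i, (A i ∩ ball z δ).Nonempty → z ∈ A i := by
  classical
  have hfin := h.finite_meet z 1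
  set s : Set ι := {i | (A i ∩ closedBall z 1).Nonempty ∧ z ∉ A i} with hs
  have hsf : s.Finite := hfin.subset (fun i hi => hi.1)
  have hcl : IsClosed (⋃ i ∈ s, A i) := hsf.isClosed_biUnion (fun i _ => h.closed i)
  have hz : z ∈ (⋃ i ∈ s, A i)ᶜ := by
    simp only [Set.mem_compl_iff, Set.mem_iUnion, not_exists]
    intro i hi
    exact hi.2
  obtain ⟨δ, hδ, hb⟩ := Metric.isOpen_iff.1 hcl.isOpen_compl z hz
  refine ⟨min δ 1, lt_min hδ one_pos, ?_⟩
  rintro i ⟨x, hx1, hx2⟩
  by_contra hzi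
  have h1 : x ∈ ball z δ := ball_subset_ball (min_le_left _ _) hx2
  have h2 : x ∈ closedBall z 1 := ball_subset_closedBall (ball_subset_ball (min_le_right _ _) hx2)
  apply hb h1
  simp only [Set.mem_iUnion]
  exact ⟨i, ⟨⟨x, hx1, h2⟩, hzi⟩, hx1⟩

theorem mem_interior_of_unique (h : CT A c u U) {i : ι} {z : ℂ} 
    (hu : ∀ j, z ∈ A j → j = i) : z ∈ interior (A i) := by
  obtain ⟨δ, hδ, hb⟩ := h.local_ball z
  refine mem_interior.2 ⟨ball z δ, ?_, isOpen_ball, mem_ball_self hδ⟩
  intro x hx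
  obtain ⟨j, hj⟩ := h.cover x
  have := hu j (hb j ⟨x, hj, hx⟩)
  rw [← this]; exact hj

theorem frontier_iff (h : CT A c u U) {i : ι} {z : ℂ} :
    z ∈ frontier (A i) ↔ z ∈ A i ∧ ∃ j, j ≠ i ∧ z ∈ A j := by
  rw [(h.closed i).frontier_eq, Set.mem_sdiff]
  constructor
  · rintro ⟨h1, h2⟩
    refine ⟨h1, ?_⟩
    by_contra hc
    push Not at hc
    apply h2
    apply h.mem_interior_of_unique
    intro j hj
    by_contra hji
    exact hc j hji hj
  · rintro ⟨h1, j, hji, hj⟩
    exact ⟨h1, h.not_int hji.symm hj⟩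

theorem not_isV_iff {z : ℂ} (hz : ¬ IsV A z) {i j : ι} (hij : i ≠ j) (hi : z ∈ A i)
    (hj : z ∈ A j) : ∀ k, z ∈ A k → k = i ∨ k = j := by
  intro k hk
  by_contra hc
  push Not at hc
  exact hz ⟨i, j, k, hij, fun h => hc.2 h.symm, fun h => hc.1 h.symm, hi, hj, hk⟩

/-- separation of two tiles at a common point -/
theorem separate (h : CT A c u U) {i j : ι} (hij : i ≠ j) {z : ℂ} (hi : z ∈ A i) (hj : z ∈ A j) :
    ∃ n : ℂ, n ≠ 0 ∧ (∀ x ∈ A i, dt n x ≤ dt n z) ∧ (∀ x ∈ A j, dt n z ≤ dt n x) := by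
  obtain ⟨f, r, hf1, hf2⟩ := geometric_hahn_banach_open (h.conv i).interior isOpen_interior
    (h.conv j) (h.int_disj hij)
  obtain ⟨n, hn⟩ := functional_dt f
  have h1 : ∀ x ∈ A i, dt n x ≤ r := by
    intro x hx
    rw [← h.closure_int i] at hx
    have : closure (interior (A i)) ⊆ {x | dt n x ≤ r} := by
      apply closure_minimal (fun x hx => ?_)
      · exact isClosed_le (continuous_dt_right n) continuous_const
      · have := hf1 x hx
        rw [hn] at this
        exact this.le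
    exact this hx
  have h2 : ∀ x ∈ A j, r ≤ dt n x := by
    intro x hx
    rw [← hn]; exact hf2 x hx
  have h3 : dt n z = r := le_antisymm (h1 z hi) (h2 z hj)
  refine ⟨n, ?_, ?_, ?_⟩
  · rintro rfl
    have a := hf1 _ (h.c_int i)
    rw [hn] at a
    have b := h2 z hj
    simp only [dt, Complex.zero_re, Complex.zero_im, zero_mul, add_zero] at a b
    linarith
  · intro x hx; rw [h3]; exact h1 x hx
  · intro x hx; rw [h3]; exact h2 x hx

/-- a common point of exactly two tiles is an inner point of a common chord -/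
theorem two_local (h : CT A c u U) {i j : ι} (hij : i ≠ j) {z : ℂ} (hi : z ∈ A i) (hj : z ∈ A j)
    (hz : ¬ IsV A z) :
    ∃ d : ℂ, d ≠ 0 ∧ z + d ∈ A i ∧ z + d ∈ A j ∧ z - d ∈ A i ∧ z - d ∈ A j := by
  obtain ⟨n, hn0, hn1, hn2⟩ := h.separate hij hi hj
  obtain ⟨δ, hδ, hb⟩ := h.local_ball z
  have hk := not_isV_iff hz hij hi hj
  have hnn : 0 < dt n n := dt_self_pos hn0
  have hcov : ∀ w ∈ ball z δ, w ∈ A i ∨ w ∈ A j := by
    intro w hw
    obtain ⟨k, hk'⟩ := h.cover w
    rcases hk k (hb k ⟨w, hk', hw⟩) with rfl | rfl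
    · exact Or.inl hk'
    · exact Or.inr hk'
  have key1 : ∀ w ∈ ball z δ, dt n w ≤ dt n z → w ∈ A i := by
    intro w hw hle
    have ht : Tendsto (fun e : ℝ => w - (e : ℂ) * n) (𝓝[>] 0) (𝓝 w) := by
      have : Tendsto (fun e : ℝ => w - (e : ℂ) * n) (𝓝 0) (𝓝 (w - ((0:ℝ) : ℂ) * n)) := by
        apply Continuous.tendsto; fun_prop
      simp only [Complex.ofReal_zero, zero_mul, sub_zero] at this
      exact this.mono_left nhdsWithin_le_nhds
    apply (h.closed i).mem_of_tendsto ht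
    filter_upwards [ht.eventually (isOpen_ball.mem_nhds hw), self_mem_nhdsWithin] with e he1 he2
    rcases hcov _ he1 with h1 | h1
    · exact h1
    · exfalso
      have := hn2 _ h1
      rw [dt_sub_right, dt_smul_right] at this
      have h3 : 0 < e * dt n n := mul_pos he2 hnn
      linarith
  have key2 : ∀ w ∈ ball z δ, dt n z ≤ dt n w → w ∈ A j := by
    intro w hw hle
    have ht : Tendsto (fun e : ℝ => w + (e : ℂ) * n) (𝓝[>] 0) (𝓝 w) := by
      have : Tendsto (fun e : ℝ => w + (e : ℂ) * n) (𝓝 0) (𝓝 (w + ((0:ℝ) : ℂ) * n)) := by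
        apply Continuous.tendsto; fun_prop
      simp only [Complex.ofReal_zero, zero_mul, add_zero] at this
      exact this.mono_left nhdsWithin_le_nhds
    apply (h.closed j).mem_of_tendsto ht
    filter_upwards [ht.eventually (isOpen_ball.mem_nhds hw), self_mem_nhdsWithin] with e he1 he2
    rcases hcov _ he1 with h1 | h1
    · exfalso
      have := hn1 _ h1
      rw [dt_add_right, dt_smul_right] at this
      have h3 : 0 < e * dt n n := mul_pos he2 hnn
      linarith
    · exact h1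
  have hnorm : 0 < ‖n‖ := norm_pos_iff.2 hn0
  set d : ℂ := ((δ / (2 * ‖n‖) : ℝ) : ℂ) * (Complex.I * n) with hd
  have hdt : dt n d = 0 := by
    rw [hd, dt_smul_right]
    have : dt n (Complex.I * n) = 0 := by simp [dt]; ring
    rw [this, mul_zero]
  have hdn : ‖d‖ = δ / 2 := by
    rw [hd, norm_mul, norm_mul, Complex.norm_I, one_mul, Complex.norm_real, Real.norm_eq_abs,
      abs_of_pos (by positivity)]
    field_simp
  have hd0 : d ≠ 0 := by
    intro h0
    rw [h0, norm_zero] at hdn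
    linarith
  have hb1 : z + d ∈ ball z δ := by
    rw [mem_ball, dist_eq_norm, add_sub_cancel_left, hdn]; linarith
  have hb2 : z - d ∈ ball z δ := by
    rw [mem_ball, dist_eq_norm, sub_sub_cancel_left, norm_neg, hdn]; linarith
  refine ⟨d, hd0, key1 _ hb1 ?_, key2 _ hb1 ?_, key1 _ hb2 ?_, key2 _ hb2 ?_⟩
  · rw [dt_add_right, hdt]; linarith
  · rw [dt_add_right, hdt]; linarith
  · rw [dt_sub_right, hdt]; linarith
  · rw [dt_sub_right, hdt]; linarith

theorem adj_of_not_isV (h : CT A c u U) {i j : ι} (hij : i ≠ j) {z : ℂ} (hi : z ∈ A i)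
    (hj : z ∈ A j) (hz : ¬ IsV A z) : Adj A i j := by
  obtain ⟨d, hd, h1, h2, h3, h4⟩ := h.two_local hij hi hj hz
  refine ⟨hij, z + d, z - d, ?_, h1, h2, h3, h4⟩
  intro he
  apply hd
  have : d + d = 0 := by linear_combination he
  have h2 : (2 : ℂ) * d = 0 := by linear_combination this
  simpa using h2

theorem mid_mem_open (a b : ℂ) : (a + b) / 2 ∈ openSegment ℝ a b := by
  rw [mem_openSegment_iff_real]
  refine ⟨1/2, by norm_num, by norm_num, ?_⟩
  push_cast; ring

/-- both tiles lie on one side of a common chord -/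
theorem side (h : CT A c u U) {i j : ι} (hij : i ≠ j) {a b : ℂ} (hab : a ≠ b)
    (hai : a ∈ A i) (haj : a ∈ A j) (hbi : b ∈ A i) (hbj : b ∈ A j) :
    cr (b - a) (c i - a) ≠ 0 ∧ ∀ x ∈ A i, 0 ≤ cr (b - a) (x - a) * cr (b - a) (c i - a) := by
  have hm := mid_mem_open a b
  have hmj : (a + b) / 2 ∈ A j := (h.conv j).openSegment_subset haj hbj hm
  exact one_side (h.conv i) (h.c_int i) hai hbi hab hm (h.not_int hij hmj)

theorem opp (h : CT A c u U) {i j : ι} (hij : i ≠ j) {a b : ℂ} (hab : a ≠ b)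
    (hai : a ∈ A i) (haj : a ∈ A j) (hbi : b ∈ A i) (hbj : b ∈ A j) :
    cr (b - a) (c i - a) * cr (b - a) (c j - a) < 0 := by
  have h1 := (h.side hij hab hai haj hbi hbj).1
  have h2 := (h.side hij.symm hab haj hai hbj hbi).1
  by_contra hc
  push Not at hc
  have h3 : 0 < cr (b - a) (c i - a) * cr (b - a) (c j - a) :=
    lt_of_le_of_ne hc (mul_ne_zero h1 h2).symm
  have hm := mid_mem_open a b
  have e1 := half_disc (h.conv j) (h.c_int j) haj hbj hm h3
  have e2 := half_disc (h.conv i) (h.c_int i) hai hbi hm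
    (w := c i) (mul_self_pos.2 h1)
  obtain ⟨e, he1, he2⟩ := (e1.and e2).exists
  exact Set.disjoint_left.1 (h.disj i j hij) he2 he1

/-- inner points of a common chord of two tiles are in no third tile -/
theorem not_third (h : CT A c u U) {i j k : ι} (hij : i ≠ j) {a b m : ℂ} (hab : a ≠ b)
    (hai : a ∈ A i) (haj : a ∈ A j) (hbi : b ∈ A i) (hbj : b ∈ A j)
    (hm : m ∈ openSegment ℝ a b) (hk : m ∈ A k) : k = i ∨ k = j := by
  by_contra hc
  push Not at hc
  have ho := h.opp hij hab hai haj hbi hbj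
  have hba : b - a ≠ 0 := sub_ne_zero.2 hab.symm
  have hN : 0 < ‖b - a‖ := norm_pos_iff.2 hba
  have hw : ∃ w ∈ A k, cr (b - a) (w - a) ≠ 0 := by
    by_cases hck : cr (b - a) (c k - a) = 0
    · refine ⟨c k + ((u / ‖b - a‖ : ℝ) : ℂ) * (Complex.I * (b - a)), ?_, ?_⟩
      · apply h.inner k
        rw [mem_closedBall, dist_eq_norm, add_sub_cancel_left, norm_mul, norm_mul, Complex.norm_I,
          one_mul, Complex.norm_real, Real.norm_eq_abs,
          abs_of_pos (div_pos h.hu hN)]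
        apply le_of_eq
        field_simp
      · have : c k + ((u / ‖b - a‖ : ℝ) : ℂ) * (Complex.I * (b - a)) - a
            = (c k - a) + ((u / ‖b - a‖ : ℝ) : ℂ) * (Complex.I * (b - a)) := by ring
        rw [this, cr_add_right, hck, cr_smul_right, zero_add]
        apply mul_ne_zero (div_pos h.hu hN).ne'
        have h3 : cr (b - a) (Complex.I * (b - a)) = dt (b - a) (b - a) := by
          simp [cr, dt]; ring
        rw [h3]
        exact (dt_self_pos hba).ne'
    · exact ⟨c k, h.c_mem k, hck⟩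
  obtain ⟨w, hwk, hw0⟩ := hw
  have hev : ∀ᶠ e : ℝ in 𝓝[>] (0:ℝ), m + (e : ℂ) * (w - m) ∈ A k := by
    filter_upwards [self_mem_nhdsWithin, nhdsWithin_le_nhds (gt_mem_nhds (show (0:ℝ) < 1 by norm_num))]
      with e he1 he2
    apply (h.conv k).segment_subset hk hwk
    rw [mem_segment_iff_real]
    exact ⟨e, le_of_lt he1, le_of_lt he2, rfl⟩
  have hside : 0 < cr (b - a) (w - a) * cr (b - a) (c i - a)
      ∨ 0 < cr (b - a) (w - a) * cr (b - a) (c j - a) := by
    by_contra hcc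
    push Not at hcc
    have h1 : 0 ≤ (cr (b - a) (w - a) * cr (b - a) (c i - a))
        * (cr (b - a) (w - a) * cr (b - a) (c j - a)) :=
      mul_nonneg_of_nonpos_of_nonpos hcc.1 hcc.2
    have h2 : 0 < cr (b - a) (w - a) ^ 2 := by positivity
    nlinarith
  rcases hside with hs | hs
  · have e1 := half_disc (h.conv i) (h.c_int i) hai hbi hm hs
    obtain ⟨e, he1, he2⟩ := (e1.and hev).exists
    exact hc.1 (h.eq_of_int he1 he2).symm
  · have e1 := half_disc (h.conv j) (h.c_int j) haj hbj hm hs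
    obtain ⟨e, he1, he2⟩ := (e1.and hev).exists
    exact hc.2 (h.eq_of_int he1 he2).symm

end CT

end Pool.Agent.Helper89.Dual
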