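import Pool.Agent.Helper89.Dual.Edge
set_option autoImplicit false

/-!
Connectivity of a tiling by convex tiles.
-/

namespace Pool.Agent.Helper89.Dual

open Complex Set Metric Filter Topology

variable {ι : Type} {A : ι → Set ℂ} {c : ι → ℂ} {u U : ℝ}

/-- the adjacency graph of the tiling -/
def gr (A : ι → Set ℂ) : SimpleGraph ι where
  Adj := Adj A
  symm := ⟨fun _ _ h => h.symm⟩
  loopless := ⟨fun _ h => h.1 rfl⟩

/-- a connected set of tiles -/
def Cn (A : ι → Set ℂ) (W : Set ι) : Prop :=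
  ∀ i ∈ W, ∀ j ∈ W, ∃ p : (gr A).Walk i j, ∀ x ∈ p.support, x ∈ W

theorem avoid {V : Set ℂ} (hV : V.Countable) {a b : ℂ} (ha : a ∉ V) (hab : a ≠ b) {O : Set ℂ}
    (hO : IsOpen O) (hb : b ∈ O) : ∃ b' ∈ O, ∀ v ∈ V, v ∉ segment ℝ a b' := by
  set D := b - a with hD
  have hD0 : D ≠ 0 := sub_ne_zero.2 hab.symm
  set w := Complex.I * D with hw
  have hDw : cr D w ≠ 0 := by
    have : cr D w = dt D D := by simp [hw, cr, dt]
    rw [this]; exact (dt_self_pos hD0).ne'
  set f : ℂ → ℝ := fun v => cr D (v - a) / cr (v - a) w with hf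
  have hcount : (f '' V).Countable := hV.image f
  have hdense : Dense (f '' V)ᶜ := hcount.dense_compl ℝ
  have hopen : IsOpen {s : ℝ | b + (s : ℂ) * w ∈ O} := by
    apply hO.preimage; fun_prop
  have h0 : (0:ℝ) ∈ {s : ℝ | b + (s : ℂ) * w ∈ O} := by simp [hb]
  obtain ⟨s, hs1, hs2⟩ := hdense.inter_open_nonempty _ hopen ⟨0, h0⟩
  refine ⟨b + (s : ℂ) * w, hs1, ?_⟩
  intro v hv hvs
  apply hs2
  refine ⟨v, hv, ?_⟩
  obtain ⟨t, ht0, ht1, hvt⟩ := mem_segment_iff_real.1 hvs
  have hva : v - a = (t : ℂ) * D + ((t * s : ℝ) : ℂ) * w := by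
    rw [hvt, hD]; push_cast; ring
  have ht : t ≠ 0 := by
    rintro rfl
    apply ha
    have : v = a := by rw [hvt]; simp
    rw [← this]; exact hv
  have e1 : cr D (v - a) = t * s * cr D w := by
    rw [hva, cr_add_right, cr_smul_right, cr_smul_right, cr_self]; ring
  have e2 : cr (v - a) w = t * cr D w := by
    rw [hva, cr_add_left, cr_smul_left, cr_smul_left, cr_self]; ring
  show cr D (v - a) / cr (v - a) w = s
  rw [e1, e2]
  field_simp

namespace CT

theorem countable_index (h : CT A c u U) : Countable ι := h.grid_inj.countable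

theorem countable_V (h : CT A c u U) : {z | IsV A z}.Countable := by
  have := h.countable_index
  apply (Set.countable_range (fun p : ι × ι => lp A c p.1 p.2)).mono
  intro z hz
  obtain ⟨i, hi⟩ := h.cover z
  obtain ⟨j, hj, he⟩ := h.exists_lp hi hz
  exact ⟨(i, j), he⟩

theorem finite_V (h : CT A c u U) (z : ℂ) (ρ : ℝ) :
    {v | IsV A v ∧ v ∈ closedBall z ρ}.Finite := by
  have hf := h.finite_meet z ρ
  apply ((hf.prod hf).image (fun p : ι × ι => lp A c p.1 p.2)).subset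
  rintro v ⟨hv, hvz⟩
  obtain ⟨i, hi⟩ := h.cover v
  obtain ⟨j, hj, he⟩ := h.exists_lp hi hv
  refine ⟨(i, j), ⟨⟨v, hi, hvz⟩, ⟨v, ?_, hvz⟩⟩, he⟩
  rw [← he]; exact (h.lp_mem hj).2

theorem not_isV_int (h : CT A c u U) {i : ι} {z : ℂ} (hz : z ∈ interior (A i)) : ¬ IsV A z := by
  rintro ⟨p, q, r, hpq, hqr, hpr, hp, hq, hr⟩
  exact hpq ((h.eq_of_int hz hp).symm.trans (h.eq_of_int hz hq))

theorem meet_int (h : CT A c u U) {i : ι} {S : Set ℂ} (hS : IsOpen S)
    (hi : (A i ∩ S).Nonempty) : (interior (A i) ∩ S).Nonempty := by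
  obtain ⟨x, hx, hxS⟩ := hi
  rw [← h.closure_int i] at hx
  have := mem_closure_iff.1 hx S hS hxS
  rwa [Set.inter_comm]

/-- the tiles meeting an open convex set are connected to each other -/
theorem conn_open (h : CT A c u U) {S : Set ℂ} (hS : IsOpen S) (hSc : Convex ℝ S) :
    Cn A {i | (A i ∩ S).Nonempty} := by
  classical
  intro i hi j hj
  by_cases hij : i = j
  · subst hij
    exact ⟨SimpleGraph.Walk.nil, by intro x hx; simp at hx; rw [hx]; exact hi⟩
  set G : Set ι := {k | ∃ p : (gr A).Walk i k, ∀ x ∈ p.support, (A x ∩ S).Nonempty} with hG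
  obtain ⟨a, hai, haS⟩ := h.meet_int hS hi
  obtain ⟨b, hbj, hbS⟩ := h.meet_int hS hj
  have hab : a ≠ b := by
    rintro rfl
    exact Set.disjoint_left.1 (h.disj i j hij) hai hbj
  obtain ⟨b', ⟨hb1, hb2⟩, hav⟩ := avoid h.countable_V (h.not_isV_int hai) hab
    (isOpen_interior.inter hS) ⟨hbj, hbS⟩
  have hsegS : segment ℝ a b' ⊆ S := hSc.segment_subset haS hb2
  have hiG : i ∈ G := ⟨SimpleGraph.Walk.nil, by intro x hx; simp at hx; rw [hx]; exact hi⟩
  by_contra hcon
  have hjG : j ∉ G := fun hh => hcon hh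
  have hfin := h.finite_meet a (dist b' a)
  set T1 : Set ι := {k | (A k ∩ closedBall a (dist b' a)).Nonempty ∧ k ∈ G} with hT1
  set T2 : Set ι := {k | (A k ∩ closedBall a (dist b' a)).Nonempty ∧ k ∉ G} with hT2
  have hT1f : T1.Finite := hfin.subset (fun k hk => hk.1)
  have hT2f : T2.Finite := hfin.subset (fun k hk => hk.1)
  have hseg : segment ℝ a b' ⊆ closedBall a (dist b' a) := by
    apply (convex_closedBall a _).segment_subset
    · exact mem_closedBall_self dist_nonneg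
    · exact mem_closedBall.2 le_rfl
  have hcov : segment ℝ a b' ⊆ (⋃ k ∈ T1, A k) ∪ (⋃ k ∈ T2, A k) := by
    intro x hx
    obtain ⟨k, hk⟩ := h.cover x
    by_cases hkG : k ∈ G
    · left; simp only [Set.mem_iUnion]; exact ⟨k, ⟨⟨x, hk, hseg hx⟩, hkG⟩, hk⟩
    · right; simp only [Set.mem_iUnion]; exact ⟨k, ⟨⟨x, hk, hseg hx⟩, hkG⟩, hk⟩
  have hpre : IsPreconnected (segment ℝ a b') := (convex_segment a b').isPreconnected
  rw [isPreconnected_closed_iff] at hpre
  obtain ⟨q, hq, hq1, hq2⟩ := hpre _ _ (hT1f.isClosed_biUnion (fun k _ => h.closed k))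
    (hT2f.isClosed_biUnion (fun k _ => h.closed k)) hcov
    ⟨a, left_mem_segment _ _ _, by
      simp only [Set.mem_iUnion]
      exact ⟨i, ⟨⟨a, interior_subset hai, mem_closedBall_self dist_nonneg⟩, hiG⟩,
        interior_subset hai⟩⟩
    ⟨b', right_mem_segment _ _ _, by
      simp only [Set.mem_iUnion]
      exact ⟨j, ⟨⟨b', interior_subset hb1, mem_closedBall.2 le_rfl⟩, hjG⟩, interior_subset hb1⟩⟩
  simp only [Set.mem_iUnion] at hq1 hq2
  obtain ⟨k, hk, hqk⟩ := hq1
  obtain ⟨k', hk', hqk'⟩ := hq2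
  have hkk : k ≠ k' := by rintro rfl; exact hk'.2 hk.2
  have hadj := h.adj_of_not_isV hkk hqk hqk' (fun hv => hav q hv hq)
  obtain ⟨p, hp⟩ := hk.2
  apply hk'.2
  refine ⟨p.append (SimpleGraph.Walk.cons (show (gr A).Adj k k' from hadj)
    SimpleGraph.Walk.nil), ?_⟩
  intro x hx
  rw [SimpleGraph.Walk.mem_support_append_iff] at hx
  rcases hx with hx | hx
  · exact hp x hx
  · simp only [SimpleGraph.Walk.support_cons, SimpleGraph.Walk.support_nil, List.mem_cons,
      List.not_mem_nil, or_false] at hx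
    rcases hx with rfl | rfl
    · exact hp _ p.end_mem_support
    · exact ⟨q, hqk', hsegS hq⟩

theorem frontier_preconn (h : CT A c u U) (i : ι) : IsPreconnected (frontier (A i)) := by
  obtain ⟨e, -, -, he⟩ := exists_homeomorph_image_interior_closure_frontier_eq_unitBall
    (h.conv i) ⟨_, h.c_int i⟩ (h.compact i).isBounded
  have h1 : frontier (A i) = e.symm '' (sphere (0:ℂ) 1) := by
    rw [← he, ← Set.image_comp]
    simp
  rw [h1]
  apply IsPreconnected.image _ _ e.symm.continuous.continuousOn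
  apply isPreconnected_sphere
  rw [Complex.rank_real_complex]
  exact Cardinal.one_lt_two

/-- a property of the edges of a tile which is the same for consecutive edges is constant -/
theorem edges_connected (h : CT A c u U) (i : ι) (P : ι → Prop)
    (hstep : ∀ j k, Adj A i j → Adj A i k → lp A c i j = rp A c i k → (P j ↔ P k)) :
    ∀ j k, Adj A i j → Adj A i k → P j → P k := by
  intro j k hj hk hPj
  by_contra hPk
  have hfin := h.finite_meet (c i) U
  set T1 : Set ι := {k | Adj A i k ∧ P k} with hT1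
  set T2 : Set ι := {k | Adj A i k ∧ ¬ P k} with hT2
  have hsub : ∀ k, Adj A i k → (A k ∩ closedBall (c i) U).Nonempty := fun k hk =>
    ⟨lp A c i k, (h.lp_mem hk).2, h.outer i (h.lp_mem hk).1⟩
  have hT1f : T1.Finite := hfin.subset (fun k hk => hsub k hk.1)
  have hT2f : T2.Finite := hfin.subset (fun k hk => hsub k hk.1)
  have hcov : frontier (A i) ⊆ (⋃ k ∈ T1, A i ∩ A k) ∪ (⋃ k ∈ T2, A i ∩ A k) := by
    intro x hx
    obtain ⟨hxi, l, hli, hxl⟩ := h.frontier_iff.1 hx
    obtain ⟨m, hm, hxm⟩ := h.mem_edge hli.symm hxi hxl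
    by_cases hP : P m
    · left; simp only [Set.mem_iUnion]; exact ⟨m, ⟨hm, hP⟩, hxi, hxm⟩
    · right; simp only [Set.mem_iUnion]; exact ⟨m, ⟨hm, hP⟩, hxi, hxm⟩
  have hpre := h.frontier_preconn i
  rw [isPreconnected_closed_iff] at hpre
  have hfr : ∀ k, Adj A i k → lp A c i k ∈ frontier (A i) := fun k hk =>
    h.frontier_iff.2 ⟨(h.lp_mem hk).1, k, hk.1.symm, (h.lp_mem hk).2⟩
  obtain ⟨q, hq, hq1, hq2⟩ := hpre _ _
    (hT1f.isClosed_biUnion (fun k _ => (h.closed i).inter (h.closed k)))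
    (hT2f.isClosed_biUnion (fun k _ => (h.closed i).inter (h.closed k))) hcov
    ⟨lp A c i j, hfr j hj, by
      simp only [Set.mem_iUnion]
      exact ⟨j, ⟨hj, hPj⟩, h.lp_mem hj⟩⟩
    ⟨lp A c i k, hfr k hk, by
      simp only [Set.mem_iUnion]
      exact ⟨k, ⟨hk, hPk⟩, h.lp_mem hk⟩⟩
  simp only [Set.mem_iUnion] at hq1 hq2
  obtain ⟨m, ⟨hm, hPm⟩, hqi, hqm⟩ := hq1
  obtain ⟨l, ⟨hl, hPl⟩, -, hql⟩ := hq2
  have hml : m ≠ l := by rintro rfl; exact hPl hPm
  have hv : IsV A q := ⟨i, m, l, hm.1, hml, hl.1, hqi, hqm, hql⟩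
  rcases h.end_of_isV hm hqi hqm hv with h1 | h1 <;>
  rcases h.end_of_isV hl hqi hql hv with h2 | h2
  · exact hml (h.lp_inj hm hl (h1.symm.trans h2))
  · exact hPl ((hstep m l hm hl (h1.symm.trans h2)).1 hPm)
  · exact hPl ((hstep l m hl hm (h2.symm.trans h1)).2 hPm)
  · exact hml (h.rp_inj hm hl (h1.symm.trans h2))

end CT

end Pool.Agent.Helper89.Dual
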