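import Mathlib
set_option autoImplicit false

/-!
Normal tilings of the plane (identified with the complex numbers), their vertices, edges and
elements, and duality of tilings.
-/

namespace Pool.Agent.Helper89.Dual

open Set Metric

/-- A normal tiling of the plane: a countable family of closed sets covering the plane, with
pairwise disjoint interiors, such that every tile is a closed topological disk, the intersection
of any two tiles is empty or connected, and, for some `U` and `u` with `0 < u` and `u ≤ U`, every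
tile contains a disk of radius `u` and lies in a disk of radius `U`. -/
structure IsNormalTiling (T : Set (Set ℂ)) : Prop where
  countable : T.Countable
  closed : ∀ t ∈ T, IsClosed t
  cover : ⋃₀ T = univ
  disjoint : ∀ t ∈ T, ∀ s ∈ T, t ≠ s → Disjoint (interior t) (interior s)
  disk : ∀ t ∈ T, Nonempty (t ≃ₜ closedBall (0 : ℂ) 1)
  conn : ∀ t ∈ T, ∀ s ∈ T, t ≠ s → IsPreconnected (t ∩ s)
  bounded : ∃ u U : ℝ, 0 < u ∧ u ≤ U ∧
    ∀ t ∈ T, (∃ a, closedBall a u ⊆ t) ∧ (∃ b, t ⊆ closedBall b U)

/-- A vertex is a point lying in at least three tiles. -/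
def IsVertex (T : Set (Set ℂ)) (z : ℂ) : Prop :=
  ∃ t₁ ∈ T, ∃ t₂ ∈ T, ∃ t₃ ∈ T, t₁ ≠ t₂ ∧ t₁ ≠ t₃ ∧ t₂ ≠ t₃ ∧ z ∈ t₁ ∧ z ∈ t₂ ∧ z ∈ t₃

/-- An edge is one of the closed arcs into which the vertices divide the tile boundaries: the
closure of a connected component of the boundary of a tile with the vertices removed. -/
def IsEdge (T : Set (Set ℂ)) (e : Set ℂ) : Prop :=
  ∃ t ∈ T, ∃ z ∈ frontier t \ {w | IsVertex T w},
    e = closure (connectedComponentIn (frontier t \ {w | IsVertex T w}) z)

/-- The elements of a tiling: its vertices (as one-point sets), edges and tiles. -/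
def Elements (T : Set (Set ℂ)) : Set (Set ℂ) :=
  {e | (∃ z, IsVertex T z ∧ e = {z}) ∨ IsEdge T e ∨ e ∈ T}

/-- Two tilings are dual if there is an inclusion-reversing bijection between their elements. -/
def AreDual (T T' : Set (Set ℂ)) : Prop :=
  ∃ Ψ : Elements T ≃ Elements T', ∀ a b : Elements T,
    ((Ψ a : Set ℂ) ⊆ (Ψ b : Set ℂ) ↔ (b : Set ℂ) ⊆ (a : Set ℂ))

/-- A convex polygon: the convex hull of finitely many points, with nonempty interior. -/
def IsConvexPolygon (t : Set ℂ) : Prop :=
  (∃ F : Finset ℂ, t = convexHull ℝ (F : Set ℂ)) ∧ (interior t).Nonempty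

end Pool.Agent.Helper89.Dual
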