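import Pool.Agent.Helper89.Dual.Basic
set_option autoImplicit false

/-!
Edges and vertices of a tiling by convex tiles.
-/

namespace Pool.Agent.Helper89.Dual

open Complex Set Metric Filter Topology

variable {ι : Type} {A : ι → Set ℂ} {c : ι → ℂ} {u U : ℝ}

/-- `p` lists the endpoints of the common edge of `i` and `j`, positively oriented for `i` -/
def EdgeP (A : ι → Set ℂ) (c : ι → ℂ) (i j : ι) (p : ℂ × ℂ) : Prop :=
  A i ∩ A j = segment ℝ p.1 p.2 ∧ 0 < cr (p.1 - p.2) (c i - p.2)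

noncomputable def ep (A : ι → Set ℂ) (c : ι → ℂ) (i j : ι) : ℂ × ℂ :=
  Classical.epsilon (EdgeP A c i j)

/-- left end point of the edge between `i` and `j`, seen from `i` -/
noncomputable def lp (A : ι → Set ℂ) (c : ι → ℂ) (i j : ι) : ℂ := (ep A c i j).1
/-- right end point of the edge between `i` and `j`, seen from `i` -/
noncomputable def rp (A : ι → Set ℂ) (c : ι → ℂ) (i j : ι) : ℂ := (ep A c i j).2

theorem preconn_frontier {X : Type} [TopologicalSpace X] {t s : Set X} (ht : IsPreconnected t)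
    (h1 : (t ∩ s).Nonempty) (h2 : (t ∩ sᶜ).Nonempty) : (t ∩ frontier s).Nonempty := by
  by_contra hc
  rw [Set.not_nonempty_iff_eq_empty] at hc
  have hcov : t ⊆ interior s ∪ (closure s)ᶜ := by
    intro x hx
    by_contra hx2
    rw [Set.mem_union, not_or, Set.mem_compl_iff, not_not] at hx2
    have : x ∈ t ∩ frontier s := ⟨hx, hx2.2, hx2.1⟩
    rw [hc] at this
    exact this
  obtain ⟨x, hxt, hxs⟩ := h1
  obtain ⟨y, hyt, hys⟩ := h2
  have hx : x ∈ interior s := by
    rcases hcov hxt with h | h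
    · exact h
    · exact absurd (subset_closure hxs) h
  have hy : y ∈ (closure s)ᶜ := by
    rcases hcov hyt with h | h
    · exact absurd (interior_subset h) hys
    · exact h
  obtain ⟨z, hz, hz1, hz2⟩ := ht _ _ isOpen_interior isClosed_closure.isOpen_compl hcov
    ⟨x, hxt, hx⟩ ⟨y, hyt, hy⟩
  exact hz2 (subset_closure (interior_subset hz1))

namespace CT

theorem line_of_mem (h : CT A c u U) {i j : ι} (hij : i ≠ j) {a b : ℂ} (hab : a ≠ b)
    (hai : a ∈ A i) (haj : a ∈ A j) (hbi : b ∈ A i) (hbj : b ∈ A j) {x : ℂ}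
    (hxi : x ∈ A i) (hxj : x ∈ A j) : ∃ t : ℝ, x = a + (t : ℂ) * (b - a) := by
  have h1 := (h.side hij hab hai haj hbi hbj).2 x hxi
  have h2 := (h.side hij.symm hab haj hai hbj hbi).2 x hxj
  have h3 := h.opp hij hab hai haj hbi hbj
  have h4 : cr (b - a) (x - a) = 0 := by
    by_contra hne
    have h5 : 0 < cr (b - a) (x - a) ^ 2 := by positivity
    have h6 := mul_nonneg h1 h2
    nlinarith
  have hba : b - a ≠ 0 := sub_ne_zero.2 hab.symm
  refine ⟨dt (b - a) (x - a) / Complex.normSq (b - a), ?_⟩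
  have h5 := ortho_decomp hba (x - a)
  rw [h4] at h5
  simp only [zero_div, Complex.ofReal_zero, zero_mul, add_zero] at h5
  rw [← h5]; ring

theorem edge_exists (h : CT A c u U) {i j : ι} (hadj : Adj A i j) : ∃ p, EdgeP A c i j p := by
  obtain ⟨hij, a, b, hab, hai, haj, hbi, hbj⟩ := hadj
  have hba : b - a ≠ 0 := sub_ne_zero.2 hab.symm
  have hN : 0 < ‖b - a‖ := norm_pos_iff.2 hba
  set φ : ℝ →ᵃ[ℝ] ℂ := AffineMap.lineMap a b with hφ
  have hφa : ∀ t : ℝ, φ t = a + (t : ℂ) * (b - a) := by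
    intro t
    rw [hφ, AffineMap.lineMap_apply, vsub_eq_sub, vadd_eq_add, Complex.real_smul]
    ring
  have hφc : Continuous φ := by
    have : (φ : ℝ → ℂ) = fun t : ℝ => a + (t : ℂ) * (b - a) := funext hφa
    rw [this]; fun_prop
  set T : Set ℝ := φ ⁻¹' (A i ∩ A j) with hT
  have hTcl : IsClosed T := ((h.closed i).inter (h.closed j)).preimage hφc
  have hTconv : Convex ℝ T := ((h.conv i).inter (h.conv j)).affine_preimage φ
  have h0 : (0:ℝ) ∈ T := by
    show φ 0 ∈ A i ∩ A j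
    rw [hφa]; simp [hai, haj]
  have h1 : (1:ℝ) ∈ T := by
    show φ 1 ∈ A i ∩ A j
    rw [hφa]; simp [hbi, hbj]
  have hTb : T ⊆ Icc (-(2 * U / ‖b - a‖)) (2 * U / ‖b - a‖) := by
    intro t ht
    have ht1 : φ t ∈ A i := ht.1
    have d1 := h.outer i ht1
    have d2 := h.outer i hai
    rw [mem_closedBall] at d1 d2
    have d3 : dist (φ t) a ≤ 2 * U := by
      have := dist_triangle (φ t) (c i) a
      rw [dist_comm (c i) a] at this
      linarith
    rw [dist_eq_norm, hφa, add_sub_cancel_left, norm_mul, Complex.norm_real,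
      Real.norm_eq_abs] at d3
    rw [← le_div_iff₀ hN] at d3
    exact abs_le.1 d3
  have hTcomp : IsCompact T := isCompact_Icc.of_isClosed_subset hTcl hTb
  have hTconn : IsConnected T := ⟨⟨0, h0⟩, hTconv.isPreconnected⟩
  have hTeq := eq_Icc_of_connected_compact hTconn hTcomp
  set lo := sInf T with hlo
  set hi := sSup T with hhi
  have hlo0 : lo ≤ 0 := by rw [hTeq] at h0; exact h0.1
  have hhi1 : 1 ≤ hi := by rw [hTeq] at h1; exact h1.2
  have himg : A i ∩ A j = φ '' T := by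
    ext x
    constructor
    · intro hx
      obtain ⟨t, ht⟩ := h.line_of_mem hij hab hai haj hbi hbj hx.1 hx.2
      refine ⟨t, ?_, ?_⟩
      · show φ t ∈ A i ∩ A j
        rw [hφa, ← ht]; exact hx
      · rw [hφa, ← ht]
    · rintro ⟨t, ht, rfl⟩
      exact ht
  have hseg : A i ∩ A j = segment ℝ (φ lo) (φ hi) := by
    rw [himg, ← image_segment, segment_eq_Icc (by linarith), ← hTeq]
  have hcr := (h.side hij hab hai haj hbi hbj).1
  rcases lt_or_gt_of_ne hcr with hneg | hpos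
  · refine ⟨(φ lo, φ hi), hseg, ?_⟩
    show 0 < cr (φ lo - φ hi) (c i - φ hi)
    have : cr (φ lo - φ hi) (c i - φ hi) = -((hi - lo) * cr (b - a) (c i - a)) := by
      rw [hφa, hφa]; simp [cr]; ring
    rw [this]
    have : 0 < hi - lo := by linarith
    nlinarith
  · refine ⟨(φ hi, φ lo), ?_, ?_⟩
    · show A i ∩ A j = segment ℝ (φ hi) (φ lo)
      rw [segment_symm]; exact hseg
    show 0 < cr (φ hi - φ lo) (c i - φ lo)
    have : cr (φ hi - φ lo) (c i - φ lo) = ((hi - lo) * cr (b - a) (c i - a)) := by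
      rw [hφa, hφa]; simp [cr]; ring
    rw [this]
    have : 0 < hi - lo := by linarith
    positivity

theorem ep_spec (h : CT A c u U) {i j : ι} (hadj : Adj A i j) : EdgeP A c i j (ep A c i j) :=
  Classical.epsilon_spec (h.edge_exists hadj)

theorem seg (h : CT A c u U) {i j : ι} (hadj : Adj A i j) :
    A i ∩ A j = segment ℝ (lp A c i j) (rp A c i j) := (h.ep_spec hadj).1

theorem ori (h : CT A c u U) {i j : ι} (hadj : Adj A i j) :
    0 < cr (lp A c i j - rp A c i j) (c i - rp A c i j) := (h.ep_spec hadj).2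

theorem lp_ne_rp (h : CT A c u U) {i j : ι} (hadj : Adj A i j) : lp A c i j ≠ rp A c i j := by
  intro he
  have := h.ori hadj
  rw [he, sub_self, cr_zero_left] at this
  exact lt_irrefl _ this

theorem lp_mem (h : CT A c u U) {i j : ι} (hadj : Adj A i j) :
    lp A c i j ∈ A i ∧ lp A c i j ∈ A j := by
  have : lp A c i j ∈ A i ∩ A j := by rw [h.seg hadj]; exact left_mem_segment _ _ _
  exact this

theorem rp_mem (h : CT A c u U) {i j : ι} (hadj : Adj A i j) :
    rp A c i j ∈ A i ∧ rp A c i j ∈ A j := by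
  have : rp A c i j ∈ A i ∩ A j := by rw [h.seg hadj]; exact right_mem_segment _ _ _
  exact this

theorem ori' (h : CT A c u U) {i j : ι} (hadj : Adj A i j) :
    cr (lp A c i j - rp A c i j) (c j - rp A c i j) < 0 := by
  have h1 := h.ori hadj
  have h2 := h.opp hadj.1 (h.lp_ne_rp hadj).symm (h.rp_mem hadj).1 (h.rp_mem hadj).2
    (h.lp_mem hadj).1 (h.lp_mem hadj).2
  by_contra hc
  push Not at hc
  nlinarith

theorem side_l (h : CT A c u U) {i j : ι} (hadj : Adj A i j) {x : ℂ} (hx : x ∈ A i) :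
    0 ≤ cr (lp A c i j - rp A c i j) (x - rp A c i j) := by
  have h1 := h.ori hadj
  have h2 := (h.side hadj.1 (h.lp_ne_rp hadj).symm (h.rp_mem hadj).1 (h.rp_mem hadj).2
    (h.lp_mem hadj).1 (h.lp_mem hadj).2).2 x hx
  exact nonneg_of_mul_nonneg_left h2 h1

theorem side_r (h : CT A c u U) {i j : ι} (hadj : Adj A i j) {x : ℂ} (hx : x ∈ A j) :
    cr (lp A c i j - rp A c i j) (x - rp A c i j) ≤ 0 := by
  have h1 := h.ori' hadj
  have h2 := (h.side hadj.1.symm (h.lp_ne_rp hadj).symm (h.rp_mem hadj).2 (h.rp_mem hadj).1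
    (h.lp_mem hadj).2 (h.lp_mem hadj).1).2 x hx
  by_contra hc
  push Not at hc
  nlinarith

theorem isV_of_end (h : CT A c u U) {i j : ι} (hij : i ≠ j) {x y : ℂ} (hxy : x ≠ y)
    (hs : A i ∩ A j = segment ℝ x y) : IsV A x := by
  have hx : x ∈ A i ∩ A j := by rw [hs]; exact left_mem_segment _ _ _
  by_contra hv
  obtain ⟨d, hd, h1, h2, h3, h4⟩ := h.two_local hij hx.1 hx.2 hv
  have a1 : x + d ∈ segment ℝ x y := by rw [← hs]; exact ⟨h1, h2⟩
  have a2 : x - d ∈ segment ℝ x y := by rw [← hs]; exact ⟨h3, h4⟩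
  rw [mem_segment_iff_real] at a1 a2
  obtain ⟨s, hs0, hs1, e1⟩ := a1
  obtain ⟨t, ht0, ht1, e2⟩ := a2
  have e3 : ((s + t : ℝ) : ℂ) * (y - x) = 0 := by
    push_cast
    linear_combination -e1 - e2
  have hyx : y - x ≠ 0 := sub_ne_zero.2 hxy.symm
  have e4 : (s + t : ℝ) = 0 := by
    rcases mul_eq_zero.1 e3 with h5 | h5
    · exact_mod_cast h5
    · exact absurd h5 hyx
  have e5 : s = 0 := by linarith
  apply hd
  rw [e5] at e1
  simpa using e1

theorem isV_lp (h : CT A c u U) {i j : ι} (hadj : Adj A i j) : IsV A (lp A c i j) :=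
  h.isV_of_end hadj.1 (h.lp_ne_rp hadj) (h.seg hadj)

theorem isV_rp (h : CT A c u U) {i j : ι} (hadj : Adj A i j) : IsV A (rp A c i j) :=
  h.isV_of_end hadj.1 (h.lp_ne_rp hadj).symm (by rw [segment_symm]; exact h.seg hadj)

theorem not_isV_open (h : CT A c u U) {i j : ι} (hij : i ≠ j) {a b m : ℂ} (hab : a ≠ b)
    (hai : a ∈ A i) (haj : a ∈ A j) (hbi : b ∈ A i) (hbj : b ∈ A j)
    (hm : m ∈ openSegment ℝ a b) : ¬ IsV A m := by
  rintro ⟨p, q, r, hpq, hqr, hpr, hp, hq, hr⟩
  rcases h.not_third hij hab hai haj hbi hbj hm hp with rfl | rfl <;>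
  rcases h.not_third hij hab hai haj hbi hbj hm hq with rfl | rfl <;>
  rcases h.not_third hij hab hai haj hbi hbj hm hr with rfl | rfl <;> simp_all

/-- a vertex on an edge is an end point -/
theorem end_of_isV (h : CT A c u U) {i j : ι} (hadj : Adj A i j) {z : ℂ} (hi : z ∈ A i)
    (hj : z ∈ A j) (hz : IsV A z) : z = lp A c i j ∨ z = rp A c i j := by
  by_contra hc
  push Not at hc
  have h1 : z ∈ segment ℝ (lp A c i j) (rp A c i j) := by rw [← h.seg hadj]; exact ⟨hi, hj⟩
  have h2 := mem_openSegment_of_ne_left_right hc.1.symm hc.2.symm h1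
  exact h.not_isV_open hadj.1 (h.lp_ne_rp hadj) (h.lp_mem hadj).1 (h.lp_mem hadj).2
    (h.rp_mem hadj).1 (h.rp_mem hadj).2 h2 hz

theorem ep_swap (h : CT A c u U) {i j : ι} (hadj : Adj A i j) :
    lp A c j i = rp A c i j ∧ rp A c j i = lp A c i j := by
  have hx := h.end_of_isV hadj (h.lp_mem hadj.symm).2 (h.lp_mem hadj.symm).1 (h.isV_lp hadj.symm)
  have hy := h.end_of_isV hadj (h.rp_mem hadj.symm).2 (h.rp_mem hadj.symm).1 (h.isV_rp hadj.symm)
  have hne := h.lp_ne_rp hadj.symm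
  rcases hx with hx | hx <;> rcases hy with hy | hy
  · exact absurd (hx.trans hy.symm) hne
  · exfalso
    have h1 := h.ori hadj.symm
    have h2 := h.ori' hadj
    rw [hx, hy] at h1
    linarith
  · exact ⟨hx, hy⟩
  · exact absurd (hx.trans hy.symm) hne

theorem lp_swap (h : CT A c u U) {i j : ι} (hadj : Adj A i j) : lp A c j i = rp A c i j :=
  (h.ep_swap hadj).1

theorem rp_swap (h : CT A c u U) {i j : ι} (hadj : Adj A i j) : rp A c j i = lp A c i j :=
  (h.ep_swap hadj).2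

/-- a convex combination pushing towards an interior point -/
theorem inward {K : Set ℂ} (hK : Convex ℝ K) {x v b : ℂ} (hx : x ∈ interior K) (hv : v ∈ K)
    (hb : b ∈ K) {al be : ℝ} (hal : 0 < al) (hbe : 0 < be) :
    ∃ s : ℝ, 0 < s ∧ s ≤ 1 ∧
      v + (s : ℂ) * ((al : ℂ) * (b - v) + (be : ℂ) * (x - v)) ∈ interior K := by
  set s : ℝ := 1 / (1 + al + be) with hs
  have hpos : 0 < 1 + al + be := by positivity
  have hs0 : 0 < s := by positivity
  have hs1 : s * (1 + al + be) = 1 := by rw [hs]; field_simp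
  have h1 : s * be < 1 := by nlinarith
  have h2 : 0 < 1 - s * be := by linarith
  refine ⟨s, hs0, ?_, ?_⟩
  · nlinarith
  have hw : v + ((s * al / (1 - s * be) : ℝ) : ℂ) * (b - v) ∈ K := by
    apply hK.segment_subset hv hb
    rw [mem_segment_iff_real]
    refine ⟨_, by positivity, ?_, rfl⟩
    rw [div_le_one h2]
    nlinarith
  have := hK.combo_interior_self_mem_interior hx hw (mul_pos hs0 hbe) h2.le (by ring)
  convert this using 1
  rw [Complex.real_smul, Complex.real_smul]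
  have h5 : ((1 - s * be : ℝ) : ℂ) * ((s * al / (1 - s * be) : ℝ) : ℂ) = ((s * al : ℝ) : ℂ) := by
    rw [← Complex.ofReal_mul]
    congr 1
    field_simp
  have h6 : ((1 - s * be : ℝ) : ℂ) * (v + ((s * al / (1 - s * be) : ℝ) : ℂ) * (b - v))
      = ((1 - s * be : ℝ) : ℂ) * v + ((s * al : ℝ) : ℂ) * (b - v) := by
    rw [← h5]; ring
  rw [h6]
  push_cast
  ring

/-- at a point of a tile there is at most one edge on either side -/
theorem uniq_side (h : CT A c u U) {i j k : ι} (hij : i ≠ j) (hik : i ≠ k) {v b b' : ℂ}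
    (hvi : v ∈ A i) (hvj : v ∈ A j) (hvk : v ∈ A k) (hbi : b ∈ A i) (hbj : b ∈ A j)
    (hbi' : b' ∈ A i) (hbk : b' ∈ A k)
    (hs : 0 < cr (v - c i) (b - v) * cr (v - c i) (b' - v)) : j = k := by
  by_contra hjk
  set e0 := v - c i with he0
  set d := b - v with hd
  set d' := b' - v with hd'
  have hp : cr e0 d ≠ 0 := by intro h0; rw [h0] at hs; simp at hs
  have hp' : cr e0 d' ≠ 0 := by intro h0; rw [h0] at hs; simp at hs
  have hdne : d ≠ 0 := by intro h0; rw [h0, cr_zero_right] at hp; exact hp rfl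
  have hal : 0 < cr e0 d' / cr e0 d := by
    have : cr e0 d' / cr e0 d = (cr e0 d * cr e0 d') / cr e0 d ^ 2 := by field_simp
    rw [this]; exact div_pos hs (by positivity)
  by_cases hz : cr d d' = 0
  · -- parallel
    have hal' : d' = ((cr e0 d' / cr e0 d : ℝ) : ℂ) * d := by
      have hq : cr d e0 ≠ 0 := by rw [cr_comm]; exact neg_ne_zero.2 hp
      have := cramer hq d'
      rw [hz] at this
      simp only [zero_div, Complex.ofReal_zero, zero_mul, add_zero] at this
      conv_lhs => rw [this]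
      congr 2
      rw [cr_comm d' e0, cr_comm d e0, neg_div_neg_eq]
    set al := cr e0 d' / cr e0 d with hal_def
    have hbv : b ≠ v := sub_ne_zero.1 hdne
    set s : ℝ := min 1 al / 2 with hsdef
    have hs0 : 0 < s := by rw [hsdef]; have := lt_min one_pos hal; positivity
    have hs1 : s < 1 := by rw [hsdef]; have := min_le_left 1 al; linarith
    have hs2 : s < al := by
      rw [hsdef]; have := min_le_right 1 al; linarith
    have hm : v + (s : ℂ) * (b - v) ∈ openSegment ℝ v b :=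
      mem_openSegment_iff_real.2 ⟨s, hs0, hs1, rfl⟩
    have hmk : v + (s : ℂ) * (b - v) ∈ A k := by
      apply (h.conv k).segment_subset hvk hbk
      rw [mem_segment_iff_real]
      refine ⟨s / al, by positivity, ?_, ?_⟩
      · rw [div_le_one hal]; exact hs2.le
      · have : b' - v = (al : ℂ) * (b - v) := hal'
        rw [this]
        have h3 : (al : ℂ) ≠ 0 := by exact_mod_cast hal.ne'
        push_cast
        field_simp
    rcases h.not_third hij hbv.symm hvi hvj hbi hbj hm hmk with h1 | h1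
    · exact hik h1.symm
    · exact hjk h1.symm
  · -- one direction is inward
    have key : ∀ (j k : ι) (b b' : ℂ), i ≠ j → i ≠ k → v ∈ A j → v ∈ A k → b ∈ A i → b ∈ A j →
        b' ∈ A i → b' ∈ A k → cr e0 (b - v) ≠ 0 →
        0 < cr e0 (b' - v) / cr e0 (b - v) →
        0 < cr (b - v) (b' - v) / cr e0 (b - v) → False := by
      intro j k b b' hij hik hvj hvk hbi hbj hbi' hbk hne hal hbe
      have hq : cr (b - v) e0 ≠ 0 := by rw [cr_comm]; exact neg_ne_zero.2 hne
      have hdec := cramer hq (b' - v)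
      have e1 : cr (b' - v) e0 / cr (b - v) e0 = cr e0 (b' - v) / cr e0 (b - v) := by
        rw [cr_comm (b' - v) e0, cr_comm (b - v) e0, neg_div_neg_eq]
      have e2 : cr (b - v) (b' - v) / cr (b - v) e0
          = -(cr (b - v) (b' - v) / cr e0 (b - v)) := by
        rw [cr_comm (b - v) e0, div_neg]
      rw [e1, e2] at hdec
      obtain ⟨s, hs0, hs1, hmem⟩ := inward (h.conv i) (h.c_int i) hvi hbi hal hbe
      have e3 : v + (s : ℂ) * (((cr e0 (b' - v) / cr e0 (b - v) : ℝ) : ℂ) * (b - v)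
          + ((cr (b - v) (b' - v) / cr e0 (b - v) : ℝ) : ℂ) * (c i - v))
          = v + (s : ℂ) * (b' - v) := by
        conv_rhs => rw [hdec]
        rw [he0]
        push_cast
        ring
      rw [e3] at hmem
      have hk : v + (s : ℂ) * (b' - v) ∈ A k := by
        apply (h.conv k).segment_subset hvk hbk
        rw [mem_segment_iff_real]
        exact ⟨s, hs0.le, hs1, rfl⟩
      exact hik (h.eq_of_int hmem hk)
    have hprod : 0 < cr e0 d * cr e0 d' := hs
    rcases lt_or_gt_of_ne (div_ne_zero hz hp) with hneg | hpos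
    · apply key k j b' b hik hij hvk hvj hbi' hbk hbi hbj hp'
      · have : cr e0 (b - v) / cr e0 (b' - v) = (cr e0 d' / cr e0 d)⁻¹ := by rw [inv_div]
        rw [this]; positivity
      · have : cr (b' - v) (b - v) / cr e0 (b' - v)
            = -(cr d d' / cr e0 d) * (cr e0 d' / cr e0 d)⁻¹ := by
          rw [cr_comm (b' - v) (b - v), inv_div]
          show -cr d d' / cr e0 d' = _
          field_simp
        rw [this]
        apply mul_pos (by linarith) (by positivity)
    · exact key j k b b' hij hik hvj hvk hbi hbj hbi' hbk hp hal hpos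

theorem cr_left_of_rp {c' x y : ℂ} (h : 0 < cr (x - y) (c' - y)) :
    0 < cr (y - c') (x - y) := by
  have : cr (y - c') (x - y) = cr (x - y) (c' - y) := by simp [cr]; ring
  rw [this]; exact h

theorem cr_right_of_lp {c' x y : ℂ} (h : 0 < cr (x - y) (c' - y)) :
    cr (x - c') (y - x) < 0 := by
  have : cr (x - c') (y - x) = - cr (x - y) (c' - y) := by simp [cr]; ring
  rw [this]; linarith

theorem rp_inj (h : CT A c u U) {i j k : ι} (hj : Adj A i j) (hk : Adj A i k)
    (he : rp A c i j = rp A c i k) : j = k := by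
  apply h.uniq_side (i := i) (v := rp A c i j) (b := lp A c i j) (b' := lp A c i k) hj.1 hk.1
    (h.rp_mem hj).1 (h.rp_mem hj).2 (by rw [he]; exact (h.rp_mem hk).2)
    (h.lp_mem hj).1 (h.lp_mem hj).2 (h.lp_mem hk).1 (h.lp_mem hk).2
  have h1 := cr_left_of_rp (h.ori hj)
  have h2 := cr_left_of_rp (h.ori hk)
  rw [← he] at h2
  positivity

theorem lp_inj (h : CT A c u U) {i j k : ι} (hj : Adj A i j) (hk : Adj A i k)
    (he : lp A c i j = lp A c i k) : j = k := by
  apply h.uniq_side (i := i) (v := lp A c i j) (b := rp A c i j) (b' := rp A c i k) hj.1 hk.1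
    (h.lp_mem hj).1 (h.lp_mem hj).2 (by rw [he]; exact (h.lp_mem hk).2)
    (h.rp_mem hj).1 (h.rp_mem hj).2 (h.rp_mem hk).1 (h.rp_mem hk).2
  have h1 := cr_right_of_lp (h.ori hj)
  have h2 := cr_right_of_lp (h.ori hk)
  rw [← he] at h2
  exact mul_pos_of_neg_of_neg h1 h2

/-- close to a frontier point there are frontier points on either side -/
theorem exists_side (h : CT A c u U) {i : ι} {v : ℂ} (hvi : v ∈ A i) (hv : v ∉ interior (A i))
    (σ : ℝ) (hσ : σ ≠ 0) :
    ∃ j, i ≠ j ∧ v ∈ A j ∧ ∃ b, b ∈ A i ∧ b ∈ A j ∧ 0 < σ * cr (v - c i) (b - v) := by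
  obtain ⟨δ, hδ, hloc⟩ := h.local_ball v
  obtain ⟨n, hn0, hn1, hn2⟩ := support_dt (h.conv i) ⟨_, h.c_int i⟩ hv
  set e0 := v - c i with he0
  have he0n : 0 < dt n e0 := by
    rw [he0, dt_sub_right]; have := hn2 _ (h.c_int i); linarith
  have he00 : e0 ≠ 0 := by
    intro h0; rw [h0] at he0n; simp [dt] at he0n
  obtain ⟨g, hg⟩ : ∃ g : ℂ, g = (σ : ℂ) * (Complex.I * e0) := ⟨_, rfl⟩
  have hgcr : 0 < σ * cr e0 g := by
    rw [hg, cr_smul_right]
    have h3 : cr e0 (Complex.I * e0) = dt e0 e0 := by simp [cr, dt]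
    rw [h3]
    have := dt_self_pos he00
    have h4 : 0 < σ * σ := mul_self_pos.2 hσ
    nlinarith
  obtain ⟨K, hK⟩ : ∃ K : ℝ, K = (|dt n g| + 1) / dt n e0 := ⟨_, rfl⟩
  obtain ⟨w, hw⟩ : ∃ w : ℂ, w = g + (K : ℂ) * e0 := ⟨_, rfl⟩
  have hwn : 0 < dt n w := by
    rw [hw, dt_add_right, dt_smul_right, hK, div_mul_cancel₀ _ he0n.ne']
    have := neg_abs_le (dt n g)
    linarith
  have hwcr : 0 < σ * cr e0 w := by
    rw [hw, cr_add_right, cr_smul_right, cr_self, mul_zero, add_zero]; exact hgcr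
  -- outer point
  have hout : ∃ s : ℝ, 0 < s ∧ v + (s : ℂ) * w ∈ ball v δ := by
    have ht : Tendsto (fun e : ℝ => v + (e : ℂ) * w) (𝓝[>] 0) (𝓝 v) := by
      have : Tendsto (fun e : ℝ => v + (e : ℂ) * w) (𝓝 0) (𝓝 (v + ((0:ℝ) : ℂ) * w)) := by
        apply Continuous.tendsto; fun_prop
      simp only [Complex.ofReal_zero, zero_mul, add_zero] at this
      exact this.mono_left nhdsWithin_le_nhds
    obtain ⟨s, hs1, hs2⟩ := ((ht.eventually (ball_mem_nhds v hδ)).and self_mem_nhdsWithin).exists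
    exact ⟨s, hs2, hs1⟩
  obtain ⟨s, hs0, hsb⟩ := hout
  have hsA : v + (s : ℂ) * w ∉ A i := by
    intro hh
    have := hn1 _ hh
    rw [dt_add_right, dt_smul_right] at this
    have := mul_pos hs0 hwn
    linarith
  -- inner point
  have hin1 : ∃ t : ℝ, 0 < t ∧ v - (t : ℂ) * e0 ∈ ball v δ ∧ v - (t : ℂ) * e0 ∈ interior (A i) := by
    have ht : Tendsto (fun e : ℝ => v - (e : ℂ) * e0) (𝓝[>] 0) (𝓝 v) := by
      have : Tendsto (fun e : ℝ => v - (e : ℂ) * e0) (𝓝 0) (𝓝 (v - ((0:ℝ) : ℂ) * e0)) := by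
        apply Continuous.tendsto; fun_prop
      simp only [Complex.ofReal_zero, zero_mul, sub_zero] at this
      exact this.mono_left nhdsWithin_le_nhds
    have hpos : ∀ᶠ t : ℝ in 𝓝[>] (0:ℝ), 0 < t := self_mem_nhdsWithin
    have hlt : ∀ᶠ t : ℝ in 𝓝[>] (0:ℝ), t < 1 :=
      nhdsWithin_le_nhds (gt_mem_nhds (show (0:ℝ) < 1 by norm_num))
    obtain ⟨t, ht1, ht2, ht3⟩ := ((ht.eventually (ball_mem_nhds v hδ)).and
      (hpos.and hlt)).exists
    refine ⟨t, ht2, ht1, ?_⟩
    have ht2' : 0 < t := ht2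
    have ht3' : t < 1 := ht3
    have := (h.conv i).combo_interior_self_mem_interior (h.c_int i) hvi ht2'
      (show (0:ℝ) ≤ 1 - t by linarith) (by ring)
    convert this using 1
    rw [Complex.real_smul, Complex.real_smul, he0]
    push_cast
    ring
  obtain ⟨t, ht0, htb, hti⟩ := hin1
  have hin2 : ∃ r : ℝ, 0 < r ∧ v - (t : ℂ) * e0 + (r : ℂ) * g ∈ ball v δ ∧
      v - (t : ℂ) * e0 + (r : ℂ) * g ∈ interior (A i) := by
    have ht : Tendsto (fun e : ℝ => v - (t : ℂ) * e0 + (e : ℂ) * g) (𝓝[>] 0)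
        (𝓝 (v - (t : ℂ) * e0)) := by
      have : Tendsto (fun e : ℝ => v - (t : ℂ) * e0 + (e : ℂ) * g) (𝓝 0)
          (𝓝 (v - (t : ℂ) * e0 + ((0:ℝ) : ℂ) * g)) := by
        apply Continuous.tendsto; fun_prop
      simp only [Complex.ofReal_zero, zero_mul, add_zero] at this
      exact this.mono_left nhdsWithin_le_nhds
    obtain ⟨r, hr1, hr2, hr3⟩ := ((ht.eventually (isOpen_ball.mem_nhds htb)).and
      ((ht.eventually (isOpen_interior.mem_nhds hti)).and self_mem_nhdsWithin)).exists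
    exact ⟨r, hr3, hr1, hr2⟩
  obtain ⟨r, hr0, hrb, hri⟩ := hin2
  set w1 := v - (t : ℂ) * e0 + (r : ℂ) * g with hw1
  set w2 := v + (s : ℂ) * w with hw2
  have hc1 : 0 < σ * cr e0 (w1 - v) := by
    have : w1 - v = (r : ℂ) * g + ((-t : ℝ) : ℂ) * e0 := by rw [hw1]; push_cast; ring
    rw [this, cr_add_right, cr_smul_right, cr_smul_right, cr_self]
    have := mul_pos hr0 hgcr
    linarith
  have hc2 : 0 < σ * cr e0 (w2 - v) := by
    have : w2 - v = (s : ℂ) * w := by rw [hw2]; ring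
    rw [this, cr_smul_right]
    have := mul_pos hs0 hwcr
    linarith
  have hpre : IsPreconnected (segment ℝ w1 w2) := (convex_segment w1 w2).isPreconnected
  obtain ⟨b, hb1, hb2⟩ := preconn_frontier hpre (s := A i)
    ⟨w1, left_mem_segment _ _ _, interior_subset hri⟩ ⟨w2, right_mem_segment _ _ _, hsA⟩
  have hbb : b ∈ ball v δ := (convex_ball v δ).segment_subset hrb hsb hb1
  obtain ⟨hbi, j, hji, hbj⟩ := h.frontier_iff.1 hb2
  refine ⟨j, hji.symm, hloc j ⟨b, hbj, hbb⟩, b, hbi, hbj, ?_⟩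
  obtain ⟨q, hq0, hq1, rfl⟩ := mem_segment_iff_real.1 hb1
  have : w1 + (q : ℂ) * (w2 - w1) - v = ((1 - q : ℝ) : ℂ) * (w1 - v) + (q : ℂ) * (w2 - v) := by
    push_cast; ring
  rw [this, cr_add_right, cr_smul_right, cr_smul_right]
  rcases hq0.lt_or_eq with hq | hq
  · have a1 := mul_pos hq hc2
    have a2 := mul_nonneg (show 0 ≤ 1 - q by linarith) hc1.le
    linarith
  · rw [← hq]; linarith

/-- a vertex of a tile is the right end point of one of its edges -/
theorem exists_rp (h : CT A c u U) {i : ι} {v : ℂ} (hvi : v ∈ A i) (hv : IsV A v) :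
    ∃ j, Adj A i j ∧ rp A c i j = v := by
  have hvint : v ∉ interior (A i) := by
    intro hh
    obtain ⟨p, q, r, hpq, hqr, hpr, hp, hq, hr⟩ := hv
    have e1 := h.eq_of_int hh hp
    have e2 := h.eq_of_int hh hq
    exact hpq (e1.symm.trans e2)
  obtain ⟨j, hij, hvj, b, hbi, hbj, hcr⟩ := h.exists_side hvi hvint 1 one_ne_zero
  rw [one_mul] at hcr
  have hbv : b ≠ v := by
    rintro rfl; rw [sub_self, cr_zero_right] at hcr; exact lt_irrefl _ hcr
  have hadj : Adj A i j := ⟨hij, b, v, hbv, hbi, hbj, hvi, hvj⟩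
  refine ⟨j, hadj, ?_⟩
  rcases h.end_of_isV hadj hvi hvj hv with he | he
  · exfalso
    have hb : b ∈ segment ℝ (lp A c i j) (rp A c i j) := by rw [← h.seg hadj]; exact ⟨hbi, hbj⟩
    obtain ⟨s, hs0, hs1, hb'⟩ := mem_segment_iff_real.1 hb
    have h1 := cr_right_of_lp (h.ori hadj)
    rw [← he] at h1 hb'
    have h2 : b - v = (s : ℂ) * (rp A c i j - v) := by rw [hb']; ring
    rw [h2, cr_smul_right] at hcr
    nlinarith
  · exact he.symm

/-- a vertex of a tile is the left end point of one of its edges -/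
theorem exists_lp (h : CT A c u U) {i : ι} {v : ℂ} (hvi : v ∈ A i) (hv : IsV A v) :
    ∃ j, Adj A i j ∧ lp A c i j = v := by
  have hvint : v ∉ interior (A i) := by
    intro hh
    obtain ⟨p, q, r, hpq, hqr, hpr, hp, hq, hr⟩ := hv
    have e1 := h.eq_of_int hh hp
    have e2 := h.eq_of_int hh hq
    exact hpq (e1.symm.trans e2)
  obtain ⟨j, hij, hvj, b, hbi, hbj, hcr⟩ := h.exists_side hvi hvint (-1) (by norm_num)
  have hbv : b ≠ v := by
    rintro rfl; rw [sub_self, cr_zero_right] at hcr; simp at hcr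
  have hadj : Adj A i j := ⟨hij, b, v, hbv, hbi, hbj, hvi, hvj⟩
  refine ⟨j, hadj, ?_⟩
  rcases h.end_of_isV hadj hvi hvj hv with he | he
  · exact he.symm
  · exfalso
    have hb : b ∈ segment ℝ (lp A c i j) (rp A c i j) := by rw [← h.seg hadj]; exact ⟨hbi, hbj⟩
    rw [segment_symm] at hb
    obtain ⟨s, hs0, hs1, hb'⟩ := mem_segment_iff_real.1 hb
    have h1 := cr_left_of_rp (h.ori hadj)
    rw [← he] at h1 hb'
    have h2 : b - v = (s : ℂ) * (lp A c i j - v) := by rw [hb']; ring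
    rw [h2, cr_smul_right] at hcr
    nlinarith

/-- every frontier point of a tile lies on one of its edges -/
theorem mem_edge (h : CT A c u U) {i k : ι} (hik : i ≠ k) {z : ℂ} (hi : z ∈ A i) (hk : z ∈ A k) :
    ∃ j, Adj A i j ∧ z ∈ A j := by
  by_cases hz : IsV A z
  · obtain ⟨j, hj, he⟩ := h.exists_rp hi hz
    exact ⟨j, hj, he ▸ (h.rp_mem hj).2⟩
  · exact ⟨k, h.adj_of_not_isV hik hi hk hz, hk⟩

/-- every tile has a neighbour -/
theorem exists_adj (h : CT A c u U) (i : ι) : ∃ j, Adj A i j := by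
  have hne : (frontier (A i)).Nonempty := by
    have hpre : IsPreconnected (univ : Set ℂ) := isPreconnected_univ
    have hout : ∃ x : ℂ, x ∉ A i := by
      refine ⟨c i + ((U + 1 : ℝ) : ℂ), fun hh => ?_⟩
      have := h.outer i hh
      rw [mem_closedBall, dist_eq_norm, add_sub_cancel_left, Complex.norm_real,
        Real.norm_eq_abs, abs_of_pos (by have := h.U_nonneg; linarith)] at this
      linarith
    obtain ⟨x, hx⟩ := hout
    obtain ⟨b, -, hb⟩ := preconn_frontier hpre (s := A i)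
      ⟨c i, mem_univ _, h.c_mem i⟩ ⟨x, mem_univ _, hx⟩
    exact ⟨b, hb⟩
  obtain ⟨b, hb⟩ := hne
  obtain ⟨hbi, k, hki, hbk⟩ := h.frontier_iff.1 hb
  obtain ⟨j, hj, -⟩ := h.mem_edge hki.symm hbi hbk
  exact ⟨j, hj⟩

/-- every tile has three vertices -/
theorem three_vertices (h : CT A c u U) (i : ι) :
    ∃ x y z, x ≠ y ∧ y ≠ z ∧ x ≠ z ∧ IsV A x ∧ IsV A y ∧ IsV A z ∧ x ∈ A i ∧ y ∈ A i ∧ z ∈ A i := by
  obtain ⟨j, hj⟩ := h.exists_adj i
  obtain ⟨k, hk, hke⟩ := h.exists_rp (h.lp_mem hj).1 (h.isV_lp hj)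
  refine ⟨rp A c i j, lp A c i j, lp A c i k, (h.lp_ne_rp hj).symm, ?_, ?_, h.isV_rp hj,
    h.isV_lp hj, h.isV_lp hk, (h.rp_mem hj).1, (h.lp_mem hj).1, (h.lp_mem hk).1⟩
  · rw [← hke]; exact (h.lp_ne_rp hk).symm
  · intro he
    have h1 := h.ori hj
    have h2 := h.ori hk
    rw [hke, ← he] at h2
    have : cr (rp A c i j - lp A c i j) (c i - lp A c i j)
        = - cr (lp A c i j - rp A c i j) (c i - rp A c i j) := by
      simp [cr]; ring
    linarith

end CT

end Pool.Agent.Helper89.Dual
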