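import Pool.Agent.Helper89.Dual.Face4
import Pool.Agent.Helper89.Dual.Defs
set_option autoImplicit false

/-!
Elements of tilings by convex tiles, and the duality between a tiling and its dual faces.
-/

namespace Pool.Agent.Helper89.Dual

open Complex Set Metric Filter Topology

variable {ι : Type} {A : ι → Set ℂ} {c : ι → ℂ} {u U : ℝ}

namespace CT

theorem A_inj (h : CT A c u U) {i j : ι} (he : A i = A j) : i = j :=
  h.eq_of_int (h.c_int i) (by rw [← he]; exact h.c_mem i)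

theorem sub_eq (h : CT A c u U) {i j : ι} (he : A i ⊆ A j) : i = j :=
  h.eq_of_int (h.c_int i) (he (h.c_mem i))

theorem vertex_iff (h : CT A c u U) {z : ℂ} : IsVertex (range A) z ↔ IsV A z := by
  constructor
  · rintro ⟨_, ⟨i, rfl⟩, _, ⟨j, rfl⟩, _, ⟨k, rfl⟩, h1, h2, h3, h4, h5, h6⟩
    exact ⟨i, j, k, fun e => h1 (by rw [e]), fun e => h3 (by rw [e]), fun e => h2 (by rw [e]),
      h4, h5, h6⟩
  · rintro ⟨i, j, k, hij, hjk, hik, hi, hj, hk⟩
    exact ⟨A i, ⟨i, rfl⟩, A j, ⟨j, rfl⟩, A k, ⟨k, rfl⟩, fun e => hij (h.A_inj e),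
      fun e => hik (h.A_inj e), fun e => hjk (h.A_inj e), hi, hj, hk⟩

theorem comp_eq (h : CT A c u U) {i j : ι} (hadj : Adj A i j) {z : ℂ}
    (hzi : z ∈ A i) (hzj : z ∈ A j) (hz : ¬ IsV A z) :
    closure (connectedComponentIn (frontier (A i) \ {w | IsV A w}) z) = A i ∩ A j := by
  set F := frontier (A i) \ {w | IsV A w} with hF
  have hzF : z ∈ F := ⟨h.frontier_iff.2 ⟨hzi, j, hadj.1.symm, hzj⟩, hz⟩
  have hO : ∀ x ∈ openSegment ℝ (lp A c i j) (rp A c i j), x ∈ A i ∧ x ∈ A j ∧ ¬ IsV A x := by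
    intro x hx
    exact ⟨(h.conv i).openSegment_subset (h.lp_mem hadj).1 (h.rp_mem hadj).1 hx,
      (h.conv j).openSegment_subset (h.lp_mem hadj).2 (h.rp_mem hadj).2 hx,
      h.not_isV_open hadj.1 (h.lp_ne_rp hadj) (h.lp_mem hadj).1 (h.lp_mem hadj).2
        (h.rp_mem hadj).1 (h.rp_mem hadj).2 hx⟩
  have hO' : ∀ x, x ∈ A i → x ∈ A j → ¬ IsV A x →
      x ∈ openSegment ℝ (lp A c i j) (rp A c i j) := by
    intro x hxi hxj hx
    have h1 : x ∈ segment ℝ (lp A c i j) (rp A c i j) := by rw [← h.seg hadj]; exact ⟨hxi, hxj⟩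
    apply mem_openSegment_of_ne_left_right _ _ h1
    · rintro rfl; exact hx (h.isV_lp hadj)
    · rintro rfl; exact hx (h.isV_rp hadj)
  have hcomp : connectedComponentIn F z = openSegment ℝ (lp A c i j) (rp A c i j) := by
    apply Set.Subset.antisymm
    · intro x hx
      have hpre : IsPreconnected (connectedComponentIn F z) := isPreconnected_connectedComponentIn
      have hsub : connectedComponentIn F z ⊆ F := connectedComponentIn_subset F z
      have hxF := hsub hx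
      apply hO' x (h.frontier_iff.1 hxF.1).1 _ hxF.2
      by_contra hxj
      set T2 : Set ι := {k | Adj A i k ∧ k ≠ j} with hT2
      have hT2f : T2.Finite := (h.finite_adj i).subset (fun k hk => hk.1)
      rw [isPreconnected_closed_iff] at hpre
      have hcov : connectedComponentIn F z ⊆ A j ∪ ⋃ k ∈ T2, A k := by
        intro y hy
        have hyF := hsub hy
        obtain ⟨hyi, l, hli, hyl⟩ := h.frontier_iff.1 hyF.1
        obtain ⟨m, hm, hym⟩ := h.mem_edge hli.symm hyi hyl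
        by_cases hmj : m = j
        · left; rw [← hmj]; exact hym
        · right
          simp only [Set.mem_iUnion]
          exact ⟨m, ⟨hm, hmj⟩, hym⟩
      have hxr : x ∈ ⋃ k ∈ T2, A k := by
        rcases hcov hx with h1 | h1
        · exact absurd h1 hxj
        · exact h1
      obtain ⟨y, hy, hyj, hy2⟩ := hpre _ _ (h.closed j)
        (hT2f.isClosed_biUnion (fun k _ => h.closed k)) hcov
        ⟨z, mem_connectedComponentIn hzF, hzj⟩ ⟨x, hx, hxr⟩
      simp only [Set.mem_iUnion] at hy2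
      obtain ⟨k, ⟨hk1, hk2⟩, hyk⟩ := hy2
      have hyF := hsub hy
      exact hyF.2 ⟨i, j, k, hadj.1, hk2.symm, hk1.1, (h.frontier_iff.1 hyF.1).1, hyj, hyk⟩
    · apply IsPreconnected.subset_connectedComponentIn
      · exact (convex_openSegment _ _).isPreconnected
      · exact hO' z hzi hzj hz
      · intro x hx
        obtain ⟨h1, h2, h3⟩ := hO x hx
        exact ⟨h.frontier_iff.2 ⟨h1, j, hadj.1.symm, h2⟩, h3⟩
  rw [hcomp, closure_openSegment, ← h.seg hadj]

theorem edge_iff (h : CT A c u U) {e : Set ℂ} :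
    IsEdge (range A) e ↔ ∃ i j, Adj A i j ∧ e = A i ∩ A j := by
  have hset : {w | IsVertex (range A) w} = {w | IsV A w} := by
    ext w; exact h.vertex_iff
  constructor
  · rintro ⟨_, ⟨i, rfl⟩, z, hz, rfl⟩
    rw [hset] at hz ⊢
    obtain ⟨hz1, hz2⟩ := hz
    obtain ⟨hzi, j, hji, hzj⟩ := h.frontier_iff.1 hz1
    have hadj := h.adj_of_not_isV hji.symm hzi hzj hz2
    exact ⟨i, j, hadj, h.comp_eq hadj hzi hzj hz2⟩
  · rintro ⟨i, j, hadj, rfl⟩
    have hm := h.mp_mem hadj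
    have hmv : ¬ IsV A (mp A c i j) :=
      h.not_isV_open hadj.1 (h.lp_ne_rp hadj).symm (h.rp_mem hadj).1 (h.rp_mem hadj).2
        (h.lp_mem hadj).1 (h.lp_mem hadj).2 (mp_open A c i j)
    refine ⟨A i, ⟨i, rfl⟩, mp A c i j, ?_, ?_⟩
    · rw [hset]
      exact ⟨h.frontier_iff.2 ⟨hm.1, j, hadj.1.symm, hm.2⟩, hmv⟩
    · rw [hset]
      exact (h.comp_eq hadj hm.1 hm.2 hmv).symm

theorem normal (h : CT A c u U) : IsNormalTiling (range A) := by
  have := h.countable_index
  refine ⟨Set.countable_range A, ?_, ?_, ?_, ?_, ?_, ?_⟩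
  · rintro _ ⟨i, rfl⟩; exact h.closed i
  · ext z
    simp only [Set.mem_sUnion, Set.mem_range, exists_exists_eq_and, Set.mem_univ, iff_true]
    exact h.cover z
  · rintro _ ⟨i, rfl⟩ _ ⟨j, rfl⟩ hne
    exact h.disj i j (fun e => hne (by rw [e]))
  · rintro _ ⟨i, rfl⟩
    obtain ⟨e, -, he, -⟩ := exists_homeomorph_image_interior_closure_frontier_eq_unitBall
      (h.conv i) ⟨_, h.c_int i⟩ (h.compact i).isBounded
    rw [(h.closed i).closure_eq] at he
    exact ⟨(e.image (A i)).trans (Homeomorph.setCongr he)⟩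
  · rintro _ ⟨i, rfl⟩ _ ⟨j, rfl⟩ _
    exact ((h.conv i).inter (h.conv j)).isPreconnected
  · refine ⟨u, U, h.hu, h.u_le_U, ?_⟩
    rintro _ ⟨i, rfl⟩
    exact ⟨⟨c i, h.inner i⟩, ⟨c i, h.outer i⟩⟩

end CT

namespace DM

variable {p : ι → ℂ} {R η : ℝ}

theorem seg_vertex (d : DM A c u U p R η) {t s r : ι} (hts : Adj A t s)
    (hr : p r ∈ segment ℝ (p t) (p s)) : r = t ∨ r = s := by
  by_contra hc
  push Not at hc
  obtain ⟨c', u', U', hct⟩ := d.dual_ct
  have h1 : p r ∈ openSegment ℝ (p t) (p s) := by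
    apply mem_openSegment_of_ne_left_right _ _ hr
    · intro he; exact hc.1 (d.p_inj he).symm
    · intro he; exact hc.2 (d.p_inj he).symm
  have hadj := d.adj_dual hts
  exact hct.not_isV_open hadj.1 (d.ct.p_ne d.hη d.bd d.mg hts).symm
    (mem_St (p := p) (d.ct.lp_mem hts).1) (mem_St (p := p) (d.ct.rp_mem hts).1)
    (mem_St (p := p) (d.ct.lp_mem hts).2) (mem_St (p := p) (d.ct.rp_mem hts).2) h1 (d.isV_p r)

/-- the duality relation between elements -/
def Rel (A : ι → Set ℂ) (p : ι → ℂ) (a b : Set ℂ) : Prop :=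
  (∃ v, IsV A v ∧ a = {v} ∧ b = St A p v) ∨
  (∃ t s, Adj A t s ∧ a = A t ∩ A s ∧ b = segment ℝ (p t) (p s)) ∨
  (∃ t, a = A t ∧ b = {p t})

theorem rel_exists (d : DM A c u U p R η) {a : Set ℂ} (ha : a ∈ Elements (range A)) :
    ∃ b ∈ Elements (range (DB A p)), Rel A p a b := by
  obtain ⟨c', u', U', hct⟩ := d.dual_ct
  rcases ha with ⟨z, hz, rfl⟩ | ha | ⟨t, rfl⟩
  · rw [d.ct.vertex_iff] at hz
    exact ⟨St A p z, Or.inr (Or.inr ⟨⟨z, hz⟩, rfl⟩), Or.inl ⟨z, hz, rfl, rfl⟩⟩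
  · rw [d.ct.edge_iff] at ha
    obtain ⟨i, j, hij, rfl⟩ := ha
    refine ⟨segment ℝ (p i) (p j), Or.inr (Or.inl ?_), Or.inr (Or.inl ⟨i, j, hij, rfl, rfl⟩)⟩
    rw [hct.edge_iff]
    exact ⟨_, _, d.adj_dual hij, (d.dual_seg hij).symm⟩
  · refine ⟨{p t}, Or.inl ⟨p t, hct.vertex_iff.2 (d.isV_p t), rfl⟩, Or.inr (Or.inr ⟨t, rfl, rfl⟩)⟩

theorem rel_exists' (d : DM A c u U p R η) {b : Set ℂ} (hb : b ∈ Elements (range (DB A p))) :
    ∃ a ∈ Elements (range A), Rel A p a b := by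
  obtain ⟨c', u', U', hct⟩ := d.dual_ct
  rcases hb with ⟨z, hz, rfl⟩ | hb | ⟨v, rfl⟩
  · rw [hct.vertex_iff, d.isV_iff] at hz
    obtain ⟨t, rfl⟩ := hz
    exact ⟨A t, Or.inr (Or.inr ⟨t, rfl⟩), Or.inr (Or.inr ⟨t, rfl, rfl⟩)⟩
  · rw [hct.edge_iff] at hb
    obtain ⟨v, w, hvw, rfl⟩ := hb
    obtain ⟨t, s, hts, hv, hw⟩ := d.dual_adj hvw
    have e1 : v = ⟨lp A c t s, d.ct.isV_lp hts⟩ := Subtype.ext hv
    have e2 : w = ⟨rp A c t s, d.ct.isV_rp hts⟩ := Subtype.ext hw
    refine ⟨A t ∩ A s, Or.inr (Or.inl (d.ct.edge_iff.2 ⟨t, s, hts, rfl⟩)),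
      Or.inr (Or.inl ⟨t, s, hts, rfl, ?_⟩)⟩
    rw [e1, e2, d.dual_seg hts]
  · exact ⟨{(v : ℂ)}, Or.inl ⟨v, d.ct.vertex_iff.2 v.2, rfl⟩, Or.inl ⟨v, v.2, rfl, rfl⟩⟩

theorem not_sub_singleton (d : DM A c u U p R η) (t : ι) (v : ℂ) : ¬ A t ⊆ {v} := by
  intro hh
  obtain ⟨x, y, z, hxy, -, -, -, -, -, hx, hy, -⟩ := d.ct.three_vertices t
  exact hxy ((hh hx).trans (hh hy).symm)

theorem edge_sub (d : DM A c u U p R η) {t s r : ι} (hts : Adj A t s) :
    A t ∩ A s ⊆ A r ↔ r = t ∨ r = s := by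
  constructor
  · intro hh
    exact d.ct.mp_only hts (hh (d.ct.mp_mem hts))
  · rintro (rfl | rfl)
    · exact Set.inter_subset_left
    · exact Set.inter_subset_right

theorem rel_iff (d : DM A c u U p R η) {a a' b b' : Set ℂ} (h1 : Rel A p a b)
    (h2 : Rel A p a' b') : b ⊆ b' ↔ a' ⊆ a := by
  obtain ⟨c', u', U', hct⟩ := d.dual_ct
  rcases h1 with ⟨v, hv, rfl, rfl⟩ | ⟨t, s, hts, rfl, rfl⟩ | ⟨t, rfl, rfl⟩ <;>
  rcases h2 with ⟨v', hv', rfl, rfl⟩ | ⟨t', s', hts', rfl, rfl⟩ | ⟨t', rfl, rfl⟩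
  · -- vertex, vertex
    constructor
    · intro hh
      have : (⟨v, hv⟩ : {v : ℂ // IsV A v}) = ⟨v', hv'⟩ := hct.sub_eq hh
      have : v = v' := congrArg Subtype.val this
      rw [this]
    · intro hh
      have : v' = v := hh rfl
      rw [this]
  · -- vertex, edge
    constructor
    · intro hh
      rw [← d.dual_seg hts'] at hh
      have e1 : (⟨v, hv⟩ : {v : ℂ // IsV A v}) = _ := hct.sub_eq (hh.trans Set.inter_subset_left)
      have e2 : (⟨v, hv⟩ : {v : ℂ // IsV A v}) = _ := hct.sub_eq (hh.trans Set.inter_subset_right)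
      have e3 := congrArg Subtype.val (e1.symm.trans e2)
      exact absurd e3 (d.ct.lp_ne_rp hts')
    · intro hh
      have e1 : lp A c t' s' = v := hh (d.ct.lp_mem hts')
      have e2 : rp A c t' s' = v := hh (d.ct.rp_mem hts')
      exact absurd (e1.trans e2.symm) (d.ct.lp_ne_rp hts')
  · -- vertex, tile
    constructor
    · intro hh
      exfalso
      obtain ⟨t, ht⟩ := d.ct.cover v
      obtain ⟨k1, k2⟩ := d.ct.nx_spec hv ht
      have e1 : p t = p t' := hh (mem_St (p := p) ht)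
      have e2 : p (nx A c v t) = p t' := hh (mem_St (p := p) (d.ct.nx_mem hv ht))
      exact d.ct.p_ne d.hη d.bd d.mg k1 (e2.trans e1.symm)
    · intro hh
      exact absurd hh (d.not_sub_singleton t' v)
  · -- edge, vertex
    rw [Set.singleton_subset_iff]
    constructor
    · intro hh
      exact ⟨(d.mem_iff hv').1 (hh (left_mem_segment ℝ _ _)),
        (d.mem_iff hv').1 (hh (right_mem_segment ℝ _ _))⟩
    · rintro ⟨k1, k2⟩
      exact (St_convex A p v').segment_subset (mem_St k1) (mem_St k2)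
  · -- edge, edge
    constructor
    · intro hh
      have e1 := d.seg_vertex hts' (hh (left_mem_segment ℝ _ _))
      have e2 := d.seg_vertex hts' (hh (right_mem_segment ℝ _ _))
      apply Set.subset_inter
      · exact (d.edge_sub hts').2 e1
      · exact (d.edge_sub hts').2 e2
    · intro hh
      have e1 := (d.edge_sub hts').1 (hh.trans Set.inter_subset_left)
      have e2 := (d.edge_sub hts').1 (hh.trans Set.inter_subset_right)
      apply (convex_segment _ _).segment_subset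
      · rcases e1 with e1 | e1
        · rw [e1]; exact left_mem_segment ℝ _ _
        · rw [e1]; exact right_mem_segment ℝ _ _
      · rcases e2 with e2 | e2
        · rw [e2]; exact left_mem_segment ℝ _ _
        · rw [e2]; exact right_mem_segment ℝ _ _
  · -- edge, tile
    constructor
    · intro hh
      have e1 : p t = p t' := hh (left_mem_segment ℝ _ _)
      have e2 : p s = p t' := hh (right_mem_segment ℝ _ _)
      exact absurd (e2.trans e1.symm) (d.ct.p_ne d.hη d.bd d.mg hts)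
    · intro hh
      have e1 := d.ct.sub_eq (hh.trans Set.inter_subset_left)
      have e2 := d.ct.sub_eq (hh.trans Set.inter_subset_right)
      exact absurd (e1.symm.trans e2) hts.1
  · -- tile, vertex
    rw [Set.singleton_subset_iff, Set.singleton_subset_iff]
    exact d.mem_iff hv'
  · -- tile, edge
    rw [Set.singleton_subset_iff, d.edge_sub hts']
    constructor
    · exact d.seg_vertex hts'
    · rintro (rfl | rfl)
      · exact left_mem_segment ℝ _ _
      · exact right_mem_segment ℝ _ _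
  · -- tile, tile
    rw [Set.singleton_subset_iff, Set.mem_singleton_iff]
    constructor
    · intro hh
      rw [d.p_inj hh]
    · intro hh
      rw [d.ct.sub_eq hh]

theorem dual (d : DM A c u U p R η) : AreDual (range A) (range (DB A p)) := by
  classical
  have hex : ∀ a : Elements (range A), ∃ b : Elements (range (DB A p)), Rel A p a b := by
    rintro ⟨a, ha⟩
    obtain ⟨b, hb, hr⟩ := d.rel_exists ha
    exact ⟨⟨b, hb⟩, hr⟩
  choose ψ hψ using hex
  have hiff : ∀ a b : Elements (range A), ((ψ a : Set ℂ) ⊆ (ψ b : Set ℂ) ↔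
      (b : Set ℂ) ⊆ (a : Set ℂ)) := fun a b => d.rel_iff (hψ a) (hψ b)
  have hinj : Function.Injective ψ := by
    intro a b he
    apply Subtype.ext
    apply Set.Subset.antisymm
    · exact (hiff b a).1 (by rw [he])
    · exact (hiff a b).1 (by rw [he])
  have hsurj : Function.Surjective ψ := by
    rintro ⟨b, hb⟩
    obtain ⟨a, ha, hr⟩ := d.rel_exists' hb
    refine ⟨⟨a, ha⟩, ?_⟩
    apply Subtype.ext
    apply Set.Subset.antisymm
    · exact (d.rel_iff (hψ ⟨a, ha⟩) hr).2 Set.Subset.rfl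
    · exact (d.rel_iff hr (hψ ⟨a, ha⟩)).2 Set.Subset.rfl
  exact ⟨Equiv.ofBijective ψ ⟨hinj, hsurj⟩, hiff⟩

end DM

/-- the combinatorial part of the theorem -/
theorem dual_of_margin (h : CT A c u U) {p : ι → ℂ} {R η : ℝ} (hη : 0 < η) (hB : Bd c p R)
    (hM : Mg A p η) : ∃ T' : Set (Set ℂ), IsNormalTiling T' ∧
      (∀ t ∈ T', IsConvexPolygon t) ∧ AreDual (range A) T' := by
  classical
  have d := h.exists_DM hη hB hM
  obtain ⟨c', u', U', hct⟩ := d.dual_ct
  refine ⟨range (DB A p), hct.normal, ?_, d.dual⟩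
  rintro _ ⟨v, rfl⟩
  refine ⟨⟨(h.tv v).image p, ?_⟩, ⟨_, hct.c_int v⟩⟩
  show convexHull ℝ (p '' {t | (v : ℂ) ∈ A t}) = _
  congr 1
  ext x
  simp only [Set.mem_image, Set.mem_ofPred_eq, Finset.coe_image, Finset.mem_coe, h.mem_tv]

end Pool.Agent.Helper89.Dual
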