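import Pool.Agent.Helper89.Dual.Margin
set_option autoImplicit false

/-!
Consequences of the margin property: position of the tiles at the two ends of an edge.
-/

namespace Pool.Agent.Helper89.Dual

open Complex Set Metric Filter Topology

variable {ι : Type} {A : ι → Set ℂ} {c : ι → ℂ} {u U : ℝ}

theorem Bd.perturb {p p' : ι → ℂ} {R κ : ℝ} (hB : Bd c p R) (hp : ∀ x, ‖p' x - p x‖ ≤ κ) :
    Bd c p' (R + κ) := by
  intro t
  have e : p' t - c t = (p t - c t) + (p' t - p t) := by ring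
  rw [e]
  exact (norm_add_le _ _).trans (add_le_add (hB t) (hp t))

theorem Mg.perturb {p p' : ι → ℂ} {η κ : ℝ} (hM : Mg A p η) (hp : ∀ x, ‖p' x - p x‖ ≤ κ) :
    Mg A p' (η - 2 * κ) := by
  intro t n hn
  obtain ⟨s, hs, hle⟩ := hM t n hn
  refine ⟨s, hs, ?_⟩
  have e : p' s - p' t = (p s - p t) + (p' s - p s) - (p' t - p t) := by ring
  rw [e, dt_sub_right, dt_add_right]
  have h1 := abs_le.1 ((dt_le_of_unit hn (p' s - p s)).trans (hp s))
  have h2 := abs_le.1 ((dt_le_of_unit hn (p' t - p t)).trans (hp t))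
  linarith

/-- sign condition at an edge -/
def Gd (A : ι → Set ℂ) (c p : ι → ℂ) (κ σ : ℝ) (t s : ι) : Prop :=
  (∀ r, r ≠ t → r ≠ s → lp A c t s ∈ A r →
    κ * ‖p s - p t‖ ≤ σ * cr (p s - p t) (p r - p t)) ∧
  (∀ r, r ≠ t → r ≠ s → rp A c t s ∈ A r →
    σ * cr (p s - p t) (p r - p t) ≤ -(κ * ‖p s - p t‖))

theorem third_tile {z : ℂ} (hz : IsV A z) (t s : ι) : ∃ r, r ≠ t ∧ r ≠ s ∧ z ∈ A r := by
  obtain ⟨i, j, k, hij, hjk, hik, hi, hj, hk⟩ := hz
  by_cases h1 : i ≠ t ∧ i ≠ s
  · exact ⟨i, h1.1, h1.2, hi⟩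
  · by_cases h2 : j ≠ t ∧ j ≠ s
    · exact ⟨j, h2.1, h2.2, hj⟩
    · refine ⟨k, ?_, ?_, hk⟩
      · rintro rfl
        have h1' : i = s := by
          by_contra hc; exact h1 ⟨hik, hc⟩
        have h2' : j = s := by
          by_contra hc; exact h2 ⟨hjk, hc⟩
        exact hij (h1'.trans h2'.symm)
      · rintro rfl
        have h1' : i = t := by
          by_contra hc; exact h1 ⟨hc, hik⟩
        have h2' : j = t := by
          by_contra hc; exact h2 ⟨hc, hjk⟩
        exact hij (h1'.trans h2'.symm)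

namespace CT

theorem opp1 (h : CT A c u U) {p : ι → ℂ} {R η : ℝ} (hη : 0 < η) (hB : Bd c p R)
    (hM : Mg A p η) {t s r r' : ι} (hts : Adj A t s)
    (hr : lp A c t s ∈ A r) (hrt : r ≠ t) (hrs : r ≠ s)
    (hr' : rp A c t s ∈ A r') (hrt' : r' ≠ t) (hrs' : r' ≠ s)
    {n : ℂ} (hn : ‖n‖ = 1) (heq : dt n (p s) = dt n (p t)) :
    ¬ (dt n (p r) < dt n (p t) + η / 4 ∧ dt n (p r') < dt n (p t) + η / 4) := by
  classical
  rintro ⟨h1, h2⟩
  set e : ι → ℂ := fun x => if x = r ∨ x = r' then ((η / 4 : ℝ) : ℂ) * n else 0 with he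
  set p' : ι → ℂ := fun x => p x - e x with hp'
  have hen : ∀ x, ‖e x‖ ≤ η / 4 := by
    intro x
    simp only [he]
    split_ifs
    · rw [norm_mul, Complex.norm_real, Real.norm_eq_abs, abs_of_pos (by positivity), hn, mul_one]
    · rw [norm_zero]; positivity
  have hpp : ∀ x, ‖p' x - p x‖ ≤ η / 4 := by
    intro x
    have : p' x - p x = -(e x) := by simp only [hp']; ring
    rw [this, norm_neg]; exact hen x
  have hB' := hB.perturb hpp
  have hM' := hM.perturb hpp
  have hη' : 0 < η - 2 * (η / 4) := by linarith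
  obtain ⟨ε, hε, hUH⟩ := h.uh_of_mg hη' hB' hM'
  have et : e t = 0 := by simp only [he]; rw [if_neg]; push Not; exact ⟨hrt.symm, hrt'.symm⟩
  have es : e s = 0 := by simp only [he]; rw [if_neg]; push Not; exact ⟨hrs.symm, hrs'.symm⟩
  have er : e r = ((η / 4 : ℝ) : ℂ) * n := by simp [he]
  have er' : e r' = ((η / 4 : ℝ) : ℂ) * n := by simp [he]
  have pt : p' t = p t := by simp only [hp', et, sub_zero]
  have ps : p' s = p s := by simp only [hp', es, sub_zero]
  have pr : dt n (p' r) = dt n (p r) - η / 4 := by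
    simp only [hp', er]; rw [dt_sub_right, dt_smul_right, dt_self_unit hn, mul_one]
  have pr' : dt n (p' r') = dt n (p r') - η / 4 := by
    simp only [hp', er']; rw [dt_sub_right, dt_smul_right, dt_self_unit hn, mul_one]
  have hUp : Cn A {x | dt n (p t) < dt n (p' x)} := h.level_conn hε hB' hUH hn _
  have hDn : Cn A {x | -dt n (p t) < dt (-n) (p' x)} :=
    h.level_conn hε hB' hUH (by rw [norm_neg, hn]) _
  have key : ∀ x, dt n (p' x) = dt n (p t) → ∃ a ∈ {x | dt n (p t) < dt n (p' x)}, Adj A x a := by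
    intro x hx
    obtain ⟨a, ha, hle⟩ := hM' x n hn
    refine ⟨a, ?_, ha⟩
    show dt n (p t) < dt n (p' a)
    rw [dt_sub_right] at hle
    linarith
  apply h.lemma_F hts hr hr' hUp hDn
  · intro x hx hx'
    have a1 : -dt n (p t) < dt (-n) (p' x) := hx
    have a2 : dt n (p t) < dt n (p' x) := hx'
    rw [dt_neg_left] at a1
    linarith
  · show ¬ (dt n (p t) < dt n (p' t))
    rw [pt]; exact lt_irrefl _
  · show ¬ (dt n (p t) < dt n (p' s))
    rw [ps, heq]; exact lt_irrefl _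
  · show ¬ (-dt n (p t) < dt (-n) (p' t))
    rw [pt, dt_neg_left]; exact lt_irrefl _
  · show ¬ (-dt n (p t) < dt (-n) (p' s))
    rw [ps, dt_neg_left, heq]; exact lt_irrefl _
  · exact key t (by rw [pt])
  · exact key s (by rw [ps, heq])
  · show -dt n (p t) < dt (-n) (p' r)
    rw [dt_neg_left, pr]; linarith
  · show -dt n (p t) < dt (-n) (p' r')
    rw [dt_neg_left, pr']; linarith

/-- the third tiles at the two ends of an edge lie on different sides, with a margin -/
theorem opp2 (h : CT A c u U) {p : ι → ℂ} {R η : ℝ} (hη : 0 < η) (hB : Bd c p R)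
    (hM : Mg A p η) {t s r r' : ι} (hts : Adj A t s)
    (hr : lp A c t s ∈ A r) (hrt : r ≠ t) (hrs : r ≠ s)
    (hr' : rp A c t s ∈ A r') (hrt' : r' ≠ t) (hrs' : r' ≠ s)
    {n : ℂ} (hn : ‖n‖ = 1) (heq : dt n (p s) = dt n (p t)) :
    (η / 4 ≤ dt n (p r - p t) ∧ dt n (p r' - p t) ≤ -(η / 4)) ∨
    (dt n (p r - p t) ≤ -(η / 4) ∧ η / 4 ≤ dt n (p r' - p t)) := by
  have h1 := h.opp1 hη hB hM hts hr hrt hrs hr' hrt' hrs' hn heq
  have h2 := h.opp1 hη hB hM hts hr hrt hrs hr' hrt' hrs' (n := -n) (by rw [norm_neg, hn])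
    (by rw [dt_neg_left, dt_neg_left, heq])
  rw [dt_neg_left, dt_neg_left, dt_neg_left] at h2
  rw [dt_sub_right, dt_sub_right]
  by_contra hc
  push Not at hc h1 h2
  obtain ⟨hc1, hc2⟩ := hc
  by_cases a1 : dt n (p r) < dt n (p t) + η / 4
  · have b1 := h1 a1
    have b2 : ¬ (-dt n (p r) < -dt n (p t) + η / 4) := by
      intro hh
      have := h2 hh
      linarith
    push Not at b2
    have := hc2 (by linarith)
    linarith
  · push Not at a1
    have b2 := h2 (by linarith)
    have := hc1 (by linarith)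
    linarith

theorem p_ne (h : CT A c u U) {p : ι → ℂ} {R η : ℝ} (hη : 0 < η) (hB : Bd c p R)
    (hM : Mg A p η) {t s : ι} (hts : Adj A t s) : p s ≠ p t := by
  intro heq
  obtain ⟨r, hrt, hrs, hr⟩ := third_tile (h.isV_lp hts) t s
  obtain ⟨r', hrt', hrs', hr'⟩ := third_tile (h.isV_rp hts) t s
  have hn : ∃ n : ℂ, ‖n‖ = 1 ∧ dt n (p r - p t) = 0 := by
    by_cases h0 : p r - p t = 0
    · exact ⟨1, by simp, by rw [h0]; simp [dt]⟩
    · have hN : 0 < ‖p r - p t‖ := norm_pos_iff.2 h0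
      refine ⟨((1 / ‖p r - p t‖ : ℝ) : ℂ) * (Complex.I * (p r - p t)), ?_, ?_⟩
      · rw [norm_mul, norm_mul, Complex.norm_I, one_mul, Complex.norm_real, Real.norm_eq_abs,
          abs_of_pos (by positivity)]
        field_simp
      · rw [dt_smul_left]
        have : dt (Complex.I * (p r - p t)) (p r - p t) = 0 := by simp [dt]; ring
        rw [this, mul_zero]
  obtain ⟨n, hn1, hn2⟩ := hn
  rcases h.opp2 hη hB hM hts hr hrt hrs hr' hrt' hrs' hn1 (by rw [heq]) with h1 | h1
  · linarith [h1.1]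
  · linarith [h1.1]

theorem p_far (h : CT A c u U) {p : ι → ℂ} {R η : ℝ} (hη : 0 < η) (hB : Bd c p R)
    (hM : Mg A p η) {t s : ι} (hts : Adj A t s) : η / 4 ≤ ‖p s - p t‖ := by
  classical
  by_contra hc
  push Not at hc
  set p' : ι → ℂ := fun x => if x = s then p t else p x with hp'
  have hpp : ∀ x, ‖p' x - p x‖ ≤ η / 4 := by
    intro x
    simp only [hp']
    split_ifs with hx
    · rw [hx, norm_sub_rev]; exact hc.le
    · rw [sub_self, norm_zero]; positivity
  have hB' := hB.perturb hpp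
  have hM' := hM.perturb hpp
  have hη' : 0 < η - 2 * (η / 4) := by linarith
  apply h.p_ne hη' hB' hM' hts
  simp [hp', hts.1]

theorem unit_normal {d : ℂ} (hd : d ≠ 0) : 
    ‖((1 / ‖d‖ : ℝ) : ℂ) * (Complex.I * d)‖ = 1 ∧
    ∀ w, dt (((1 / ‖d‖ : ℝ) : ℂ) * (Complex.I * d)) w = cr d w / ‖d‖ := by
  have hN : 0 < ‖d‖ := norm_pos_iff.2 hd
  constructor
  · rw [norm_mul, norm_mul, Complex.norm_I, one_mul, Complex.norm_real, Real.norm_eq_abs,
      abs_of_pos (by positivity)]
    field_simp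
  · intro w
    rw [dt_smul_left]
    have : dt (Complex.I * d) w = cr d w := by simp [dt, cr]; ring
    rw [this]; ring

/-- a sign at every edge -/
theorem sign_edge (h : CT A c u U) {p : ι → ℂ} {R η : ℝ} (hη : 0 < η) (hB : Bd c p R)
    (hM : Mg A p η) {t s : ι} (hts : Adj A t s) :
    Gd A c p (η / 4) 1 t s ∨ Gd A c p (η / 4) (-1) t s := by
  have hne := h.p_ne hη hB hM hts
  have hd : p s - p t ≠ 0 := sub_ne_zero.2 hne
  have hN : 0 < ‖p s - p t‖ := norm_pos_iff.2 hd
  obtain ⟨hn1, hn2⟩ := unit_normal hd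
  set n := ((1 / ‖p s - p t‖ : ℝ) : ℂ) * (Complex.I * (p s - p t)) with hn
  have heq : dt n (p s) = dt n (p t) := by
    have := hn2 (p s - p t)
    rw [cr_self, zero_div, dt_sub_right] at this
    linarith
  obtain ⟨r0, hrt0, hrs0, hr0⟩ := third_tile (h.isV_lp hts) t s
  obtain ⟨r0', hrt0', hrs0', hr0'⟩ := third_tile (h.isV_rp hts) t s
  have conv : ∀ (r : ι), dt n (p r - p t) = cr (p s - p t) (p r - p t) / ‖p s - p t‖ :=
    fun r => hn2 _
  have hpos : 0 < η / 4 := by positivity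
  have lepos : ∀ r, η / 4 ≤ dt n (p r - p t) →
      (η / 4) * ‖p s - p t‖ ≤ cr (p s - p t) (p r - p t) := by
    intro r hr
    rwa [conv, le_div_iff₀ hN] at hr
  have leneg : ∀ r, dt n (p r - p t) ≤ -(η / 4) →
      cr (p s - p t) (p r - p t) ≤ -((η / 4) * ‖p s - p t‖) := by
    intro r hr
    rw [conv, div_le_iff₀ hN] at hr
    linarith
  rcases h.opp2 hη hB hM hts hr0 hrt0 hrs0 hr0' hrt0' hrs0' hn1 heq with h0 | h0
  · left
    constructor
    · intro r hrt hrs hr
      rw [one_mul]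
      apply lepos
      rcases h.opp2 hη hB hM hts hr hrt hrs hr0' hrt0' hrs0' hn1 heq with h1 | h1
      · exact h1.1
      · linarith [h0.2, h1.2]
    · intro r hrt hrs hr
      rw [one_mul]
      apply leneg
      rcases h.opp2 hη hB hM hts hr0 hrt0 hrs0 hr hrt hrs hn1 heq with h1 | h1
      · exact h1.2
      · linarith [h0.1, h1.1]
  · right
    constructor
    · intro r hrt hrs hr
      have : dt n (p r - p t) ≤ -(η / 4) := by
        rcases h.opp2 hη hB hM hts hr hrt hrs hr0' hrt0' hrs0' hn1 heq with h1 | h1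
        · linarith [h0.2, h1.2]
        · exact h1.1
      have := leneg r this
      linarith
    · intro r hrt hrs hr
      have : η / 4 ≤ dt n (p r - p t) := by
        rcases h.opp2 hη hB hM hts hr0 hrt0 hrs0 hr hrt hrs hn1 heq with h1 | h1
        · linarith [h0.1, h1.1]
        · exact h1.2
      have := lepos r this
      linarith

theorem Gd_symm (h : CT A c u U) {p : ι → ℂ} {κ σ : ℝ} {t s : ι} (hts : Adj A t s)
    (hG : Gd A c p κ σ t s) : Gd A c p κ σ s t := by
  have e : ∀ r, cr (p t - p s) (p r - p s) = - cr (p s - p t) (p r - p t) := by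
    intro r; simp [cr]; ring
  constructor
  · intro r hrs hrt hr
    rw [h.lp_swap hts] at hr
    have := hG.2 r hrt hrs hr
    rw [e, norm_sub_rev]
    linarith
  · intro r hrs hrt hr
    rw [h.rp_swap hts] at hr
    have := hG.1 r hrt hrs hr
    rw [e, norm_sub_rev]
    linarith

/-- the sign does not change at a vertex -/
theorem Gd_vertex (h : CT A c u U) {p : ι → ℂ} {R η : ℝ} (hη : 0 < η) (hB : Bd c p R)
    (hM : Mg A p η) {t s r : ι} (hts : Adj A t s) (hsr : Adj A s r)
    (he : lp A c t s = lp A c s r) :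
    Gd A c p (η / 4) 1 t s ↔ Gd A c p (η / 4) 1 s r := by
  have hrt : r ≠ t := by
    rintro rfl
    rw [h.lp_swap hts] at he
    exact h.lp_ne_rp hts he
  have hr : lp A c t s ∈ A r := by rw [he]; exact (h.lp_mem hsr).2
  have ht : lp A c s r ∈ A t := by rw [← he]; exact (h.lp_mem hts).1
  have e : cr (p r - p s) (p t - p s) = cr (p s - p t) (p r - p t) := by simp [cr]; ring
  have n1 : 0 < ‖p s - p t‖ := norm_pos_iff.2 (sub_ne_zero.2 (h.p_ne hη hB hM hts))
  have n2 : 0 < ‖p r - p s‖ := norm_pos_iff.2 (sub_ne_zero.2 (h.p_ne hη hB hM hsr))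
  have k1 : 0 < (η / 4) * ‖p s - p t‖ := by positivity
  have k2 : 0 < (η / 4) * ‖p r - p s‖ := by positivity
  constructor
  · intro hG
    rcases h.sign_edge hη hB hM hsr with h1 | h1
    · exact h1
    · exfalso
      have a1 := hG.1 r hrt hsr.1.symm hr
      have a2 := h1.1 t hts.1 hrt.symm ht
      rw [e] at a2
      linarith
  · intro hG
    rcases h.sign_edge hη hB hM hts with h1 | h1
    · exact h1
    · exfalso
      have a1 := hG.1 t hts.1 hrt.symm ht
      have a2 := h1.1 r hrt hsr.1.symm hr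
      rw [e] at a1
      linarith

/-- the sign is the same for all edges -/
theorem sign_global (h : CT A c u U) {p : ι → ℂ} {R η : ℝ} (hη : 0 < η) (hB : Bd c p R)
    (hM : Mg A p η) :
    ∃ σ : ℝ, (σ = 1 ∨ σ = -1) ∧ ∀ t s, Adj A t s → Gd A c p (η / 4) σ t s := by
  -- constancy around a tile
  have htile : ∀ t j k, Adj A t j → Adj A t k → Gd A c p (η / 4) 1 t j →
      Gd A c p (η / 4) 1 t k := by
    intro t
    apply h.edges_connected t (fun j => Gd A c p (η / 4) 1 t j)
    intro j k hj hk he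
    have h1 : lp A c k t = lp A c t j := by rw [h.lp_swap hk, he]
    have h2 := h.Gd_vertex hη hB hM hk.symm hj h1
    constructor
    · intro hG
      exact h.Gd_symm hk.symm (h2.2 hG)
    · intro hG
      exact h2.1 (h.Gd_symm hk hG)
  have hstep : ∀ (a b : ι) (q : (gr A).Walk a b), (∀ j, Adj A a j → Gd A c p (η / 4) 1 a j) →
      ∀ j, Adj A b j → Gd A c p (η / 4) 1 b j := by
    intro a b q
    induction q with
    | nil => exact fun hh => hh
    | @cons a m b ham q ih =>
      intro hh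
      apply ih
      intro j hj
      have hadj : Adj A a m := ham
      exact htile m a j hadj.symm hj (h.Gd_symm hadj (hh m hadj))
  have hconn : Cn A {i | (A i ∩ (univ : Set ℂ)).Nonempty} := h.conn_open isOpen_univ convex_univ
  have hall : ∀ i, i ∈ {i | (A i ∩ (univ : Set ℂ)).Nonempty} := fun i => ⟨c i, h.c_mem i, mem_univ _⟩
  by_cases hex : ∃ t s, Adj A t s ∧ Gd A c p (η / 4) 1 t s
  · obtain ⟨t0, s0, hts0, hG0⟩ := hex
    refine ⟨1, Or.inl rfl, ?_⟩
    intro t s hts
    obtain ⟨q, -⟩ := hconn t0 (hall t0) t (hall t)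
    exact hstep t0 t q (fun j hj => htile t0 s0 j hts0 hj hG0) s hts
  · push Not at hex
    refine ⟨-1, Or.inr rfl, ?_⟩
    intro t s hts
    rcases h.sign_edge hη hB hM hts with h1 | h1
    · exact absurd h1 (hex t s hts)
    · exact h1

end CT

end Pool.Agent.Helper89.Dual
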