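import Pool.Agent.Helper89.Dual.Face1
set_option autoImplicit false

/-!
The dual faces: hulls of the images of the tiles at a vertex.
-/

namespace Pool.Agent.Helper89.Dual

open Complex Set Metric Filter Topology

variable {ι : Type} {A : ι → Set ℂ} {c : ι → ℂ} {u U : ℝ}

theorem perm_sum {V : Type} (s : Finset V) (f : V → V) (hm : ∀ i ∈ s, f i ∈ s)
    (hi : Set.InjOn f (s : Set V)) (g : V → ℝ) : ∑ i ∈ s, g (f i) = ∑ i ∈ s, g i := by
  classical
  have h1 : s.image f = s := by
    apply Finset.eq_of_subset_of_card_le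
    · intro x hx
      obtain ⟨y, hy, rfl⟩ := Finset.mem_image.1 hx
      exact hm y hy
    · rw [Finset.card_image_of_injOn hi]
  conv_rhs => rw [← h1]
  rw [Finset.sum_image hi]

theorem conv3 {K : Set ℂ} (hK : Convex ℝ K) {a b d : ℂ} (ha : a ∈ K) (hb : b ∈ K) (hd : d ∈ K)
    {x y z : ℝ} (hx : 0 ≤ x) (hy : 0 ≤ y) (hz : 0 ≤ z) (hs : x + y + z = 1) :
    (x : ℂ) * a + (y : ℂ) * b + (z : ℂ) * d ∈ K := by
  have := hK.sum_mem (t := Finset.univ) (w := ![x, y, z]) (z := ![a, b, d]) (by
    intro i _; fin_cases i <;> simp [hx, hy, hz]) (by simp [Fin.sum_univ_three, hs]) (by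
    intro i _; fin_cases i <;> simp [ha, hb, hd])
  simpa [Fin.sum_univ_three] using this

/-- a triangle of large area contains a disc -/
theorem tri_ball {K : Set ℂ} (hK : Convex ℝ K) {a b d : ℂ} (ha : a ∈ K) (hb : b ∈ K)
    (hd : d ∈ K) {δ M : ℝ} (hδ : 0 < δ) (hcr : δ ≤ |cr (b - a) (d - a)|)
    (h1 : ‖b - a‖ ≤ M) (h2 : ‖d - a‖ ≤ M) (h3 : ‖d - b‖ ≤ M) (hM : 0 < M) :
    closedBall ((a + b + d) / 3) (δ / (3 * M)) ⊆ K := by
  intro w hw
  rw [mem_closedBall, dist_eq_norm] at hw
  set e := w - (a + b + d) / 3 with he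
  have hwe : w = (a + b + d) / 3 + e := by rw [he]; ring
  set D := cr (b - a) (d - a) with hD
  have hD0 : D ≠ 0 := by
    intro h0; rw [h0, abs_zero] at hcr; linarith
  have hbound : ∀ f : ℂ, ‖f‖ ≤ M → |cr e f / D| ≤ 1 / 3 := by
    intro f hf
    rw [abs_div, div_le_iff₀ (abs_pos.2 hD0)]
    have e1 := cr_le e f
    have e2 : ‖e‖ * ‖f‖ ≤ δ / (3 * M) * M := by
      apply mul_le_mul hw hf (norm_nonneg _) (by positivity)
    have e3 : δ / (3 * M) * M = δ / 3 := by field_simp
    linarith
  have hb1 := abs_le.1 (hbound _ h2)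
  have hb2 := abs_le.1 (hbound _ h1)
  have hb3 := abs_le.1 (hbound _ h3)
  have s1 : cr (b - a) e = - cr e (b - a) := cr_comm _ _
  have hdec := cramer hD0 (w - a)
  have f1 : cr (w - a) (d - a) / D = 1 / 3 + cr e (d - a) / D := by
    have : cr (w - a) (d - a) = D / 3 + cr e (d - a) := by
      rw [hwe, hD]; simp [cr]; ring
    rw [this]; field_simp
  have f2 : cr (b - a) (w - a) / D = 1 / 3 - cr e (b - a) / D := by
    have : cr (b - a) (w - a) = D / 3 - cr e (b - a) := by
      rw [hwe, hD]; simp [cr]; ring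
    rw [this]; field_simp
  have f3 : cr e (d - b) / D = cr e (d - a) / D - cr e (b - a) / D := by
    have : cr e (d - b) = cr e (d - a) - cr e (b - a) := by simp [cr]; ring
    rw [this]; field_simp
  rw [f1, f2] at hdec
  have hmem := conv3 hK ha hb hd (x := 1 / 3 - cr e (d - b) / D)
    (y := 1 / 3 + cr e (d - a) / D) (z := 1 / 3 - cr e (b - a) / D)
    (by linarith) (by linarith) (by linarith) (by rw [f3]; ring)
  convert hmem using 1
  have : w = (w - a) + a := by ring
  rw [this, hdec, f3]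
  push_cast
  ring

/-- a nonnegative functional is positive at interior points -/
theorem int_pos {K : Set ℂ} {x a D : ℂ} {σ : ℝ} (hx : x ∈ interior K) (hD : D ≠ 0) (hσ : σ ≠ 0)
    (hf : ∀ w ∈ K, 0 ≤ σ * cr D (w - a)) : 0 < σ * cr D (x - a) := by
  rcases (hf x (interior_subset hx)).lt_or_eq with h | h
  · exact h
  · exfalso
    have ht : Tendsto (fun e : ℝ => x - (e : ℂ) * ((σ : ℂ) * (Complex.I * D))) (𝓝[>] 0) (𝓝 x) := by
      have : Tendsto (fun e : ℝ => x - (e : ℂ) * ((σ : ℂ) * (Complex.I * D))) (𝓝 0)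
          (𝓝 (x - ((0:ℝ) : ℂ) * ((σ : ℂ) * (Complex.I * D)))) := by
        apply Continuous.tendsto; fun_prop
      simp only [Complex.ofReal_zero, zero_mul, sub_zero] at this
      exact this.mono_left nhdsWithin_le_nhds
    have hpos : ∀ᶠ e : ℝ in 𝓝[>] (0:ℝ), 0 < e := self_mem_nhdsWithin
    obtain ⟨e, he1, he2⟩ := ((ht.eventually (isOpen_interior.mem_nhds hx)).and hpos).exists
    have h2 := hf _ (interior_subset he1)
    have e1 : x - (e : ℂ) * ((σ : ℂ) * (Complex.I * D)) - a
        = (x - a) - ((e * σ : ℝ) : ℂ) * (Complex.I * D) := by push_cast; ring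
    rw [e1, cr_sub_right, cr_smul_right] at h2
    have e2 : cr D (Complex.I * D) = dt D D := by simp [cr, dt]
    rw [e2] at h2
    have h3 := dt_self_pos hD
    have h4 : 0 < σ * σ := mul_self_pos.2 hσ
    have h5 : 0 < e * (σ * σ) * dt D D := by positivity
    nlinarith

/-- the curve crosses `[x,y]` at `m` from the right to the left. -/
theorem th_cross' {x y a b m : ℂ} (hm : m ∈ openSegment ℝ x y)
    (ha : cr (y - x) (a - x) < 0) (hb : 0 < cr (y - x) (b - x)) :
    (th y a m - th x a m) + (th y m b - th x m b) = ps x y b - ps x y a - 2 * Real.pi := by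
  have hm' : m ∈ openSegment ℝ y x := by rw [openSegment_symm]; exact hm
  have e : ∀ w : ℂ, cr (x - y) (w - y) = - cr (y - x) (w - x) := by
    intro w; simp [cr]; ring
  have h := th_cross hm' (a := a) (b := b) (by rw [e]; linarith) (by rw [e]; linarith)
  have hps : ∀ w : ℂ, cr (y - x) (w - x) ≠ 0 → ps y x w = - ps x y w := by
    intro w hw
    have hn : w ∉ segment ℝ x y := by
      intro hh
      obtain ⟨s, -, -, rfl⟩ := mem_segment_iff_real.1 hh
      apply hw
      rw [add_sub_cancel_left, cr_smul_right, cr_self, mul_zero]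
    unfold ps
    have h1 := arg_ne_pi_of_slit (slit_of_not_mem' hn)
    have : (w - x) / (w - y) = ((w - y) / (w - x))⁻¹ := by rw [inv_div]
    rw [this, Complex.arg_inv, if_neg h1]
  rw [hps a ha.ne, hps b hb.ne'] at h
  linarith

/-- crossing with a sign -/
theorem th_cross_sign {x y a b m : ℂ} {σ : ℝ} (hσ : σ = 1 ∨ σ = -1)
    (hm : m ∈ openSegment ℝ x y) (hmab : m ∈ segment ℝ a b)
    (ha : 0 < σ * cr (y - x) (a - x)) (hb : σ * cr (y - x) (b - x) < 0)
    (hx : x ∉ segment ℝ a b) (hy : y ∉ segment ℝ a b) :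
    th y a b - th x a b = ps x y b - ps x y a + 2 * Real.pi * σ := by
  rw [← th_add hx hmab, ← th_add hy hmab]
  rcases hσ with rfl | rfl
  · have := th_cross hm (a := a) (b := b) (by linarith) (by linarith)
    linarith
  · have := th_cross' hm (a := a) (b := b) (by linarith) (by linarith)
    linarith

/-- the next tile at a vertex -/
noncomputable def nx (A : ι → Set ℂ) (c : ι → ℂ) (v : ℂ) (t : ι) : ι := by
  classical exact if h : ∃ s, Adj A t s ∧ lp A c t s = v then h.choose else t

/-- the dual face of a vertex -/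
def St (A : ι → Set ℂ) (p : ι → ℂ) (v : ℂ) : Set ℂ := convexHull ℝ (p '' {t | v ∈ A t})

theorem St_convex (A : ι → Set ℂ) (p : ι → ℂ) (v : ℂ) : Convex ℝ (St A p v) :=
  convex_convexHull ℝ _

theorem mem_St {A : ι → Set ℂ} {p : ι → ℂ} {v : ℂ} {t : ι} (h : v ∈ A t) : p t ∈ St A p v :=
  subset_convexHull ℝ _ ⟨t, h, rfl⟩

namespace CT

theorem finite_at (h : CT A c u U) (v : ℂ) : {t | v ∈ A t}.Finite :=
  (h.finite_meet v 0).subset (fun t ht => ⟨v, ht, mem_closedBall_self le_rfl⟩)

noncomputable def tv (h : CT A c u U) (v : ℂ) : Finset ι := (h.finite_at v).toFinset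

theorem mem_tv (h : CT A c u U) {v : ℂ} {t : ι} : t ∈ h.tv v ↔ v ∈ A t := by simp [tv]

theorem nx_spec (h : CT A c u U) {v : ℂ} (hv : IsV A v) {t : ι} (ht : v ∈ A t) :
    Adj A t (nx A c v t) ∧ lp A c t (nx A c v t) = v := by
  have hex := h.exists_lp ht hv
  unfold nx
  rw [dif_pos hex]
  exact hex.choose_spec

theorem nx_mem (h : CT A c u U) {v : ℂ} (hv : IsV A v) {t : ι} (ht : v ∈ A t) :
    v ∈ A (nx A c v t) := by
  obtain ⟨h1, h2⟩ := h.nx_spec hv ht
  have := (h.lp_mem h1).2
  rwa [h2] at this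

theorem nx_inj (h : CT A c u U) {v : ℂ} (hv : IsV A v) :
    Set.InjOn (nx A c v) (h.tv v : Set ι) := by
  intro t ht t' ht' he
  have h1 := h.nx_spec hv (h.mem_tv.1 ht)
  have h2 := h.nx_spec hv (h.mem_tv.1 ht')
  rw [← he] at h2
  apply h.rp_inj h1.1.symm h2.1.symm
  rw [h.rp_swap h1.1, h.rp_swap h2.1, h1.2, h2.2]

theorem nx_sum (h : CT A c u U) {v : ℂ} (hv : IsV A v) (g : ι → ℝ) :
    ∑ t ∈ h.tv v, g (nx A c v t) = ∑ t ∈ h.tv v, g t :=
  perm_sum _ _ (fun _ ht => h.mem_tv.2 (h.nx_mem hv (h.mem_tv.1 ht))) (h.nx_inj hv) g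

/-- angle sum around a dual face -/
noncomputable def Ph (h : CT A c u U) (p : ι → ℂ) (z v : ℂ) : ℝ :=
  ∑ t ∈ h.tv v, th z (p t) (p (nx A c v t))

theorem St_compact (h : CT A c u U) (p : ι → ℂ) (v : ℂ) : IsCompact (St A p v) :=
  ((h.finite_at v).image p).isCompact_convexHull ℝ

theorem St_closed (h : CT A c u U) (p : ι → ℂ) (v : ℂ) : IsClosed (St A p v) :=
  (h.St_compact p v).isClosed

theorem Gd_side (h : CT A c u U) {p : ι → ℂ} {κ σ : ℝ} (hκ : 0 ≤ κ) {t s : ι} {v : ℂ}
    (hG : Gd A c p κ σ t s) (he : lp A c t s = v) :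
    ∀ x ∈ St A p v, 0 ≤ σ * cr (p s - p t) (x - p t) := by
  intro x hx
  have hsub : St A p v ⊆ {x | 0 ≤ σ * cr (p s - p t) (x - p t)} := by
    apply convexHull_min
    · rintro _ ⟨r, hr, rfl⟩
      show 0 ≤ σ * cr (p s - p t) (p r - p t)
      by_cases h1 : r = t
      · rw [h1, sub_self, cr_zero_right, mul_zero]
      · by_cases h2 : r = s
        · rw [h2, cr_self, mul_zero]
        · have := hG.1 r h1 h2 (by rw [he]; exact hr)
          have h3 : 0 ≤ κ * ‖p s - p t‖ := by positivity
          linarith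
    · intro x hx y hy a b ha hb hab
      show 0 ≤ σ * cr (p s - p t) (a • x + b • y - p t)
      have hx' : 0 ≤ σ * cr (p s - p t) (x - p t) := hx
      have hy' : 0 ≤ σ * cr (p s - p t) (y - p t) := hy
      have e : a • x + b • y - p t = (a : ℂ) * (x - p t) + (b : ℂ) * (y - p t) := by
        rw [Complex.real_smul, Complex.real_smul]
        have : (a : ℂ) + b = 1 := by exact_mod_cast hab
        linear_combination (p t) * this
      rw [e, cr_add_right, cr_smul_right, cr_smul_right]
      have k1 := mul_nonneg ha hx'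
      have k2 := mul_nonneg hb hy'
      nlinarith
  exact hsub hx

theorem Gd_side' (h : CT A c u U) {p : ι → ℂ} {κ σ : ℝ} (hκ : 0 ≤ κ) {t s : ι} {v : ℂ}
    (hts : Adj A t s) (hG : Gd A c p κ σ t s) (he : rp A c t s = v) :
    ∀ x ∈ St A p v, σ * cr (p s - p t) (x - p t) ≤ 0 := by
  intro x hx
  have h1 := h.Gd_side hκ (h.Gd_symm hts hG) (by rw [h.lp_swap hts, he]) x hx
  have e : cr (p t - p s) (x - p s) = - cr (p s - p t) (x - p t) := by simp [cr]; ring
  rw [e] at h1
  linarith

theorem St_norm (h : CT A c u U) {p : ι → ℂ} {R : ℝ} (hB : Bd c p R) {v x : ℂ}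
    (hx : x ∈ St A p v) : ‖x - v‖ ≤ R + U := by
  have hsub : St A p v ⊆ closedBall v (R + U) := by
    apply convexHull_min _ (convex_closedBall _ _)
    rintro _ ⟨r, hr, rfl⟩
    have h1 := h.outer r hr
    rw [mem_closedBall, dist_eq_norm] at h1 ⊢
    have e : p r - v = (p r - c r) - (v - c r) := by ring
    rw [e]
    exact (norm_sub_le _ _).trans (add_le_add (hB r) h1)
  have := hsub hx
  rwa [mem_closedBall, dist_eq_norm] at this

/-- a disc inside a dual face -/
theorem St_ball (h : CT A c u U) {p : ι → ℂ} {R η : ℝ} (hη : 0 < η) (hB : Bd c p R)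
    (hM : Mg A p η) {σ : ℝ} (hσ : σ = 1 ∨ σ = -1) (hG : ∀ t s, Adj A t s → Gd A c p (η / 4) σ t s)
    {v : ℂ} (hv : IsV A v) :
    ∃ g, closedBall g ((η / 4) * (η / 4) / (3 * (2 * R + 2 * U))) ⊆ St A p v := by
  obtain ⟨i, j, k, hij, hjk, hik, hi, hj, hk⟩ := hv
  have hv : IsV A v := ⟨i, j, k, hij, hjk, hik, hi, hj, hk⟩
  have hR : 0 ≤ R := (norm_nonneg _).trans (hB i)
  have hU0 : 0 < U := lt_of_lt_of_le h.hu h.u_le_U
  obtain ⟨h1, h2⟩ := h.nx_spec hv hi
  set s := nx A c v i with hs
  obtain ⟨r, hri, hrs, hr⟩ := third_tile (h.isV_lp h1) i s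
  have hgd := (hG i s h1).1 r hri hrs hr
  have hfar := h.p_far hη hB hM h1
  rw [h2] at hr
  refine ⟨_, tri_ball (St_convex A p v) (mem_St hi) (mem_St (h.nx_mem hv hi)) (mem_St hr)
    (δ := (η / 4) * (η / 4)) (M := 2 * R + 2 * U) (by positivity) ?_ ?_ ?_ ?_ (by positivity)⟩
  · have e1 : (η / 4) * (η / 4) ≤ σ * cr (p s - p i) (p r - p i) := by
      refine le_trans ?_ hgd
      apply mul_le_mul_of_nonneg_left hfar (by positivity)
    refine e1.trans ?_
    have := le_abs_self (σ * cr (p s - p i) (p r - p i))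
    refine this.trans ?_
    rw [abs_mul]
    rcases hσ with rfl | rfl <;> simp
    · exact le_rfl
    · exact le_rfl
  · exact h.bd_adj hB h1
  · have a1 := h.St_norm hB (mem_St (p := p) hr)
    have a2 := h.St_norm hB (mem_St (p := p) hi)
    have e : p r - p i = (p r - v) - (p i - v) := by ring
    rw [e]
    refine (norm_sub_le _ _).trans ?_
    linarith
  · have a1 := h.St_norm hB (mem_St (p := p) hr)
    have a2 := h.St_norm hB (mem_St (p := p) (h.nx_mem hv hi))
    have e : p r - p s = (p r - v) - (p s - v) := by ring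
    rw [e]
    refine (norm_sub_le _ _).trans ?_
    linarith

theorem St_int_nonempty (h : CT A c u U) {p : ι → ℂ} {R η : ℝ} (hη : 0 < η) (hB : Bd c p R)
    (hM : Mg A p η) {σ : ℝ} (hσ : σ = 1 ∨ σ = -1) (hG : ∀ t s, Adj A t s → Gd A c p (η / 4) σ t s)
    {v : ℂ} (hv : IsV A v) : (interior (St A p v)).Nonempty := by
  obtain ⟨g, hg⟩ := h.St_ball hη hB hM hσ hG hv
  obtain ⟨i, -⟩ := h.cover v
  have hR : 0 ≤ R := (norm_nonneg _).trans (hB i)
  have hU0 : 0 < U := lt_of_lt_of_le h.hu h.u_le_U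
  exact ⟨g, interior_maximal (ball_subset_closedBall.trans hg) isOpen_ball
    (mem_ball_self (by positivity))⟩

/-- outside the dual face the angle sum vanishes -/
theorem Ph_out (h : CT A c u U) {p : ι → ℂ} {z v : ℂ} (hv : IsV A v) (hz : z ∉ St A p v) :
    h.Ph p z v = 0 := by
  obtain ⟨f, r, hf1, hf2⟩ := geometric_hahn_banach_point_closed (St_convex A p v)
    (h.St_closed p v) hz
  obtain ⟨n, hn⟩ := functional_dt f
  have hpos : ∀ t ∈ h.tv v, 0 < dt n (p t - z) := by
    intro t ht
    have := hf2 _ (mem_St (p := p) (h.mem_tv.1 ht))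
    rw [hn] at this hf1
    rw [dt_sub_right]; linarith
  unfold Ph
  have : ∀ t ∈ h.tv v, th z (p t) (p (nx A c v t))
      = (fun s => Complex.arg ((starRingEnd ℂ n) * (p s - z))) (nx A c v t)
        - (fun s => Complex.arg ((starRingEnd ℂ n) * (p s - z))) t := by
    intro t ht
    exact th_half (hpos t ht) (hpos _ (h.mem_tv.2 (h.nx_mem hv (h.mem_tv.1 ht))))
  rw [Finset.sum_congr rfl this, Finset.sum_sub_distrib,
    h.nx_sum hv (fun s => Complex.arg ((starRingEnd ℂ n) * (p s - z))), sub_self]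

/-- inside the dual face the angle sum is a full turn -/
theorem Ph_in (h : CT A c u U) {p : ι → ℂ} {R η : ℝ} (hη : 0 < η) (hB : Bd c p R)
    (hM : Mg A p η) {σ : ℝ} (hσ : σ = 1 ∨ σ = -1) (hG : ∀ t s, Adj A t s → Gd A c p (η / 4) σ t s)
    {z v : ℂ} (hv : IsV A v) (hz : z ∈ interior (St A p v)) :
    h.Ph p z v = 2 * Real.pi * σ := by
  classical
  have hσ0 : σ ≠ 0 := by rcases hσ with rfl | rfl <;> norm_num
  have hκ : 0 ≤ η / 4 := by positivity
  obtain ⟨t, ht⟩ := h.cover v
  obtain ⟨hts, hlp⟩ := h.nx_spec hv ht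
  set s := nx A c v t with hs
  have hD : p s - p t ≠ 0 := sub_ne_zero.2 (h.p_ne hη hB hM hts)
  set D := p s - p t with hDdef
  set q := (p t + p s) / 2 with hq
  have hside := h.Gd_side hκ (hG t s hts) hlp
  have hzpos : 0 < σ * cr D (z - p t) := int_pos hz hD hσ0 hside
  obtain ⟨z0, hz0⟩ : ∃ z0 : ℂ, z0 = 2 * q - z := ⟨_, rfl⟩
  have hz0neg : σ * cr D (z0 - p t) = -(σ * cr D (z - p t)) := by
    rw [hz0, hq, hDdef]; simp [cr]; ring
  have hz0out : z0 ∉ St A p v := by
    intro hh
    have := hside _ hh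
    rw [hz0neg] at this; linarith
  have hout := h.Ph_out (p := p) hv hz0out
  have hqSt : q ∈ St A p v := by
    apply (St_convex A p v).openSegment_subset (mem_St ht) (mem_St (h.nx_mem hv ht))
    exact mid_mem_open _ _
  have hqo : q ∈ openSegment ℝ z0 z := by
    have : q = (z0 + z) / 2 := by rw [hz0]; ring
    rw [this]; exact mid_mem_open _ _
  -- edges at `v` other than `t`
  have hother : ∀ t' ∈ h.tv v, t' ≠ t →
      Disjoint (segment ℝ z0 z) (segment ℝ (p t') (p (nx A c v t'))) := by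
    intro t' ht' hne
    rw [h.mem_tv] at ht'
    obtain ⟨hts', hlp'⟩ := h.nx_spec hv ht'
    set s' := nx A c v t' with hs'
    have hD' : p s' - p t' ≠ 0 := sub_ne_zero.2 (h.p_ne hη hB hM hts')
    have hside' := h.Gd_side hκ (hG t' s' hts') hlp'
    rw [Set.disjoint_left]
    intro w hw1 hw2
    have hcr0 : cr (p s' - p t') (w - p t') = 0 := by
      obtain ⟨a, -, -, rfl⟩ := mem_segment_iff_real.1 hw2
      rw [add_sub_cancel_left, cr_smul_right, cr_self, mul_zero]
    have hwSt : w ∈ St A p v :=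
      (St_convex A p v).segment_subset (mem_St ht') (mem_St (h.nx_mem hv ht')) hw2
    obtain ⟨b, hb0, hb1, hwb⟩ := mem_segment_iff_real.1 hw1
    have hwval : σ * cr D (w - p t) = (2 * b - 1) * (σ * cr D (z - p t)) := by
      rw [hwb, hz0, hq, hDdef]; simp [cr]; ring
    have hw0 := hside w hwSt
    rw [hwval] at hw0
    have hb2 : 1 / 2 ≤ b := by
      by_contra hc
      push Not at hc
      nlinarith
    rcases hb2.lt_or_eq with hlt | heq
    · -- interior point
      have hwint : w ∈ interior (St A p v) := by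
        have := (St_convex A p v).combo_interior_self_mem_interior hz hqSt
          (show 0 < 2 * b - 1 by linarith) (show 0 ≤ 2 - 2 * b by linarith) (by ring)
        convert this using 1
        rw [hwb, hz0, Complex.real_smul, Complex.real_smul]
        push_cast; ring
      have := int_pos hwint hD' hσ0 hside'
      rw [hcr0] at this
      simp at this
    · -- the midpoint
      have hwq : w = q := by rw [hwb, ← heq, hz0]; push_cast; ring
      have e1 : σ * cr (p s' - p t') (p t - p t') + σ * cr (p s' - p t') (p s - p t')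
          = 2 * (σ * cr (p s' - p t') (w - p t')) := by
        rw [hwq, hq]; simp [cr]; ring
      rw [hcr0, mul_zero, mul_zero] at e1
      have a1 := hside' _ (mem_St (p := p) ht)
      have a2 := hside' _ (mem_St (p := p) (h.nx_mem hv ht))
      have z1 : σ * cr (p s' - p t') (p t - p t') = 0 := by linarith
      have z2 : σ * cr (p s' - p t') (p s - p t') = 0 := by linarith
      have hn : 0 < ‖p s' - p t'‖ := norm_pos_iff.2 hD'
      have hκn : 0 < (η / 4) * ‖p s' - p t'‖ := by positivity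
      have hts1 : t = s' := by
        by_contra hc
        have := (hG t' s' hts').1 t hne.symm hc (by rw [hlp']; exact ht)
        linarith
      have hst1 : s = t' := by
        by_contra hc
        have hss : s ≠ s' := by rw [← hts1]; exact hts.1.symm
        have := (hG t' s' hts').1 s hc hss (by rw [hlp']; exact h.nx_mem hv ht)
        linarith
      have hadj : Adj A t' t := by rw [hts1]; exact hts'
      have e2 : lp A c t' t = v := by rw [hts1]; exact hlp'
      have e3 : lp A c t t' = v := by rw [← hst1]; exact hlp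
      have e4 := h.lp_swap hadj
      rw [e3, ← e2] at e4
      exact h.lp_ne_rp hadj e4
  -- the crossed edge
  have hmid : th z (p t) (p s) - th z0 (p t) (p s)
      = ps z0 z (p s) - ps z0 z (p t) + 2 * Real.pi * σ := by
    have hzz : z - z0 = 2 * (z - q) := by rw [hz0]; ring
    apply th_cross_sign hσ hqo (openSegment_subset_segment ℝ _ _ (mid_mem_open _ _))
    · have : cr (z - z0) (p t - z0) = cr D (z - p t) := by
        rw [hz0, hq, hDdef]; simp [cr]; ring
      rw [this]; exact hzpos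
    · have : cr (z - z0) (p s - z0) = - cr D (z - p t) := by
        rw [hz0, hq, hDdef]; simp [cr]; ring
      rw [this]; linarith
    · intro hh
      apply hz0out
      exact (St_convex A p v).segment_subset (mem_St ht) (mem_St (h.nx_mem hv ht)) hh
    · intro hh
      obtain ⟨a, -, -, hza⟩ := mem_segment_iff_real.1 hh
      rw [hza, add_sub_cancel_left, cr_smul_right, cr_self] at hzpos
      simp at hzpos
  have hall : ∀ t' ∈ h.tv v, th z (p t') (p (nx A c v t')) - th z0 (p t') (p (nx A c v t'))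
      = ((fun r => ps z0 z (p r)) (nx A c v t') - (fun r => ps z0 z (p r)) t')
        + (if t' = t then 2 * Real.pi * σ else 0) := by
    intro t' ht'
    by_cases htt : t' = t
    · rw [if_pos htt, htt]
      exact hmid
    · rw [if_neg htt, add_zero]
      exact th_move (hother t' ht' htt)
  have hsum : h.Ph p z v - h.Ph p z0 v = 2 * Real.pi * σ := by
    unfold Ph
    rw [← Finset.sum_sub_distrib, Finset.sum_congr rfl hall, Finset.sum_add_distrib,
      Finset.sum_sub_distrib, h.nx_sum hv (fun r => ps z0 z (p r)), sub_self, zero_add,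
      Finset.sum_ite_eq',
      if_pos (h.mem_tv.2 ht)]
  rw [hout, sub_zero] at hsum
  exact hsum

/-- frontier points of a dual face lie on its edges -/
theorem St_int_of_off (h : CT A c u U) {p : ι → ℂ} {R η : ℝ} (hη : 0 < η) (hB : Bd c p R)
    (hM : Mg A p η) {σ : ℝ} (hσ : σ = 1 ∨ σ = -1) (hG : ∀ t s, Adj A t s → Gd A c p (η / 4) σ t s)
    {z v : ℂ} (hv : IsV A v) (hz : z ∈ St A p v)
    (hoff : ∀ t ∈ h.tv v, z ∉ segment ℝ (p t) (p (nx A c v t))) : z ∈ interior (St A p v) := by
  classical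
  by_contra hzi
  set E : Set ℂ := ⋃ t ∈ h.tv v, segment ℝ (p t) (p (nx A c v t)) with hE
  have hEc : IsClosed E := by
    have h1 : E = ⋃ t ∈ (h.tv v : Set ι), segment ℝ (p t) (p (nx A c v t)) := by
      rw [hE]; simp
    rw [h1]
    apply (h.tv v).finite_toSet.isClosed_biUnion
    intro t _
    rw [← convexHull_pair]
    exact ((Set.toFinite _).isCompact_convexHull ℝ).isClosed
  have hzE : z ∈ Eᶜ := by
    rw [Set.mem_compl_iff, hE]
    simp only [Set.mem_iUnion, not_exists]
    exact hoff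
  obtain ⟨δ, hδ, hball⟩ := Metric.isOpen_iff.1 hEc.isOpen_compl z hzE
  have hout : ∃ z1 ∈ ball z δ, z1 ∉ St A p v := by
    by_contra hc
    push Not at hc
    exact hzi (interior_maximal (fun x hx => hc x hx) isOpen_ball (mem_ball_self hδ))
  obtain ⟨z1, hz1, hz1o⟩ := hout
  have hcl : z ∈ closure (interior (St A p v)) := by
    rw [(St_convex A p v).closure_interior_eq_closure_of_nonempty_interior
      (h.St_int_nonempty hη hB hM hσ hG hv)]
    exact subset_closure hz
  obtain ⟨z2, hz2, hz2i⟩ := mem_closure_iff.1 hcl _ isOpen_ball (mem_ball_self hδ)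
  have e1 := h.Ph_out (p := p) hv hz1o
  have e2 := h.Ph_in hη hB hM hσ hG hv hz2i
  have hseg : segment ℝ z1 z2 ⊆ Eᶜ :=
    ((convex_ball z δ).segment_subset hz1 hz2).trans hball
  have hmove : ∀ t ∈ h.tv v, th z2 (p t) (p (nx A c v t)) - th z1 (p t) (p (nx A c v t))
      = (fun r => ps z1 z2 (p r)) (nx A c v t) - (fun r => ps z1 z2 (p r)) t := by
    intro t ht
    apply th_move
    rw [Set.disjoint_left]
    intro w hw1 hw2
    apply hseg hw1
    rw [hE]
    simp only [Set.mem_iUnion]
    exact ⟨t, ht, hw2⟩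
  have hsum : h.Ph p z2 v - h.Ph p z1 v = 0 := by
    unfold Ph
    rw [← Finset.sum_sub_distrib, Finset.sum_congr rfl hmove, Finset.sum_sub_distrib,
      h.nx_sum hv (fun r => ps z1 z2 (p r)), sub_self]
  rw [e1, e2] at hsum
  have hpi := Real.pi_pos
  rcases hσ with rfl | rfl
  · linarith
  · linarith

end CT

end Pool.Agent.Helper89.Dual
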