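import Pool.Agent.Helper89.Dual.Face2
set_option autoImplicit false

/-!
The covering identity: every generic point lies in exactly one dual face.
-/

namespace Pool.Agent.Helper89.Dual

open Complex Set Metric Filter Topology

variable {ι : Type} {A : ι → Set ℂ} {c : ι → ℂ} {u U : ℝ}

theorem seg_compl_dense {a b : ℂ} (hab : a ≠ b) : Dense (segment ℝ a b)ᶜ := by
  rw [← interior_eq_empty_iff_dense_compl]
  by_contra hne
  obtain ⟨x, hx⟩ := Set.nonempty_iff_ne_empty.2 hne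
  have hD : b - a ≠ 0 := sub_ne_zero.2 hab.symm
  have hz : ∀ w ∈ segment ℝ a b, cr (b - a) (w - a) = 0 := by
    intro w hw
    obtain ⟨s, -, -, rfl⟩ := mem_segment_iff_real.1 hw
    rw [add_sub_cancel_left, cr_smul_right, cr_self, mul_zero]
  have := int_pos (a := a) hx hD one_ne_zero (fun w hw => by rw [hz w hw, mul_zero])
  rw [hz x (interior_subset hx)] at this
  simp at this

/-- inside a half plane the angle sum along a walk is the angle between its end points -/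
theorem wsum_half {V : Type} {G : SimpleGraph V} {q : V → ℂ} {v n : ℂ} {a b : V}
    (P : G.Walk a b) (hP : ∀ i ∈ P.support, 0 < dt n (q i - v)) :
    wsum (fun i j => th v (q i) (q j)) P = th v (q a) (q b) := by
  have h1 := wsum_congr (fun i j => th v (q i) (q j)) (fun _ _ => 0)
    (fun i => Complex.arg ((starRingEnd ℂ n) * (q i - v))) P
    (fun i j _ hi hj => by rw [zero_add]; exact th_half (hP i hi) (hP j hj))
  rw [h1, wsum_zero (fun _ _ => 0) P (fun _ _ _ _ _ => rfl), zero_add,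
    th_half (hP a P.start_mem_support) (hP b P.end_mem_support)]

theorem wsum_half_Th {v n : ℂ} {a b : ι}
    (P : (gr A).Walk a b) (hP : ∀ i ∈ P.support, 0 < dt n (c i - v))
    (hP' : ∀ i ∈ P.support, ∀ j, Adj A i j → 0 < dt n (mp A c i j - v)) :
    wsum (Th A c v) P = th v (c a) (c b) := by
  have h1 := wsum_congr (Th A c v) (fun _ _ => 0)
    (fun i => Complex.arg ((starRingEnd ℂ n) * (c i - v))) P
    (fun i j hij hi hj => by
      rw [zero_add]; unfold Th
      rw [th_half (hP i hi) (hP' i hi j hij), th_half (hP' i hi j hij) (hP j hj)]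
      ring)
  rw [h1, wsum_zero (fun _ _ => 0) P (fun _ _ _ _ _ => rfl), zero_add,
    th_half (hP a P.start_mem_support) (hP b P.end_mem_support)]

theorem big_cr {X Y f1 f2 : ℂ} {K E : ℝ} (hXY : cr X Y = 24 * K ^ 2) (hX : ‖X‖ ≤ 8 * K)
    (hY : ‖Y‖ ≤ 8 * K) (h1 : ‖f1‖ ≤ E) (h2 : ‖f2‖ ≤ E) (hE : E ≤ K) (hK : 0 < K) :
    0 < cr (X + f1) (Y + f2) := by
  have e : cr (X + f1) (Y + f2) = cr X Y + cr X f2 + cr f1 Y + cr f1 f2 := by
    simp [cr]; ring
  have hE0 : 0 ≤ E := (norm_nonneg _).trans h1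
  have a1 := (abs_le.1 (cr_le X f2)).1
  have a2 := (abs_le.1 (cr_le f1 Y)).1
  have a3 := (abs_le.1 (cr_le f1 f2)).1
  have b1 : ‖X‖ * ‖f2‖ ≤ 8 * K * K := mul_le_mul hX (h2.trans hE) (norm_nonneg _) (by positivity)
  have b2 : ‖f1‖ * ‖Y‖ ≤ K * (8 * K) := mul_le_mul (h1.trans hE) hY (norm_nonneg _) hK.le
  have b3 : ‖f1‖ * ‖f2‖ ≤ K * K := mul_le_mul (h1.trans hE) (h2.trans hE) (norm_nonneg _) hK.le
  rw [e, hXY]
  have : 0 < K ^ 2 := by positivity
  nlinarith

namespace CT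

theorem half_tiles (h : CT A c u U) {z n v x : ℂ} (hn : ‖n‖ = 1) {K r0 E : ℝ} {i : ι}
    (hi : (A i ∩ {w | K < dt n (w - z)}).Nonempty) (hv : ‖v - z‖ ≤ r0)
    (hx : ∀ w ∈ A i, ‖x - w‖ ≤ E) (hK : E + r0 ≤ K) : 0 < dt n (x - v) := by
  obtain ⟨w, hw1, hw2⟩ := hi
  have hw2' : K < dt n (w - z) := hw2
  have h1 := (abs_le.1 ((dt_le_of_unit hn (x - w)).trans (hx w hw1))).1
  have h2 := (abs_le.1 ((dt_le_of_unit hn (v - z)).trans hv)).2
  have e : dt n (x - v) = dt n (w - z) + dt n (x - w) - dt n (v - z) := by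
    simp only [dt_sub_right]; ring
  rw [e]; linarith

theorem half_conn (h : CT A c u U) (z n : ℂ) (K : ℝ) :
    Cn A {i | (A i ∩ {w | K < dt n (w - z)}).Nonempty} := by
  apply h.conn_open
  · exact isOpen_lt continuous_const ((continuous_dt_right n).comp
      (continuous_id.sub continuous_const))
  · intro x hx y hy a b ha hb hab
    show K < dt n (a • x + b • y - z)
    have e : a • x + b • y - z = (a : ℂ) * (x - z) + (b : ℂ) * (y - z) := by
      rw [Complex.real_smul, Complex.real_smul]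
      have : (a : ℂ) + b = 1 := by exact_mod_cast hab
      linear_combination z * this
    rw [e, dt_add_right, dt_smul_right, dt_smul_right]
    have hx' : K < dt n (x - z) := hx
    have hy' : K < dt n (y - z) := hy
    rcases ha.lt_or_eq with h1 | h1
    · have k1 := mul_lt_mul_of_pos_left hx' h1
      have k2 := mul_le_mul_of_nonneg_left hy'.le hb
      have k3 : a * K + b * K = K := by rw [← add_mul, hab, one_mul]
      linarith
    · have : b = 1 := by linarith
      rw [← h1, this]; linarith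

/-- a big closed walk around `z` -/
theorem loop (h : CT A c u U) {p : ι → ℂ} {R : ℝ} (hB : Bd c p R) (z : ℂ) {r0 : ℝ}
    (hr0 : 0 ≤ r0) : ∃ (t : ι) (C : (gr A).Walk t t),
      (∀ v, ‖v - z‖ ≤ r0 → wsum (Th A c v) C = 2 * Real.pi) ∧
      (∀ v, ‖v - z‖ ≤ r0 → wsum (fun i j => th v (p i) (p j)) C = 2 * Real.pi) := by
  obtain ⟨i0, -⟩ := h.cover 0
  have hR : 0 ≤ R := (norm_nonneg _).trans (hB i0)
  have hU0 : 0 < U := lt_of_lt_of_le h.hu h.u_le_U
  set K : ℝ := 2 * U + R + r0 with hK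
  have hK0 : 0 < K := by positivity
  obtain ⟨n1, hn1⟩ : ∃ n : ℂ, n = ⟨0, -1⟩ := ⟨_, rfl⟩
  obtain ⟨n2, hn2⟩ : ∃ n : ℂ, n = ⟨3/5, 4/5⟩ := ⟨_, rfl⟩
  obtain ⟨n3, hn3⟩ : ∃ n : ℂ, n = ⟨-3/5, 4/5⟩ := ⟨_, rfl⟩
  have nn : ∀ n : ℂ, n.re * n.re + n.im * n.im = 1 → ‖n‖ = 1 := by
    intro n hn
    have : ‖n‖ ^ 2 = 1 := by rw [← Complex.normSq_eq_norm_sq, Complex.normSq_apply]; exact hn
    have h0 := norm_nonneg n
    nlinarith
  have u1 : ‖n1‖ = 1 := nn n1 (by rw [hn1]; norm_num)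
  have u2 : ‖n2‖ = 1 := nn n2 (by rw [hn2]; norm_num)
  have u3 : ‖n3‖ = 1 := nn n3 (by rw [hn3]; norm_num)
  obtain ⟨X, hX⟩ : ∃ X : ℂ, X = ⟨-6 * K, -2 * K⟩ := ⟨_, rfl⟩
  obtain ⟨Y, hY⟩ : ∃ X : ℂ, X = ⟨6 * K, -2 * K⟩ := ⟨_, rfl⟩
  obtain ⟨W, hW⟩ : ∃ X : ℂ, X = ⟨0, 4 * K⟩ := ⟨_, rfl⟩
  have nX : ‖X‖ ≤ 8 * K := by
    refine (Complex.norm_le_abs_re_add_abs_im X).trans ?_
    rw [hX]; simp only
    rw [abs_mul, abs_mul, abs_of_pos hK0]; norm_num; linarith
  have nY : ‖Y‖ ≤ 8 * K := by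
    refine (Complex.norm_le_abs_re_add_abs_im Y).trans ?_
    rw [hY]; simp only
    rw [abs_mul, abs_mul, abs_of_pos hK0]; norm_num; linarith
  have nW : ‖W‖ ≤ 8 * K := by
    refine (Complex.norm_le_abs_re_add_abs_im W).trans ?_
    rw [hW]; simp only
    rw [abs_mul, abs_of_pos hK0]; norm_num; linarith
  have cXY : cr X Y = 24 * K ^ 2 := by rw [hX, hY]; simp [cr]; ring
  have cYW : cr Y W = 24 * K ^ 2 := by rw [hY, hW]; simp [cr]; ring
  have cWX : cr W X = 24 * K ^ 2 := by rw [hX, hW]; simp [cr]; ring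
  obtain ⟨ta, hta⟩ := h.cover (z + X)
  obtain ⟨tb, htb⟩ := h.cover (z + Y)
  obtain ⟨td, htd⟩ := h.cover (z + W)
  have m1a : (A ta ∩ {w | K < dt n1 (w - z)}).Nonempty := ⟨z + X, hta, by
    show K < dt n1 (z + X - z)
    rw [add_sub_cancel_left, hn1, hX]; simp [dt]; linarith⟩
  have m1b : (A tb ∩ {w | K < dt n1 (w - z)}).Nonempty := ⟨z + Y, htb, by
    show K < dt n1 (z + Y - z)
    rw [add_sub_cancel_left, hn1, hY]; simp [dt]; linarith⟩
  have m2b : (A tb ∩ {w | K < dt n2 (w - z)}).Nonempty := ⟨z + Y, htb, by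
    show K < dt n2 (z + Y - z)
    rw [add_sub_cancel_left, hn2, hY]; simp [dt]; linarith⟩
  have m2d : (A td ∩ {w | K < dt n2 (w - z)}).Nonempty := ⟨z + W, htd, by
    show K < dt n2 (z + W - z)
    rw [add_sub_cancel_left, hn2, hW]; simp [dt]; linarith⟩
  have m3d : (A td ∩ {w | K < dt n3 (w - z)}).Nonempty := ⟨z + W, htd, by
    show K < dt n3 (z + W - z)
    rw [add_sub_cancel_left, hn3, hW]; simp [dt]; linarith⟩
  have m3a : (A ta ∩ {w | K < dt n3 (w - z)}).Nonempty := ⟨z + X, hta, by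
    show K < dt n3 (z + X - z)
    rw [add_sub_cancel_left, hn3, hX]; simp [dt]; linarith⟩
  obtain ⟨P1, hP1⟩ := h.half_conn z n1 K ta m1a tb m1b
  obtain ⟨P2, hP2⟩ := h.half_conn z n2 K tb m2b td m2d
  obtain ⟨P3, hP3⟩ := h.half_conn z n3 K td m3d ta m3a
  -- distance bounds
  have dc : ∀ i, ∀ w ∈ A i, ‖c i - w‖ ≤ 2 * U + R := by
    intro i w hw
    have := h.outer i hw
    rw [mem_closedBall, dist_eq_norm, norm_sub_rev] at this
    linarith
  have dm : ∀ i j, Adj A i j → ∀ w ∈ A i, ‖mp A c i j - w‖ ≤ 2 * U + R := by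
    intro i j hij w hw
    have h1 := h.outer i hw
    have h2 := h.outer i (h.mp_mem hij).1
    rw [mem_closedBall, dist_eq_norm] at h1 h2
    have e : mp A c i j - w = (mp A c i j - c i) - (w - c i) := by ring
    rw [e]
    have := norm_sub_le (mp A c i j - c i) (w - c i)
    linarith
  have dp : ∀ i, ∀ w ∈ A i, ‖p i - w‖ ≤ 2 * U + R := by
    intro i w hw
    have h1 := h.outer i hw
    rw [mem_closedBall, dist_eq_norm] at h1
    have e : p i - w = (p i - c i) - (w - c i) := by ring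
    rw [e]
    have := norm_sub_le (p i - c i) (w - c i)
    have h3 := hB i
    linarith
  have tri : ∀ (q : ι → ℂ), (∀ i, ∀ w ∈ A i, ‖q i - w‖ ≤ 2 * U + R) → ∀ v, ‖v - z‖ ≤ r0 →
      th v (q ta) (q tb) + th v (q tb) (q td) + th v (q td) (q ta) = 2 * Real.pi := by
    intro q hq v hv
    have key : ∀ (s t : ι) (S T : ℂ), z + S ∈ A s → z + T ∈ A t → cr S T = 24 * K ^ 2 →
        ‖S‖ ≤ 8 * K → ‖T‖ ≤ 8 * K → 0 < cr (q s - v) (q t - v) := by
      intro s t S T hS hT hc hnS hnT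
      have e1 : q s - v = S + ((q s - (z + S)) - (v - z)) := by ring
      have e2 : q t - v = T + ((q t - (z + T)) - (v - z)) := by ring
      rw [e1, e2]
      apply big_cr hc hnS hnT (E := K) _ _ le_rfl hK0
      · have := norm_sub_le (q s - (z + S)) (v - z)
        have := hq s _ hS
        linarith
      · have := norm_sub_le (q t - (z + T)) (v - z)
        have := hq t _ hT
        linarith
    exact th_tri (key ta tb X Y hta htb cXY nX nY) (key tb td Y W htb htd cYW nY nW)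
      (key td ta W X htd hta cWX nW nX)
  refine ⟨ta, (P1.append P2).append P3, ?_, ?_⟩
  · intro v hv
    rw [wsum_append, wsum_append,
      wsum_half_Th P1 (n := n1) (fun i hi => h.half_tiles u1 (hP1 i hi) hv (dc i) le_rfl)
        (fun i hi j hij => h.half_tiles u1 (hP1 i hi) hv (dm i j hij) le_rfl),
      wsum_half_Th P2 (n := n2) (fun i hi => h.half_tiles u2 (hP2 i hi) hv (dc i) le_rfl)
        (fun i hi j hij => h.half_tiles u2 (hP2 i hi) hv (dm i j hij) le_rfl),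
      wsum_half_Th P3 (n := n3) (fun i hi => h.half_tiles u3 (hP3 i hi) hv (dc i) le_rfl)
        (fun i hi j hij => h.half_tiles u3 (hP3 i hi) hv (dm i j hij) le_rfl)]
    exact tri c dc v hv
  · intro v hv
    rw [wsum_append, wsum_append,
      wsum_half P1 (n := n1) (fun i hi => h.half_tiles u1 (hP1 i hi) hv (dp i) le_rfl),
      wsum_half P2 (n := n2) (fun i hi => h.half_tiles u2 (hP2 i hi) hv (dp i) le_rfl),
      wsum_half P3 (n := n3) (fun i hi => h.half_tiles u3 (hP3 i hi) hv (dp i) le_rfl)]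
    exact tri p dp v hv

/-- far away from a closed walk its angle sum vanishes -/
theorem far_zero (h : CT A c u U) (z : ℂ) {t : ι} (C : (gr A).Walk t t) :
    ∃ ρ : ℝ, ∀ v, ρ < ‖v - z‖ → wsum (Th A c v) C = 0 := by
  classical
  have hbd : ∃ ρ : ℝ, 0 ≤ ρ ∧ ∀ i ∈ C.support, ‖c i - z‖ ≤ ρ := by
    obtain ⟨M, hM⟩ := (C.support.toFinset.image (fun i => ‖c i - z‖)).bddAbove
    refine ⟨max M 0, le_max_right _ _, ?_⟩
    intro i hi
    refine le_trans (hM ?_) (le_max_left _ _)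
    rw [Finset.mem_coe, Finset.mem_image]
    exact ⟨i, List.mem_toFinset.2 hi, rfl⟩
  obtain ⟨ρ, hρ0, hρ⟩ := hbd
  have hU0 := h.U_nonneg
  refine ⟨ρ + U, fun v hv => ?_⟩
  have key : ∀ x : ℂ, ‖x - z‖ ≤ ρ + U → 0 < dt (z - v) (x - v) := by
    intro x hx
    have e : x - v = (z - v) + (x - z) := by ring
    rw [e, dt_add_right, dt_self_norm]
    have h1 := (abs_le.1 (dt_le (z - v) (x - z))).1
    rw [norm_sub_rev v z] at hv
    have h2 : 0 < ‖z - v‖ := by linarith
    have h3 : ‖z - v‖ * ‖x - z‖ < ‖z - v‖ * ‖z - v‖ := by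
      apply mul_lt_mul_of_pos_left _ h2; linarith
    nlinarith
  have h1 := wsum_half_Th C (v := v) (n := z - v)
    (fun i hi => key (c i) (by have := hρ i hi; linarith))
    (fun i hi j hij => key _ (by
      have h2 := h.outer i (h.mp_mem hij).1
      rw [mem_closedBall, dist_eq_norm] at h2
      have e : mp A c i j - z = (mp A c i j - c i) + (c i - z) := by ring
      rw [e]
      have := norm_add_le (mp A c i j - c i) (c i - z)
      have := hρ i hi
      linarith))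
  rw [h1]
  apply th_self
  intro he
  have := key (c t) (by have := hρ t C.start_mem_support; linarith)
  rw [he, sub_self] at this
  simp [dt] at this

theorem gen_dense (h : CT A c u U) {p : ι → ℂ} {R η : ℝ} (hη : 0 < η) (hB : Bd c p R)
    (hM : Mg A p η) : Dense {z | ∀ t s, Adj A t s → z ∉ segment ℝ (p t) (p s)} := by
  have := h.countable_index
  have e : {z | ∀ t s, Adj A t s → z ∉ segment ℝ (p t) (p s)}
      = ⋂ x : ι × ι, {z | Adj A x.1 x.2 → z ∉ segment ℝ (p x.1) (p x.2)} := by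
    ext z; simp
  rw [e]
  have hclosed : ∀ a b : ℂ, IsClosed (segment ℝ a b) := by
    intro a b
    rw [← convexHull_pair]
    exact ((Set.toFinite _).isCompact_convexHull ℝ).isClosed
  apply dense_iInter_of_isOpen
  · intro x
    by_cases hx : Adj A x.1 x.2
    · have : {z | Adj A x.1 x.2 → z ∉ segment ℝ (p x.1) (p x.2)}
          = (segment ℝ (p x.1) (p x.2))ᶜ := by ext z; simp [hx]
      rw [this]; exact (hclosed _ _).isOpen_compl
    · have : {z | Adj A x.1 x.2 → z ∉ segment ℝ (p x.1) (p x.2)} = univ := by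
        ext z; simp [hx]
      rw [this]; exact isOpen_univ
  · intro x
    by_cases hx : Adj A x.1 x.2
    · have : {z | Adj A x.1 x.2 → z ∉ segment ℝ (p x.1) (p x.2)}
          = (segment ℝ (p x.1) (p x.2))ᶜ := by ext z; simp [hx]
      rw [this]; exact seg_compl_dense (h.p_ne hη hB hM hx).symm
    · have : {z | Adj A x.1 x.2 → z ∉ segment ℝ (p x.1) (p x.2)} = univ := by
        ext z; simp [hx]
      rw [this]; exact dense_univ

/-- the covering identity -/
theorem cover_identity (h : CT A c u U) {p : ι → ℂ} {z : ℂ}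
    (hz : ∀ t s, Adj A t s → z ∉ segment ℝ (p t) (p s)) {t0 : ι} (C : (gr A).Walk t0 t0)
    (V : Finset ℂ) (hV : ∀ v ∈ V, IsV A v)
    (hV2 : ∀ v, IsV A v → wsum (Th A c v) C ≠ 0 → v ∈ V) :
    ∑ v ∈ V, wsum (Th A c v) C * h.Ph p z v
      = 2 * Real.pi * wsum (fun i j => th z (p i) (p j)) C := by
  classical
  set D : ℂ → ℝ := fun v => wsum (Th A c v) C with hD
  set F : ι → ι → ℝ := fun i j => th z (p i) (p j) with hF
  have hFanti : ∀ i j, Adj A i j → F j i = - F i j := fun i j hij => th_symm (hz i j hij)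
  set T : Finset ι := C.support.toFinset ∪ V.biUnion (fun v => h.tv v) with hT
  set P : Finset (ι × ι) := (T ×ˢ T).filter (fun x => Adj A x.1 x.2) with hP
  have memP : ∀ x : ι × ι, x ∈ P ↔ (x.1 ∈ T ∧ x.2 ∈ T) ∧ Adj A x.1 x.2 := by
    intro x; rw [hP, Finset.mem_filter, Finset.mem_product]
  -- step 1
  have s1 : ∑ v ∈ V, D v * h.Ph p z v = ∑ x ∈ P, D (lp A c x.1 x.2) * F x.1 x.2 := by
    have e1 : ∑ v ∈ V, D v * h.Ph p z v
        = ∑ y ∈ V.sigma (fun v => h.tv v), D y.1 * F y.2 (nx A c y.1 y.2) := by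
      rw [Finset.sum_sigma]
      apply Finset.sum_congr rfl
      intro v _
      unfold Ph
      rw [Finset.mul_sum]
    have e2 : ∑ x ∈ P, D (lp A c x.1 x.2) * F x.1 x.2
        = ∑ x ∈ P.filter (fun x => lp A c x.1 x.2 ∈ V), D (lp A c x.1 x.2) * F x.1 x.2 := by
      symm
      apply Finset.sum_filter_of_ne
      intro x hx hne
      have hadj := ((memP x).1 hx).2
      apply hV2 _ (h.isV_lp hadj)
      intro h0
      apply hne
      show D (lp A c x.1 x.2) * F x.1 x.2 = 0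
      have : D (lp A c x.1 x.2) = 0 := h0
      rw [this, zero_mul]
    rw [e1, e2]
    apply Finset.sum_bij' (i := fun (y : (_ : ℂ) × ι) _ => ((y.2, nx A c y.1 y.2) : ι × ι))
      (j := fun (x : ι × ι) _ => (⟨lp A c x.1 x.2, x.1⟩ : (_ : ℂ) × ι))
    · rintro ⟨v, t⟩ hy
      rw [Finset.mem_sigma] at hy
      obtain ⟨hv, ht⟩ := hy
      have ht' := h.mem_tv.1 ht
      obtain ⟨k1, k2⟩ := h.nx_spec (hV v hv) ht'
      rw [Finset.mem_filter, memP]
      refine ⟨⟨⟨?_, ?_⟩, k1⟩, ?_⟩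
      · rw [hT, Finset.mem_union, Finset.mem_biUnion]
        exact Or.inr ⟨v, hv, ht⟩
      · rw [hT, Finset.mem_union, Finset.mem_biUnion]
        exact Or.inr ⟨v, hv, h.mem_tv.2 (h.nx_mem (hV v hv) ht')⟩
      · show lp A c t (nx A c v t) ∈ V
        rw [k2]; exact hv
    · rintro ⟨t, s⟩ hx
      rw [Finset.mem_filter, memP] at hx
      rw [Finset.mem_sigma]
      exact ⟨hx.2, h.mem_tv.2 (h.lp_mem hx.1.2).1⟩
    · rintro ⟨v, t⟩ hy
      rw [Finset.mem_sigma] at hy
      obtain ⟨hv, ht⟩ := hy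
      obtain ⟨k1, k2⟩ := h.nx_spec (hV v hv) (h.mem_tv.1 ht)
      simp only [k2]
    · rintro ⟨t, s⟩ hx
      rw [Finset.mem_filter, memP] at hx
      have hadj : Adj A t s := hx.1.2
      obtain ⟨k1, k2⟩ := h.nx_spec (h.isV_lp hadj) (h.lp_mem hadj).1
      have := h.lp_inj k1 hadj k2
      simp only [this]
    · rintro ⟨v, t⟩ hy
      rw [Finset.mem_sigma] at hy
      obtain ⟨hv, ht⟩ := hy
      obtain ⟨k1, k2⟩ := h.nx_spec (hV v hv) (h.mem_tv.1 ht)
      simp only [k2]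
  -- step 2
  have s2 : ∑ x ∈ P, D (lp A c x.1 x.2) * F x.1 x.2
      = - ∑ x ∈ P, D (rp A c x.1 x.2) * F x.1 x.2 := by
    have e1 : ∑ x ∈ P, D (lp A c x.1 x.2) * F x.1 x.2
        = ∑ x ∈ P, D (lp A c x.2 x.1) * F x.2 x.1 := by
      apply Finset.sum_bij' (i := fun (x : ι × ι) _ => x.swap) (j := fun (x : ι × ι) _ => x.swap)
      · intro x hx
        rw [memP] at hx ⊢
        exact ⟨⟨hx.1.2, hx.1.1⟩, hx.2.symm⟩
      · intro x hx
        rw [memP] at hx ⊢
        exact ⟨⟨hx.1.2, hx.1.1⟩, hx.2.symm⟩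
      · intro x _; exact x.swap_swap
      · intro x _; exact x.swap_swap
      · intro x _; rfl
    rw [e1, ← Finset.sum_neg_distrib]
    apply Finset.sum_congr rfl
    intro x hx
    have hadj := ((memP x).1 hx).2
    rw [h.lp_swap hadj, hFanti _ _ hadj]; ring
  -- step 4
  have s4 : ∀ (a b : ι) (q : (gr A).Walk a b), (∀ m ∈ q.support, m ∈ T) →
      ∑ x ∈ P, wsum (ei x.1 x.2) q * F x.1 x.2 = 2 * wsum F q := by
    intro a b q
    induction q with
    | nil => intro _; simp [wsum_nil]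
    | @cons a m b ham q ih =>
      intro hsup
      have hadj : Adj A a m := ham
      have haT : a ∈ T := hsup a (by simp)
      have hmT : m ∈ T := hsup m (by simp)
      rw [wsum_cons, mul_add, ← ih (fun x hx => hsup x (by simp [hx]))]
      have e1 : ∑ x ∈ P, ei x.1 x.2 a m * F x.1 x.2 = 2 * F a m := by
        have e2 : ∀ x ∈ P, ei x.1 x.2 a m * F x.1 x.2
            = (if x = (a, m) then F a m else 0) - (if x = (m, a) then F m a else 0) := by
          rintro ⟨t, s⟩ _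
          have q1 : ((t, s) = (a, m)) ↔ (a = t ∧ m = s) := by
            rw [Prod.mk.injEq]; exact ⟨fun hh => ⟨hh.1.symm, hh.2.symm⟩,
              fun hh => ⟨hh.1.symm, hh.2.symm⟩⟩
          have q2 : ((t, s) = (m, a)) ↔ (a = s ∧ m = t) := by
            rw [Prod.mk.injEq]; exact ⟨fun hh => ⟨hh.2.symm, hh.1.symm⟩,
              fun hh => ⟨hh.2.symm, hh.1.symm⟩⟩
          simp only [ei, q1, q2, sub_mul, ite_mul, one_mul, zero_mul]
          congr 1
          · split_ifs with hh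
            · rw [hh.1, hh.2]
            · rfl
          · split_ifs with hh
            · rw [hh.1, hh.2]
            · rfl
        rw [Finset.sum_congr rfl e2, Finset.sum_sub_distrib, Finset.sum_ite_eq',
          Finset.sum_ite_eq', if_pos ((memP _).2 ⟨⟨haT, hmT⟩, hadj⟩),
          if_pos ((memP _).2 ⟨⟨hmT, haT⟩, hadj.symm⟩), hFanti a m hadj]
        ring
      rw [← e1, ← Finset.sum_add_distrib]
      apply Finset.sum_congr rfl
      intro x _
      rw [wsum_cons]; ring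
  have hCT : ∀ m ∈ C.support, m ∈ T := by
    intro m hm
    rw [hT, Finset.mem_union]
    exact Or.inl (List.mem_toFinset.2 hm)
  have s4' := s4 t0 t0 C hCT
  -- step 3
  have s3 : ∑ x ∈ P, (D (lp A c x.1 x.2) - D (rp A c x.1 x.2)) * F x.1 x.2
      = 2 * Real.pi * ∑ x ∈ P, wsum (ei x.1 x.2) C * F x.1 x.2 := by
    rw [Finset.mul_sum]
    apply Finset.sum_congr rfl
    intro x hx
    have hadj := ((memP x).1 hx).2
    have := h.wd_edge C SimpleGraph.Walk.nil hadj
    rw [wsum_nil, wsum_nil, wsum_nil] at this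
    have e : D (lp A c x.1 x.2) - D (rp A c x.1 x.2)
        = 2 * Real.pi * wsum (ei x.1 x.2) C := by
      simp only [hD]; linarith
    rw [e]; ring
  have e5 : ∑ x ∈ P, (D (lp A c x.1 x.2) - D (rp A c x.1 x.2)) * F x.1 x.2
      = ∑ x ∈ P, D (lp A c x.1 x.2) * F x.1 x.2 - ∑ x ∈ P, D (rp A c x.1 x.2) * F x.1 x.2 := by
    rw [← Finset.sum_sub_distrib]
    apply Finset.sum_congr rfl
    intro x _; ring
  rw [s4'] at s3
  show ∑ v ∈ V, D v * h.Ph p z v = _
  rw [s1]
  linarith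

theorem unique_face (h : CT A c u U) {p : ι → ℂ} {R η : ℝ} (hη : 0 < η) (hB : Bd c p R)
    (hM : Mg A p η) {σ : ℝ} (hσ : σ = 1 ∨ σ = -1) (hG : ∀ t s, Adj A t s → Gd A c p (η / 4) σ t s)
    {z : ℂ} (hz : ∀ t s, Adj A t s → z ∉ segment ℝ (p t) (p s)) :
    σ = 1 ∧ ∃ v, IsV A v ∧ z ∈ St A p v ∧ ∀ w, IsV A w → z ∈ St A p w → w = v := by
  classical
  obtain ⟨i0, -⟩ := h.cover 0
  have hR : 0 ≤ R := (norm_nonneg _).trans (hB i0)
  have hU0 := h.U_nonneg
  obtain ⟨t0, C, hC1, hC2⟩ := h.loop hB z (r0 := R + U) (by positivity)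
  obtain ⟨ρ, hρ⟩ := h.far_zero z C
  set V : Finset ℂ := (h.finite_V z ρ).toFinset with hV
  have memV : ∀ v, v ∈ V ↔ IsV A v ∧ v ∈ closedBall z ρ := by
    intro v; rw [hV, Set.Finite.mem_toFinset]; rfl
  have hV1 : ∀ v ∈ V, IsV A v := fun v hv => ((memV v).1 hv).1
  have hV2 : ∀ v, IsV A v → wsum (Th A c v) C ≠ 0 → v ∈ V := by
    intro v hv hne
    rw [memV]
    refine ⟨hv, ?_⟩
    rw [mem_closedBall, dist_eq_norm]
    by_contra hc
    push Not at hc
    exact hne (hρ v hc)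
  have hid := h.cover_identity hz C V hV1 hV2
  rw [hC2 z (by rw [sub_self, norm_zero]; positivity)] at hid
  have hpi := Real.pi_pos
  have hnorm : ∀ v, z ∈ St A p v → ‖v - z‖ ≤ R + U := by
    intro v hv
    rw [norm_sub_rev]; exact h.St_norm hB hv
  have hterm : ∀ v ∈ V, wsum (Th A c v) C * h.Ph p z v
      = if z ∈ St A p v then 2 * Real.pi * (2 * Real.pi * σ) else 0 := by
    intro v hv
    split_ifs with hzv
    · rw [hC1 v (hnorm v hzv)]
      rw [h.Ph_in hη hB hM hσ hG (hV1 v hv) (h.St_int_of_off hη hB hM hσ hG (hV1 v hv) hzv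
        (fun t ht => hz t _ (h.nx_spec (hV1 v hv) (h.mem_tv.1 ht)).1))]
    · rw [h.Ph_out (hV1 v hv) hzv, mul_zero]
  rw [Finset.sum_congr rfl hterm, ← Finset.sum_filter, Finset.sum_const, nsmul_eq_mul] at hid
  set n := (V.filter (fun v => z ∈ St A p v)).card with hn
  have hn1 : (n : ℝ) * σ = 1 := by
    have e : (2 * Real.pi * (2 * Real.pi)) * ((n : ℝ) * σ) = 2 * Real.pi * (2 * Real.pi) * 1 := by
      linarith
    exact mul_left_cancel₀ (by positivity) e
  have hσ1 : σ = 1 := by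
    rcases hσ with h1 | h1
    · exact h1
    · rw [h1] at hn1
      have : (0:ℝ) ≤ n := Nat.cast_nonneg n
      linarith
  rw [hσ1, mul_one] at hn1
  have hn2 : n = 1 := by exact_mod_cast hn1
  refine ⟨hσ1, ?_⟩
  rw [hn, Finset.card_eq_one] at hn2
  obtain ⟨v, hv⟩ := hn2
  have hvm : v ∈ V.filter (fun v => z ∈ St A p v) := by rw [hv]; exact Finset.mem_singleton_self v
  rw [Finset.mem_filter] at hvm
  refine ⟨v, hV1 v hvm.1, hvm.2, ?_⟩
  intro w hw hzw
  have hwV : w ∈ V := by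
    apply hV2 w hw
    rw [hC1 w (hnorm w hzw)]
    positivity
  have : w ∈ V.filter (fun v => z ∈ St A p v) := Finset.mem_filter.2 ⟨hwV, hzw⟩
  rw [hv, Finset.mem_singleton] at this
  exact this

end CT

end Pool.Agent.Helper89.Dual
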