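import Pool.Agent.Helper89.Dual.Face3
set_option autoImplicit false

/-!
The dual faces form a tiling by convex tiles; incidences.
-/

namespace Pool.Agent.Helper89.Dual

open Complex Set Metric Filter Topology

variable {ι : Type} {A : ι → Set ℂ} {c : ι → ℂ} {u U : ℝ}

/-- all the data: a map with margin and the positive sign -/
structure DM {ι : Type} (A : ι → Set ℂ) (c : ι → ℂ) (u U : ℝ) (p : ι → ℂ) (R η : ℝ) : Prop where
  ct : CT A c u U
  hη : 0 < η
  bd : Bd c p R
  mg : Mg A p η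
  gd : ∀ t s, Adj A t s → Gd A c p (η / 4) 1 t s

namespace CT

theorem exists_DM (h : CT A c u U) {p : ι → ℂ} {R η : ℝ} (hη : 0 < η) (hB : Bd c p R)
    (hM : Mg A p η) : DM A c u U p R η := by
  obtain ⟨σ, hσ, hG⟩ := h.sign_global hη hB hM
  obtain ⟨z, hz⟩ := (h.gen_dense hη hB hM).nonempty
  obtain ⟨h1, -⟩ := h.unique_face hη hB hM hσ hG hz
  rw [h1] at hG
  exact ⟨h, hη, hB, hM, hG⟩

end CT

/-- the dual tiling -/
def DB (A : ι → Set ℂ) (p : ι → ℂ) (v : {v : ℂ // IsV A v}) : Set ℂ := St A p v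

namespace DM

variable {p : ι → ℂ} {R η : ℝ}

theorem R_nonneg (d : DM A c u U p R η) : 0 ≤ R := by
  obtain ⟨i, -⟩ := d.ct.cover 0
  exact (norm_nonneg _).trans (d.bd i)

theorem U_pos (d : DM A c u U p R η) : 0 < U := lt_of_lt_of_le d.ct.hu d.ct.u_le_U

theorem unique (d : DM A c u U p R η) {z : ℂ} (hz : ∀ t s, Adj A t s → z ∉ segment ℝ (p t) (p s)) :
    ∃ v, IsV A v ∧ z ∈ St A p v ∧ ∀ w, IsV A w → z ∈ St A p w → w = v :=
  (d.ct.unique_face d.hη d.bd d.mg (Or.inl rfl) d.gd hz).2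

theorem dual_ct (d : DM A c u U p R η) : ∃ (c' : {v : ℂ // IsV A v} → ℂ) (u' U' : ℝ),
    CT (DB A p) c' u' U' := by
  have hR := d.R_nonneg
  have hU := d.U_pos
  have hη := d.hη
  have hball : ∀ v : {v : ℂ // IsV A v}, ∃ g,
      closedBall g ((η / 4) * (η / 4) / (3 * (2 * R + 2 * U))) ⊆ St A p v :=
    fun v => d.ct.St_ball d.hη d.bd d.mg (Or.inl rfl) d.gd v.2
  choose g hg using hball
  have hdense := d.ct.gen_dense d.hη d.bd d.mg
  have hu' : 0 < (η / 4) * (η / 4) / (3 * (2 * R + 2 * U)) := by positivity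
  refine ⟨g, (η / 4) * (η / 4) / (3 * (2 * R + 2 * U)), 2 * (R + U), ?_⟩
  refine ⟨hu', fun v => St_convex A p v, fun v => d.ct.St_closed p v, hg, ?_, ?_, ?_⟩
  · intro v x hx
    have h1 := d.ct.St_norm d.bd hx
    have h2 := d.ct.St_norm d.bd (hg v (mem_closedBall_self hu'.le))
    rw [mem_closedBall, dist_eq_norm]
    have e : x - g v = (x - v) - (g v - v) := by ring
    rw [e]
    have := norm_sub_le (x - (v : ℂ)) (g v - v)
    linarith
  · intro z
    have hfin := d.ct.finite_V z (R + U + 1)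
    set F : Set ℂ := ⋃ v ∈ {v | IsV A v ∧ v ∈ closedBall z (R + U + 1)}, St A p v with hF
    have hFc : IsClosed F := hfin.isClosed_biUnion (fun v _ => d.ct.St_closed p v)
    have hsub : {z | ∀ t s, Adj A t s → z ∉ segment ℝ (p t) (p s)} ∩ ball z 1 ⊆ F := by
      rintro x ⟨hx1, hx2⟩
      obtain ⟨v, hv, hxv, -⟩ := d.unique hx1
      rw [hF]
      simp only [Set.mem_iUnion]
      refine ⟨v, ⟨hv, ?_⟩, hxv⟩
      have h1 := d.ct.St_norm d.bd hxv
      rw [mem_ball, dist_eq_norm] at hx2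
      rw [mem_closedBall, dist_eq_norm]
      have e : v - z = (x - z) - (x - v) := by ring
      rw [e]
      have := norm_sub_le (x - z) (x - v)
      linarith
    have hcl : z ∈ closure ({z | ∀ t s, Adj A t s → z ∉ segment ℝ (p t) (p s)} ∩ ball z 1) := by
      rw [Set.inter_comm]
      apply hdense.open_subset_closure_inter isOpen_ball
      exact mem_ball_self one_pos
    have hzF : z ∈ F := closure_minimal hsub hFc hcl
    rw [hF] at hzF
    simp only [Set.mem_iUnion] at hzF
    obtain ⟨v, ⟨hv, -⟩, hzv⟩ := hzF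
    exact ⟨⟨v, hv⟩, hzv⟩
  · intro v w hvw
    rw [Set.disjoint_left]
    intro x hx1 hx2
    obtain ⟨y, ⟨hy1, hy2⟩, hy3⟩ := hdense.inter_open_nonempty _
      (isOpen_interior.inter isOpen_interior) ⟨x, hx1, hx2⟩
    obtain ⟨v0, -, -, huniq⟩ := d.unique hy3
    apply hvw
    apply Subtype.ext
    rw [huniq v v.2 (interior_subset hy1), huniq w w.2 (interior_subset hy2)]

/-- every direction at `p t` points into a dual face of a vertex of `t` -/
theorem sector (d : DM A c u U p R η) (t : ι) {ω : ℂ} (hω : ω ≠ 0) :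
    ∃ v, IsV A v ∧ v ∈ A t ∧ ∃ ε0 > 0, ∀ ε : ℝ, 0 ≤ ε → ε ≤ ε0 → p t + (ε : ℂ) * ω ∈ St A p v := by
  classical
  by_contra hcon
  push Not at hcon
  have hnx : ∀ j, Adj A t j → ∃ k, Adj A t k ∧ rp A c t k = lp A c t j := fun j hj =>
    d.ct.exists_rp (d.ct.lp_mem hj).1 (d.ct.isV_lp hj)
  let f : ι → ι := fun j => if hj : Adj A t j then (hnx j hj).choose else j
  have hf : ∀ j, Adj A t j → Adj A t (f j) ∧ rp A c t (f j) = lp A c t j := by
    intro j hj
    simp only [f, dif_pos hj]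
    exact (hnx j hj).choose_spec
  have hmaps : ∀ j ∈ d.ct.nb t, f j ∈ d.ct.nb t := fun j hj =>
    d.ct.mem_nb.2 (hf j (d.ct.mem_nb.1 hj)).1
  have hinj : Set.InjOn f (d.ct.nb t : Set ι) := by
    intro j hj k hk he
    have h1 := hf j (d.ct.mem_nb.1 hj)
    have h2 := hf k (d.ct.mem_nb.1 hk)
    rw [← he] at h2
    exact d.ct.lp_inj (d.ct.mem_nb.1 hj) (d.ct.mem_nb.1 hk) (h1.2.symm.trans h2.2)
  have hne : ∀ j, Adj A t j → p j - p t ≠ 0 := fun j hj =>
    sub_ne_zero.2 (d.ct.p_ne d.hη d.bd d.mg hj)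
  have hη := d.hη
  have hcr : ∀ j, Adj A t j → 0 < cr (p j - p t) (p (f j) - p t) := by
    intro j hj
    obtain ⟨h1, h2⟩ := hf j hj
    have hfj : f j ≠ j := by
      intro he
      rw [he] at h2
      exact d.ct.lp_ne_rp hj h2.symm
    have := (d.gd t j hj).1 (f j) h1.1.symm hfj (by rw [← h2]; exact (d.ct.rp_mem h1).2)
    have hn : 0 < ‖p j - p t‖ := norm_pos_iff.2 (hne j hj)
    have : 0 < (η / 4) * ‖p j - p t‖ := by positivity
    linarith
  have hcone : ∀ j, Adj A t j → ¬ ∃ α β : ℝ, 0 ≤ α ∧ 0 ≤ β ∧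
      ω = (α : ℂ) * (p j - p t) + (β : ℂ) * (p (f j) - p t) := by
    rintro j hj ⟨α, β, hα, hβ, hωe⟩
    obtain ⟨h1, h2⟩ := hf j hj
    obtain ⟨ε, hε0, hε1, hε2⟩ := hcon (lp A c t j) (d.ct.isV_lp hj) (d.ct.lp_mem hj).1
      (1 / (α + β + 1)) (by positivity)
    apply hε2
    have hs : ε * (α + β) ≤ 1 := by
      have : ε * (α + β + 1) ≤ 1 := by
        rw [le_div_iff₀ (by positivity)] at hε1; exact hε1
      nlinarith
    have := conv3 (St_convex A p (lp A c t j)) (mem_St (p := p) (d.ct.lp_mem hj).1)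
      (mem_St (p := p) (d.ct.lp_mem hj).2)
      (mem_St (p := p) (t := f j) (by rw [← h2]; exact (d.ct.rp_mem h1).2))
      (x := 1 - ε * (α + β)) (y := ε * α) (z := ε * β) (by linarith) (by positivity)
      (by positivity) (by ring)
    convert this using 1
    rw [hωe]
    push_cast
    ring
  set g : ι → ℝ := fun j => Complex.arg ((p j - p t) / (-ω)) with hg
  have hnω : -ω ≠ 0 := neg_ne_zero.2 hω
  have hstep : ∀ j, Adj A t j →
      g (f j) - g j = Complex.arg ((p (f j) - p t) / (p j - p t)) := by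
    intro j hj
    have hj' := (hf j hj).1
    have hd := hne j hj
    have hd' := hne (f j) hj'
    have hpi := Real.pi_pos
    have harg : 0 < Complex.arg ((p (f j) - p t) / (p j - p t)) ∧
        Complex.arg ((p (f j) - p t) / (p j - p t)) < Real.pi := by
      apply arg_pos_lt
      rw [im_div_eq]
      exact div_pos (hcr j hj) (Complex.normSq_pos.2 hd)
    have b1 := Complex.neg_pi_lt_arg ((p j - p t) / (-ω))
    have b2 := Complex.arg_le_pi ((p j - p t) / (-ω))
    have b3 := Complex.neg_pi_lt_arg ((p (f j) - p t) / (-ω))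
    have b4 := Complex.arg_le_pi ((p (f j) - p t) / (-ω))
    have hz : g (f j) - g j - Complex.arg ((p (f j) - p t) / (p j - p t)) = 0 := by
      apply eq_zero_of_coe
      · simp only [hg, Real.Angle.coe_sub]
        rw [Complex.arg_div_coe_angle hd' hnω, Complex.arg_div_coe_angle hd hnω,
          Complex.arg_div_coe_angle hd' hd]
        abel
      · by_contra hc
        push Not at hc
        have c1 : g j > 0 := by simp only [hg] at *; linarith
        have c2 : g (f j) < 0 := by simp only [hg] at *; linarith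
        have c3 : 0 ≤ ((p j - p t) / (-ω)).im := Complex.arg_nonneg_iff.1 c1.le
        have c4 : ((p (f j) - p t) / (-ω)).im < 0 := Complex.arg_neg_iff.1 c2
        rw [im_div_eq, cr_neg_left] at c3 c4
        have hN : 0 < Complex.normSq (-ω) := Complex.normSq_pos.2 hnω
        have c5 : cr ω (p j - p t) ≤ 0 := by
          by_contra hc'
          push Not at hc'
          have : -cr ω (p j - p t) / Complex.normSq (-ω) < 0 :=
            div_neg_of_neg_of_pos (by linarith) hN
          linarith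
        have c6 : 0 < cr ω (p (f j) - p t) := by
          by_contra hc'
          push Not at hc'
          have : 0 ≤ -cr ω (p (f j) - p t) / Complex.normSq (-ω) :=
            div_nonneg (by linarith) hN.le
          linarith
        have hc0 := hcr j hj
        apply hcone j hj
        refine ⟨cr ω (p (f j) - p t) / cr (p j - p t) (p (f j) - p t),
          cr (p j - p t) ω / cr (p j - p t) (p (f j) - p t), by positivity, ?_,
          cramer hc0.ne' ω⟩
        apply div_nonneg _ hc0.le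
        rw [cr_comm]; linarith
      · simp only [hg]; linarith
    linarith
  have hsum := perm_sum (d.ct.nb t) f hmaps hinj g
  have hpos : 0 < ∑ j ∈ d.ct.nb t, (g (f j) - g j) := by
    apply Finset.sum_pos
    · intro j hj
      have hj' := d.ct.mem_nb.1 hj
      rw [hstep j hj']
      apply (arg_pos_lt _).1
      rw [im_div_eq]
      exact div_pos (hcr j hj') (Complex.normSq_pos.2 (hne j hj'))
    · obtain ⟨j, hj⟩ := d.ct.exists_adj t
      exact ⟨j, d.ct.mem_nb.2 hj⟩
  rw [Finset.sum_sub_distrib, hsum, sub_self] at hpos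
  exact lt_irrefl _ hpos

/-- incidence of images of tiles with dual faces -/
theorem mem_iff (d : DM A c u U p R η) {t : ι} {w : ℂ} (hw : IsV A w) :
    p t ∈ St A p w ↔ w ∈ A t := by
  refine ⟨fun hp => ?_, fun hw' => mem_St hw'⟩
  obtain ⟨c', u', U', hct⟩ := d.dual_ct
  set W : {v : ℂ // IsV A v} := ⟨w, hw⟩ with hW
  by_cases hint : p t ∈ interior (St A p w)
  · obtain ⟨x, -, -, -, -, -, hx, -, -, hxt, -⟩ := d.ct.three_vertices t
    have : W = ⟨x, hx⟩ := hct.eq_of_int (i := W) (j := ⟨x, hx⟩) hint (mem_St (p := p) hxt)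
    have h2 : w = x := congrArg Subtype.val this
    rw [h2]; exact hxt
  · obtain ⟨y, hy⟩ := d.ct.St_int_nonempty d.hη d.bd d.mg (Or.inl rfl) d.gd hw
    have hω : y - p t ≠ 0 := by
      intro h0
      apply hint
      rw [← sub_eq_zero.1 h0]; exact hy
    obtain ⟨v, hv, hvt, ε0, hε0, hε⟩ := d.sector t hω
    set e : ℝ := min ε0 1 with he
    have he0 : 0 < e := lt_min hε0 one_pos
    have he1 : e ≤ 1 := min_le_right _ _
    have m1 := hε e he0.le (min_le_left _ _)
    have m2 : p t + (e : ℂ) * (y - p t) ∈ interior (St A p w) := by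
      have := (St_convex A p w).combo_interior_self_mem_interior hy hp he0
        (show 0 ≤ 1 - e by linarith) (by ring)
      convert this using 1
      rw [Complex.real_smul, Complex.real_smul]
      push_cast; ring
    have : W = ⟨v, hv⟩ := hct.eq_of_int (i := W) (j := ⟨v, hv⟩) m2 m1
    have h2 : w = v := congrArg Subtype.val this
    rw [h2]; exact hvt

theorem isV_p (d : DM A c u U p R η) (t : ι) : IsV (DB A p) (p t) := by
  obtain ⟨x, y, z, hxy, hyz, hxz, hx, hy, hz, hxt, hyt, hzt⟩ := d.ct.three_vertices t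
  exact ⟨⟨x, hx⟩, ⟨y, hy⟩, ⟨z, hz⟩, fun he => hxy (congrArg Subtype.val he),
    fun he => hyz (congrArg Subtype.val he), fun he => hxz (congrArg Subtype.val he),
    mem_St (p := p) hxt, mem_St (p := p) hyt, mem_St (p := p) hzt⟩

theorem p_inj (d : DM A c u U p R η) {t s : ι} (he : p t = p s) : t = s := by
  by_contra hne
  obtain ⟨x, y, z, hxy, hyz, hxz, hx, hy, hz, hxt, hyt, hzt⟩ := d.ct.three_vertices t
  have key : ∀ w, IsV A w → w ∈ A t → w ∈ A s := by
    intro w hw hwt
    rw [← d.mem_iff hw, ← he, d.mem_iff hw]; exact hwt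
  have hadj : Adj A t s := ⟨hne, x, y, hxy, hxt, key x hx hxt, hyt, key y hy hyt⟩
  rcases d.ct.end_of_isV hadj hxt (key x hx hxt) hx with h1 | h1 <;>
  rcases d.ct.end_of_isV hadj hyt (key y hy hyt) hy with h2 | h2 <;>
  rcases d.ct.end_of_isV hadj hzt (key z hz hzt) hz with h3 | h3
  · exact hxy (h1.trans h2.symm)
  · exact hxy (h1.trans h2.symm)
  · exact hxz (h1.trans h3.symm)
  · exact hyz (h2.trans h3.symm)
  · exact hyz (h2.trans h3.symm)
  · exact hxz (h1.trans h3.symm)
  · exact hxy (h1.trans h2.symm)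
  · exact hxy (h1.trans h2.symm)

/-- the edge dual to an edge -/
theorem adj_dual (d : DM A c u U p R η) {t s : ι} (hts : Adj A t s) :
    Adj (DB A p) ⟨lp A c t s, d.ct.isV_lp hts⟩ ⟨rp A c t s, d.ct.isV_rp hts⟩ :=
  ⟨fun he => d.ct.lp_ne_rp hts (congrArg Subtype.val he), p t, p s,
    (d.ct.p_ne d.hη d.bd d.mg hts).symm, mem_St (p := p) (d.ct.lp_mem hts).1,
    mem_St (p := p) (d.ct.rp_mem hts).1, mem_St (p := p) (d.ct.lp_mem hts).2,
    mem_St (p := p) (d.ct.rp_mem hts).2⟩

/-- every adjacent pair of dual faces comes from an edge -/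
theorem dual_adj (d : DM A c u U p R η) {v w : {v : ℂ // IsV A v}} (hvw : Adj (DB A p) v w) :
    ∃ t s, Adj A t s ∧ (v : ℂ) = lp A c t s ∧ (w : ℂ) = rp A c t s := by
  obtain ⟨c', u', U', hct⟩ := d.dual_ct
  obtain ⟨hne, a, b, hab, hav, haw, hbv, hbw⟩ := hvw
  have hm := CT.mid_mem_open a b
  set m := (a + b) / 2 with hmdef
  have hmv : m ∈ St A p v := (St_convex A p v).openSegment_subset hav hbv hm
  have hmw : m ∈ St A p w := (St_convex A p w).openSegment_subset haw hbw hm
  have hmi : m ∉ interior (St A p v) := fun hh => hne (hct.eq_of_int (i := v) (j := w) hh hmw)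
  have hex : ∃ t ∈ d.ct.tv v, m ∈ segment ℝ (p t) (p (nx A c v t)) := by
    by_contra hc
    push Not at hc
    exact hmi (d.ct.St_int_of_off d.hη d.bd d.mg (Or.inl rfl) d.gd v.2 hmv hc)
  obtain ⟨t, ht, hmt⟩ := hex
  obtain ⟨hts, hlp⟩ := d.ct.nx_spec v.2 (d.ct.mem_tv.1 ht)
  refine ⟨t, nx A c v t, hts, hlp.symm, ?_⟩
  set s := nx A c v t with hs
  have hm' : m ∈ DB A p ⟨rp A c t s, d.ct.isV_rp hts⟩ :=
    (St_convex A p _).segment_subset (mem_St (d.ct.rp_mem hts).1) (mem_St (d.ct.rp_mem hts).2) hmt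
  rcases hct.not_third hne hab hav haw hbv hbw hm hm' with h1 | h1
  · exfalso
    have := congrArg Subtype.val h1
    simp only at this
    rw [← hlp] at this
    exact d.ct.lp_ne_rp hts this.symm
  · have := congrArg Subtype.val h1
    exact this.symm

theorem dual_seg (d : DM A c u U p R η) {t s : ι} (hts : Adj A t s) :
    DB A p ⟨lp A c t s, d.ct.isV_lp hts⟩ ∩ DB A p ⟨rp A c t s, d.ct.isV_rp hts⟩
      = segment ℝ (p t) (p s) := by
  obtain ⟨c', u', U', hct⟩ := d.dual_ct
  have hadj := d.adj_dual hts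
  have h1 := hct.end_of_isV hadj (z := p t) (mem_St (p := p) (d.ct.lp_mem hts).1)
    (mem_St (p := p) (d.ct.rp_mem hts).1) (d.isV_p t)
  have h2 := hct.end_of_isV hadj (z := p s) (mem_St (p := p) (d.ct.lp_mem hts).2)
    (mem_St (p := p) (d.ct.rp_mem hts).2) (d.isV_p s)
  have hne := d.ct.p_ne d.hη d.bd d.mg hts
  rw [hct.seg hadj]
  rcases h1 with h1 | h1 <;> rcases h2 with h2 | h2
  · exact absurd (h2.trans h1.symm) hne
  · rw [h1, h2]
  · rw [h1, h2, segment_symm]
  · exact absurd (h2.trans h1.symm) hne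

theorem isV_iff (d : DM A c u U p R η) {z : ℂ} : IsV (DB A p) z ↔ ∃ t, z = p t := by
  constructor
  · intro hz
    obtain ⟨c', u', U', hct⟩ := d.dual_ct
    obtain ⟨v, hv⟩ := hct.cover z
    obtain ⟨w, hvw, hlw⟩ := hct.exists_lp hv hz
    obtain ⟨t, s, hts, hvt, hws⟩ := d.dual_adj hvw
    have e1 : v = ⟨lp A c t s, d.ct.isV_lp hts⟩ := Subtype.ext hvt
    have e2 : w = ⟨rp A c t s, d.ct.isV_rp hts⟩ := Subtype.ext hws
    have hadj := d.adj_dual hts
    have h1 := hct.end_of_isV hadj (z := p t) (mem_St (p := p) (d.ct.lp_mem hts).1)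
      (mem_St (p := p) (d.ct.rp_mem hts).1) (d.isV_p t)
    have h2 := hct.end_of_isV hadj (z := p s) (mem_St (p := p) (d.ct.lp_mem hts).2)
      (mem_St (p := p) (d.ct.rp_mem hts).2) (d.isV_p s)
    have hne := d.ct.p_ne d.hη d.bd d.mg hts
    rw [e1, e2] at hlw
    rcases h1 with h1 | h1 <;> rcases h2 with h2 | h2
    · exact absurd (h2.trans h1.symm) hne
    · exact ⟨t, by rw [h1, hlw]⟩
    · exact ⟨s, by rw [h2, hlw]⟩
    · exact absurd (h2.trans h1.symm) hne
  · rintro ⟨t, rfl⟩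
    exact d.isV_p t

end DM

end Pool.Agent.Helper89.Dual
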