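import Pool.Agent.Helper89.Dual.Conn
set_option autoImplicit false

/-!
Winding sums along walks in the adjacency graph, and the two planarity lemmas.
-/

namespace Pool.Agent.Helper89.Dual

open Complex Set Metric Filter Topology

/-- sum of a function over the steps of a walk -/
def wsum {V : Type} {G : SimpleGraph V} (F : V → V → ℝ) : ∀ {a b : V}, G.Walk a b → ℝ
  | _, _, SimpleGraph.Walk.nil => 0
  | a, _, @SimpleGraph.Walk.cons _ _ _ v _ _ p => F a v + wsum F p

section wsum
variable {V : Type} {G : SimpleGraph V}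

theorem wsum_nil (F : V → V → ℝ) (a : V) : wsum F (SimpleGraph.Walk.nil : G.Walk a a) = 0 := rfl

theorem wsum_cons (F : V → V → ℝ) {a b d : V} (h : G.Adj a b) (p : G.Walk b d) :
    wsum F (SimpleGraph.Walk.cons h p) = F a b + wsum F p := rfl

theorem wsum_append (F : V → V → ℝ) {a b d : V} (p : G.Walk a b) (q : G.Walk b d) :
    wsum F (p.append q) = wsum F p + wsum F q := by
  induction p with
  | nil => simp [wsum_nil]
  | cons h p ih => rw [SimpleGraph.Walk.cons_append, wsum_cons, wsum_cons, ih, add_assoc]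

theorem wsum_congr (F H : V → V → ℝ) (g : V → ℝ) {a b : V} (p : G.Walk a b)
    (hyp : ∀ i j, G.Adj i j → i ∈ p.support → j ∈ p.support → F i j = H i j + (g j - g i)) :
    wsum F p = wsum H p + (g b - g a) := by
  induction p with
  | nil => simp [wsum_nil]
  | @cons a b d h p ih =>
    rw [wsum_cons, wsum_cons, hyp a b h (by simp) (by simp), ih]
    · ring
    · intro i j hij hi hj
      exact hyp i j hij (by simp [hi]) (by simp [hj])

theorem wsum_zero (F : V → V → ℝ) {a b : V} (p : G.Walk a b)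
    (hyp : ∀ i j, G.Adj i j → i ∈ p.support → j ∈ p.support → F i j = 0) :
    wsum F p = 0 := by
  induction p with
  | nil => simp [wsum_nil]
  | @cons a b d h p ih =>
    rw [wsum_cons, hyp a b h (by simp) (by simp), ih, add_zero]
    intro i j hij hi hj
    exact hyp i j hij (by simp [hi]) (by simp [hj])

theorem wsum_lin (F H : V → V → ℝ) (r : ℝ) {a b : V} (p : G.Walk a b) :
    wsum (fun i j => F i j + r * H i j) p = wsum F p + r * wsum H p := by
  induction p with
  | nil => simp [wsum_nil]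
  | cons hh p ih => rw [wsum_cons, wsum_cons, wsum_cons, ih]; ring

end wsum

variable {ι : Type} {A : ι → Set ℂ} {c : ι → ℂ} {u U : ℝ}

/-- midpoint of the common edge -/
noncomputable def mp (A : ι → Set ℂ) (c : ι → ℂ) (i j : ι) : ℂ := (rp A c i j + lp A c i j) / 2

/-- angle of the step from `i` to `j` seen from `z` -/
noncomputable def Th (A : ι → Set ℂ) (c : ι → ℂ) (z : ℂ) (i j : ι) : ℝ :=
  th z (c i) (mp A c i j) + th z (mp A c i j) (c j)

/-- signed indicator of the edge `t`-`s` -/
noncomputable def ei (t s i j : ι) : ℝ := by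
  classical exact (if i = t ∧ j = s then 1 else 0) - (if i = s ∧ j = t then 1 else 0)

namespace CT

theorem mp_swap (h : CT A c u U) {i j : ι} (hadj : Adj A i j) : mp A c j i = mp A c i j := by
  unfold mp
  rw [h.lp_swap hadj, h.rp_swap hadj, add_comm]

theorem mp_open (A : ι → Set ℂ) (c : ι → ℂ) (i j : ι) :
    mp A c i j ∈ openSegment ℝ (rp A c i j) (lp A c i j) := mid_mem_open _ _

theorem mp_mem (h : CT A c u U) {i j : ι} (hadj : Adj A i j) :
    mp A c i j ∈ A i ∧ mp A c i j ∈ A j :=
  ⟨(h.conv i).openSegment_subset (h.rp_mem hadj).1 (h.lp_mem hadj).1 (mp_open A c i j),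
    (h.conv j).openSegment_subset (h.rp_mem hadj).2 (h.lp_mem hadj).2 (mp_open A c i j)⟩

theorem mp_only (h : CT A c u U) {i j k : ι} (hadj : Adj A i j) (hk : mp A c i j ∈ A k) :
    k = i ∨ k = j :=
  h.not_third hadj.1 (h.lp_ne_rp hadj).symm (h.rp_mem hadj).1 (h.rp_mem hadj).2
    (h.lp_mem hadj).1 (h.lp_mem hadj).2 (mp_open A c i j) hk

/-- the points of the half step are interior or the midpoint -/
theorem half_step (h : CT A c u U) {i j : ι} (hadj : Adj A i j) {q : ℂ}
    (hq : q ∈ segment ℝ (c i) (mp A c i j)) : q = mp A c i j ∨ q ∈ interior (A i) := by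
  obtain ⟨s, hs0, hs1, rfl⟩ := mem_segment_iff_real.1 hq
  rcases hs1.lt_or_eq with hs | hs
  · right
    have := (h.conv i).combo_interior_self_mem_interior (h.c_int i) (h.mp_mem hadj).1
      (show 0 < 1 - s by linarith) hs0 (by ring)
    convert this using 1
    rw [Complex.real_smul, Complex.real_smul]
    push_cast; ring
  · left; rw [hs]; push_cast; ring

theorem disj_tile (h : CT A c u U) {i j k : ι} (hadj : Adj A i j) (hki : k ≠ i) (hkj : k ≠ j) :
    Disjoint (A k) (segment ℝ (c i) (mp A c i j)) := by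
  rw [Set.disjoint_left]
  intro q hq hqs
  rcases h.half_step hadj hqs with rfl | hi
  · rcases h.mp_only hadj hq with h1 | h1
    · exact hki h1
    · exact hkj h1
  · exact hki (h.eq_of_int hi hq).symm

theorem disj_tile' (h : CT A c u U) {i j k : ι} (hadj : Adj A i j) (hki : k ≠ i) (hkj : k ≠ j) :
    Disjoint (A k) (segment ℝ (mp A c i j) (c j)) := by
  rw [segment_symm, ← h.mp_swap hadj]
  exact h.disj_tile hadj.symm hkj hki

theorem disj_edge (h : CT A c u U) {i j t s : ι} (hadj : Adj A i j) (hts : Adj A t s)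
    (h1 : ¬ (i = t ∧ j = s)) (h2 : ¬ (i = s ∧ j = t)) :
    Disjoint (segment ℝ (rp A c t s) (lp A c t s)) (segment ℝ (c i) (mp A c i j)) := by
  rw [Set.disjoint_left]
  intro q hq hqs
  rw [segment_symm, ← h.seg hts] at hq
  rcases h.half_step hadj hqs with rfl | hi
  · rcases h.mp_only hadj hq.1 with e1 | e1 <;> rcases h.mp_only hadj hq.2 with e2 | e2
    · exact hts.1 (e1.trans e2.symm)
    · exact h1 ⟨e1.symm, e2.symm⟩
    · exact h2 ⟨e2.symm, e1.symm⟩
    · exact hts.1 (e1.trans e2.symm)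
  · exact hts.1 ((h.eq_of_int hi hq.1).symm.trans (h.eq_of_int hi hq.2))

theorem disj_edge' (h : CT A c u U) {i j t s : ι} (hadj : Adj A i j) (hts : Adj A t s)
    (h1 : ¬ (i = t ∧ j = s)) (h2 : ¬ (i = s ∧ j = t)) :
    Disjoint (segment ℝ (rp A c t s) (lp A c t s)) (segment ℝ (mp A c i j) (c j)) := by
  rw [segment_symm ℝ (mp A c i j), ← h.mp_swap hadj]
  exact h.disj_edge hadj.symm hts (fun hh => h2 ⟨hh.2, hh.1⟩) (fun hh => h1 ⟨hh.2, hh.1⟩)

theorem Th_tile (h : CT A c u U) {i j k : ι} (hadj : Adj A i j) (hki : k ≠ i) (hkj : k ≠ j)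
    {x y : ℂ} (hx : x ∈ A k) (hy : y ∈ A k) :
    Th A c y i j = Th A c x i j + (ps x y (c j) - ps x y (c i)) := by
  have hs : segment ℝ x y ⊆ A k := (h.conv k).segment_subset hx hy
  have h1 := th_move (x := x) (y := y) ((h.disj_tile hadj hki hkj).mono_left hs)
  have h2 := th_move (x := x) (y := y) ((h.disj_tile' hadj hki hkj).mono_left hs)
  unfold Th
  linarith

theorem mp_ne (h : CT A c u U) {i j : ι} (hadj : Adj A i j) {z : ℂ} (hz : IsV A z) :
    z ∉ segment ℝ (c i) (mp A c i j) ∧ z ∉ segment ℝ (mp A c i j) (c j) := by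
  have key : ∀ i j, Adj A i j → z ∉ segment ℝ (c i) (mp A c i j) := by
    intro i j hadj hzs
    rcases h.half_step hadj hzs with h1 | h1
    · apply h.not_isV_open hadj.1 (h.lp_ne_rp hadj).symm (h.rp_mem hadj).1 (h.rp_mem hadj).2
        (h.lp_mem hadj).1 (h.lp_mem hadj).2 (mp_open A c i j)
      rw [← h1]; exact hz
    · exact h.not_isV_int h1 hz
  refine ⟨key i j hadj, ?_⟩
  rw [segment_symm, ← h.mp_swap hadj]
  exact key j i hadj.symm

theorem Th_swap (h : CT A c u U) {i j : ι} (hadj : Adj A i j) {z : ℂ} (hz : IsV A z) :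
    Th A c z j i = - Th A c z i j := by
  unfold Th
  rw [h.mp_swap hadj, th_symm (h.mp_ne hadj hz).1, th_symm (h.mp_ne hadj hz).2]
  ring

theorem Th_edge (h : CT A c u U) {i j t s : ι} (hadj : Adj A i j) (hts : Adj A t s) :
    Th A c (lp A c t s) i j = Th A c (rp A c t s) i j + 2 * Real.pi * ei t s i j
      + (ps (rp A c t s) (lp A c t s) (c j) - ps (rp A c t s) (lp A c t s) (c i)) := by
  have hcross := th_cross (x := rp A c t s) (y := lp A c t s) (a := c t) (b := c s)
    (mp_open A c t s) (h.ori hts) (h.ori' hts)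
  by_cases h1 : i = t ∧ j = s
  · obtain ⟨rfl, rfl⟩ := h1
    have he : ei i j i j = 1 := by
      have : ¬ (i = j ∧ j = i) := fun hh => hadj.1 hh.1
      simp [ei, this]
    rw [he]
    unfold Th
    linarith
  · by_cases h2 : i = s ∧ j = t
    · obtain ⟨rfl, rfl⟩ := h2
      have he : ei j i i j = -1 := by
        have : ¬ (i = j ∧ j = i) := fun hh => hadj.1 hh.1
        simp [ei, this]
      rw [he, h.Th_swap hts (h.isV_lp hts), h.Th_swap hts (h.isV_rp hts)]
      unfold Th
      linarith
    · have he : ei t s i j = 0 := by simp [ei, h1, h2]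
      have a1 := th_move (h.disj_edge hadj hts h1 h2)
      have a2 := th_move (h.disj_edge' hadj hts h1 h2)
      rw [he]
      unfold Th
      linarith

/-- winding difference of two walks is constant on an unvisited tile -/
theorem wd_tile (h : CT A c u U) {a b k : ι} (p q : (gr A).Walk a b) (hp : k ∉ p.support)
    (hq : k ∉ q.support) {x y : ℂ} (hx : x ∈ A k) (hy : y ∈ A k) :
    wsum (Th A c y) p - wsum (Th A c y) q = wsum (Th A c x) p - wsum (Th A c x) q := by
  have h1 := wsum_congr (Th A c y) (Th A c x) (fun i => ps x y (c i)) p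
    (fun i j hij hi hj => h.Th_tile hij (fun e : k = i => hp (by rw [e]; exact hi))
      (fun e : k = j => hp (by rw [e]; exact hj)) hx hy)
  have h2 := wsum_congr (Th A c y) (Th A c x) (fun i => ps x y (c i)) q
    (fun i j hij hi hj => h.Th_tile hij (fun e : k = i => hq (by rw [e]; exact hi))
      (fun e : k = j => hq (by rw [e]; exact hj)) hx hy)
  rw [h1, h2]; ring

theorem wd_walk (h : CT A c u U) {a b : ι} (p q : (gr A).Walk a b) {k l : ι}
    (r : (gr A).Walk k l) (hp : ∀ m ∈ r.support, m ∉ p.support)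
    (hq : ∀ m ∈ r.support, m ∉ q.support) {x y : ℂ} (hx : x ∈ A k) (hy : y ∈ A l) :
    wsum (Th A c y) p - wsum (Th A c y) q = wsum (Th A c x) p - wsum (Th A c x) q := by
  induction r generalizing x with
  | nil => exact h.wd_tile p q (hp _ (by simp)) (hq _ (by simp)) hx hy
  | @cons k m l hkm r ih =>
    have hadj : Adj A k m := hkm
    rw [ih (fun m hm => hp m (by simp [hm])) (fun m hm => hq m (by simp [hm]))
      (h.lp_mem hadj).2 hy]
    exact h.wd_tile p q (hp _ (by simp)) (hq _ (by simp)) hx (h.lp_mem hadj).1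

theorem wd_edge (h : CT A c u U) {a b : ι} (p q : (gr A).Walk a b) {t s : ι} (hts : Adj A t s) :
    wsum (Th A c (lp A c t s)) p - wsum (Th A c (lp A c t s)) q
      = wsum (Th A c (rp A c t s)) p - wsum (Th A c (rp A c t s)) q
        + 2 * Real.pi * (wsum (ei t s) p - wsum (ei t s) q) := by
  have key : ∀ p : (gr A).Walk a b, wsum (Th A c (lp A c t s)) p
      = wsum (Th A c (rp A c t s)) p + 2 * Real.pi * wsum (ei t s) p
        + (ps (rp A c t s) (lp A c t s) (c b) - ps (rp A c t s) (lp A c t s) (c a)) := by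
    intro p
    have h1 := wsum_congr (Th A c (lp A c t s))
      (fun i j => Th A c (rp A c t s) i j + 2 * Real.pi * ei t s i j)
      (fun i => ps (rp A c t s) (lp A c t s) (c i)) p (fun i j hij _ _ => h.Th_edge hij hts)
    rw [h1, wsum_lin]
  rw [key p, key q]; ring

theorem ei_zero_left {t s i j : ι} (h1 : i ≠ t) (h2 : j ≠ t) : ei t s i j = 0 := by
  simp [ei, h1, h2]

/-- Lemma F -/
theorem lemma_F (h : CT A c u U) {t s r r' : ι} (hts : Adj A t s)
    (hr : lp A c t s ∈ A r) (hr' : rp A c t s ∈ A r')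
    {W L : Set ι} (hW : Cn A W) (hL : Cn A L) (hWL : ∀ x ∈ L, x ∉ W)
    (htW : t ∉ W) (hsW : s ∉ W) (htL : t ∉ L) (hsL : s ∉ L)
    (hta : ∃ a ∈ W, Adj A t a) (hsb : ∃ b ∈ W, Adj A s b) (hrL : r ∈ L) (hrL' : r' ∈ L) :
    False := by
  obtain ⟨a, haW, hta⟩ := hta
  obtain ⟨b, hbW, hsb⟩ := hsb
  obtain ⟨P, hP⟩ := hW b hbW a haW
  obtain ⟨Q, hQ⟩ := hL r hrL r' hrL'
  set C : (gr A).Walk t t := SimpleGraph.Walk.cons (show (gr A).Adj t s from hts)
    (SimpleGraph.Walk.cons (show (gr A).Adj s b from hsb)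
      (P.append (SimpleGraph.Walk.cons (show (gr A).Adj a t from hta.symm)
        SimpleGraph.Walk.nil))) with hC
  have hCs : ∀ x ∈ C.support, x = t ∨ x = s ∨ x ∈ W := by
    intro x hx
    rw [hC] at hx
    simp only [SimpleGraph.Walk.support_cons, List.mem_cons,
      SimpleGraph.Walk.mem_support_append_iff, SimpleGraph.Walk.support_nil, List.not_mem_nil,
      or_false] at hx
    rcases hx with rfl | rfl | hx | rfl | rfl
    · exact Or.inl rfl
    · exact Or.inr (Or.inl rfl)
    · exact Or.inr (Or.inr (hP x hx))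
    · exact Or.inr (Or.inr haW)
    · exact Or.inl rfl
  have hd : ∀ m ∈ Q.support, m ∉ C.support := by
    intro m hm hmc
    have hmL := hQ m hm
    rcases hCs m hmc with rfl | rfl | h1
    · exact htL hmL
    · exact hsL hmL
    · exact hWL m hmL h1
  have hd' : ∀ m ∈ Q.support, m ∉ (SimpleGraph.Walk.nil : (gr A).Walk t t).support := by
    intro m hm hmc
    rw [SimpleGraph.Walk.support_nil, List.mem_singleton] at hmc
    exact htL (hmc ▸ hQ m hm)
  have e1 := h.wd_walk C SimpleGraph.Walk.nil Q hd hd' hr hr'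
  have e2 := h.wd_edge C SimpleGraph.Walk.nil hts
  rw [wsum_nil, wsum_nil] at e1 e2
  have hst : s ≠ t := hts.1.symm
  have hbt : b ≠ t := fun e => htW (e ▸ hbW)
  have hbs : b ≠ s := fun e => hsW (e ▸ hbW)
  have hat : a ≠ t := fun e => htW (e ▸ haW)
  have has : a ≠ s := fun e => hsW (e ▸ haW)
  have e3 : wsum (ei t s) C = 1 := by
    rw [hC, wsum_cons, wsum_cons, wsum_append, wsum_cons, wsum_nil]
    have p1 : ei t s t s = 1 := by simp [ei, hts.1]
    have p2 : ei t s s b = 0 := by simp [ei, hst, hbt]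
    have p3 : ei t s a t = 0 := by simp [ei, hat, has]
    have p4 : wsum (ei t s) P = 0 := by
      apply wsum_zero
      intro i j _ hi hj
      exact ei_zero_left (fun e => htW (e ▸ hP i hi)) (fun e => htW (e ▸ hP j hj))
    rw [p1, p2, p3, p4]; ring
  rw [wsum_nil, e3] at e2
  have := Real.pi_pos
  linarith

end CT

end Pool.Agent.Helper89.Dual
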