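import Mathlib
set_option autoImplicit false

/-!
Existence of harmonic functions of bounded displacement for weights which lead to the pinned
points in a bounded number of steps.
-/

namespace Pool.Agent.Helper89.Dual

open Filter Topology

theorem harm {V : Type} (S : V → Finset V) (w : V → V → ℝ) (Z : Set V) (pos : V → ℂ)
    (n : V → ℕ) (K : ℕ) {q : ℝ} (hq0 : 0 < q) (hq1 : q ≤ 1)
    (hw : ∀ t, t ∉ Z → ∀ s ∈ S t, 0 ≤ w t s)
    (hw1 : ∀ t, t ∉ Z → ∑ s ∈ S t, w t s = 1)
    (hg : ∀ t, t ∉ Z → ∃ s ∈ S t, q ≤ w t s ∧ n s < n t)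
    (hn : ∀ t, n t ≤ K) (c : V → ℂ) {G : ℝ} (hG0 : 0 ≤ G)
    (hG : ∀ t, t ∉ Z → ‖∑ s ∈ S t, (w t s : ℂ) * c s - c t‖ ≤ G)
    (hG' : ∀ t ∈ Z, ‖pos t - c t‖ ≤ G) :
    ∃ p : V → ℂ, (∀ t ∈ Z, p t = pos t) ∧ (∀ t, t ∉ Z → p t = ∑ s ∈ S t, (w t s : ℂ) * p s) ∧
      ∀ t, ‖p t - c t‖ ≤ 4 * G / (q / 2) ^ K := by
  classical
  set r : ℝ := q / 2 with hr
  have hr0 : 0 < r := by positivity
  have hr1 : r ≤ 1 := by linarith
  set φ : V → ℝ := fun t => 2 - r ^ (n t) with hφ
  have hrn : ∀ t, r ^ (n t) ≤ 1 := fun t => pow_le_one₀ hr0.le hr1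
  have hrK : ∀ t, r ^ K ≤ r ^ (n t) := fun t => pow_le_pow_of_le_one hr0.le hr1 (hn t)
  have hrK0 : 0 < r ^ K := by positivity
  have hφ1 : ∀ t, 1 ≤ φ t := fun t => by simp only [hφ]; linarith [hrn t]
  have hφ2 : ∀ t, φ t ≤ 2 := fun t => by
    simp only [hφ]
    have : 0 < r ^ (n t) := by positivity
    linarith
  set θ : ℝ := 1 - r ^ K / 2 with hθ
  have hθ1 : θ < 1 := by rw [hθ]; linarith
  have hθ0 : 0 ≤ θ := by
    rw [hθ]
    have : r ^ K ≤ 1 := pow_le_one₀ hr0.le hr1
    linarith
  -- one step contraction of the weight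
  have hcontr : ∀ t, t ∉ Z → ∑ s ∈ S t, w t s * φ s ≤ θ * φ t := by
    intro t ht
    obtain ⟨s0, hs0, hq, hns⟩ := hg t ht
    have h1 : ∑ s ∈ S t, w t s * φ s ≤ ∑ s ∈ S t, w t s * (2 - if s = s0 then r ^ (n s0) else 0) := by
      apply Finset.sum_le_sum
      intro s hs
      apply mul_le_mul_of_nonneg_left _ (hw t ht s hs)
      split_ifs with he
      · rw [he]
      · simp only [hφ]
        have : 0 < r ^ (n s) := by positivity
        linarith
    have h2 : ∑ s ∈ S t, w t s * (2 - if s = s0 then r ^ (n s0) else 0)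
        = 2 - w t s0 * r ^ (n s0) := by
      have e1 : ∀ s ∈ S t, w t s * (2 - if s = s0 then r ^ (n s0) else 0)
          = 2 * w t s - if s = s0 then w t s0 * r ^ (n s0) else 0 := by
        intro s _
        split_ifs with he
        · rw [he]; ring
        · ring
      rw [Finset.sum_congr rfl e1, Finset.sum_sub_distrib, ← Finset.mul_sum, hw1 t ht,
        Finset.sum_ite_eq', if_pos hs0]
      ring
    have h3 : q * r ^ (n s0) ≤ w t s0 * r ^ (n s0) := by
      apply mul_le_mul_of_nonneg_right hq; positivity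
    have h4 : r ^ (n t) ≤ r ^ (n s0 + 1) := by
      apply pow_le_pow_of_le_one hr0.le hr1; omega
    have h5 : q * r ^ (n s0) = 2 * r ^ (n s0 + 1) := by rw [pow_succ, hr]; ring
    have h6 := hrK t
    have h7 := hφ2 t
    have h8 := hφ1 t
    have h9 : θ * φ t = φ t - r ^ K / 2 * φ t := by rw [hθ]; ring
    rw [h9]
    have h10 : r ^ K / 2 * φ t ≤ r ^ K := by nlinarith
    have h11 : φ t = 2 - r ^ (n t) := rfl
    linarith
  set M : (V → ℂ) → V → ℂ := fun p t =>
    if t ∈ Z then pos t else ∑ s ∈ S t, (w t s : ℂ) * p s with hM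
  set P : ℕ → V → ℂ := fun k => M^[k] c with hP
  have hPs : ∀ k, P (k + 1) = M (P k) := fun k => Function.iterate_succ_apply' M k c
  have hstep : ∀ k t, ‖P (k + 1) t - P k t‖ ≤ G * θ ^ k * φ t := by
    intro k
    induction k with
    | zero =>
      intro t
      rw [hPs 0, pow_zero, mul_one]
      have hP0 : P 0 = c := rfl
      rw [hP0]
      have h1 : ‖M c t - c t‖ ≤ G := by
        simp only [hM]
        split_ifs with ht
        · exact hG' t ht
        · exact hG t ht
      have := hφ1 t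
      nlinarith
    | succ k ih =>
      intro t
      rw [hPs (k + 1)]
      conv_lhs => rw [hPs k]
      by_cases ht : t ∈ Z
      · have : M (M (P k)) t - M (P k) t = 0 := by
          simp only [hM, if_pos ht, sub_self]
        rw [this, norm_zero]
        have := hφ1 t
        positivity
      · have e1 : M (M (P k)) t - M (P k) t
            = ∑ s ∈ S t, (w t s : ℂ) * (M (P k) s - P k s) := by
          have e2 : M (M (P k)) t = ∑ s ∈ S t, (w t s : ℂ) * M (P k) s := by
            simp only [hM, if_neg ht]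
          have e3 : M (P k) t = ∑ s ∈ S t, (w t s : ℂ) * P k s := by
            simp only [hM, if_neg ht]
          rw [e2, e3, ← Finset.sum_sub_distrib]
          apply Finset.sum_congr rfl
          intro s _; ring
        rw [e1]
        calc ‖∑ s ∈ S t, (w t s : ℂ) * (M (P k) s - P k s)‖
            ≤ ∑ s ∈ S t, ‖(w t s : ℂ) * (M (P k) s - P k s)‖ := norm_sum_le _ _
          _ ≤ ∑ s ∈ S t, w t s * (G * θ ^ k * φ s) := by
              apply Finset.sum_le_sum
              intro s hs
              rw [norm_mul, Complex.norm_real, Real.norm_eq_abs, abs_of_nonneg (hw t ht s hs)]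
              apply mul_le_mul_of_nonneg_left _ (hw t ht s hs)
              have := ih s
              rwa [hPs k] at this
          _ = G * θ ^ k * ∑ s ∈ S t, w t s * φ s := by
              rw [Finset.mul_sum]
              apply Finset.sum_congr rfl
              intro s _; ring
          _ ≤ G * θ ^ k * (θ * φ t) := by
              apply mul_le_mul_of_nonneg_left (hcontr t ht); positivity
          _ = G * θ ^ (k + 1) * φ t := by rw [pow_succ]; ring
  have hdist : ∀ t k, dist (P k t) (P (k + 1) t) ≤ 2 * G * θ ^ k := by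
    intro t k
    rw [dist_comm, dist_eq_norm]
    refine (hstep k t).trans ?_
    have h1 := hφ2 t
    have h2 : 0 ≤ G * θ ^ k := by positivity
    nlinarith
  have hcau : ∀ t, ∃ x, Tendsto (fun k => P k t) atTop (𝓝 x) := fun t =>
    cauchySeq_tendsto_of_complete (cauchySeq_of_le_geometric θ (2 * G) hθ1 (hdist t))
  choose p hp using hcau
  refine ⟨p, ?_, ?_, ?_⟩
  · intro t ht
    have h1 : Tendsto (fun k => P (k + 1) t) atTop (𝓝 (p t)) := (tendsto_add_atTop_iff_nat 1).2 (hp t)
    have h2 : (fun k => P (k + 1) t) = fun _ => pos t := by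
      funext k
      rw [hPs k]; simp only [hM, if_pos ht]
    rw [h2] at h1
    exact (tendsto_nhds_unique h1 tendsto_const_nhds)
  · intro t ht
    have h1 : Tendsto (fun k => P (k + 1) t) atTop (𝓝 (p t)) := (tendsto_add_atTop_iff_nat 1).2 (hp t)
    have h2 : (fun k => P (k + 1) t) = fun k => ∑ s ∈ S t, (w t s : ℂ) * P k s := by
      funext k
      rw [hPs k]; simp only [hM, if_neg ht]
    rw [h2] at h1
    have h3 : Tendsto (fun k => ∑ s ∈ S t, (w t s : ℂ) * P k s) atTop
        (𝓝 (∑ s ∈ S t, (w t s : ℂ) * p s)) := by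
      apply tendsto_finsetSum
      intro s _
      exact (hp s).const_mul _
    exact tendsto_nhds_unique h1 h3
  · intro t
    have h1 := dist_le_of_le_geometric_of_tendsto₀ θ (2 * G) hθ1 (hdist t) (hp t)
    have hP0 : P 0 t = c t := rfl
    rw [hP0, dist_comm, dist_eq_norm] at h1
    have h2 : 2 * G / (1 - θ) = 4 * G / r ^ K := by
      rw [hθ]
      field_simp
      ring
    rw [h2] at h1
    exact h1

end Pool.Agent.Helper89.Dual
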