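import Pool.Agent.Helper89.Dual.Graph
set_option autoImplicit false

/-!
A planar adjacency graph contains no three pieces joined to three common tiles.
-/

namespace Pool.Agent.Helper89.Dual

open Complex Set Metric Filter Topology

variable {ι : Type} {A : ι → Set ℂ} {c : ι → ℂ} {u U : ℝ}

namespace CT

theorem finite_adj (h : CT A c u U) (i : ι) : {j | Adj A i j}.Finite := by
  apply (h.finite_meet (c i) U).subset
  intro j hj
  exact ⟨lp A c i j, (h.lp_mem hj).2, h.outer i (h.lp_mem hj).1⟩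

/-- the finite set of neighbours -/
noncomputable def nb (h : CT A c u U) (i : ι) : Finset ι := (h.finite_adj i).toFinset

theorem mem_nb (h : CT A c u U) {i j : ι} : j ∈ h.nb i ↔ Adj A i j := by
  simp [nb]

/-- summing over the edges of a tile, left or right end points give the same -/
theorem sum_lp_rp (h : CT A c u U) (i : ι) (g : ℂ → ℝ) :
    ∑ j ∈ h.nb i, g (lp A c i j) = ∑ j ∈ h.nb i, g (rp A c i j) := by
  classical
  have h1 : Set.InjOn (fun j => lp A c i j) (h.nb i : Set ι) := by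
    intro j hj k hk he
    exact h.lp_inj (h.mem_nb.1 (Finset.mem_coe.1 hj)) (h.mem_nb.1 (Finset.mem_coe.1 hk)) he
  have h2 : Set.InjOn (fun j => rp A c i j) (h.nb i : Set ι) := by
    intro j hj k hk he
    exact h.rp_inj (h.mem_nb.1 (Finset.mem_coe.1 hj)) (h.mem_nb.1 (Finset.mem_coe.1 hk)) he
  have e1 : ∑ j ∈ h.nb i, g (lp A c i j) = ∑ v ∈ (h.nb i).image (fun j => lp A c i j), g v := by
    rw [Finset.sum_image h1]
  have e2 : ∑ j ∈ h.nb i, g (rp A c i j) = ∑ v ∈ (h.nb i).image (fun j => rp A c i j), g v := by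
    rw [Finset.sum_image h2]
  rw [e1, e2]
  congr 1
  ext v
  simp only [Finset.mem_image]
  constructor
  · rintro ⟨j, hj, rfl⟩
    have hj' := h.mem_nb.1 hj
    obtain ⟨k, hk, hke⟩ := h.exists_rp (h.lp_mem hj').1 (h.isV_lp hj')
    exact ⟨k, h.mem_nb.2 hk, hke⟩
  · rintro ⟨j, hj, rfl⟩
    have hj' := h.mem_nb.1 hj
    obtain ⟨k, hk, hke⟩ := h.exists_lp (h.rp_mem hj').1 (h.isV_rp hj')
    exact ⟨k, h.mem_nb.2 hk, hke⟩

theorem path_through {x1 x3 : ι} {X : Set ι} (hX : Cn A X) (h13 : x1 ≠ x3)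
    (h1 : x1 ∉ X) (h3 : x3 ∉ X) (ha : ∃ w ∈ X, Adj A x1 w) (hb : ∃ w ∈ X, Adj A x3 w) :
    ∃ f ∈ X, Adj A x1 f ∧ ∃ P : (gr A).Walk x1 x3,
      (∀ m ∈ P.support, m = x1 ∨ m = x3 ∨ m ∈ X) ∧ 
      wsum (ei x1 f) P = 1 ∧ ∀ j, j ≠ f → wsum (ei x1 j) P = 0 := by
  obtain ⟨f, hf, hadj⟩ := ha
  obtain ⟨w, hw, hadj'⟩ := hb
  obtain ⟨Q, hQ⟩ := hX f hf w hw
  have hf1 : f ≠ x1 := fun e => h1 (e ▸ hf)
  have hw1 : w ≠ x1 := fun e => h1 (e ▸ hw)
  have hQ0 : ∀ j, wsum (ei x1 j) Q = 0 := by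
    intro j
    apply wsum_zero
    intro i k _ hi hk
    exact ei_zero_left (fun e => h1 (e ▸ hQ i hi)) (fun e => h1 (e ▸ hQ k hk))
  have hlast : ∀ j, ei x1 j w x3 = 0 := fun j => ei_zero_left hw1 h13.symm
  refine ⟨f, hf, hadj, SimpleGraph.Walk.cons (show (gr A).Adj x1 f from hadj)
    (Q.append (SimpleGraph.Walk.cons (show (gr A).Adj w x3 from hadj'.symm)
      SimpleGraph.Walk.nil)), ?_, ?_, ?_⟩
  · intro m hm
    simp only [SimpleGraph.Walk.support_cons, List.mem_cons,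
      SimpleGraph.Walk.mem_support_append_iff, SimpleGraph.Walk.support_nil, List.not_mem_nil,
      or_false] at hm
    rcases hm with rfl | hm | rfl | rfl
    · exact Or.inl rfl
    · exact Or.inr (Or.inr (hQ m hm))
    · exact Or.inr (Or.inr hw)
    · exact Or.inr (Or.inl rfl)
  · rw [wsum_cons, wsum_append, wsum_cons, wsum_nil, hQ0, hlast]
    simp [ei, hf1]
  · intro j hj
    rw [wsum_cons, wsum_append, wsum_cons, wsum_nil, hQ0, hlast]
    simp [ei, hf1, Ne.symm hj]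

theorem const_on (h : CT A c u U) {x1 x2 x3 : ι} {X Y Z : Set ι} (hZ : Cn A Z)
    (h12 : x1 ≠ x2) (h23 : x2 ≠ x3) (h2X : x2 ∉ X) (h2Y : x2 ∉ Y) (h1Z : x1 ∉ Z) (h3Z : x3 ∉ Z)
    (hXZ : ∀ m ∈ Z, m ∉ X) (hYZ : ∀ m ∈ Z, m ∉ Y) (ha : ∃ w ∈ Z, Adj A x2 w)
    (P Q : (gr A).Walk x1 x3) (hP : ∀ m ∈ P.support, m = x1 ∨ m = x3 ∨ m ∈ X)
    (hQ : ∀ m ∈ Q.support, m = x1 ∨ m = x3 ∨ m ∈ Y) {k : ι} (hk : k ∈ Z) {z : ℂ} (hz : z ∈ A k) :
    wsum (Th A c z) P - wsum (Th A c z) Q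
      = wsum (Th A c (c x2)) P - wsum (Th A c (c x2)) Q := by
  obtain ⟨w, hw, hadj⟩ := ha
  obtain ⟨R, hR⟩ := hZ w hw k hk
  have hsup : ∀ m ∈ (SimpleGraph.Walk.cons (show (gr A).Adj x2 w from hadj) R).support,
      m = x2 ∨ m ∈ Z := by
    intro m hm
    simp only [SimpleGraph.Walk.support_cons, List.mem_cons] at hm
    rcases hm with rfl | hm
    · exact Or.inl rfl
    · exact Or.inr (hR m hm)
  apply h.wd_walk P Q (SimpleGraph.Walk.cons (show (gr A).Adj x2 w from hadj) R) _ _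
    (h.c_mem x2) hz
  · intro m hm hmP
    rcases hsup m hm with rfl | hmZ
    · rcases hP _ hmP with e | e | e
      · exact h12 e.symm
      · exact h23 e
      · exact h2X e
    · rcases hP _ hmP with e | e | e
      · exact h1Z (e ▸ hmZ)
      · exact h3Z (e ▸ hmZ)
      · exact hXZ m hmZ e
  · intro m hm hmP
    rcases hsup m hm with rfl | hmZ
    · rcases hQ _ hmP with e | e | e
      · exact h12 e.symm
      · exact h23 e
      · exact h2Y e
    · rcases hQ _ hmP with e | e | e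
      · exact h1Z (e ▸ hmZ)
      · exact h3Z (e ▸ hmZ)
      · exact hYZ m hmZ e

/-- Lemma K: no three tiles are all adjacent to three disjoint connected sets of tiles. -/
theorem lemma_K (h : CT A c u U) {x1 x2 x3 : ι} {W1 W2 W3 : Set ι}
    (hW1 : Cn A W1) (hW2 : Cn A W2) (hW3 : Cn A W3)
    (d12 : ∀ m ∈ W1, m ∉ W2) (d13 : ∀ m ∈ W1, m ∉ W3) (d23 : ∀ m ∈ W2, m ∉ W3)
    (h12 : x1 ≠ x2) (h23 : x2 ≠ x3) (h13 : x1 ≠ x3)
    (n11 : x1 ∉ W1) (n12 : x1 ∉ W2) (n13 : x1 ∉ W3)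
    (n21 : x2 ∉ W1) (n22 : x2 ∉ W2) (n23 : x2 ∉ W3)
    (n31 : x3 ∉ W1) (n32 : x3 ∉ W2) (n33 : x3 ∉ W3)
    (a11 : ∃ w ∈ W1, Adj A x1 w) (a12 : ∃ w ∈ W2, Adj A x1 w) (a13 : ∃ w ∈ W3, Adj A x1 w)
    (a21 : ∃ w ∈ W1, Adj A x2 w) (a22 : ∃ w ∈ W2, Adj A x2 w) (a23 : ∃ w ∈ W3, Adj A x2 w)
    (a31 : ∃ w ∈ W1, Adj A x3 w) (a32 : ∃ w ∈ W2, Adj A x3 w) (a33 : ∃ w ∈ W3, Adj A x3 w) :
    False := by
  classical
  obtain ⟨f1, hf1, hadj1, P1, hP1, hP1a, hP1b⟩ := path_through hW1 h13 n11 n31 a11 a31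
  obtain ⟨f2, hf2, hadj2, P2, hP2, hP2a, hP2b⟩ := path_through hW2 h13 n12 n32 a12 a32
  obtain ⟨f3, hf3, hadj3, P3, hP3, hP3a, hP3b⟩ := path_through hW3 h13 n13 n33 a13 a33
  have e12 : f1 ≠ f2 := fun e => d12 f1 hf1 (e ▸ hf2)
  have e13 : f1 ≠ f3 := fun e => d13 f1 hf1 (e ▸ hf3)
  have e23 : f2 ≠ f3 := fun e => d23 f2 hf2 (e ▸ hf3)
  set T1 : ℂ → ℝ := fun z => wsum (Th A c z) P1 - wsum (Th A c (c x2)) P1 with hT1
  set T2 : ℂ → ℝ := fun z => wsum (Th A c z) P2 - wsum (Th A c (c x2)) P2 with hT2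
  set T3 : ℂ → ℝ := fun z => wsum (Th A c z) P3 - wsum (Th A c (c x2)) P3 with hT3
  have c3 : ∀ k ∈ W3, ∀ z ∈ A k, T1 z = T2 z := by
    intro k hk z hz
    have := h.const_on hW3 h12 h23 n21 n22 n13 n33 (fun m hm hm' => d13 m hm' hm)
      (fun m hm hm' => d23 m hm' hm) a23 P1 P2 hP1 hP2 hk hz
    simp only [hT1, hT2]; linarith
  have c2 : ∀ k ∈ W2, ∀ z ∈ A k, T1 z = T3 z := by
    intro k hk z hz
    have := h.const_on hW2 h12 h23 n21 n23 n12 n32 (fun m hm hm' => d12 m hm' hm)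
      (fun m hm hm' => d23 m hm hm') a22 P1 P3 hP1 hP3 hk hz
    simp only [hT1, hT3]; linarith
  have c1 : ∀ k ∈ W1, ∀ z ∈ A k, T2 z = T3 z := by
    intro k hk z hz
    have := h.const_on hW1 h12 h23 n22 n23 n11 n31 (fun m hm hm' => d12 m hm hm')
      (fun m hm hm' => d13 m hm hm') a21 P2 P3 hP2 hP3 hk hz
    simp only [hT2, hT3]; linarith
  have w12 : ∀ j, Adj A x1 j → T1 (lp A c x1 j) - T2 (lp A c x1 j)
      = T1 (rp A c x1 j) - T2 (rp A c x1 j)
        + 2 * Real.pi * (wsum (ei x1 j) P1 - wsum (ei x1 j) P2) := by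
    intro j hj
    have := h.wd_edge P1 P2 hj
    simp only [hT1, hT2]; linarith
  have w23 : ∀ j, Adj A x1 j → T2 (lp A c x1 j) - T3 (lp A c x1 j)
      = T2 (rp A c x1 j) - T3 (rp A c x1 j)
        + 2 * Real.pi * (wsum (ei x1 j) P2 - wsum (ei x1 j) P3) := by
    intro j hj
    have := h.wd_edge P2 P3 hj
    simp only [hT2, hT3]; linarith
  clear_value T1 T2 T3
  -- the key counting step
  have key : ∀ n : ℝ, n ≠ 0 →
      (T1 (lp A c x1 f1) - T2 (lp A c x1 f1) = n ↔ T1 (rp A c x1 f1) - T2 (rp A c x1 f1) = n) := by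
    intro n hn
    set g : ℂ → ℝ := fun z => if T1 z - T2 z = n ∧ T2 z = T3 z then 1 else 0 with hg
    have hsum := h.sum_lp_rp x1 g
    have hsum' : ∑ j ∈ h.nb x1, (g (lp A c x1 j) - g (rp A c x1 j)) = 0 := by
      rw [Finset.sum_sub_distrib, hsum, sub_self]
    rw [Finset.sum_eq_single_of_mem f1 (h.mem_nb.2 hadj1)] at hsum'
    · have k1 := c1 f1 hf1 _ (h.lp_mem hadj1).2
      have k2 := c1 f1 hf1 _ (h.rp_mem hadj1).2
      simp only [hg, k1, k2, and_true] at hsum'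
      constructor
      · intro hh
        by_contra hh'
        rw [k1] at hh; rw [k2] at hh'
        rw [if_pos hh, if_neg hh'] at hsum'
        norm_num at hsum'
      · intro hh
        by_contra hh'
        rw [k2] at hh; rw [k1] at hh'
        rw [if_pos hh, if_neg hh'] at hsum'
        norm_num at hsum'
    · intro j hj hjf
      have hadj := h.mem_nb.1 hj
      by_cases hj2 : j = f2
      · subst hj2
        have k1 := c2 j hf2 _ (h.lp_mem hadj).2
        have k2 := c2 j hf2 _ (h.rp_mem hadj).2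
        have g1 : g (lp A c x1 j) = 0 := by
          rw [hg]; apply if_neg
          rintro ⟨h1, h2⟩; apply hn; linarith
        have g2 : g (rp A c x1 j) = 0 := by
          rw [hg]; apply if_neg
          rintro ⟨h1, h2⟩; apply hn; linarith
        rw [g1, g2, sub_self]
      · by_cases hj3 : j = f3
        · subst hj3
          have k1 := c3 j hf3 _ (h.lp_mem hadj).2
          have k2 := c3 j hf3 _ (h.rp_mem hadj).2
          have g1 : g (lp A c x1 j) = 0 := by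
            rw [hg]; apply if_neg
            rintro ⟨h1, h2⟩; apply hn; linarith
          have g2 : g (rp A c x1 j) = 0 := by
            rw [hg]; apply if_neg
            rintro ⟨h1, h2⟩; apply hn; linarith
          rw [g1, g2, sub_self]
        · have k1 := w12 j hadj
          have k2 := w23 j hadj
          rw [hP1b j hjf, hP2b j hj2] at k1
          rw [hP2b j hj2, hP3b j hj3] at k2
          have : g (lp A c x1 j) = g (rp A c x1 j) := by
            simp only [hg]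
            congr 1
            apply propext
            constructor
            · rintro ⟨h1, h2⟩; constructor <;> linarith
            · rintro ⟨h1, h2⟩; constructor <;> linarith
          rw [this, sub_self]
  have hcross := w12 f1 hadj1
  rw [hP1a, hP2b f1 e12] at hcross
  have hpi := Real.pi_pos
  by_cases hn : T1 (lp A c x1 f1) - T2 (lp A c x1 f1) = 0
  · have hn' : T1 (rp A c x1 f1) - T2 (rp A c x1 f1) ≠ 0 := by
      intro h0; linarith
    have := (key _ hn').2 rfl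
    linarith
  · have := (key _ hn).1 rfl
    linarith

end CT

end Pool.Agent.Helper89.Dual
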