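import Pool.Agent.Helper89.Dual.KLem
set_option autoImplicit false

/-!
Level sets of a map with the uniform hull property are connected.
-/

namespace Pool.Agent.Helper89.Dual

open Complex Set Metric Filter Topology

variable {ι : Type} {A : ι → Set ℂ} {c : ι → ℂ} {u U : ℝ}

/-- bounded displacement -/
def Bd (c p : ι → ℂ) (R : ℝ) : Prop := ∀ t, ‖p t - c t‖ ≤ R

/-- uniform hull property -/
def UH (A : ι → Set ℂ) (p : ι → ℂ) (e : ℝ) : Prop :=
  ∀ (t : ι) (n : ℂ) (s : ι), Adj A t s →
    ∃ s', Adj A t s' ∧ e * |dt n (p s - p t)| ≤ dt n (p s' - p t)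

/-- margin property -/
def Mg (A : ι → Set ℂ) (p : ι → ℂ) (η : ℝ) : Prop :=
  ∀ (t : ι) (n : ℂ), ‖n‖ = 1 → ∃ s, Adj A t s ∧ η ≤ dt n (p s - p t)

theorem dt_le_of_unit {n : ℂ} (hn : ‖n‖ = 1) (v : ℂ) : |dt n v| ≤ ‖v‖ := by
  have := dt_le n v
  rwa [hn, one_mul] at this

theorem dt_self_unit {n : ℂ} (hn : ‖n‖ = 1) : dt n n = 1 := by
  have : dt n n = ‖n‖ ^ 2 := by
    rw [← Complex.normSq_eq_norm_sq, Complex.normSq_apply]; simp [dt]
  rw [this, hn]; norm_num

theorem short_walk {W : Set ι} (hW : Cn A W) {s : Finset ι} (hs : ∀ x ∈ W, x ∈ s) {i j : ι}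
    (hi : i ∈ W) (hj : j ∈ W) :
    ∃ p : (gr A).Walk i j, p.length ≤ s.card ∧ ∀ x ∈ p.support, x ∈ W := by
  classical
  obtain ⟨p, hp⟩ := hW i hi j hj
  have hsup : ∀ x ∈ p.bypass.support, x ∈ W := fun x hx => hp x (p.support_bypass_subset_support hx)
  refine ⟨p.bypass, ?_, hsup⟩
  have hnd : p.bypass.support.Nodup := p.bypass_isPath.support_nodup
  have h1 : p.bypass.support.toFinset.card = p.bypass.support.length :=
    List.toFinset_card_of_nodup hnd
  have h2 : p.bypass.support.toFinset ⊆ s := by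
    intro x hx
    rw [List.mem_toFinset] at hx
    exact hs x (hsup x hx)
  have h3 := Finset.card_le_card h2
  rw [h1, SimpleGraph.Walk.length_support] at h3
  omega

namespace CT

theorem level_conn (h : CT A c u U) {p : ι → ℂ} {R e : ℝ} (he : 0 < e) (hB : Bd c p R)
    (hU : UH A p e) {n : ℂ} (hn : ‖n‖ = 1) (c0 : ℝ) : Cn A {t | c0 < dt n (p t)} := by
  classical
  set S : Set ι := {t | c0 < dt n (p t)} with hS
  set K : ℝ := c0 + R + U with hK
  set H : Set ℂ := {w | K < dt n w} with hH
  have hHo : IsOpen H := isOpen_lt continuous_const (continuous_dt_right n)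
  have hHc : Convex ℝ H := by
    intro x hx y hy a b ha hb hab
    show K < dt n (a • x + b • y)
    rw [Complex.real_smul, Complex.real_smul, dt_add_right, dt_smul_right, dt_smul_right]
    have hx' : K < dt n x := hx
    have hy' : K < dt n y := hy
    rcases ha.lt_or_eq with h1 | h1
    · have k1 := mul_lt_mul_of_pos_left hx' h1
      have k2 := mul_le_mul_of_nonneg_left hy'.le hb
      have k3 : a * K + b * K = K := by rw [← add_mul, hab, one_mul]
      linarith
    · have : b = 1 := by linarith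
      rw [← h1, this]; linarith
  have hHS : ∀ t, (A t ∩ H).Nonempty → t ∈ S := by
    rintro t ⟨w, hwt, hwH⟩
    have h1 := h.outer t hwt
    rw [mem_closedBall, dist_eq_norm] at h1
    have h2 := hB t
    have h3 := abs_le.1 (dt_le_of_unit hn (w - c t))
    have h4 := abs_le.1 (dt_le_of_unit hn (p t - c t))
    rw [dt_sub_right] at h3 h4
    have hwH' : K < dt n w := hwH
    show c0 < dt n (p t)
    linarith
  have hHconn := h.conn_open hHo hHc
  -- every tile of `S` is joined inside `S` to a tile meeting `H`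
  have key : ∀ t ∈ S, ∃ s, (A s ∩ H).Nonempty ∧ ∃ q : (gr A).Walk t s, ∀ x ∈ q.support, x ∈ S := by
    intro t ht
    by_contra hcon
    push Not at hcon
    set G : Set ι := {s | ∃ q : (gr A).Walk t s, ∀ x ∈ q.support, x ∈ S} with hG
    have hGH : ∀ s ∈ G, ¬ (A s ∩ H).Nonempty := by
      rintro s ⟨q, hq⟩ hs
      obtain ⟨x, hx1, hx2⟩ := hcon s hs q
      exact hx2 (hq x hx1)
    have htG : t ∈ G := ⟨SimpleGraph.Walk.nil, by intro x hx; simp at hx; rw [hx]; exact ht⟩
    have hGS : ∀ s ∈ G, c0 < dt n (p s) := by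
      rintro s ⟨q, hq⟩
      exact hq s q.end_mem_support
    have hGn : ∀ s ∈ G, ∀ s', Adj A s s' → c0 < dt n (p s') → s' ∈ G := by
      rintro s ⟨q, hq⟩ s' hss hs'
      refine ⟨q.append (SimpleGraph.Walk.cons (show (gr A).Adj s s' from hss)
        SimpleGraph.Walk.nil), ?_⟩
      intro x hx
      rw [SimpleGraph.Walk.mem_support_append_iff] at hx
      rcases hx with hx | hx
      · exact hq x hx
      · simp only [SimpleGraph.Walk.support_cons, SimpleGraph.Walk.support_nil, List.mem_cons,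
          List.not_mem_nil, or_false] at hx
        rcases hx with rfl | rfl
        · exact hq _ q.end_mem_support
        · exact hs'
    have hbdd : ∀ s ∈ G, dt n (p s) ≤ K + R := by
      intro s hs
      have h1 : c s ∉ H := fun hh => hGH s hs ⟨c s, h.c_mem s, hh⟩
      have h1' : dt n (c s) ≤ K := not_lt.1 h1
      have h4 := abs_le.1 (dt_le_of_unit hn (p s - c s))
      have h2 := hB s
      rw [dt_sub_right] at h4
      linarith
    set V : Set ℝ := (fun s => dt n (p s)) '' G with hV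
    have hVb : BddAbove V := ⟨K + R, by rintro _ ⟨s, hs, rfl⟩; exact hbdd s hs⟩
    have hVne : V.Nonempty := ⟨_, t, htG, rfl⟩
    set M := sSup V with hM
    have hMle : ∀ s ∈ G, dt n (p s) ≤ M := fun s hs => le_csSup hVb ⟨s, hs, rfl⟩
    have hMc : c0 < M := lt_of_lt_of_le (hGS t htG) (hMle t htG)
    set r : ℝ := 1 + 1 / e with hr
    have hr1 : 1 ≤ r := by rw [hr]; have : 0 < 1 / e := by positivity
                           linarith
    have step : ∀ (s0 s : ι) (q : (gr A).Walk s0 s) (δ : ℝ), 0 < δ → s0 ∈ G →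
        M - δ < dt n (p s0) → δ * r ^ q.length ≤ M - c0 → s ∈ G := by
      intro s0 s q
      induction q with
      | nil => intro δ _ hs0 _ _; exact hs0
      | @cons a b d hab q ih =>
        intro δ hδ ha hval hlen
        have hadj : Adj A a b := hab
        obtain ⟨s', hs', hle⟩ := hU a n b hadj
        have hup : dt n (p s') ≤ M := by
          by_cases hc : c0 < dt n (p s')
          · exact hMle s' (hGn a ha s' hs' hc)
          · push Not at hc; linarith
        have h1 : |dt n (p b - p a)| < δ / e := by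
          rw [lt_div_iff₀ he]
          rw [dt_sub_right n (p s')] at hle
          linarith
        have h2 := (abs_lt.1 h1).1
        rw [dt_sub_right] at h2
        have h3 : M - δ * r < dt n (p b) := by
          have : δ * r = δ + δ / e := by rw [hr]; ring
          linarith
        have h4 : δ * r ≤ M - c0 := by
          refine le_trans ?_ hlen
          rw [SimpleGraph.Walk.length_cons, pow_succ]
          have : 1 ≤ r ^ q.length := one_le_pow₀ hr1
          have h5 : 0 < δ * r := by positivity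
          nlinarith
        apply ih (δ * r) (by positivity) (hGn a ha b hadj (by linarith)) h3
        rw [SimpleGraph.Walk.length_cons, pow_succ] at hlen
        calc δ * r * r ^ q.length = δ * (r ^ q.length * r) := by ring
          _ ≤ _ := hlen
    have hR : 0 ≤ R := (norm_nonneg _).trans (hB t)
    have hU0 := h.U_nonneg
    set ρ : ℝ := 2 * R + U + 1 with hρ
    obtain ⟨N, hN⟩ := h.count ρ
    set δ : ℝ := (M - c0) / r ^ N with hδ
    have hδ0 : 0 < δ := by
      rw [hδ]; apply div_pos (by linarith); positivity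
    obtain ⟨_, ⟨s0, hs0, rfl⟩, hval⟩ := exists_lt_of_lt_csSup hVne (show M - δ < sSup V by
      rw [← hM]; linarith)
    obtain ⟨s, hscard, hs⟩ := hN (c s0)
    have hconn := h.conn_open (isOpen_ball (x := c s0) (ε := ρ)) (convex_ball _ _)
    obtain ⟨k, hk⟩ := h.cover (c s0 + ((2 * R + U : ℝ) : ℂ) * n)
    have hnk : ‖((2 * R + U : ℝ) : ℂ) * n‖ = 2 * R + U := by
      rw [norm_mul, Complex.norm_real, Real.norm_eq_abs, abs_of_nonneg (by linarith), hn, mul_one]
    have hkb : (A k ∩ ball (c s0) ρ).Nonempty := by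
      refine ⟨_, hk, ?_⟩
      rw [mem_ball, dist_eq_norm, add_sub_cancel_left, hnk]
      linarith
    have hsb : (A s0 ∩ ball (c s0) ρ).Nonempty :=
      ⟨c s0, h.c_mem s0, mem_ball_self (by linarith)⟩
    obtain ⟨q, hql, -⟩ := short_walk hconn (s := s) (by
      rintro x ⟨y, hy1, hy2⟩
      exact hs x ⟨y, hy1, ball_subset_closedBall hy2⟩) hsb hkb
    have hkG : k ∈ G := by
      apply step s0 k q δ hδ0 hs0 hval
      have h1 : r ^ q.length ≤ r ^ N := pow_le_pow_right₀ hr1 (hql.trans hscard)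
      have h2 : 0 < r ^ N := by positivity
      calc δ * r ^ q.length ≤ δ * r ^ N := by
            apply mul_le_mul_of_nonneg_left h1 hδ0.le
        _ = M - c0 := by rw [hδ]; field_simp
    apply hGH k hkG
    refine ⟨_, hk, ?_⟩
    show K < dt n (c s0 + ((2 * R + U : ℝ) : ℂ) * n)
    rw [dt_add_right, dt_smul_right, dt_self_unit hn, mul_one]
    have h4 := abs_le.1 (dt_le_of_unit hn (p s0 - c s0))
    have h2 := hB s0
    rw [dt_sub_right] at h4
    have h5 := hGS s0 hs0
    rw [hK]
    linarith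
  intro i hi j hj
  obtain ⟨a, haH, q1, hq1⟩ := key i hi
  obtain ⟨b, hbH, q2, hq2⟩ := key j hj
  obtain ⟨q3, hq3⟩ := hHconn a haH b hbH
  refine ⟨(q1.append q3).append q2.reverse, ?_⟩
  intro x hx
  rw [SimpleGraph.Walk.mem_support_append_iff, SimpleGraph.Walk.mem_support_append_iff,
    SimpleGraph.Walk.support_reverse, List.mem_reverse] at hx
  rcases hx with (hx | hx) | hx
  · exact hq1 x hx
  · exact hHS x (hq3 x hx)
  · exact hq2 x hx

theorem bd_adj (h : CT A c u U) {p : ι → ℂ} {R : ℝ} (hB : Bd c p R) {t s : ι}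
    (hadj : Adj A t s) : ‖p s - p t‖ ≤ 2 * R + 2 * U := by
  have h1 := hB t
  have h2 := hB s
  have h3 := h.outer t (h.lp_mem hadj).1
  have h4 := h.outer s (h.lp_mem hadj).2
  rw [mem_closedBall, dist_eq_norm] at h3 h4
  have e : p s - p t = (p s - c s) - (p t - c t) - (lp A c t s - c s) + (lp A c t s - c t) := by
    ring
  rw [e]
  calc _ ≤ ‖(p s - c s) - (p t - c t) - (lp A c t s - c s)‖ + ‖lp A c t s - c t‖ := norm_add_le _ _
    _ ≤ (‖(p s - c s) - (p t - c t)‖ + ‖lp A c t s - c s‖) + ‖lp A c t s - c t‖ := by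
        gcongr; exact norm_sub_le _ _
    _ ≤ ((‖p s - c s‖ + ‖p t - c t‖) + ‖lp A c t s - c s‖) + ‖lp A c t s - c t‖ := by
        gcongr; exact norm_sub_le _ _
    _ ≤ 2 * R + 2 * U := by linarith

theorem uh_of_mg (h : CT A c u U) {p : ι → ℂ} {R η : ℝ} (hη : 0 < η) (hB : Bd c p R)
    (hM : Mg A p η) : ∃ e > 0, UH A p e := by
  obtain ⟨t0, -⟩ := h.cover 0
  have hR : 0 ≤ R := (norm_nonneg _).trans (hB t0)
  have hU0 : 0 < U := lt_of_lt_of_le h.hu h.u_le_U
  refine ⟨η / (2 * R + 2 * U), by positivity, ?_⟩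
  intro t n s hts
  by_cases hn : n = 0
  · refine ⟨s, hts, ?_⟩
    rw [hn]; simp [dt]
  have hn0 : 0 < ‖n‖ := norm_pos_iff.2 hn
  obtain ⟨s', hs', hle⟩ := hM t (((1 / ‖n‖ : ℝ) : ℂ) * n) (by
    rw [norm_mul, Complex.norm_real, Real.norm_eq_abs, abs_of_pos (by positivity)]
    field_simp)
  refine ⟨s', hs', ?_⟩
  rw [dt_comm, dt_smul_right, dt_comm] at hle
  have h1 : η * ‖n‖ ≤ dt n (p s' - p t) := by
    have : 1 / ‖n‖ * dt n (p s' - p t) = dt n (p s' - p t) / ‖n‖ := by ring
    rw [this, le_div_iff₀ hn0] at hle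
    exact hle
  refine le_trans ?_ h1
  have h2 := (dt_le n (p s - p t)).trans (mul_le_mul_of_nonneg_left (h.bd_adj hB hts) hn0.le)
  have h3 : 0 < 2 * R + 2 * U := by positivity
  rw [div_mul_eq_mul_div, div_le_iff₀ h3]
  nlinarith

end CT

end Pool.Agent.Helper89.Dual
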