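import Pool.Agent.Helper89.Dual.Level
set_option autoImplicit false

/-!
Straight lines avoiding the vertices, and the sequence of tiles along such a line.
-/

namespace Pool.Agent.Helper89.Dual

open Complex Set Metric Filter Topology

variable {ι : Type} {A : ι → Set ℂ} {c : ι → ℂ} {u U : ℝ}

/-- a directed line avoiding the vertices -/
structure Ln {ι : Type} (A : ι → Set ℂ) where
  o : ℂ
  d : ℂ
  hd : ‖d‖ = 1
  gen : ∀ s : ℝ, ¬ IsV A (o + (s : ℂ) * d)

namespace Ln

def pt (l : Ln A) (s : ℝ) : ℂ := l.o + (s : ℂ) * l.d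

def rev (l : Ln A) : Ln A :=
  ⟨l.o, -l.d, by rw [norm_neg]; exact l.hd, fun s => by
    have := l.gen (-s)
    have e : l.o + (s : ℂ) * -l.d = l.o + ((-s : ℝ) : ℂ) * l.d := by push_cast; ring
    rw [e]; exact this⟩

def On (l : Ln A) (t : ι) : Prop := ∃ s : ℝ, l.pt s ∈ A t

noncomputable def be (l : Ln A) (t : ι) : ℝ := sSup {s | l.pt s ∈ A t}
noncomputable def al (l : Ln A) (t : ι) : ℝ := sInf {s | l.pt s ∈ A t}

noncomputable def nxt (l : Ln A) (t : ι) : ι := by
  classical exact if h : ∃ s, s ≠ t ∧ l.pt (l.be t) ∈ A s then h.choose else t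

theorem pt_rev (l : Ln A) (s : ℝ) : l.rev.pt s = l.pt (-s) := by
  show l.o + (s : ℂ) * -l.d = l.o + ((-s : ℝ) : ℂ) * l.d
  push_cast; ring

theorem on_rev (l : Ln A) (t : ι) : l.rev.On t ↔ l.On t := by
  constructor
  · rintro ⟨s, hs⟩
    rw [pt_rev] at hs
    exact ⟨-s, hs⟩
  · rintro ⟨s, hs⟩
    refine ⟨-s, ?_⟩
    rw [pt_rev, neg_neg]; exact hs

theorem dist_pt (l : Ln A) (s s' : ℝ) : ‖l.pt s - l.pt s'‖ = |s - s'| := by
  have : l.pt s - l.pt s' = ((s - s' : ℝ) : ℂ) * l.d := by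
    unfold pt; push_cast; ring
  rw [this, norm_mul, l.hd, mul_one, Complex.norm_real, Real.norm_eq_abs]

theorem pt_cont (l : Ln A) : Continuous l.pt := by
  unfold pt; fun_prop

theorem compact (l : Ln A) (h : CT A c u U) (t : ι) : IsCompact {s | l.pt s ∈ A t} := by
  have hcl : IsClosed {s | l.pt s ∈ A t} := (h.closed t).preimage l.pt_cont
  apply isCompact_of_isClosed_isBounded hcl
  rw [Metric.isBounded_iff]
  refine ⟨2 * U, ?_⟩
  intro x hx y hy
  rw [Real.dist_eq, ← l.dist_pt]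
  have h1 := h.outer t hx
  have h2 := h.outer t hy
  rw [mem_closedBall, dist_eq_norm] at h1 h2
  have e : l.pt x - l.pt y = (l.pt x - c t) - (l.pt y - c t) := by ring
  rw [e]
  have := norm_sub_le (l.pt x - c t) (l.pt y - c t)
  linarith

theorem be_mem (l : Ln A) (h : CT A c u U) {t : ι} (ht : l.On t) : l.pt (l.be t) ∈ A t :=
  (l.compact h t).sSup_mem ht

theorem al_mem (l : Ln A) (h : CT A c u U) {t : ι} (ht : l.On t) : l.pt (l.al t) ∈ A t :=
  (l.compact h t).sInf_mem ht

theorem le_be (l : Ln A) (h : CT A c u U) {t : ι} {s : ℝ} (hs : l.pt s ∈ A t) : s ≤ l.be t :=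
  le_csSup (l.compact h t).bddAbove hs

theorem al_le (l : Ln A) (h : CT A c u U) {t : ι} {s : ℝ} (hs : l.pt s ∈ A t) : l.al t ≤ s :=
  csInf_le (l.compact h t).bddBelow hs

theorem be_rev (l : Ln A) (h : CT A c u U) {t : ι} (ht : l.On t) : l.rev.be t = - l.al t := by
  apply le_antisymm
  · have h1 := l.rev.be_mem h ((l.on_rev t).2 ht)
    rw [pt_rev] at h1
    have := l.al_le h h1
    linarith
  · apply l.rev.le_be h
    rw [pt_rev, neg_neg]
    exact l.al_mem h ht

theorem exists_nxt (l : Ln A) (h : CT A c u U) {t : ι} (ht : l.On t) :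
    ∃ s, s ≠ t ∧ l.pt (l.be t) ∈ A s := by
  have h1 := l.be_mem h ht
  have h2 : l.pt (l.be t) ∉ interior (A t) := by
    intro hi
    have ht' : Tendsto (fun e : ℝ => l.pt (l.be t + e)) (𝓝[>] 0) (𝓝 (l.pt (l.be t))) := by
      have : Tendsto (fun e : ℝ => l.pt (l.be t + e)) (𝓝 0) (𝓝 (l.pt (l.be t + 0))) := by
        apply Continuous.tendsto
        exact l.pt_cont.comp (continuous_const.add continuous_id)
      rw [add_zero] at this
      exact this.mono_left nhdsWithin_le_nhds
    have hpos : ∀ᶠ e : ℝ in 𝓝[>] (0:ℝ), 0 < e := self_mem_nhdsWithin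
    obtain ⟨e, he1, he2⟩ := ((ht'.eventually (isOpen_interior.mem_nhds hi)).and hpos).exists
    have := l.le_be h (interior_subset he1)
    linarith
  have h3 : l.pt (l.be t) ∈ frontier (A t) := by
    rw [(h.closed t).frontier_eq]; exact ⟨h1, h2⟩
  exact (h.frontier_iff.1 h3).2

theorem nxt_spec (l : Ln A) (h : CT A c u U) {t : ι} (ht : l.On t) :
    l.nxt t ≠ t ∧ l.pt (l.be t) ∈ A (l.nxt t) := by
  have hex := l.exists_nxt h ht
  unfold nxt
  rw [dif_pos hex]
  exact hex.choose_spec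

theorem nxt_on (l : Ln A) (h : CT A c u U) {t : ι} (ht : l.On t) : l.On (l.nxt t) :=
  ⟨_, (l.nxt_spec h ht).2⟩

theorem nxt_adj (l : Ln A) (h : CT A c u U) {t : ι} (ht : l.On t) : Adj A t (l.nxt t) :=
  h.adj_of_not_isV (l.nxt_spec h ht).1.symm (l.be_mem h ht) (l.nxt_spec h ht).2 (l.gen _)

theorem nxt_unique (l : Ln A) (h : CT A c u U) {t s : ι} (ht : l.On t) (hst : s ≠ t)
    (hs : l.pt (l.be t) ∈ A s) : s = l.nxt t := by
  have h1 := l.nxt_spec h ht
  rcases not_isV_iff' (l.gen _) h1.1.symm (l.be_mem h ht) h1.2 s hs with h2 | h2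
  · exact absurd h2 hst
  · exact h2
where
  not_isV_iff' {z : ℂ} (hz : ¬ IsV A z) {i j : ι} (hij : i ≠ j) (hi : z ∈ A i)
    (hj : z ∈ A j) : ∀ k, z ∈ A k → k = i ∨ k = j := CT.not_isV_iff hz hij hi hj

theorem nxt_main (l : Ln A) (h : CT A c u U) {t : ι} (ht : l.On t) :
    l.al (l.nxt t) = l.be t ∧ l.be t < l.be (l.nxt t) ∧ l.al t < l.be t := by
  obtain ⟨hst, hs⟩ := l.nxt_spec h ht
  set s := l.nxt t with hsdef
  set q := l.pt (l.be t) with hq
  have hqt := l.be_mem h ht
  obtain ⟨d', hd', h1, h2, h3, h4⟩ := h.two_local hst.symm hqt hs (l.gen _)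
  have hdd : l.d ≠ 0 := by
    intro h0
    have := l.hd
    rw [h0, norm_zero] at this
    norm_num at this
  -- `d'` is not parallel to the line
  have hcr : cr d' l.d ≠ 0 := by
    intro h0
    have e := ortho_decomp hdd d'
    have e1 : cr l.d d' = 0 := by rw [cr_comm, h0, neg_zero]
    rw [e1] at e
    simp only [zero_div, Complex.ofReal_zero, zero_mul, add_zero] at e
    set m : ℝ := dt l.d d' / Complex.normSq l.d with hm
    have hm0 : m ≠ 0 := by
      intro h0; rw [h0] at e; simp at e; exact hd' e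
    have f1 : l.pt (l.be t + m) ∈ A t := by
      have : l.pt (l.be t + m) = q + d' := by
        rw [hq, e]; unfold pt; push_cast; ring
      rw [this]; exact h1
    have f2 : l.pt (l.be t - m) ∈ A t := by
      have : l.pt (l.be t - m) = q - d' := by
        rw [hq, e]; unfold pt; push_cast; ring
      rw [this]; exact h3
    have g1 := l.le_be h f1
    have g2 := l.le_be h f2
    apply hm0; linarith
  have hne : q - d' ≠ q + d' := by
    intro he
    apply hd'
    have : (2 : ℂ) * d' = 0 := by linear_combination -he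
    simpa using this
  obtain ⟨k0, k1⟩ := h.side hst hne h4 h3 h2 h1
  set κ := cr (q + d' - (q - d')) (c s - (q - d')) with hκ
  have hval : ∀ τ : ℝ, cr (q + d' - (q - d')) (l.pt τ - (q - d')) = 2 * (τ - l.be t) * cr d' l.d := by
    intro τ
    have e1 : q + d' - (q - d') = ((2 : ℝ) : ℂ) * d' := by push_cast; ring
    have e2 : l.pt τ - (q - d') = ((τ - l.be t : ℝ) : ℂ) * l.d + d' := by
      rw [hq]; unfold pt; push_cast; ring
    rw [e1, e2, cr_smul_left, cr_add_right, cr_smul_right, cr_self]; ring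
  obtain ⟨δ, hδ, hloc⟩ := h.local_ball q
  have htwo := CT.not_isV_iff (l.gen _) hst.symm hqt hs
  have hnear : ∀ τ : ℝ, |τ - l.be t| < δ → l.pt τ ∈ A t ∨ l.pt τ ∈ A s := by
    intro τ hτ
    obtain ⟨k, hk⟩ := h.cover (l.pt τ)
    have hb : l.pt τ ∈ ball q δ := by
      rw [mem_ball, dist_eq_norm, hq, l.dist_pt]; exact hτ
    rcases htwo k (hloc k ⟨_, hk, hb⟩) with rfl | rfl
    · exact Or.inl hk
    · exact Or.inr hk
  have hup : l.pt (l.be t + δ / 2) ∈ A s := by
    rcases hnear (l.be t + δ / 2) (by rw [add_sub_cancel_left, abs_of_pos (by positivity)]; linarith)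
      with h5 | h5
    · have := l.le_be h h5; linarith
    · exact h5
  have hpos : 0 < cr d' l.d * κ := by
    have := k1 _ hup
    rw [hval] at this
    have h6 : 0 ≤ cr d' l.d * κ := by
      have e : 2 * (l.be t + δ / 2 - l.be t) * cr d' l.d * κ = δ * (cr d' l.d * κ) := by ring
      rw [e] at this
      exact nonneg_of_mul_nonneg_right this hδ
    exact lt_of_le_of_ne h6 (mul_ne_zero hcr k0).symm
  have hge : ∀ τ : ℝ, l.pt τ ∈ A s → l.be t ≤ τ := by
    intro τ hτ
    have := k1 _ hτ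
    rw [hval] at this
    have e : 2 * (τ - l.be t) * cr d' l.d * κ = 2 * (τ - l.be t) * (cr d' l.d * κ) := by ring
    rw [e] at this
    have := nonneg_of_mul_nonneg_left this hpos
    linarith
  have hson : l.On s := ⟨_, hs⟩
  refine ⟨?_, ?_, ?_⟩
  · apply le_antisymm
    · exact l.al_le h hs
    · exact hge _ (l.al_mem h hson)
  · have := l.le_be h hup
    linarith
  · have hdn : l.pt (l.be t - δ / 2) ∈ A t := by
      have habs : |l.be t - δ / 2 - l.be t| < δ := by
        rw [sub_sub_cancel_left, abs_neg, abs_of_pos (by positivity)]; linarith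
      rcases hnear (l.be t - δ / 2) habs with h5 | h5
      · exact h5
      · have := hge _ h5; linarith
    have := l.al_le h hdn
    linarith

theorem nxt_rev (l : Ln A) (h : CT A c u U) {t : ι} (ht : l.On t) :
    l.rev.nxt (l.nxt t) = t := by
  have hn := l.nxt_on h ht
  symm
  apply l.rev.nxt_unique h ((l.on_rev _).2 hn) (l.nxt_spec h ht).1.symm
  rw [l.be_rev h hn, (l.nxt_main h ht).1, pt_rev, neg_neg]
  exact l.be_mem h ht

theorem order (l : Ln A) (h : CT A c u U) {t s : ι} (ht : l.On t) (hs : l.On s) (hts : t ≠ s) :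
    l.be t ≤ l.al s ∨ l.be s ≤ l.al t := by
  by_contra hc
  push Not at hc
  obtain ⟨h1, h2⟩ := hc
  have ht1 := (l.nxt_main h ht).2.2
  have hs1 := (l.nxt_main h hs).2.2
  set x := max (l.al t) (l.al s) with hx
  set y := min (l.be t) (l.be s) with hy
  have hxy : x < y := by
    rw [hx, hy, max_lt_iff, lt_min_iff, lt_min_iff]
    exact ⟨⟨ht1, h2⟩, ⟨h1, hs1⟩⟩
  have hmem : ∀ (i : ι), l.On i → ∀ τ, l.al i ≤ τ → τ ≤ l.be i → l.pt τ ∈ A i := by
    intro i hi τ h3 h4
    apply (h.conv i).segment_subset (l.al_mem h hi) (l.be_mem h hi)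
    have hlt := (l.nxt_main h hi).2.2
    rw [mem_segment_iff_real]
    refine ⟨(τ - l.al i) / (l.be i - l.al i), div_nonneg (by linarith) (by linarith), ?_, ?_⟩
    · rw [div_le_one (by linarith)]; linarith
    · have h5 : ((l.be i - l.al i : ℝ) : ℂ) ≠ 0 := by
        have : l.be i - l.al i ≠ 0 := by linarith
        exact_mod_cast this
      unfold pt
      push_cast at h5 ⊢
      field_simp
      ring
  have m1 := hmem t ht x (le_max_left _ _) (hxy.le.trans (min_le_left _ _))
  have m2 := hmem s hs x (le_max_right _ _) (hxy.le.trans (min_le_right _ _))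
  have m3 := hmem t ht y ((le_max_left _ _).trans hxy.le) (min_le_left _ _)
  have m4 := hmem s hs y ((le_max_right _ _).trans hxy.le) (min_le_right _ _)
  have hne : l.pt x ≠ l.pt y := by
    intro he
    have := l.dist_pt x y
    rw [he, sub_self, norm_zero] at this
    have := abs_eq_zero.1 this.symm
    linarith
  have hadj : Adj A t s := ⟨hts, l.pt x, l.pt y, hne, m1, m2, m3, m4⟩
  obtain ⟨r, hr⟩ := h.line_of_mem hts hne m1 m2 m3 m4 (h.lp_mem hadj).1 (h.lp_mem hadj).2
  apply l.gen (x + r * (y - x))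
  have e : l.o + ((x + r * (y - x) : ℝ) : ℂ) * l.d = lp A c t s := by
    rw [hr]; unfold pt; push_cast; ring
  rw [e]
  exact h.isV_lp hadj

/-- iterating `nxt` reaches any later tile on the line -/
theorem reach (l : Ln A) (h : CT A c u U) {ρ : ℝ} {N : ℕ}
    (hN : ∀ z : ℂ, ∃ s : Finset ι, s.card ≤ N ∧
      ∀ i, (A i ∩ closedBall z ρ).Nonempty → i ∈ s) {t s : ι} (ht : l.On t) (hs : l.On s)
    (hts : l.be t ≤ l.al s) (hρ : l.al s - l.be t ≤ ρ) :
    ∃ L, 1 ≤ L ∧ L ≤ N + 1 ∧ l.nxt^[L] t = s ∧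
      ∀ k < L, l.On (l.nxt^[k] t) ∧ l.be (l.nxt^[k] t) ≤ l.al s ∧ (0 < k → l.be t < l.be (l.nxt^[k] t)) := by
  classical
  obtain ⟨F, hFc, hF⟩ := hN (l.pt (l.be t))
  have hsucc : ∀ k, l.nxt^[k + 1] t = l.nxt (l.nxt^[k] t) := fun k =>
    Function.iterate_succ_apply' l.nxt k t
  -- the invariant
  have inv : ∀ n, (∀ k, 1 ≤ k → k ≤ n → l.nxt^[k] t ≠ s) → ∀ k ≤ n,
      l.On (l.nxt^[k] t) ∧ l.be (l.nxt^[k] t) ≤ l.al s ∧ l.be t ≤ l.be (l.nxt^[k] t) ∧
        (0 < k → l.be t < l.be (l.nxt^[k] t)) := by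
    intro n hn k
    induction k with
    | zero =>
      intro _
      exact ⟨ht, hts, le_rfl, fun h0 => absurd h0 (lt_irrefl _)⟩
    | succ k ih =>
      intro hk
      obtain ⟨i1, i2, i3, i4⟩ := ih (by omega)
      have hm := l.nxt_main h i1
      have hon := l.nxt_on h i1
      have hne := hn (k + 1) (by omega) hk
      rw [hsucc] at hne ⊢
      refine ⟨hon, ?_, by linarith [hm.2.1], fun _ => by linarith [hm.2.1]⟩
      rcases l.order h hon hs hne with h5 | h5
      · exact h5
      · exfalso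
        rw [hm.1] at h5
        have := (l.nxt_main h hs).2.2
        linarith
  by_cases hex : ∃ L, 1 ≤ L ∧ L ≤ N + 1 ∧ l.nxt^[L] t = s
  · -- take the least
    set L := Nat.find hex with hL
    obtain ⟨L1, L2, L3⟩ := Nat.find_spec hex
    refine ⟨L, L1, L2, L3, ?_⟩
    intro k hk
    have hno : ∀ k', 1 ≤ k' → k' ≤ k → l.nxt^[k'] t ≠ s := by
      intro k' h1 h2 h3
      exact Nat.find_min hex (lt_of_le_of_lt h2 hk) ⟨h1, by omega, h3⟩
    obtain ⟨i1, i2, -, i4⟩ := inv k hno k le_rfl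
    exact ⟨i1, i2, i4⟩
  · exfalso
    have hno : ∀ k', 1 ≤ k' → k' ≤ N + 1 → l.nxt^[k'] t ≠ s := by
      intro k' h1 h2 h3
      exact hex ⟨k', h1, h2, h3⟩
    have hinv := inv (N + 1) hno
    have hmono : ∀ k ≤ N, l.be (l.nxt^[k] t) < l.be (l.nxt^[k + 1] t) := by
      intro k hk
      rw [hsucc]
      exact (l.nxt_main h (hinv k (by omega)).1).2.1
    have hmono2 : ∀ k m, k < m → m ≤ N + 1 → l.be (l.nxt^[k] t) < l.be (l.nxt^[m] t) := by
      intro k m hkm hm
      induction m with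
      | zero => omega
      | succ m ih =>
        rcases Nat.lt_succ_iff_lt_or_eq.1 hkm with h1 | h1
        · exact (ih h1 (by omega)).trans (hmono m (by omega))
        · rw [← h1]; exact hmono k (by omega)
    have hmaps : ∀ k ∈ Finset.range (N + 1), l.nxt^[k] t ∈ F := by
      intro k hk
      rw [Finset.mem_range] at hk
      obtain ⟨i1, i2, i3, -⟩ := hinv k (by omega)
      apply hF
      refine ⟨_, l.be_mem h i1, ?_⟩
      rw [mem_closedBall, dist_eq_norm, l.dist_pt, abs_of_nonneg (by linarith)]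
      linarith
    have hcard : F.card < (Finset.range (N + 1)).card := by rw [Finset.card_range]; omega
    obtain ⟨k, hk, m, hm, hkm, he⟩ := Finset.exists_ne_map_eq_of_card_lt_of_maps_to hcard hmaps
    rw [Finset.mem_range] at hk hm
    rcases lt_or_gt_of_ne hkm with h1 | h1
    · have := hmono2 k m h1 (by omega)
      rw [he] at this
      exact lt_irrefl _ this
    · have := hmono2 m k h1 (by omega)
      rw [he] at this
      exact lt_irrefl _ this

end Ln

end Pool.Agent.Helper89.Dual
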