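import Pool.Agent.Helper89.Dual.Net
import Pool.Agent.Helper89.Dual.Harm
set_option autoImplicit false

/-!
Construction of a map of bounded displacement with the uniform hull property.
-/

namespace Pool.Agent.Helper89.Dual

open Complex Set Metric Filter Topology

variable {ι : Type} {A : ι → Set ℂ} {c : ι → ℂ} {u U : ℝ}

/-- almost harmonic sequences are almost linear -/
theorem lin (v : ℕ → ℂ) (L : ℕ) (hL : 1 ≤ L) {δ : ℝ} (hδ : 0 ≤ δ)
    (hv : ∀ k, 0 < k → k < L → ‖v k - (v (k - 1) + v (k + 1)) / 2‖ ≤ δ) :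
    ‖(v 1 - v 0) - (v L - v 0) / L‖ ≤ δ * L := by
  have h1 : ∀ k, k < L → ‖(v (k + 1) - v k) - (v 1 - v 0)‖ ≤ 2 * δ * k := by
    intro k
    induction k with
    | zero => intro _; simp
    | succ k ih =>
      intro hk
      have h2 := ih (by omega)
      have h3 := hv (k + 1) (by omega) hk
      rw [Nat.add_sub_cancel] at h3
      have e : (v (k + 1 + 1) - v (k + 1)) - (v 1 - v 0)
          = ((v (k + 1) - v k) - (v 1 - v 0))
            - 2 * (v (k + 1) - (v k + v (k + 1 + 1)) / 2) := by ring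
      rw [e]
      refine (norm_sub_le _ _).trans ?_
      rw [norm_mul]
      have : ‖(2 : ℂ)‖ = 2 := by simp
      rw [this]
      push_cast
      linarith
  have h2 : ∑ k ∈ Finset.range L, ((v (k + 1) - v k) - (v 1 - v 0))
      = (v L - v 0) - L * (v 1 - v 0) := by
    rw [Finset.sum_sub_distrib, Finset.sum_range_sub, Finset.sum_const, Finset.card_range,
      nsmul_eq_mul]
  have h3 : ‖∑ k ∈ Finset.range L, ((v (k + 1) - v k) - (v 1 - v 0))‖ ≤ δ * L * L := by
    refine (norm_sum_le _ _).trans ?_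
    calc ∑ k ∈ Finset.range L, ‖(v (k + 1) - v k) - (v 1 - v 0)‖
        ≤ ∑ k ∈ Finset.range L, 2 * δ * k := by
          apply Finset.sum_le_sum
          intro k hk
          exact h1 k (Finset.mem_range.1 hk)
      _ = δ * (L * (L - 1)) := by
          rw [← Finset.mul_sum]
          have := Finset.sum_range_id_mul_two L
          have h4 : ((∑ k ∈ Finset.range L, k : ℕ) : ℝ) * 2 = L * (L - 1) := by
            have h5 : ((L - 1 : ℕ) : ℝ) = (L : ℝ) - 1 := by rw [Nat.cast_sub hL]; simp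
            rw [← h5]
            exact_mod_cast this
          push_cast at h4
          linear_combination δ * h4
      _ ≤ δ * L * L := by
          have : (0 : ℝ) ≤ L := Nat.cast_nonneg L
          nlinarith
  rw [h2] at h3
  have hL0 : (0 : ℝ) < L := by exact_mod_cast hL
  have hLc : (L : ℂ) ≠ 0 := by exact_mod_cast hL0.ne'
  have e : (v 1 - v 0) - (v L - v 0) / L = -(((v L - v 0) - L * (v 1 - v 0)) / L) := by
    field_simp; ring
  rw [e, norm_neg, norm_div, Complex.norm_natCast, div_le_iff₀ hL0]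
  exact h3

/-- three directions surrounding the origin -/
theorem three_dir {M s : ℝ} (hM : 0 < M) (hs : s = 1 ∨ s = -1) {n : ℂ} (hn : ‖n‖ = 1) :
    M / 8 ≤ dt n ⟨M, -(s * M / 4)⟩ ∨ M / 8 ≤ dt n ⟨-M, -(s * M / 4)⟩ ∨
      M / 8 ≤ dt n ⟨0, 3 * s * M / 4⟩ := by
  have hn2 : n.re * n.re + n.im * n.im = 1 := by
    have := dt_self_unit hn
    simpa [dt] using this
  have hss : s * s = 1 := by rcases hs with rfl | rfl <;> norm_num
  obtain ⟨y, hy⟩ : ∃ y, y = s * n.im := ⟨_, rfl⟩
  have hyy : n.re * n.re + y * y = 1 := by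
    rw [hy]
    have : s * n.im * (s * n.im) = (s * s) * (n.im * n.im) := by ring
    rw [this, hss, one_mul]; exact hn2
  have e1 : dt n ⟨M, -(s * M / 4)⟩ = M * (n.re - y / 4) := by
    simp only [dt]; rw [hy]; ring
  have e2 : dt n ⟨-M, -(s * M / 4)⟩ = M * (-n.re - y / 4) := by
    simp only [dt]; rw [hy]; ring
  have e3 : dt n ⟨0, 3 * s * M / 4⟩ = M * (3 * y / 4) := by
    simp only [dt]; rw [hy]; ring
  rw [e1, e2, e3]
  by_cases h1 : 1 / 6 ≤ y
  · right; right; nlinarith
  · push Not at h1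
    rcases le_total 0 n.re with h2 | h2
    · left
      have : 1 / 8 ≤ n.re - y / 4 := by
        by_cases h3 : y ≤ -(1 / 2)
        · linarith
        · push Not at h3
          have : 1 / 2 ≤ n.re := by nlinarith
          linarith
      nlinarith
    · right; left
      have : 1 / 8 ≤ -n.re - y / 4 := by
        by_cases h3 : y ≤ -(1 / 2)
        · linarith
        · push Not at h3
          have : 1 / 2 ≤ -n.re := by nlinarith
          linarith
      nlinarith

namespace Grid

variable (g : Grid A c u U)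

/-- prescribed positions of the nodes -/
noncomputable def P (i j : ℤ) : ℂ :=
  ⟨g.a + j * g.M, g.b + i * g.M + ((sg i j : ℤ) : ℝ) * g.M / 8⟩

noncomputable def pos (t : ι) : ℂ := by
  classical
  exact if h : ∃ ij : ℤ × ℤ, t = g.zn ij.1 ij.2 then g.P h.choose.1 h.choose.2 else 0

theorem pos_zn (i j : ℤ) : g.pos (g.zn i j) = g.P i j := by
  have hex : ∃ ij : ℤ × ℤ, g.zn i j = g.zn ij.1 ij.2 := ⟨(i, j), rfl⟩
  unfold pos
  rw [dif_pos hex]
  obtain ⟨h1, h2⟩ := g.zn_inj hex.choose_spec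
  rw [← h1, ← h2]

theorem P_H (i j : ℤ) (σ : ℤˣ) : g.P i (j + (σ : ℤ)) - g.P i j
    = ⟨((σ : ℤ) : ℝ) * g.M, -(((sg i j : ℤ) : ℝ) * g.M / 4)⟩ := by
  unfold P
  rw [sg_succ']
  apply Complex.ext
  · simp; ring
  · simp; ring

theorem P_V (i j : ℤ) : g.P (i + (sg i j : ℤ)) j - g.P i j
    = ⟨0, 3 * ((sg i j : ℤ) : ℝ) * g.M / 4⟩ := by
  unfold P
  rw [sg_succ]
  apply Complex.ext
  · simp
  · simp; ring

theorem pos_near {t : ι} (ht : t ∈ g.Z) : ‖g.pos t - c t‖ ≤ 2 * U + g.M := by
  obtain ⟨i, j, rfl⟩ := ht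
  rw [g.pos_zn]
  obtain ⟨x, hx, hxi⟩ := g.zn_H i j
  obtain ⟨y, hy, hyj⟩ := g.zn_V i j
  have h1 := g.ct.outer _ hx
  have h2 := g.ct.outer _ hy
  rw [mem_closedBall, dist_eq_norm] at h1 h2
  have h3 := abs_le.1 ((Complex.abs_im_le_norm _).trans h1)
  have h4 := abs_le.1 ((Complex.abs_re_le_norm _).trans h2)
  rw [Complex.sub_im, hxi] at h3
  rw [Complex.sub_re, hyj] at h4
  have hM := g.M_pos
  have hs : |((sg i j : ℤ) : ℝ) * g.M / 8| ≤ g.M := by
    rcases units_cases (sg i j) with ⟨h5, -⟩ | ⟨h5, -⟩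
    · rw [h5, one_mul, abs_of_pos (by positivity)]; linarith
    · rw [h5, neg_one_mul, neg_div, abs_neg, abs_of_pos (by positivity)]; linarith
  have hs' := abs_le.1 hs
  refine (Complex.norm_le_abs_re_add_abs_im _).trans ?_
  have r1 : |(g.P i j - c (g.zn i j)).re| ≤ U := by
    rw [Complex.sub_re, abs_le]
    unfold P
    constructor <;> simp only <;> linarith
  have r2 : |(g.P i j - c (g.zn i j)).im| ≤ U + g.M := by
    rw [Complex.sub_im, abs_le]
    unfold P
    constructor <;> simp only <;> linarith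
  linarith

end Grid

/-- there is a map of bounded displacement with the uniform hull property -/
theorem exists_map (h : CT A c u U) : ∃ (p : ι → ℂ) (R e : ℝ), 0 < e ∧ Bd c p R ∧ UH A p e := by
  classical
  obtain ⟨g, -⟩ := exists_grid h
  have hM0 := g.M_pos
  have hU0 : 0 < U := lt_of_lt_of_le h.hu h.u_le_U
  obtain ⟨K, hK⟩ := g.exists_K
  obtain ⟨N, hN⟩ := h.count (2 * g.M)
  obtain ⟨Δ, hΔ⟩ := h.count U
  have hdeg : ∀ t, (h.nb t).card ≤ Δ := by
    intro t
    obtain ⟨s, hs1, hs2⟩ := hΔ (c t)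
    refine le_trans (Finset.card_le_card ?_) hs1
    intro x hx
    have hx' := h.mem_nb.1 hx
    exact hs2 x ⟨lp A c t x, (h.lp_mem hx').2, h.outer t (h.lp_mem hx').1⟩
  have hdeg0 : ∀ t, 0 < (h.nb t).card := by
    intro t
    obtain ⟨j, hj⟩ := h.exists_adj t
    exact Finset.card_pos.2 ⟨j, h.mem_nb.2 hj⟩
  obtain ⟨t00, -⟩ := h.cover 0
  have hΔ0 : 0 < (Δ : ℝ) := by
    have := (hdeg0 t00).trans_le (hdeg t00)
    exact_mod_cast this
  have hcdist : ∀ t s, Adj A t s → ‖c s - c t‖ ≤ 2 * U := by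
    intro t s hts
    have h3 := h.outer t (h.lp_mem hts).1
    have h4 := h.outer s (h.lp_mem hts).2
    rw [mem_closedBall, dist_eq_norm] at h3 h4
    have e : c s - c t = (lp A c t s - c t) - (lp A c t s - c s) := by ring
    rw [e]
    refine (norm_sub_le _ _).trans ?_
    linarith
  set q : ℝ := min (1 / 4) (1 / Δ) with hq
  have hq0 : 0 < q := lt_min (by norm_num) (by positivity)
  have hq1 : q ≤ 1 := (min_le_left _ _).trans (by norm_num)
  set G : ℝ := 2 * U + g.M with hG
  have hG0 : 0 < G := by positivity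
  set R : ℝ := 4 * G / (q / 2) ^ K with hR
  have hR0 : 0 < R := by positivity
  set B1 : ℝ := 2 * (2 * R + 2 * U) with hB1
  have hB10 : 0 < B1 := by positivity
  set ε : ℝ := min (1 / 2) (g.M / (16 * ((N : ℝ) + 1) ^ 2 * B1)) with hε
  have hε0 : 0 < ε := lt_min (by norm_num) (by positivity)
  have hε1 : ε ≤ 1 / 2 := min_le_left _ _
  have hε2 : ε * B1 * ((N : ℝ) + 1) ≤ g.M / (16 * ((N : ℝ) + 1)) := by
    have h1 : ε ≤ g.M / (16 * ((N : ℝ) + 1) ^ 2 * B1) := min_le_right _ _
    calc ε * B1 * ((N : ℝ) + 1)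
        ≤ g.M / (16 * ((N : ℝ) + 1) ^ 2 * B1) * B1 * ((N : ℝ) + 1) := by gcongr
      _ = g.M / (16 * ((N : ℝ) + 1)) := by field_simp
  -- the weights
  set w : ι → ι → ℝ := fun t s =>
    if g.Rd t then (1 - ε) / 2 * ((if s = g.rr 1 t then 1 else 0) + (if s = g.rr (-1) t then 1 else 0))
      + ε / (h.nb t).card else 1 / (h.nb t).card with hw
  have hwmin : ∀ t s, ε / Δ ≤ w t s := by
    intro t s
    have h1 : (0 : ℝ) < (h.nb t).card := by exact_mod_cast hdeg0 t
    have h2 : ((h.nb t).card : ℝ) ≤ Δ := by exact_mod_cast hdeg t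
    have h3 : ε / Δ ≤ ε / (h.nb t).card := by gcongr
    simp only [hw]
    split_ifs with hRd h4 h5
    · linarith
    · linarith
    · linarith
    · linarith
    · refine h3.trans ?_
      gcongr
      linarith
  have hwpos : ∀ t s, 0 ≤ w t s := fun t s => le_trans (by positivity) (hwmin t s)
  have hwsum : ∀ t, ∑ s ∈ h.nb t, w t s = 1 := by
    intro t
    have h1 : ((h.nb t).card : ℝ) ≠ 0 := by
      have : (0 : ℝ) < (h.nb t).card := by exact_mod_cast hdeg0 t
      exact this.ne'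
    simp only [hw]
    by_cases hRd : g.Rd t
    · simp only [if_pos hRd]
      rw [Finset.sum_add_distrib, ← Finset.mul_sum, Finset.sum_add_distrib, Finset.sum_ite_eq',
        Finset.sum_ite_eq', if_pos (h.mem_nb.2 (g.rr_adj hRd 1)),
        if_pos (h.mem_nb.2 (g.rr_adj hRd (-1))), Finset.sum_const, nsmul_eq_mul]
      field_simp
      ring
    · simp only [if_neg hRd]
      rw [Finset.sum_const, nsmul_eq_mul]
      field_simp
  -- the distance function
  have hex : ∀ t, ∃ k, t ∈ g.Rk k := fun t => ⟨K, hK t⟩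
  set n : ι → ℕ := fun t => Nat.find (hex t) with hn
  have hnK : ∀ t, n t ≤ K := fun t => Nat.find_min' (hex t) (hK t)
  have hgood : ∀ t, t ∉ g.Z → ∃ s ∈ h.nb t, q ≤ w t s ∧ n s < n t := by
    intro t ht
    have h1 : t ∈ g.Rk (n t) := Nat.find_spec (hex t)
    have h2 : n t ≠ 0 := by
      intro h0; rw [h0] at h1; exact ht h1
    obtain ⟨k, hk⟩ := Nat.exists_eq_succ_of_ne_zero h2
    rw [hk] at h1
    have h3 : t ∉ g.Rk k := Nat.find_min (hex t) (by
      show k < n t
      omega)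
    rcases h1 with h1 | ⟨s, hs1, hs2⟩
    · exact absurd h1 h3
    · have hns : n s ≤ k := Nat.find_min' (hex s) hs2
      refine ⟨s, ?_, ?_, by omega⟩
      · rcases hs1 with ⟨hRd, σ, rfl⟩ | ⟨-, hadj⟩
        · exact h.mem_nb.2 (g.rr_adj hRd σ)
        · exact h.mem_nb.2 hadj
      · have c1 : (0 : ℝ) < (h.nb t).card := by exact_mod_cast hdeg0 t
        have c2 : ((h.nb t).card : ℝ) ≤ Δ := by exact_mod_cast hdeg t
        have c3 : 0 ≤ ε / (h.nb t).card := by positivity
        rcases hs1 with ⟨hRd, σ, rfl⟩ | ⟨hRd, hadj⟩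
        · refine (min_le_left _ _).trans ?_
          simp only [hw, if_pos hRd]
          rcases Int.units_eq_one_or σ with rfl | rfl
          · rw [if_pos rfl]
            have c4 : (0:ℝ) ≤ if g.rr 1 t = g.rr (-1) t then 1 else 0 := by split_ifs <;> norm_num
            nlinarith
          · rw [if_pos rfl]
            have c4 : (0:ℝ) ≤ if g.rr (-1) t = g.rr 1 t then 1 else 0 := by split_ifs <;> norm_num
            nlinarith
        · refine (min_le_right _ _).trans ?_
          simp only [hw, if_neg hRd]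
          gcongr
  have hGc : ∀ t, t ∉ g.Z → ‖∑ s ∈ h.nb t, (w t s : ℂ) * c s - c t‖ ≤ G := by
    intro t _
    have e : ∑ s ∈ h.nb t, (w t s : ℂ) * c s - c t = ∑ s ∈ h.nb t, (w t s : ℂ) * (c s - c t) := by
      have e1 : c t = ∑ s ∈ h.nb t, (w t s : ℂ) * c t := by
        rw [← Finset.sum_mul]
        have : ∑ s ∈ h.nb t, (w t s : ℂ) = 1 := by
          rw [← Complex.ofReal_sum, hwsum t]; simp
        rw [this, one_mul]
      conv_lhs => rw [e1]
      rw [← Finset.sum_sub_distrib]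
      apply Finset.sum_congr rfl
      intro s _; ring
    rw [e]
    calc _ ≤ ∑ s ∈ h.nb t, ‖(w t s : ℂ) * (c s - c t)‖ := norm_sum_le _ _
      _ ≤ ∑ s ∈ h.nb t, w t s * (2 * U) := by
          apply Finset.sum_le_sum
          intro s hs
          rw [norm_mul, Complex.norm_real, Real.norm_eq_abs, abs_of_nonneg (hwpos t s)]
          exact mul_le_mul_of_nonneg_left (hcdist t s (h.mem_nb.1 hs)) (hwpos t s)
      _ = 2 * U := by rw [← Finset.sum_mul, hwsum t, one_mul]
      _ ≤ G := by rw [hG]; linarith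
  obtain ⟨p, hp1, hp2, hp3⟩ := harm (fun t => h.nb t) w g.Z g.pos n K hq0 hq1
    (fun t _ s _ => hwpos t s) (fun t _ => hwsum t) hgood hnK c hG0.le hGc
    (fun t ht => g.pos_near ht)
  have hBd : Bd c p R := hp3
  -- averaging property on the roads
  have hroad : ∀ t, t ∉ g.Z → g.Rd t →
      ‖p t - (p (g.rr 1 t) + p (g.rr (-1) t)) / 2‖ ≤ ε * B1 := by
    intro t ht hRd
    have c1 : (0 : ℝ) < (h.nb t).card := by exact_mod_cast hdeg0 t
    have c1' : ((h.nb t).card : ℂ) ≠ 0 := by exact_mod_cast c1.ne'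
    set E := p (g.rr 1 t) + p (g.rr (-1) t) with hE
    set a : ℂ := (∑ s ∈ h.nb t, p s) / (h.nb t).card with ha
    have e1 : p t = ((1 - ε : ℝ) : ℂ) / 2 * E + (ε : ℂ) * a := by
      rw [hp2 t ht]
      have e2 : ∀ s ∈ h.nb t, (w t s : ℂ) * p s
          = ((1 - ε : ℝ) : ℂ) / 2 * ((if s = g.rr 1 t then p s else 0)
            + (if s = g.rr (-1) t then p s else 0))
            + (ε : ℂ) / (h.nb t).card * p s := by
        intro s _
        simp only [hw, if_pos hRd]
        split_ifs <;> push_cast <;> ring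
      rw [Finset.sum_congr rfl e2, Finset.sum_add_distrib, ← Finset.mul_sum,
        Finset.sum_add_distrib, Finset.sum_ite_eq', Finset.sum_ite_eq',
        if_pos (h.mem_nb.2 (g.rr_adj hRd 1)), if_pos (h.mem_nb.2 (g.rr_adj hRd (-1))),
        ← Finset.mul_sum, ha, hE]
      ring
    have e3 : p t - E / 2 = (ε : ℂ) * ((a - p t) - (E / 2 - p t)) := by
      conv_lhs => rw [e1]
      push_cast
      ring
    have f1 : ‖a - p t‖ ≤ 2 * R + 2 * U := by
      have e4 : a - p t = (∑ s ∈ h.nb t, (p s - p t)) / (h.nb t).card := by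
        rw [ha, Finset.sum_sub_distrib, Finset.sum_const, nsmul_eq_mul]
        field_simp
      rw [e4, norm_div, Complex.norm_natCast, div_le_iff₀ c1]
      calc _ ≤ ∑ s ∈ h.nb t, ‖p s - p t‖ := norm_sum_le _ _
        _ ≤ ∑ s ∈ h.nb t, (2 * R + 2 * U) := by
            apply Finset.sum_le_sum
            intro s hs
            exact h.bd_adj hBd (h.mem_nb.1 hs)
        _ = (2 * R + 2 * U) * (h.nb t).card := by
            rw [Finset.sum_const, nsmul_eq_mul]; ring
    have f2 : ‖E / 2 - p t‖ ≤ 2 * R + 2 * U := by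
      have e4 : E / 2 - p t = ((p (g.rr 1 t) - p t) + (p (g.rr (-1) t) - p t)) / 2 := by
        rw [hE]; ring
      rw [e4, norm_div]
      have : ‖(2 : ℂ)‖ = 2 := by simp
      rw [this, div_le_iff₀ (by norm_num)]
      refine (norm_add_le _ _).trans ?_
      have g1 := h.bd_adj hBd (g.rr_adj hRd 1)
      have g2 := h.bd_adj hBd (g.rr_adj hRd (-1))
      linarith
    rw [e3, norm_mul, Complex.norm_real, Real.norm_eq_abs, abs_of_pos hε0]
    apply mul_le_mul_of_nonneg_left _ hε0.le
    refine (norm_sub_le _ _).trans ?_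
    rw [hB1]; linarith
  -- the first step of a road
  have hfirst : ∀ z z', z ∈ g.Z → z' ∈ g.Z → g.Road z z' (N + 1) →
      ∃ (s : ι) (L : ℕ), Adj A z s ∧ 1 ≤ L ∧ L ≤ N + 1 ∧
        ‖(p s - p z) - (p z' - p z) / L‖ ≤ ε * B1 * ((N : ℝ) + 1) := by
    rintro z z' hz hz' ⟨L, x, σ, hL1, hL2, hx0, hxL, hadj, hint⟩
    refine ⟨x 1, L, by rw [← hx0]; exact hadj 0 (by omega), hL1, hL2, ?_⟩
    have h1 := lin (fun k => p (x k)) L hL1 (δ := ε * B1) (by positivity) (by
      intro k hk0 hk
      obtain ⟨k1, k2, k3, k4⟩ := hint k hk0 hk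
      have h2 := hroad (x k) k1 k2
      rcases Int.units_eq_one_or σ with rfl | rfl
      · rw [k3, k4] at h2
        rw [add_comm (p (x (k - 1)))]; exact h2
      · rw [neg_neg] at k4
        rw [k3, k4] at h2
        exact h2)
    simp only [hx0, hxL] at h1
    refine h1.trans ?_
    apply mul_le_mul_of_nonneg_left _ (by positivity)
    exact_mod_cast hL2
  -- margin at the nodes
  have hnode : ∀ t ∈ g.Z, ∀ n : ℂ, ‖n‖ = 1 → ∃ s, Adj A t s ∧
      g.M / (16 * ((N : ℝ) + 1)) ≤ dt n (p s - p t) := by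
    rintro _ ⟨i, j, rfl⟩ n hn
    have hz : g.zn i j ∈ g.Z := ⟨i, j, rfl⟩
    have key : ∀ (i' j' : ℤ), g.Road (g.zn i j) (g.zn i' j') (N + 1) →
        g.M / 8 ≤ dt n (g.P i' j' - g.P i j) → ∃ s, Adj A (g.zn i j) s ∧
          g.M / (16 * ((N : ℝ) + 1)) ≤ dt n (p s - p (g.zn i j)) := by
      intro i' j' hrd hdt
      have hz' : g.zn i' j' ∈ g.Z := ⟨i', j', rfl⟩
      obtain ⟨s, L, hs, hL1, hL2, hle⟩ := hfirst _ _ hz hz' hrd
      refine ⟨s, hs, ?_⟩
      rw [hp1 _ hz, hp1 _ hz', g.pos_zn, g.pos_zn] at hle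
      rw [hp1 _ hz, g.pos_zn]
      have hL0 : (0 : ℝ) < L := by exact_mod_cast hL1
      have hL2' : (L : ℝ) ≤ (N : ℝ) + 1 := by exact_mod_cast hL2
      have e1 : dt n (p s - g.P i j)
          = dt n ((p s - g.P i j) - (g.P i' j' - g.P i j) / L) + dt n (g.P i' j' - g.P i j) / L := by
        have e2 : (g.P i' j' - g.P i j) / L = ((1 / (L : ℝ) : ℝ) : ℂ) * (g.P i' j' - g.P i j) := by
          push_cast; ring
        rw [e2, dt_sub_right n _ (((1 / (L : ℝ) : ℝ) : ℂ) * _), dt_smul_right]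
        ring
      have f1 := (abs_le.1 ((dt_le_of_unit hn _).trans hle)).1
      have f2 : g.M / (8 * ((N : ℝ) + 1)) ≤ dt n (g.P i' j' - g.P i j) / L := by
        calc g.M / (8 * ((N : ℝ) + 1)) = (g.M / 8) / ((N : ℝ) + 1) := by field_simp
          _ ≤ (g.M / 8) / L := by gcongr
          _ ≤ _ := by gcongr
      have f3 : g.M / (8 * ((N : ℝ) + 1)) = 2 * (g.M / (16 * ((N : ℝ) + 1))) := by
        field_simp; ring
      rw [e1]
      linarith
    have hsg : (((Grid.sg i j : ℤ) : ℝ)) = 1 ∨ (((Grid.sg i j : ℤ) : ℝ)) = -1 := by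
      rcases units_cases (Grid.sg i j) with ⟨h1, -⟩ | ⟨h1, -⟩
      · exact Or.inl h1
      · exact Or.inr h1
    rcases three_dir hM0 hsg hn with h1 | h1 | h1
    · apply key _ _ (g.Hroad hN i j 1)
      rw [g.P_H]
      simpa using h1
    · apply key _ _ (g.Hroad hN i j (-1))
      rw [g.P_H]
      simpa using h1
    · apply key _ _ (g.Vroad hN i j)
      rw [g.P_V]
      exact h1
  -- conclusion
  set η0 : ℝ := g.M / (16 * ((N : ℝ) + 1)) with hη0
  have hη00 : 0 < η0 := by positivity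
  refine ⟨p, R, min (ε / Δ) (η0 / (2 * R + 2 * U)), lt_min (by positivity) (by positivity), hBd, ?_⟩
  intro t n s hts
  by_cases ht : t ∈ g.Z
  · by_cases hn0 : n = 0
    · refine ⟨s, hts, ?_⟩
      rw [hn0]; simp [dt]
    have hnpos : 0 < ‖n‖ := norm_pos_iff.2 hn0
    obtain ⟨s', hs', hle⟩ := hnode t ht (((1 / ‖n‖ : ℝ) : ℂ) * n) (by
      rw [norm_mul, Complex.norm_real, Real.norm_eq_abs, abs_of_pos (by positivity)]
      field_simp)
    refine ⟨s', hs', ?_⟩
    rw [dt_comm, dt_smul_right, dt_comm] at hle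
    have h1 : η0 * ‖n‖ ≤ dt n (p s' - p t) := by
      have : 1 / ‖n‖ * dt n (p s' - p t) = dt n (p s' - p t) / ‖n‖ := by ring
      rw [this, le_div_iff₀ hnpos] at hle
      exact hle
    refine le_trans ?_ h1
    have h2 := (dt_le n (p s - p t)).trans (mul_le_mul_of_nonneg_left (h.bd_adj hBd hts) hnpos.le)
    have h3 : 0 < 2 * R + 2 * U := by positivity
    calc min (ε / Δ) (η0 / (2 * R + 2 * U)) * |dt n (p s - p t)|
        ≤ (η0 / (2 * R + 2 * U)) * |dt n (p s - p t)| :=
          mul_le_mul_of_nonneg_right (min_le_right _ _) (abs_nonneg _)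
      _ ≤ (η0 / (2 * R + 2 * U)) * (‖n‖ * (2 * R + 2 * U)) :=
          mul_le_mul_of_nonneg_left h2 (by positivity)
      _ = η0 * ‖n‖ := by field_simp
  · obtain ⟨s', hs', hmax⟩ := Finset.exists_max_image (h.nb t) (fun r => dt n (p r - p t))
      ⟨s, h.mem_nb.2 hts⟩
    refine ⟨s', h.mem_nb.1 hs', ?_⟩
    set m := dt n (p s' - p t) with hm
    have hsum0 : ∑ r ∈ h.nb t, w t r * dt n (p r - p t) = 0 := by
      have e1 : ∑ r ∈ h.nb t, w t r * dt n (p r - p t)
          = dt n (∑ r ∈ h.nb t, (w t r : ℂ) * p r) - (∑ r ∈ h.nb t, w t r) * dt n (p t) := by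
        have e2 : dt n (∑ r ∈ h.nb t, (w t r : ℂ) * p r) = ∑ r ∈ h.nb t, w t r * dt n (p r) := by
          clear_value w
          induction (h.nb t) using Finset.induction_on with
          | empty => simp [dt]
          | insert a S ha ih =>
            rw [Finset.sum_insert ha, Finset.sum_insert ha, dt_add_right, dt_smul_right, ih]
        rw [e2, Finset.sum_mul, ← Finset.sum_sub_distrib]
        apply Finset.sum_congr rfl
        intro r _
        rw [dt_sub_right]; ring
      rw [e1, ← hp2 t ht, hwsum t]; ring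
    have hs1 : (0:ℝ) ≤ m := by
      by_contra hc
      push Not at hc
      have : ∑ r ∈ h.nb t, w t r * dt n (p r - p t) ≤ ∑ r ∈ h.nb t, w t r * m := by
        apply Finset.sum_le_sum
        intro r hr
        exact mul_le_mul_of_nonneg_left (hmax r hr) (hwpos t r)
      rw [hsum0, ← Finset.sum_mul, hwsum t, one_mul] at this
      linarith
    have hmin : min (ε / Δ) (η0 / (2 * R + 2 * U)) ≤ ε / Δ := min_le_left _ _
    have hws := hwmin t s
    have hws1 : w t s ≤ 1 := by
      rw [← hwsum t]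
      exact Finset.single_le_sum (fun r _ => hwpos t r) (h.mem_nb.2 hts)
    set D := dt n (p s - p t) with hD
    have hDm : D ≤ m := hmax s (h.mem_nb.2 hts)
    have key : w t s * (-D) ≤ m := by
      have h1 : ∑ r ∈ h.nb t, w t r * dt n (p r - p t)
          ≤ ∑ r ∈ h.nb t, (w t r * m + if r = s then w t s * (D - m) else 0) := by
        apply Finset.sum_le_sum
        intro r hr
        split_ifs with hrs
        · rw [hrs]
          have : w t s * m + w t s * (D - m) = w t s * D := by ring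
          rw [this]
        · rw [add_zero]
          exact mul_le_mul_of_nonneg_left (hmax r hr) (hwpos t r)
      rw [hsum0, Finset.sum_add_distrib, ← Finset.sum_mul, hwsum t, one_mul, Finset.sum_ite_eq',
        if_pos (h.mem_nb.2 hts)] at h1
      have h2 := mul_nonneg (hwpos t s) hs1
      nlinarith
    rcases le_total 0 D with hD0 | hD0
    · rw [abs_of_nonneg hD0]
      have : min (ε / Δ) (η0 / (2 * R + 2 * U)) ≤ 1 := hmin.trans (hws.trans hws1)
      nlinarith
    · rw [abs_of_nonpos hD0]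
      refine le_trans ?_ key
      apply mul_le_mul_of_nonneg_right (hmin.trans hws)
      linarith

end Pool.Agent.Helper89.Dual
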