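import Pool.Agent.Helper89.Dual.Level
set_option autoImplicit false

/-!
The margin theorem: a map of bounded displacement with the uniform hull property moves every
tile into the interior of the hull of its neighbours, with a uniform margin.
-/

namespace Pool.Agent.Helper89.Dual

open Complex Set Metric Filter Topology

variable {ι : Type} {A : ι → Set ℂ} {c : ι → ℂ} {u U : ℝ}

theorem dt_self_norm (v : ℂ) : dt v v = ‖v‖ ^ 2 := by
  rw [← Complex.normSq_eq_norm_sq, Complex.normSq_apply]; simp [dt]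

theorem dt_add_left (u v w : ℂ) : dt (u + v) w = dt u w + dt v w := by simp [dt]; ring
theorem dt_smul_left (s : ℝ) (u v : ℂ) : dt ((s : ℂ) * u) v = s * dt u v := by
  simp [dt]; ring

theorem pigeon {V : Type} (s : Finset V) (N : ℕ) (hs : s.card ≤ N) (F : ℕ → V → Prop)
    (hF : ∀ k l t, k ≤ l → F k t → F l t) :
    ∃ k ≤ N, ∀ t ∈ s, F (k + 1) t → F k t := by
  by_contra hcon
  push Not at hcon
  choose f hf1 hf2 hf3 using fun k : ℕ => fun hk : k ≤ N => hcon k hk
  classical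
  have hex : ∃ V0 : V, True := ⟨f 0 (Nat.zero_le _), trivial⟩
  obtain ⟨V0, -⟩ := hex
  let g : ℕ → V := fun k => if hk : k ≤ N then f k hk else V0
  have hmaps : ∀ k ∈ Finset.range (N + 1), g k ∈ s := by
    intro k hk
    have hk' : k ≤ N := by rw [Finset.mem_range] at hk; omega
    simp only [g, hk', dif_pos]
    exact hf1 k hk'
  have hcard : s.card < (Finset.range (N + 1)).card := by rw [Finset.card_range]; omega
  obtain ⟨k, hk, l, hl, hkl, he⟩ := Finset.exists_ne_map_eq_of_card_lt_of_maps_to hcard hmaps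
  rw [Finset.mem_range] at hk hl
  have hk' : k ≤ N := by omega
  have hl' : l ≤ N := by omega
  simp only [g, hk', hl', dif_pos] at he
  rcases lt_or_gt_of_ne hkl with h1 | h1
  · apply hf3 l hl'
    rw [← he]
    exact hF (k+1) l _ (by omega) (hf2 k hk')
  · apply hf3 k hk'
    rw [he]
    exact hF (l+1) k _ (by omega) (hf2 l hl')

/-- the component of `t0` in a set of tiles -/
def comp (A : ι → Set ℂ) (F : Set ι) (t0 : ι) : Set ι :=
  {t | ∃ q : (gr A).Walk t0 t, ∀ x ∈ q.support, x ∈ F}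

theorem comp_sub {F : Set ι} {t0 t : ι} (ht : t ∈ comp A F t0) : t ∈ F := by
  obtain ⟨q, hq⟩ := ht
  exact hq t q.end_mem_support

theorem comp_conn (F : Set ι) (t0 : ι) : Cn A (comp A F t0) := by
  classical
  have key : ∀ t (q : (gr A).Walk t0 t), (∀ x ∈ q.support, x ∈ F) →
      ∀ x ∈ q.support, x ∈ comp A F t0 := by
    intro t q hq x hx
    exact ⟨q.takeUntil x hx, fun y hy => hq y (q.support_takeUntil_subset_support hx hy)⟩
  rintro i ⟨q1, hq1⟩ j ⟨q2, hq2⟩
  refine ⟨q1.reverse.append q2, ?_⟩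
  intro x hx
  rw [SimpleGraph.Walk.mem_support_append_iff, SimpleGraph.Walk.support_reverse,
    List.mem_reverse] at hx
  rcases hx with hx | hx
  · exact key i q1 hq1 x hx
  · exact key j q2 hq2 x hx

theorem comp_adj {F : Set ι} {t0 t s : ι} (ht : t ∈ comp A F t0) (hadj : Adj A t s)
    (hs : s ∈ F) : s ∈ comp A F t0 := by
  obtain ⟨q, hq⟩ := ht
  refine ⟨q.append (SimpleGraph.Walk.cons (show (gr A).Adj t s from hadj)
    SimpleGraph.Walk.nil), ?_⟩
  intro x hx
  rw [SimpleGraph.Walk.mem_support_append_iff] at hx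
  rcases hx with hx | hx
  · exact hq x hx
  · simp only [SimpleGraph.Walk.support_cons, SimpleGraph.Walk.support_nil, List.mem_cons,
      List.not_mem_nil, or_false] at hx
    rcases hx with rfl | rfl
    · exact hq _ q.end_mem_support
    · exact hs

theorem comp_self {F : Set ι} {t0 : ι} (h0 : t0 ∈ F) : t0 ∈ comp A F t0 :=
  ⟨SimpleGraph.Walk.nil, by intro x hx; simp at hx; rw [hx]; exact h0⟩

theorem dir_lemma {m1 m2 n : ℂ} (h1 : ‖m1‖ = 1) (h2 : ‖m2‖ = 1) (hn : ‖n‖ = 1) {s : ℝ}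
    (hs0 : 0 < s) (hs1 : s < 1) :
    ∃ w : ℂ, dt m1 w < s * ‖w‖ ∧ dt m2 w < s * ‖w‖ ∧ s / 2 ≤ |dt n w| ∧ ‖w‖ ≤ 3 / 2 := by
  have hv : ∃ v : ℂ, ‖v‖ = 1 ∧ dt m1 v ≤ 0 ∧ dt m2 v ≤ 0 := by
    have hz : dt m1 (Complex.I * m1) = 0 := by simp [dt]; ring
    have hz' : dt m1 (-(Complex.I * m1)) = 0 := by simp [dt]; ring
    have hneg : dt m2 (-(Complex.I * m1)) = - dt m2 (Complex.I * m1) := by simp [dt]; ring
    by_cases hc : dt m2 (Complex.I * m1) ≤ 0
    · exact ⟨Complex.I * m1, by rw [norm_mul, Complex.norm_I, h1, one_mul], hz.le, hc⟩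
    · refine ⟨-(Complex.I * m1), by rw [norm_neg, norm_mul, Complex.norm_I, h1, one_mul],
        hz'.le, ?_⟩
      rw [hneg]; push Not at hc; linarith
  obtain ⟨v, hv1, hv2, hv3⟩ := hv
  have hσ : ∃ σ : ℝ, |σ| = 1 ∧ 0 ≤ σ * dt n v := by
    by_cases hc : 0 ≤ dt n v
    · exact ⟨1, by simp, by linarith⟩
    · exact ⟨-1, by simp, by push Not at hc; linarith⟩
  obtain ⟨σ, hσ1, hσ2⟩ := hσ
  have hσσ : σ * σ = 1 := by rw [← abs_mul_abs_self, hσ1]; norm_num
  have hnn : ‖((σ * (s / 2) : ℝ) : ℂ) * n‖ = s / 2 := by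
    rw [norm_mul, Complex.norm_real, Real.norm_eq_abs, abs_mul, hσ1, hn,
      abs_of_pos (by positivity)]
    ring
  refine ⟨v + ((σ * (s / 2) : ℝ) : ℂ) * n, ?_, ?_, ?_, ?_⟩
  · have e1 := norm_sub_norm_le v (-(((σ * (s / 2) : ℝ) : ℂ) * n))
    rw [norm_neg, hnn, hv1, sub_neg_eq_add] at e1
    have e2 := (abs_le.1 (dt_le_of_unit h1 (((σ * (s / 2) : ℝ) : ℂ) * n))).2
    rw [hnn] at e2
    rw [dt_add_right]
    nlinarith
  · have e1 := norm_sub_norm_le v (-(((σ * (s / 2) : ℝ) : ℂ) * n))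
    rw [norm_neg, hnn, hv1, sub_neg_eq_add] at e1
    have e2 := (abs_le.1 (dt_le_of_unit h2 (((σ * (s / 2) : ℝ) : ℂ) * n))).2
    rw [hnn] at e2
    rw [dt_add_right]
    nlinarith
  · rw [dt_add_right, dt_smul_right, dt_self_unit hn]
    have e1 : |σ * (dt n v + σ * (s / 2) * 1)| = |dt n v + σ * (s / 2) * 1| := by
      rw [abs_mul, hσ1, one_mul]
    rw [← e1]
    have e2 : σ * (dt n v + σ * (s / 2) * 1) = σ * dt n v + s / 2 := by
      have : σ * (dt n v + σ * (s / 2) * 1) = σ * dt n v + (σ * σ) * (s / 2) := by ring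
      rw [this, hσσ, one_mul]
    rw [e2]
    exact le_trans (by linarith) (le_abs_self _)
  · calc _ ≤ ‖v‖ + ‖((σ * (s / 2) : ℝ) : ℂ) * n‖ := norm_add_le _ _
      _ ≤ 3 / 2 := by rw [hnn, hv1]; linarith

namespace CT

theorem cone (h : CT A c u U) {x t0 : ι} (hne : x ≠ t0) :
    ∃ m : ℂ, ‖m‖ = 1 ∧ ∀ z ∈ A x, (u / (u + 2 * U)) * ‖z - c t0‖ ≤ dt m (z - c t0) := by
  have hu := h.hu
  have hU0 : 0 < U := lt_of_lt_of_le h.hu h.u_le_U
  obtain ⟨q, hq, hmin⟩ := (h.compact x).exists_isMinOn ⟨c x, h.c_mem x⟩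
    (f := fun z => ‖z - c t0‖) (by fun_prop)
  have hD : u ≤ ‖q - c t0‖ := by
    by_contra hc
    push Not at hc
    have h1 : q ∈ interior (A t0) :=
      interior_maximal (ball_subset_closedBall.trans (h.inner t0)) isOpen_ball
        (by rw [mem_ball, dist_eq_norm]; exact hc)
    exact h.not_int hne.symm hq h1
  set D := ‖q - c t0‖ with hDdef
  have hD0 : 0 < D := lt_of_lt_of_le hu hD
  have claim : ∀ z ∈ A x, 0 ≤ dt (q - c t0) (z - q) := by
    intro z hz
    by_contra hc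
    push Not at hc
    set a := - dt (q - c t0) (z - q) with ha
    have ha0 : 0 < a := by linarith
    have hzq : z - q ≠ 0 := by
      intro h0; rw [h0] at hc; simp [dt] at hc
    set b := dt (z - q) (z - q) with hb
    have hb0 : 0 < b := dt_self_pos hzq
    set s : ℝ := min 1 (a / b) with hs
    have hs0 : 0 < s := lt_min one_pos (by positivity)
    have hs1 : s ≤ 1 := min_le_left _ _
    have hs2 : s * b ≤ a := by
      have := min_le_right 1 (a / b)
      rw [← hs, le_div_iff₀ hb0] at this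
      exact this
    have hw : q + (s : ℂ) * (z - q) ∈ A x := by
      apply (h.conv x).segment_subset hq hz
      rw [mem_segment_iff_real]
      exact ⟨s, hs0.le, hs1, rfl⟩
    have h1 : D ≤ ‖q + (s : ℂ) * (z - q) - c t0‖ := hmin hw
    have h2 : ‖q + (s : ℂ) * (z - q) - c t0‖ ^ 2 = D ^ 2 - 2 * s * a + s ^ 2 * b := by
      rw [← dt_self_norm, hDdef, ← dt_self_norm, ha, hb]
      simp [dt]; ring
    have h3 : D ^ 2 ≤ ‖q + (s : ℂ) * (z - q) - c t0‖ ^ 2 := by
      apply pow_le_pow_left₀ hD0.le h1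
    rw [h2] at h3
    have h4 : s ^ 2 * b ≤ s * a := by
      have := mul_le_mul_of_nonneg_left hs2 hs0.le
      calc s ^ 2 * b = s * (s * b) := by ring
        _ ≤ _ := this
    have h5 : 0 < s * a := by positivity
    linarith
  refine ⟨((1 / D : ℝ) : ℂ) * (q - c t0), ?_, ?_⟩
  · rw [norm_mul, Complex.norm_real, Real.norm_eq_abs, abs_of_pos (by positivity), ← hDdef]
    field_simp
  · intro z hz
    have e1 : dt (((1 / D : ℝ) : ℂ) * (q - c t0)) (z - c t0)
        = (1 / D) * dt (q - c t0) (z - q) + D := by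
      have : z - c t0 = (z - q) + (q - c t0) := by ring
      rw [dt_smul_left, this, dt_add_right, dt_self_norm, ← hDdef]
      field_simp
    rw [e1]
    have e2 := claim z hz
    have e3 : 0 ≤ (1 / D) * dt (q - c t0) (z - q) := by positivity
    have e4 : ‖z - c t0‖ ≤ D + 2 * U := by
      have h1 := h.outer x hz
      have h2 := h.outer x hq
      rw [mem_closedBall, dist_eq_norm] at h1 h2
      have e5 : z - c t0 = (q - c t0) + ((z - c x) - (q - c x)) := by ring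
      rw [e5]
      calc _ ≤ ‖q - c t0‖ + ‖(z - c x) - (q - c x)‖ := norm_add_le _ _
        _ ≤ D + (‖z - c x‖ + ‖q - c x‖) := by gcongr; exact norm_sub_le _ _
        _ ≤ _ := by linarith
    have e6 : u / (u + 2 * U) * ‖z - c t0‖ ≤ D := by
      rw [div_mul_eq_mul_div, div_le_iff₀ (by positivity)]
      nlinarith
    linarith

theorem flat_walk {p : ι → ℂ} {n : ℂ} {τ : ℝ} {F : Set ι}
    (hF : ∀ t ∈ F, ∀ s, Adj A t s → |dt n (p s - p t)| ≤ τ) {a b : ι} (q : (gr A).Walk a b)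
    (hq : ∀ x ∈ q.support, x ∈ F) : |dt n (p b - p a)| ≤ q.length * τ := by
  induction q with
  | nil => simp [dt]
  | @cons a m b ham q ih =>
    have h1 := hF a (hq a (by simp)) m ham
    have h2 := ih (fun x hx => hq x (by simp [hx]))
    have e : p b - p a = (p b - p m) + (p m - p a) := by ring
    rw [e, dt_add_right, SimpleGraph.Walk.length_cons]
    push_cast
    calc _ ≤ |dt n (p b - p m)| + |dt n (p m - p a)| := abs_add_le _ _
      _ ≤ q.length * τ + τ := by linarith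
      _ = _ := by ring

theorem margin (h : CT A c u U) {p : ι → ℂ} {R e : ℝ} (he : 0 < e) (hB : Bd c p R)
    (hUH : UH A p e) : ∃ η > 0, Mg A p η := by
  classical
  obtain ⟨i0, -⟩ := h.cover 0
  have hR : 0 ≤ R := (norm_nonneg _).trans (hB i0)
  have hu := h.hu
  have hU0 : 0 < U := lt_of_lt_of_le h.hu h.u_le_U
  set s1 : ℝ := u / (u + 2 * U) with hs1def
  have hs10 : 0 < s1 := by positivity
  have hs11 : s1 < 1 := by rw [hs1def, div_lt_one (by positivity)]; linarith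
  set q0 : ℝ := 2 * R + U + 1 with hq0
  set lam : ℝ := 2 * (q0 + 1) / s1 with hlam
  have hlam0 : 0 < lam := by positivity
  set ρ : ℝ := 2 * lam with hρ
  have hρ0 : 0 < ρ := by positivity
  obtain ⟨N, hN⟩ := h.count ρ
  set Λ : ℝ := (2 * N + 3) / e + 1 with hΛ
  have hΛ1 : 1 ≤ Λ := by
    rw [hΛ]; have : 0 ≤ (2 * (N:ℝ) + 3) / e := by positivity
    linarith
  have heΛ : 2 * (N:ℝ) + 3 < e * Λ := by
    rw [hΛ, mul_add, mul_div_cancel₀ _ he.ne']; linarith
  set τ0 : ℝ := 1 / (((N:ℝ) + 1) * Λ ^ N) with hτ0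
  have hτ00 : 0 < τ0 := by positivity
  refine ⟨e * τ0, by positivity, ?_⟩
  intro t0 n hn
  by_contra hcon
  push Not at hcon
  obtain ⟨s, hscard, hs⟩ := hN (c t0)
  set F : ℕ → ι → Prop := fun k t => ∀ s', Adj A t s' → |dt n (p s' - p t)| ≤ τ0 * Λ ^ k with hF
  have hFmono : ∀ k l t, k ≤ l → F k t → F l t := by
    intro k l t hkl hk s' hs'
    refine (hk s' hs').trans ?_
    apply mul_le_mul_of_nonneg_left _ hτ00.le
    exact pow_le_pow_right₀ hΛ1 hkl
  obtain ⟨k, hkN, hk⟩ := pigeon s N hscard F hFmono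
  set τ : ℝ := τ0 * Λ ^ k with hτ
  have hτp : 0 < τ := by positivity
  have hNτ : ((N:ℝ) + 1) * τ ≤ 1 := by
    have h1 : Λ ^ k ≤ Λ ^ N := pow_le_pow_right₀ hΛ1 hkN
    have h2 : 0 < Λ ^ N := by positivity
    calc ((N:ℝ) + 1) * τ = (((N:ℝ) + 1) * τ0) * Λ ^ k := by rw [hτ]; ring
      _ ≤ (((N:ℝ) + 1) * τ0) * Λ ^ N := by gcongr
      _ = 1 := by rw [hτ0]; field_simp
  set BB : Set ι := {t | (A t ∩ closedBall (c t0) ρ).Nonempty} with hBB
  set Fl : Set ι := {t | t ∈ BB ∧ F k t} with hFl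
  set W : Set ι := comp A Fl t0 with hW
  have ht0B : t0 ∈ BB := ⟨c t0, h.c_mem t0, mem_closedBall_self hρ0.le⟩
  have ht0F0 : F 0 t0 := by
    intro s' hs'
    obtain ⟨s'', hs'', hle⟩ := hUH t0 n s' hs'
    have := hcon s'' hs''
    rw [pow_zero, mul_one]
    have h3 : e * |dt n (p s' - p t0)| < e * τ0 := lt_of_le_of_lt hle this
    exact (lt_of_mul_lt_mul_left h3 he.le).le
  have ht0Fl : t0 ∈ Fl := ⟨ht0B, hFmono 0 k t0 (Nat.zero_le _) ht0F0⟩
  have ht0W : t0 ∈ W := comp_self ht0Fl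
  have hWFl : ∀ t ∈ W, t ∈ Fl := fun t ht => comp_sub ht
  have hWconn : Cn A W := comp_conn Fl t0
  have hWval : ∀ t ∈ W, |dt n (p t - p t0)| ≤ N * τ := by
    intro t ht
    obtain ⟨q, hql, hq⟩ := short_walk hWconn (s := s) (fun x hx => hs x (hWFl x hx).1) ht0W ht
    have h1 := flat_walk (A := A) (p := p) (n := n) (τ := τ) (F := W)
      (fun t ht s' hs' => (hWFl t ht).2 s' hs') q hq
    refine h1.trans ?_
    have : (q.length : ℝ) ≤ N := by exact_mod_cast hql.trans hscard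
    gcongr
  -- the non flat neighbours
  set X : Set ι := {x | x ∈ BB ∧ x ∉ W ∧ ∃ t ∈ W, Adj A x t} with hX
  have hXval : ∀ x ∈ X, |dt n (p x - p t0)| ≤ (N + 1) * τ := by
    rintro x ⟨-, -, t, ht, hxt⟩
    have h1 := hWval t ht
    have h2 := (hWFl t ht).2 x hxt.symm
    have e1 : p x - p t0 = (p x - p t) + (p t - p t0) := by ring
    rw [e1, dt_add_right]
    calc _ ≤ |dt n (p x - p t)| + |dt n (p t - p t0)| := abs_add_le _ _
      _ ≤ τ + N * τ := by linarith
      _ = _ := by ring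
  have hXosc : ∀ x ∈ X, ∃ s', Adj A x s' ∧ τ * Λ < |dt n (p s' - p x)| := by
    rintro x ⟨hxB, hxW, t, ht, hxt⟩
    have h1 : ¬ F k x := by
      intro hFx
      exact hxW (comp_adj ht hxt.symm ⟨hxB, hFx⟩)
    have h2 : ¬ F (k + 1) x := fun hh => h1 (hk x (hs x hxB) hh)
    simp only [hF] at h2
    push Not at h2
    obtain ⟨s', hs', hlt⟩ := h2
    refine ⟨s', hs', ?_⟩
    calc τ * Λ = τ0 * Λ ^ (k + 1) := by rw [hτ, pow_succ]; ring
      _ < _ := hlt
  set f0 := dt n (p t0) with hf0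
  have hgap : 2 * ((N:ℝ) + 1) * τ < e * (τ * Λ) := by
    have := mul_lt_mul_of_pos_right heΛ hτp
    nlinarith
  have hXup : ∀ x ∈ X, ∃ s' ∈ {t | f0 + (N + 1) * τ < dt n (p t)}, Adj A x s' := by
    intro x hx
    obtain ⟨s', hs', hlt⟩ := hXosc x hx
    obtain ⟨s'', hs'', hle⟩ := hUH x n s' hs'
    refine ⟨s'', ?_, hs''⟩
    show f0 + (N + 1) * τ < dt n (p s'')
    have h1 := (abs_le.1 (hXval x hx)).1
    have h2 := mul_lt_mul_of_pos_left hlt he
    rw [dt_sub_right n (p s'')] at hle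
    rw [dt_sub_right] at h1
    linarith
  have hXdown : ∀ x ∈ X, ∃ s' ∈ {t | -f0 + (N + 1) * τ < dt (-n) (p t)}, Adj A x s' := by
    intro x hx
    obtain ⟨s', hs', hlt⟩ := hXosc x hx
    obtain ⟨s'', hs'', hle⟩ := hUH x (-n) s' hs'
    refine ⟨s'', ?_, hs''⟩
    show -f0 + (N + 1) * τ < dt (-n) (p s'')
    have h1 := (abs_le.1 (hXval x hx)).2
    have h2 := mul_lt_mul_of_pos_left hlt he
    rw [dt_neg_left, abs_neg, dt_neg_left, dt_sub_right n (p s'')] at hle
    rw [dt_sub_right] at h1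
    rw [dt_neg_left]
    linarith
  have hUpC : Cn A {t | f0 + (N + 1) * τ < dt n (p t)} := h.level_conn he hB hUH hn _
  have hDnC : Cn A {t | -f0 + (N + 1) * τ < dt (-n) (p t)} :=
    h.level_conn he hB hUH (by rw [norm_neg, hn]) _
  have hno3 : ∀ x1 ∈ X, ∀ x2 ∈ X, ∀ x3 ∈ X, x1 ≠ x2 → x2 ≠ x3 → x1 ≠ x3 → False := by
    intro x1 h1 x2 h2 x3 h3 h12 h23 h13
    have nUp : ∀ x ∈ X, x ∉ {t | f0 + (N + 1) * τ < dt n (p t)} := by
      intro x hx hh
      have e1 := (abs_le.1 (hXval x hx)).2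
      have e2 : f0 + (N + 1) * τ < dt n (p x) := hh
      rw [dt_sub_right] at e1
      linarith
    have nDn : ∀ x ∈ X, x ∉ {t | -f0 + (N + 1) * τ < dt (-n) (p t)} := by
      intro x hx hh
      have e1 := (abs_le.1 (hXval x hx)).1
      have e2 : -f0 + (N + 1) * τ < dt (-n) (p x) := hh
      rw [dt_neg_left] at e2
      rw [dt_sub_right] at e1
      linarith
    apply h.lemma_K hWconn hUpC hDnC _ _ _ h12 h23 h13 h1.2.1 (nUp x1 h1) (nDn x1 h1)
      h2.2.1 (nUp x2 h2) (nDn x2 h2) h3.2.1 (nUp x3 h3) (nDn x3 h3)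
      h1.2.2 (hXup x1 h1) (hXdown x1 h1) h2.2.2 (hXup x2 h2) (hXdown x2 h2)
      h3.2.2 (hXup x3 h3) (hXdown x3 h3)
    · intro m hm hh
      have e1 := (abs_le.1 (hWval m hm)).2
      have e2 : f0 + (N + 1) * τ < dt n (p m) := hh
      rw [dt_sub_right] at e1
      linarith
    · intro m hm hh
      have e1 := (abs_le.1 (hWval m hm)).1
      have e2 : -f0 + (N + 1) * τ < dt (-n) (p m) := hh
      rw [dt_neg_left] at e2
      rw [dt_sub_right] at e1
      linarith
    · intro m hm hh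
      have e1 : f0 + (N + 1) * τ < dt n (p m) := hm
      have e2 : -f0 + (N + 1) * τ < dt (-n) (p m) := hh
      rw [dt_neg_left] at e2
      have : 0 < ((N:ℝ) + 1) * τ := by positivity
      linarith
  have hchoice : ∃ x1 x2, x1 ≠ t0 ∧ x2 ≠ t0 ∧ ∀ x ∈ X, x = x1 ∨ x = x2 := by
    have hXt0 : ∀ x ∈ X, x ≠ t0 := by
      rintro x hx rfl; exact hx.2.1 ht0W
    by_cases hXe : ∃ a, a ∈ X
    · obtain ⟨a, ha⟩ := hXe
      by_cases hXb : ∃ b, b ∈ X ∧ b ≠ a
      · obtain ⟨b, hb, hba⟩ := hXb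
        refine ⟨a, b, hXt0 a ha, hXt0 b hb, ?_⟩
        intro x hx
        by_contra hc
        push Not at hc
        exact hno3 a ha b hb x hx hba.symm hc.2.symm hc.1.symm
      · push Not at hXb
        exact ⟨a, a, hXt0 a ha, hXt0 a ha, fun x hx => Or.inl (hXb x hx)⟩
    · push Not at hXe
      obtain ⟨j, hj⟩ := h.exists_adj t0
      exact ⟨j, j, hj.1.symm, hj.1.symm, fun x hx => absurd hx (hXe x)⟩
  obtain ⟨x1, x2, hx1, hx2, hX12⟩ := hchoice
  obtain ⟨m1, hm1, hcone1⟩ := h.cone hx1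
  obtain ⟨m2, hm2, hcone2⟩ := h.cone hx2
  obtain ⟨w0, hw1, hw2, hw3, hw4⟩ := dir_lemma hm1 hm2 hn hs10 hs11
  set O : Set ℂ := {b | dt m1 (b - c t0) < s1 * ‖b - c t0‖ ∧ dt m2 (b - c t0) < s1 * ‖b - c t0‖ ∧
    q0 < |dt n (b - c t0)| ∧ ‖b - c t0‖ < ρ} with hO
  have hOo : IsOpen O := by
    have c1 : ∀ m : ℂ, Continuous (fun b : ℂ => dt m (b - c t0)) := fun m =>
      (continuous_dt_right m).comp (continuous_id.sub continuous_const)
    have c2 : Continuous (fun b : ℂ => ‖b - c t0‖) := by fun_prop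
    rw [hO]
    simp only [Set.ofPred_and]
    exact (isOpen_lt (c1 m1) (continuous_const.mul c2)).inter
      ((isOpen_lt (c1 m2) (continuous_const.mul c2)).inter
        ((isOpen_lt continuous_const (c1 n).abs).inter (isOpen_lt c2 continuous_const)))
  have hbO : c t0 + (lam : ℂ) * w0 ∈ O := by
    have e0 : c t0 + (lam : ℂ) * w0 - c t0 = (lam : ℂ) * w0 := by ring
    have e1 : ‖(lam : ℂ) * w0‖ = lam * ‖w0‖ := by
      rw [norm_mul, Complex.norm_real, Real.norm_eq_abs, abs_of_pos hlam0]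
    refine ⟨?_, ?_, ?_, ?_⟩
    · rw [e0, e1, dt_smul_right]
      have := mul_lt_mul_of_pos_left hw1 hlam0
      linarith
    · rw [e0, e1, dt_smul_right]
      have := mul_lt_mul_of_pos_left hw2 hlam0
      linarith
    · rw [e0, dt_smul_right, abs_mul, abs_of_pos hlam0]
      have e2 : lam * (s1 / 2) = q0 + 1 := by rw [hlam]; field_simp
      have := mul_le_mul_of_nonneg_left hw3 hlam0.le
      linarith
    · rw [e0, e1, hρ]; nlinarith
  have hq0pos : 0 < q0 := by positivity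
  have hne : c t0 ≠ c t0 + (lam : ℂ) * w0 := by
    intro he'
    have := hbO.2.2.1
    rw [← he', sub_self] at this
    simp [dt] at this
    linarith
  obtain ⟨b', hb'O, hav⟩ := avoid h.countable_V (h.not_isV_int (h.c_int t0)) hne hOo hbO
  obtain ⟨hO1, hO2, hO3, hO4⟩ := hb'O
  -- the segment avoids the two exceptional tiles
  have havoid : ∀ (x : ι) (m : ℂ), x ≠ t0 → (∀ z ∈ A x, s1 * ‖z - c t0‖ ≤ dt m (z - c t0)) →
      dt m (b' - c t0) < s1 * ‖b' - c t0‖ → ∀ z ∈ segment ℝ (c t0) b', z ∉ A x := by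
    intro x m hx hcone hlt z hz hzx
    obtain ⟨r, hr0, hr1, rfl⟩ := mem_segment_iff_real.1 hz
    have h1 := hcone _ hzx
    rw [add_sub_cancel_left, norm_mul, Complex.norm_real, Real.norm_eq_abs, abs_of_nonneg hr0,
      dt_smul_right] at h1
    rcases hr0.lt_or_eq with hr | hr
    · have := mul_lt_mul_of_pos_left hlt hr
      linarith
    · rw [← hr] at hzx
      simp only [Complex.ofReal_zero, zero_mul, add_zero] at hzx
      exact hx (h.eq_of_int (h.c_int t0) hzx).symm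
  set T2 : Set ι := {k | k ∈ BB ∧ k ∉ W} with hT2
  have hfin := h.finite_meet (c t0) ρ
  have hWf : W.Finite := hfin.subset (fun k hk => (hWFl k hk).1)
  have hT2f : T2.Finite := hfin.subset (fun k hk => hk.1)
  have hseg : segment ℝ (c t0) b' ⊆ closedBall (c t0) ρ := by
    apply (convex_closedBall (c t0) ρ).segment_subset
    · exact mem_closedBall_self hρ0.le
    · rw [mem_closedBall, dist_eq_norm]; exact hO4.le
  have hcov : segment ℝ (c t0) b' ⊆ (⋃ k ∈ W, A k) ∪ (⋃ k ∈ T2, A k) := by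
    intro x hx
    obtain ⟨k, hk⟩ := h.cover x
    by_cases hkG : k ∈ W
    · left; simp only [Set.mem_iUnion]; exact ⟨k, hkG, hk⟩
    · right; simp only [Set.mem_iUnion]; exact ⟨k, ⟨⟨x, hk, hseg hx⟩, hkG⟩, hk⟩
  obtain ⟨tb, htb⟩ := h.cover b'
  have htbB : tb ∈ BB := ⟨b', htb, hseg (right_mem_segment _ _ _)⟩
  have htbW : tb ∉ W := by
    intro hh
    have g1 := abs_le.1 (hWval tb hh)
    have g2 := h.outer tb htb
    rw [mem_closedBall, dist_eq_norm] at g2
    have g3 := abs_le.1 ((dt_le_of_unit hn (b' - c tb)).trans g2)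
    have g4 := abs_le.1 ((dt_le_of_unit hn (p tb - c tb)).trans (hB tb))
    have g5 := abs_le.1 ((dt_le_of_unit hn (p t0 - c t0)).trans (hB t0))
    have e1 : dt n (b' - c t0) = dt n (b' - c tb) - dt n (p tb - c tb) + dt n (p tb - p t0)
        + dt n (p t0 - c t0) := by
      simp only [dt_sub_right]; ring
    have e2 : |dt n (b' - c t0)| ≤ q0 := by
      rw [e1, abs_le]
      constructor <;> linarith [g1.1, g1.2, g3.1, g3.2, g4.1, g4.2, g5.1, g5.2]
    linarith
  have hpre : IsPreconnected (segment ℝ (c t0) b') := (convex_segment _ _).isPreconnected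
  rw [isPreconnected_closed_iff] at hpre
  obtain ⟨q, hq, hq1, hq2⟩ := hpre _ _ (hWf.isClosed_biUnion (fun k _ => h.closed k))
    (hT2f.isClosed_biUnion (fun k _ => h.closed k)) hcov
    ⟨c t0, left_mem_segment _ _ _, by
      simp only [Set.mem_iUnion]; exact ⟨t0, ht0W, h.c_mem t0⟩⟩
    ⟨b', right_mem_segment _ _ _, by
      simp only [Set.mem_iUnion]; exact ⟨tb, ⟨htbB, htbW⟩, htb⟩⟩
  simp only [Set.mem_iUnion] at hq1 hq2
  obtain ⟨k1, hk1, hqk1⟩ := hq1
  obtain ⟨k2, hk2, hqk2⟩ := hq2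
  have hkk : k1 ≠ k2 := by rintro rfl; exact hk2.2 hk1
  have hadj := h.adj_of_not_isV hkk hqk1 hqk2 (fun hv => hav q hv hq)
  have hk2X : k2 ∈ X := ⟨hk2.1, hk2.2, k1, hk1, hadj.symm⟩
  rcases hX12 k2 hk2X with rfl | rfl
  · exact havoid _ m1 hx1 hcone1 hO1 q hq hqk2
  · exact havoid _ m2 hx2 hcone2 hO2 q hq hqk2

end CT

end Pool.Agent.Helper89.Dual
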