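import Pool.Agent.Helper89.Dual.Line
set_option autoImplicit false

/-!
A network of roads: horizontal lines and vertical connectors forming a brick wall.
-/

namespace Pool.Agent.Helper89.Dual

open Complex Set Metric Filter Topology

variable {ι : Type} {A : ι → Set ℂ} {c : ι → ℂ} {u U : ℝ}

/-- a grid of horizontal and vertical lines avoiding the vertices -/
structure Grid {ι : Type} (A : ι → Set ℂ) (c : ι → ℂ) (u U : ℝ) where
  ct : CT A c u U
  a : ℝ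
  b : ℝ
  M : ℝ
  hM : 4 * U < M
  ga : ∀ (j : ℤ) v, IsV A v → v.re ≠ a + j * M
  gb : ∀ (i : ℤ) v, IsV A v → v.im ≠ b + i * M

theorem exists_grid (h : CT A c u U) : ∃ g : Grid A c u U, g.M = 4 * U + 1 := by
  set M : ℝ := 4 * U + 1 with hM
  have hca : (⋃ j : ℤ, (fun v : ℂ => v.re - j * M) '' {v | IsV A v}).Countable :=
    Set.countable_iUnion (fun j => h.countable_V.image _)
  have hcb : (⋃ j : ℤ, (fun v : ℂ => v.im - j * M) '' {v | IsV A v}).Countable :=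
    Set.countable_iUnion (fun j => h.countable_V.image _)
  obtain ⟨a, ha⟩ := (hca.dense_compl ℝ).nonempty
  obtain ⟨b, hb⟩ := (hcb.dense_compl ℝ).nonempty
  refine ⟨⟨h, a, b, M, by rw [hM]; linarith, ?_, ?_⟩, rfl⟩
  · intro j v hv he
    apply ha
    rw [Set.mem_iUnion]
    exact ⟨j, v, hv, by simp only; linarith⟩
  · intro j v hv he
    apply hb
    rw [Set.mem_iUnion]
    exact ⟨j, v, hv, by simp only; linarith⟩

theorem units_cases (σ : ℤˣ) : (((σ : ℤ) : ℝ) = 1 ∧ (σ : ℤ) = 1) ∨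
    (((σ : ℤ) : ℝ) = -1 ∧ (σ : ℤ) = -1) := by
  rcases Int.units_eq_one_or σ with rfl | rfl <;> simp

theorem units_norm (σ : ℤˣ) : ‖(((σ : ℤ) : ℝ) : ℂ)‖ = 1 := by
  rcases Int.units_eq_one_or σ with rfl | rfl <;> simp

namespace Grid

variable (g : Grid A c u U)

theorem M_pos : 0 < g.M := by
  have := g.ct.U_nonneg
  have := g.hM
  linarith

/-- horizontal lines -/
def Hl (i : ℤ) (σ : ℤˣ) : Ln A :=
  ⟨⟨0, g.b + i * g.M⟩, (((σ : ℤ) : ℝ) : ℂ), units_norm σ, fun s hv => by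
    apply g.gb i _ hv
    simp⟩

/-- vertical lines -/
def Vl (j : ℤ) (σ : ℤˣ) : Ln A :=
  ⟨⟨g.a + j * g.M, 0⟩, (((σ : ℤ) : ℝ) : ℂ) * Complex.I, by
    rw [norm_mul, units_norm, Complex.norm_I, one_mul], fun s hv => by
    apply g.ga j _ hv
    simp⟩

theorem Hl_re (i : ℤ) (σ : ℤˣ) (τ : ℝ) : ((g.Hl i σ).pt τ).re = ((σ : ℤ) : ℝ) * τ := by
  simp [Hl, Ln.pt]; ring

theorem Hl_im (i : ℤ) (σ : ℤˣ) (τ : ℝ) : ((g.Hl i σ).pt τ).im = g.b + i * g.M := by
  simp [Hl, Ln.pt]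

theorem Vl_re (j : ℤ) (σ : ℤˣ) (τ : ℝ) : ((g.Vl j σ).pt τ).re = g.a + j * g.M := by
  simp [Vl, Ln.pt]

theorem Vl_im (j : ℤ) (σ : ℤˣ) (τ : ℝ) : ((g.Vl j σ).pt τ).im = ((σ : ℤ) : ℝ) * τ := by
  simp [Vl, Ln.pt]; ring

theorem Hl_rev (i : ℤ) (σ : ℤˣ) : (g.Hl i σ).rev = g.Hl i (-σ) := by
  simp [Hl, Ln.rev]

theorem Vl_rev (i : ℤ) (σ : ℤˣ) : (g.Vl i σ).rev = g.Vl i (-σ) := by
  simp [Vl, Ln.rev]

def OnH (i : ℤ) (t : ι) : Prop := ∃ x ∈ A t, x.im = g.b + i * g.M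
def OnV (j : ℤ) (t : ι) : Prop := ∃ x ∈ A t, x.re = g.a + j * g.M

theorem sq_one (σ : ℤˣ) : (((σ : ℤ) : ℝ)) * ((σ : ℤ) : ℝ) = 1 := by
  rcases Int.units_eq_one_or σ with rfl | rfl <;> simp

theorem onH_iff (i : ℤ) (σ : ℤˣ) (t : ι) : (g.Hl i σ).On t ↔ g.OnH i t := by
  constructor
  · rintro ⟨τ, hτ⟩
    exact ⟨_, hτ, g.Hl_im i σ τ⟩
  · rintro ⟨x, hx, hxi⟩
    refine ⟨((σ : ℤ) : ℝ) * x.re, ?_⟩
    have : (g.Hl i σ).pt (((σ : ℤ) : ℝ) * x.re) = x := by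
      apply Complex.ext
      · rw [g.Hl_re, ← mul_assoc, sq_one, one_mul]
      · rw [g.Hl_im, hxi]
    rw [this]; exact hx

theorem onV_iff (i : ℤ) (σ : ℤˣ) (t : ι) : (g.Vl i σ).On t ↔ g.OnV i t := by
  constructor
  · rintro ⟨τ, hτ⟩
    exact ⟨_, hτ, g.Vl_re i σ τ⟩
  · rintro ⟨x, hx, hxi⟩
    refine ⟨((σ : ℤ) : ℝ) * x.im, ?_⟩
    have : (g.Vl i σ).pt (((σ : ℤ) : ℝ) * x.im) = x := by
      apply Complex.ext
      · rw [g.Vl_re, hxi]
      · rw [g.Vl_im, ← mul_assoc, sq_one, one_mul]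
    rw [this]; exact hx

theorem tile_dist (g : Grid A c u U) {t : ι} {x y : ℂ} (hx : x ∈ A t) (hy : y ∈ A t) : ‖x - y‖ ≤ 2 * U := by
  have h1 := g.ct.outer t hx
  have h2 := g.ct.outer t hy
  rw [mem_closedBall, dist_eq_norm] at h1 h2
  have e : x - y = (x - c t) - (y - c t) := by ring
  rw [e]
  have := norm_sub_le (x - c t) (y - c t)
  linarith

theorem tile_re (g : Grid A c u U) {t : ι} {x y : ℂ} (hx : x ∈ A t) (hy : y ∈ A t) : |x.re - y.re| ≤ 2 * U := by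
  rw [← Complex.sub_re]; exact (Complex.abs_re_le_norm _).trans (g.tile_dist hx hy)

theorem tile_im (g : Grid A c u U) {t : ι} {x y : ℂ} (hx : x ∈ A t) (hy : y ∈ A t) : |x.im - y.im| ≤ 2 * U := by
  rw [← Complex.sub_im]; exact (Complex.abs_im_le_norm _).trans (g.tile_dist hx hy)

theorem int_pos' {M : ℝ} (hM : 0 < M) {k l : ℤ} (h : (k : ℝ) * M < (l : ℝ) * M + M) : k ≤ l := by
  have h1 : ((k : ℝ)) < l + 1 := by
    have : (k : ℝ) * M < (l + 1) * M := by linarith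
    exact lt_of_mul_lt_mul_right this hM.le
  have h2 : k < l + 1 := by exact_mod_cast h1
  omega

theorem onH_uniq {i i' : ℤ} {t : ι} (h1 : g.OnH i t) (h2 : g.OnH i' t) : i = i' := by
  obtain ⟨x, hx, hxi⟩ := h1
  obtain ⟨y, hy, hyi⟩ := h2
  have h3 := abs_le.1 (g.tile_im hx hy)
  rw [hxi, hyi] at h3
  have := g.hM
  have := g.ct.U_nonneg
  apply le_antisymm
  · apply int_pos' g.M_pos; linarith
  · apply int_pos' g.M_pos; linarith

theorem onV_uniq {i i' : ℤ} {t : ι} (h1 : g.OnV i t) (h2 : g.OnV i' t) : i = i' := by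
  obtain ⟨x, hx, hxi⟩ := h1
  obtain ⟨y, hy, hyi⟩ := h2
  have h3 := abs_le.1 (g.tile_re hx hy)
  rw [hxi, hyi] at h3
  have := g.hM
  have := g.ct.U_nonneg
  apply le_antisymm
  · apply int_pos' g.M_pos; linarith
  · apply int_pos' g.M_pos; linarith

theorem coordH {i j : ℤ} {σ : ℤˣ} {t : ι} (hv : g.OnV j t) {τ : ℝ}
    (hτ : (g.Hl i σ).pt τ ∈ A t) : |((σ : ℤ) : ℝ) * τ - (g.a + j * g.M)| ≤ 2 * U := by
  obtain ⟨y, hy, hyj⟩ := hv
  have := g.tile_re hτ hy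
  rwa [g.Hl_re, hyj] at this

theorem coordV {i j : ℤ} {σ : ℤˣ} {t : ι} (hh : g.OnH i t) {τ : ℝ}
    (hτ : (g.Vl j σ).pt τ ∈ A t) : |((σ : ℤ) : ℝ) * τ - (g.b + i * g.M)| ≤ 2 * U := by
  obtain ⟨y, hy, hyj⟩ := hh
  have := g.tile_im hτ hy
  rwa [g.Vl_im, hyj] at this

/-- orientation of the connector at a crossing -/
def sg (i j : ℤ) : ℤˣ := if Even (i + j) then 1 else -1

theorem sg_succ (i j : ℤ) (σ : ℤˣ) : sg (i + (σ : ℤ)) j = - sg i j := by
  unfold sg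
  rcases Int.units_eq_one_or σ with rfl | rfl
  · have e : Even (i + ((1 : ℤˣ) : ℤ) + j) ↔ ¬ Even (i + j) := by
      have : i + ((1 : ℤˣ) : ℤ) + j = (i + j) + 1 := by simp; ring
      rw [this, Int.even_add_one]
    by_cases hc : Even (i + j)
    · rw [if_pos hc, if_neg]; rw [e]; exact fun h => h hc
    · rw [if_neg hc, if_pos]; · simp
      rw [e]; exact hc
  · have e : Even (i + ((-1 : ℤˣ) : ℤ) + j) ↔ ¬ Even (i + j) := by
      have : i + ((-1 : ℤˣ) : ℤ) + j = (i + j) - 1 := by simp; ring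
      rw [this, Int.even_sub_one]
    by_cases hc : Even (i + j)
    · rw [if_pos hc, if_neg]; rw [e]; exact fun h => h hc
    · rw [if_neg hc, if_pos]; · simp
      rw [e]; exact hc

theorem sg_succ' (i j : ℤ) (σ : ℤˣ) : sg i (j + (σ : ℤ)) = - sg i j := by
  have h1 : ∀ i j : ℤ, sg i j = sg j i := by
    intro i j; unfold sg; rw [add_comm]
  rw [h1, sg_succ, h1]

theorem exists_zn (i j : ℤ) : ∃ t, g.OnH i t ∧ g.OnV j t ∧ ∀ s, g.OnH i s → g.OnV j s →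
    (g.Vl j (sg i j)).be s ≤ (g.Vl j (sg i j)).be t := by
  have hfin : {t | g.OnH i t ∧ g.OnV j t}.Finite := by
    apply (g.ct.finite_meet ⟨g.a + j * g.M, g.b + i * g.M⟩ (2 * U)).subset
    rintro t ⟨⟨x, hx, hxi⟩, ⟨y, hy, hyj⟩⟩
    refine ⟨x, hx, ?_⟩
    rw [mem_closedBall, dist_eq_norm]
    have h1 := g.tile_re hx hy
    rw [hyj] at h1
    have e : x - ⟨g.a + j * g.M, g.b + i * g.M⟩ = ((x.re - (g.a + j * g.M) : ℝ) : ℂ) := by
      apply Complex.ext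
      · simp
      · simp [hxi]
    rw [e, Complex.norm_real, Real.norm_eq_abs]
    exact h1
  obtain ⟨t0, ht0⟩ := g.ct.cover ⟨g.a + j * g.M, g.b + i * g.M⟩
  have hne : {t | g.OnH i t ∧ g.OnV j t}.Nonempty := ⟨t0, ⟨_, ht0, rfl⟩, ⟨_, ht0, rfl⟩⟩
  obtain ⟨t, ht, hmax⟩ := Set.exists_max_image _ (fun t => (g.Vl j (sg i j)).be t) hfin hne
  exact ⟨t, ht.1, ht.2, fun s h1 h2 => hmax s ⟨h1, h2⟩⟩

/-- the nodes -/
noncomputable def zn (i j : ℤ) : ι := (g.exists_zn i j).choose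

theorem zn_H (i j : ℤ) : g.OnH i (g.zn i j) := (g.exists_zn i j).choose_spec.1
theorem zn_V (i j : ℤ) : g.OnV j (g.zn i j) := (g.exists_zn i j).choose_spec.2.1
theorem zn_max (i j : ℤ) {s : ι} (h1 : g.OnH i s) (h2 : g.OnV j s) :
    (g.Vl j (sg i j)).be s ≤ (g.Vl j (sg i j)).be (g.zn i j) :=
  (g.exists_zn i j).choose_spec.2.2 s h1 h2

theorem zn_inj {i j i' j' : ℤ} (he : g.zn i j = g.zn i' j') : i = i' ∧ j = j' :=
  ⟨g.onH_uniq (g.zn_H i j) (he ▸ g.zn_H i' j'), g.onV_uniq (g.zn_V i j) (he ▸ g.zn_V i' j')⟩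

def Z : Set ι := {t | ∃ i j, t = g.zn i j}

def Rd (t : ι) : Prop := (∃ i, g.OnH i t) ∨ (∃ j, g.OnV j t)

noncomputable def rr (σ : ℤˣ) (t : ι) : ι := by
  classical
  exact if h : ∃ i, g.OnH i t then (g.Hl h.choose σ).nxt t
    else if h' : ∃ j, g.OnV j t then (g.Vl h'.choose σ).nxt t else t

theorem rr_H {i : ℤ} {t : ι} (h : g.OnH i t) (σ : ℤˣ) : g.rr σ t = (g.Hl i σ).nxt t := by
  have hex : ∃ i, g.OnH i t := ⟨i, h⟩
  unfold rr
  rw [dif_pos hex, g.onH_uniq h hex.choose_spec]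

theorem rr_V {j : ℤ} {t : ι} (h : g.OnV j t) (hn : ¬ ∃ i, g.OnH i t) (σ : ℤˣ) :
    g.rr σ t = (g.Vl j σ).nxt t := by
  have hex : ∃ j, g.OnV j t := ⟨j, h⟩
  unfold rr
  rw [dif_neg hn, dif_pos hex, g.onV_uniq h hex.choose_spec]

theorem rr_adj {t : ι} (h : g.Rd t) (σ : ℤˣ) : Adj A t (g.rr σ t) := by
  by_cases hH : ∃ i, g.OnH i t
  · obtain ⟨i, hi⟩ := hH
    rw [g.rr_H hi σ]
    exact (g.Hl i σ).nxt_adj g.ct ((g.onH_iff i σ t).2 hi)
  · rcases h with h | ⟨j, hj⟩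
    · exact absurd h hH
    · rw [g.rr_V hj hH σ]
      exact (g.Vl j σ).nxt_adj g.ct ((g.onV_iff j σ t).2 hj)

/-- a road between two nodes -/
def Road (z z' : ι) (N : ℕ) : Prop :=
  ∃ (L : ℕ) (x : ℕ → ι) (σ : ℤˣ), 1 ≤ L ∧ L ≤ N ∧ x 0 = z ∧ x L = z' ∧
    (∀ k < L, Adj A (x k) (x (k + 1))) ∧
    ∀ k, 0 < k → k < L → x k ∉ g.Z ∧ g.Rd (x k) ∧ g.rr σ (x k) = x (k + 1) ∧
      g.rr (-σ) (x k) = x (k - 1)

theorem Hroad {N : ℕ} (hN : ∀ z : ℂ, ∃ s : Finset ι, s.card ≤ N ∧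
      ∀ i, (A i ∩ closedBall z (2 * g.M)).Nonempty → i ∈ s) (i j : ℤ) (σ : ℤˣ) :
    g.Road (g.zn i j) (g.zn i (j + (σ : ℤ))) (N + 1) := by
  have hM := g.hM
  have hU := g.ct.U_nonneg
  have hM0 := g.M_pos
  obtain ⟨J, hJ⟩ : ∃ J : ℤ, J = j + (σ : ℤ) := ⟨_, rfl⟩
  have hJr : (J : ℝ) = j + ((σ : ℤ) : ℝ) := by rw [hJ]; push_cast; ring
  rw [← hJ]
  set l := g.Hl i σ with hl
  have hz : l.On (g.zn i j) := (g.onH_iff i σ _).2 (g.zn_H i j)
  have hz' : l.On (g.zn i J) := (g.onH_iff i σ _).2 (g.zn_H i _)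
  have c1 := abs_le.1 (g.coordH (g.zn_V i j) (l.be_mem g.ct hz))
  have c2 := abs_le.1 (g.coordH (g.zn_V i J) (l.al_mem g.ct hz'))
  have hlt := (l.nxt_main g.ct hz').2.2
  have hb1 : l.be (g.zn i j) ≤ l.al (g.zn i J) := by
    rcases units_cases σ with ⟨h1, -⟩ | ⟨h1, -⟩
    · rw [h1] at c1 c2 hJr; rw [hJr] at c2; linarith
    · rw [h1] at c1 c2 hJr; rw [hJr] at c2; linarith
  have hb2 : l.al (g.zn i J) - l.be (g.zn i j) ≤ 2 * g.M := by
    rcases units_cases σ with ⟨h1, -⟩ | ⟨h1, -⟩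
    · rw [h1] at c1 c2 hJr; rw [hJr] at c2; linarith
    · rw [h1] at c1 c2 hJr; rw [hJr] at c2; linarith
  obtain ⟨L, hL1, hL2, hL3, hL4⟩ := l.reach g.ct hN hz hz' hb1 hb2
  have hsucc : ∀ k, l.nxt^[k + 1] (g.zn i j) = l.nxt (l.nxt^[k] (g.zn i j)) := fun k =>
    Function.iterate_succ_apply' l.nxt k _
  refine ⟨L, fun k => l.nxt^[k] (g.zn i j), σ, hL1, hL2, rfl, hL3, ?_, ?_⟩
  · intro k hk
    simp only
    rw [hsucc]
    exact l.nxt_adj g.ct (hL4 k hk).1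
  · intro k hk0 hk
    simp only
    obtain ⟨k1, k2, k3⟩ := hL4 k hk
    have k3 := k3 hk0
    have hH : g.OnH i (l.nxt^[k] (g.zn i j)) := (g.onH_iff i σ _).1 k1
    refine ⟨?_, Or.inl ⟨i, hH⟩, ?_, ?_⟩
    · rintro ⟨i', j', he⟩
      have hi' : i' = i := by
        rw [he] at hH
        exact g.onH_uniq (g.zn_H i' j') hH
      rw [hi'] at he
      have hV : g.OnV j' (l.nxt^[k] (g.zn i j)) := he ▸ g.zn_V i j'
      have c3 := abs_le.1 (g.coordH hV (l.be_mem g.ct k1))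
      have hj : j' = j ∨ j' = J := by
        rcases units_cases σ with ⟨h1, h2⟩ | ⟨h1, h2⟩
        · rw [h1] at c1 c2 c3 hJr
          rw [hJr] at c2
          have a1 : j ≤ j' := by
            apply int_pos' hM0
            linarith
          have a2 : j' ≤ J := by
            apply int_pos' hM0
            rw [hJr]
            linarith
          omega
        · rw [h1] at c1 c2 c3 hJr
          rw [hJr] at c2
          have a1 : j' ≤ j := by
            apply int_pos' hM0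
            linarith
          have a2 : J ≤ j' := by
            apply int_pos' hM0
            rw [hJr]
            linarith
          omega
      rcases hj with rfl | rfl
      · rw [he] at k3; exact lt_irrefl _ k3
      · rw [he] at k2; linarith
    · rw [g.rr_H hH σ, hsucc]
    · obtain ⟨m, rfl⟩ : ∃ m, k = m + 1 := ⟨k - 1, by omega⟩
      rw [g.rr_H hH (-σ), ← g.Hl_rev, Nat.add_sub_cancel, hsucc]
      exact l.nxt_rev g.ct (hL4 m (by omega)).1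

theorem Vroad {N : ℕ} (hN : ∀ z : ℂ, ∃ s : Finset ι, s.card ≤ N ∧
      ∀ i, (A i ∩ closedBall z (2 * g.M)).Nonempty → i ∈ s) (i j : ℤ) :
    g.Road (g.zn i j) (g.zn (i + (sg i j : ℤ)) j) (N + 1) := by
  have hM := g.hM
  have hU := g.ct.U_nonneg
  have hM0 := g.M_pos
  obtain ⟨σ, hσ⟩ : ∃ σ, σ = sg i j := ⟨_, rfl⟩
  rw [← hσ]
  obtain ⟨J, hJ⟩ : ∃ J : ℤ, J = i + (σ : ℤ) := ⟨_, rfl⟩
  have hJr : (J : ℝ) = i + ((σ : ℤ) : ℝ) := by rw [hJ]; push_cast; ring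
  rw [← hJ]
  set l := g.Vl j σ with hl
  have hz : l.On (g.zn i j) := (g.onV_iff j σ _).2 (g.zn_V i j)
  have hz' : l.On (g.zn J j) := (g.onV_iff j σ _).2 (g.zn_V _ j)
  have c1 := abs_le.1 (g.coordV (g.zn_H i j) (l.be_mem g.ct hz))
  have c2 := abs_le.1 (g.coordV (g.zn_H J j) (l.al_mem g.ct hz'))
  have hlt := (l.nxt_main g.ct hz').2.2
  have hb1 : l.be (g.zn i j) ≤ l.al (g.zn J j) := by
    rcases units_cases σ with ⟨h1, -⟩ | ⟨h1, -⟩
    · rw [h1] at c1 c2 hJr; rw [hJr] at c2; linarith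
    · rw [h1] at c1 c2 hJr; rw [hJr] at c2; linarith
  have hb2 : l.al (g.zn J j) - l.be (g.zn i j) ≤ 2 * g.M := by
    rcases units_cases σ with ⟨h1, -⟩ | ⟨h1, -⟩
    · rw [h1] at c1 c2 hJr; rw [hJr] at c2; linarith
    · rw [h1] at c1 c2 hJr; rw [hJr] at c2; linarith
  obtain ⟨L, hL1, hL2, hL3, hL4⟩ := l.reach g.ct hN hz hz' hb1 hb2
  have hsucc : ∀ k, l.nxt^[k + 1] (g.zn i j) = l.nxt (l.nxt^[k] (g.zn i j)) := fun k =>
    Function.iterate_succ_apply' l.nxt k _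
  refine ⟨L, fun k => l.nxt^[k] (g.zn i j), σ, hL1, hL2, rfl, hL3, ?_, ?_⟩
  · intro k hk
    simp only
    rw [hsucc]
    exact l.nxt_adj g.ct (hL4 k hk).1
  · intro k hk0 hk
    simp only
    obtain ⟨k1, k2, k3⟩ := hL4 k hk
    have k3 := k3 hk0
    have k4 := (l.nxt_main g.ct k1).2.2
    have hV : g.OnV j (l.nxt^[k] (g.zn i j)) := (g.onV_iff j σ _).1 k1
    have hnH : ¬ ∃ i', g.OnH i' (l.nxt^[k] (g.zn i j)) := by
      rintro ⟨i', hi'⟩
      have c3 := abs_le.1 (g.coordV hi' (l.be_mem g.ct k1))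
      have hj : i' = i ∨ i' = J := by
        rcases units_cases σ with ⟨h1, h2⟩ | ⟨h1, h2⟩
        · rw [h1] at c1 c2 c3 hJr
          rw [hJr] at c2
          have a1 : i ≤ i' := by
            apply int_pos' hM0
            linarith
          have a2 : i' ≤ J := by
            apply int_pos' hM0
            rw [hJr]
            linarith
          omega
        · rw [h1] at c1 c2 c3 hJr
          rw [hJr] at c2
          have a1 : i' ≤ i := by
            apply int_pos' hM0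
            linarith
          have a2 : J ≤ i' := by
            apply int_pos' hM0
            rw [hJr]
            linarith
          omega
      rcases hj with h1 | h1
      · rw [h1] at hi'
        have := g.zn_max i j hi' hV
        rw [← hσ] at this
        linarith
      · rw [h1] at hi'
        have := g.zn_max J j hi' hV
        have hsJ : sg J j = -σ := by rw [hJ, sg_succ, ← hσ]
        rw [hsJ, ← g.Vl_rev, ← hl, l.be_rev g.ct k1, l.be_rev g.ct hz'] at this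
        linarith
    refine ⟨?_, Or.inr ⟨j, hV⟩, ?_, ?_⟩
    · rintro ⟨i', j', he⟩
      exact hnH ⟨i', he ▸ g.zn_H i' j'⟩
    · rw [g.rr_V hV hnH σ, hsucc]
    · obtain ⟨m, rfl⟩ : ∃ m, k = m + 1 := ⟨k - 1, by omega⟩
      rw [g.rr_V hV hnH (-σ), ← g.Vl_rev, Nat.add_sub_cancel, hsucc]
      exact l.nxt_rev g.ct (hL4 m (by omega)).1

/-- good steps -/
def Gs (t s : ι) : Prop := (g.Rd t ∧ ∃ σ, s = g.rr σ t) ∨ (¬ g.Rd t ∧ Adj A t s)

/-- tiles reaching a node in at most `k` good steps -/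
def Rk : ℕ → Set ι
  | 0 => g.Z
  | k + 1 => {t | t ∈ Rk k ∨ ∃ s, g.Gs t s ∧ s ∈ Rk k}

theorem Rk_mono {k l : ℕ} (hkl : k ≤ l) : g.Rk k ⊆ g.Rk l := by
  induction l with
  | zero =>
    have : k = 0 := by omega
    rw [this]
  | succ l ih =>
    rcases Nat.lt_or_ge l k with h1 | h1
    · have : k = l + 1 := by omega
      rw [this]
    · exact (ih h1).trans (fun t ht => Or.inl ht)

theorem chain (m : ℕ) : ∀ (L : ℕ) (x : ℕ → ι), x L ∈ g.Rk m →
    (∀ k < L, x k ∈ g.Rk m ∨ g.Gs (x k) (x (k + 1))) → x 0 ∈ g.Rk (m + L) := by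
  intro L
  induction L with
  | zero => intro x hx _; exact hx
  | succ L ih =>
    intro x hx hk
    have h1 := ih (fun k => x (k + 1)) hx (fun k hkL => hk (k + 1) (by omega))
    rcases hk 0 (by omega) with h2 | h2
    · exact g.Rk_mono (by omega) h2
    · exact Or.inr ⟨x 1, h2, h1⟩

theorem Rk_H {N : ℕ} (hN : ∀ z : ℂ, ∃ s : Finset ι, s.card ≤ N ∧
      ∀ i, (A i ∩ closedBall z (2 * g.M)).Nonempty → i ∈ s) {i : ℤ} {t : ι} (ht : g.OnH i t) :
    t ∈ g.Rk (N + 1) := by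
  have hM := g.hM
  have hU := g.ct.U_nonneg
  have hM0 := g.M_pos
  set l := g.Hl i 1 with hl
  have hz : l.On t := (g.onH_iff i 1 _).2 ht
  set j : ℤ := ⌈(l.be t + 2 * U - g.a) / g.M⌉ with hj
  have j1 := Int.le_ceil ((l.be t + 2 * U - g.a) / g.M)
  have j2 := Int.ceil_lt_add_one ((l.be t + 2 * U - g.a) / g.M)
  rw [← hj] at j1 j2
  rw [div_le_iff₀ hM0] at j1
  have j3 : (j : ℝ) * g.M < l.be t + 2 * U - g.a + g.M := by
    have := mul_lt_mul_of_pos_right j2 hM0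
    rw [add_mul, div_mul_cancel₀ _ hM0.ne', one_mul] at this
    exact this
  have hz' : l.On (g.zn i j) := (g.onH_iff i 1 _).2 (g.zn_H i j)
  have c2 := abs_le.1 (g.coordH (g.zn_V i j) (l.al_mem g.ct hz'))
  push_cast at c2
  obtain ⟨L, hL1, hL2, hL3, hL4⟩ := l.reach g.ct hN hz hz' (by linarith) (by linarith)
  have hsucc : ∀ k, l.nxt^[k + 1] t = l.nxt (l.nxt^[k] t) := fun k =>
    Function.iterate_succ_apply' l.nxt k _
  have := g.chain 0 L (fun k => l.nxt^[k] t) (by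
    rw [hL3]; exact ⟨i, j, rfl⟩) (by
    intro k hk
    right; left
    have hH : g.OnH i (l.nxt^[k] t) := (g.onH_iff i 1 _).1 (hL4 k hk).1
    refine ⟨Or.inl ⟨i, hH⟩, 1, ?_⟩
    rw [g.rr_H hH 1, hsucc])
  exact g.Rk_mono (by omega) this

theorem Rk_V {N : ℕ} (hN : ∀ z : ℂ, ∃ s : Finset ι, s.card ≤ N ∧
      ∀ i, (A i ∩ closedBall z (2 * g.M)).Nonempty → i ∈ s) {j : ℤ} {t : ι} (ht : g.OnV j t) :
    t ∈ g.Rk (2 * (N + 1)) := by
  have hM := g.hM
  have hU := g.ct.U_nonneg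
  have hM0 := g.M_pos
  set l := g.Vl j 1 with hl
  have hz : l.On t := (g.onV_iff j 1 _).2 ht
  set i : ℤ := ⌈(l.be t + 2 * U - g.b) / g.M⌉ with hi
  have j1 := Int.le_ceil ((l.be t + 2 * U - g.b) / g.M)
  have j2 := Int.ceil_lt_add_one ((l.be t + 2 * U - g.b) / g.M)
  rw [← hi] at j1 j2
  rw [div_le_iff₀ hM0] at j1
  have j3 : (i : ℝ) * g.M < l.be t + 2 * U - g.b + g.M := by
    have := mul_lt_mul_of_pos_right j2 hM0
    rw [add_mul, div_mul_cancel₀ _ hM0.ne', one_mul] at this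
    exact this
  have hz' : l.On (g.zn i j) := (g.onV_iff j 1 _).2 (g.zn_V i j)
  have c2 := abs_le.1 (g.coordV (g.zn_H i j) (l.al_mem g.ct hz'))
  push_cast at c2
  obtain ⟨L, hL1, hL2, hL3, hL4⟩ := l.reach g.ct hN hz hz' (by linarith) (by linarith)
  have hsucc : ∀ k, l.nxt^[k + 1] t = l.nxt (l.nxt^[k] t) := fun k =>
    Function.iterate_succ_apply' l.nxt k _
  have := g.chain (N + 1) L (fun k => l.nxt^[k] t) (by
    rw [hL3]; exact g.Rk_H hN (g.zn_H i j)) (by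
    intro k hk
    by_cases hH : ∃ i', g.OnH i' (l.nxt^[k] t)
    · obtain ⟨i', hi'⟩ := hH
      exact Or.inl (g.Rk_H hN hi')
    right; left
    have hV : g.OnV j (l.nxt^[k] t) := (g.onV_iff j 1 _).1 (hL4 k hk).1
    refine ⟨Or.inr ⟨j, hV⟩, 1, ?_⟩
    rw [g.rr_V hV hH 1, hsucc])
  exact g.Rk_mono (by omega) this

/-- every tile reaches a node in a bounded number of good steps -/
theorem exists_K : ∃ K : ℕ, ∀ t, t ∈ g.Rk K := by
  classical
  have hM := g.hM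
  have hU := g.ct.U_nonneg
  have hM0 := g.M_pos
  obtain ⟨N, hN⟩ := g.ct.count (2 * g.M)
  obtain ⟨N', hN'⟩ := g.ct.count (4 * g.M)
  refine ⟨2 * (N + 1) + N', fun t => ?_⟩
  set j : ℤ := ⌊((c t).re - g.a) / g.M⌋ with hj
  set i : ℤ := ⌊((c t).im - g.b) / g.M⌋ with hi
  have j1 := Int.floor_le (((c t).re - g.a) / g.M)
  have j2 := Int.lt_floor_add_one (((c t).re - g.a) / g.M)
  have i1 := Int.floor_le (((c t).im - g.b) / g.M)
  have i2 := Int.lt_floor_add_one (((c t).im - g.b) / g.M)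
  rw [← hj] at j1 j2
  rw [← hi] at i1 i2
  rw [le_div_iff₀ hM0] at j1 i1
  rw [div_lt_iff₀ hM0] at j2 i2
  obtain ⟨x, hx, hxi⟩ := g.zn_H i j
  obtain ⟨y, hy, hyj⟩ := g.zn_V i j
  have hxy := abs_le.1 (g.tile_re hx hy)
  rw [hyj] at hxy
  have hconn := g.ct.conn_open (isOpen_ball (x := c t) (ε := 4 * g.M)) (convex_ball _ _)
  have hxb : x ∈ ball (c t) (4 * g.M) := by
    rw [mem_ball, dist_eq_norm]
    have h1 := Complex.norm_le_abs_re_add_abs_im (x - c t)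
    rw [Complex.sub_re, Complex.sub_im, hxi] at h1
    have h2 : |x.re - (c t).re| < 2 * g.M := by
      rw [abs_lt]; constructor <;> nlinarith
    have h3 : |g.b + i * g.M - (c t).im| < 2 * g.M := by
      rw [abs_lt]; constructor <;> nlinarith
    linarith
  obtain ⟨s, hsc, hs⟩ := hN' (c t)
  obtain ⟨q, hql, -⟩ := short_walk hconn (s := s) (by
    rintro k ⟨w, hw1, hw2⟩
    exact hs k ⟨w, hw1, ball_subset_closedBall hw2⟩)
    (i := t) (j := g.zn i j) ⟨c t, g.ct.c_mem t, mem_ball_self (by linarith)⟩ ⟨x, hx, hxb⟩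
  have := g.chain (2 * (N + 1)) q.length (fun k => q.getVert k) (by
    simp only [SimpleGraph.Walk.getVert_length]
    exact g.Rk_mono (Nat.zero_le _) ⟨i, j, rfl⟩) (by
    intro k hk
    by_cases hR : g.Rd (q.getVert k)
    · left
      rcases hR with ⟨i', hi'⟩ | ⟨j', hj'⟩
      · exact g.Rk_mono (by omega) (g.Rk_H hN hi')
      · exact g.Rk_V hN hj'
    · right; right
      exact ⟨hR, q.adj_getVert_succ hk⟩)
  simp only [SimpleGraph.Walk.getVert_zero] at this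
  exact g.Rk_mono (by omega) this

end Grid

end Pool.Agent.Helper89.Dual
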