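import Pool.Agent.Helper89.Dual.Wind
set_option autoImplicit false

/-!
Elementary plane geometry with the cross product `cr`.
-/

namespace Pool.Agent.Helper89.Dual

open Complex Set Metric Filter Topology

theorem cr_add_right (u v w : ℂ) : cr u (v + w) = cr u v + cr u w := by simp [cr]; ring
theorem cr_add_left (u v w : ℂ) : cr (u + v) w = cr u w + cr v w := by simp [cr]; ring
theorem cr_sub_right (u v w : ℂ) : cr u (v - w) = cr u v - cr u w := by simp [cr]; ring
theorem cr_sub_left (u v w : ℂ) : cr (u - v) w = cr u w - cr v w := by simp [cr]; ring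
theorem cr_self (u : ℂ) : cr u u = 0 := by simp [cr]; ring
theorem cr_neg_left (u v : ℂ) : cr (-u) v = - cr u v := by simp [cr]; ring
theorem cr_neg_right (u v : ℂ) : cr u (-v) = - cr u v := by simp [cr]; ring
theorem cr_zero_right (u : ℂ) : cr u 0 = 0 := by simp [cr]
theorem cr_zero_left (u : ℂ) : cr 0 u = 0 := by simp [cr]

theorem continuous_cr_right (u : ℂ) : Continuous (fun w : ℂ => cr u w) := by
  unfold cr
  exact (continuous_const.mul Complex.continuous_im).sub (continuous_const.mul Complex.continuous_re)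

theorem continuous_dt_right (u : ℂ) : Continuous (fun w : ℂ => dt u w) := by
  unfold dt
  exact (continuous_const.mul Complex.continuous_re).add (continuous_const.mul Complex.continuous_im)

/-- Cramer's rule in the plane -/
theorem cramer {a b : ℂ} (h : cr a b ≠ 0) (w : ℂ) :
    w = ((cr w b / cr a b : ℝ) : ℂ) * a + ((cr a w / cr a b : ℝ) : ℂ) * b := by
  apply Complex.ext
  · simp only [Complex.add_re, Complex.mul_re, Complex.ofReal_re, Complex.ofReal_im, zero_mul,
      sub_zero]
    field_simp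
    unfold cr
    ring
  · simp only [Complex.add_im, Complex.mul_im, Complex.ofReal_re, Complex.ofReal_im, zero_mul,
      add_zero]
    field_simp
    unfold cr
    ring

theorem normSq_eq' (d : ℂ) : Complex.normSq d = d.re * d.re + d.im * d.im := Complex.normSq_apply d

/-- orthogonal decomposition -/
theorem ortho_decomp {d : ℂ} (hd : d ≠ 0) (w : ℂ) :
    w = ((dt d w / Complex.normSq d : ℝ) : ℂ) * d
      + ((cr d w / Complex.normSq d : ℝ) : ℂ) * (Complex.I * d) := by
  have hn : Complex.normSq d ≠ 0 := fun h => hd (Complex.normSq_eq_zero.1 h)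
  apply Complex.ext
  · simp only [Complex.add_re, Complex.mul_re, Complex.ofReal_re, Complex.ofReal_im, zero_mul,
      sub_zero, Complex.I_re, Complex.I_im, one_mul, zero_sub]
    field_simp
    rw [normSq_eq']
    unfold cr dt
    ring
  · simp only [Complex.add_im, Complex.mul_im, Complex.ofReal_re, Complex.ofReal_im, zero_mul,
      add_zero, Complex.I_re, Complex.I_im, one_mul, zero_add]
    field_simp
    rw [normSq_eq']
    unfold cr dt
    ring

/-- A real functional vanishing on `d` is a multiple of the cross product with `d`. -/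
theorem functional_cr (f : ℂ →L[ℝ] ℝ) {d : ℂ} (hd : d ≠ 0) (h : f d = 0) :
    ∃ l : ℝ, ∀ w, f w = l * cr d w := by
  refine ⟨f (Complex.I * d) / Complex.normSq d, fun w => ?_⟩
  have hn : Complex.normSq d ≠ 0 := fun h => hd (Complex.normSq_eq_zero.1 h)
  have h1 := ortho_decomp hd w
  have h2 : f w = (dt d w / Complex.normSq d) * f d
      + (cr d w / Complex.normSq d) * f (Complex.I * d) := by
    conv_lhs => rw [h1]
    rw [map_add]
    rw [← Complex.real_smul, ← Complex.real_smul, map_smul, map_smul]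
    simp [smul_eq_mul]
  rw [h2, h]
  ring

/-- A real functional is a scalar product. -/
theorem functional_dt (f : ℂ →L[ℝ] ℝ) : ∃ n : ℂ, ∀ w, f w = dt n w := by
  refine ⟨⟨f 1, f Complex.I⟩, fun w => ?_⟩
  have h1 : w = w.re • (1 : ℂ) + w.im • Complex.I := by
    apply Complex.ext <;> simp
  conv_lhs => rw [h1]
  rw [map_add, map_smul, map_smul]
  simp [dt]
  ring

theorem mem_openSegment_iff_real {a b m : ℂ} :
    m ∈ openSegment ℝ a b ↔ ∃ s : ℝ, 0 < s ∧ s < 1 ∧ m = a + (s : ℂ) * (b - a) := by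
  rw [openSegment_eq_image']
  constructor
  · rintro ⟨s, hs, rfl⟩
    exact ⟨s, hs.1, hs.2, by simp⟩
  · rintro ⟨s, h0, h1, rfl⟩
    exact ⟨s, ⟨h0, h1⟩, by simp⟩

theorem mem_segment_iff_real {a b m : ℂ} :
    m ∈ segment ℝ a b ↔ ∃ s : ℝ, 0 ≤ s ∧ s ≤ 1 ∧ m = a + (s : ℂ) * (b - a) := by
  rw [segment_eq_image']
  constructor
  · rintro ⟨s, hs, rfl⟩
    exact ⟨s, hs.1, hs.2, by simp⟩
  · rintro ⟨s, h0, h1, rfl⟩
    exact ⟨s, ⟨h0, h1⟩, by simp⟩

/-- Points close to an inner point of a chord, on the side of an interior point, are interior. -/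
theorem half_disc {K : Set ℂ} (hK : Convex ℝ K) {c a b m w : ℂ} (hc : c ∈ interior K)
    (ha : a ∈ K) (hb : b ∈ K) (hm : m ∈ openSegment ℝ a b)
    (hw : 0 < cr (b - a) (w - a) * cr (b - a) (c - a)) :
    ∀ᶠ e : ℝ in 𝓝[>] (0:ℝ), m + (e : ℂ) * (w - m) ∈ interior K := by
  obtain ⟨s, hs0, hs1, hmdef⟩ := mem_openSegment_iff_real.1 hm
  set D := b - a with hD
  have e1 : ∀ x : ℂ, cr D (x - m) = cr D (x - a) := by
    intro x
    rw [hmdef]; simp [cr]; ring
  set v := c - m with hv
  have hDv : cr D v ≠ 0 := by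
    rw [hv, e1]
    intro h; rw [h] at hw; simp at hw
  set nu : ℝ := cr D (w - m) / cr D v with hnu
  set mu : ℝ := cr (w - m) v / cr D v with hmu
  have hnu0 : 0 < nu := by
    rw [hnu, hv, e1, e1]
    rw [hv, e1] at hDv
    have : 0 < cr D (c - a) ^ 2 := by positivity
    have h3 : cr D (w - a) / cr D (c - a) = (cr D (w - a) * cr D (c - a)) / cr D (c - a) ^ 2 := by
      field_simp
    rw [h3]
    exact div_pos hw this
  have hdec : w - m = (mu : ℂ) * D + (nu : ℂ) * v := cramer hDv (w - m)
  have t1 : Tendsto (fun e : ℝ => 1 - e * nu) (𝓝[>] 0) (𝓝 1) := by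
    have : Tendsto (fun e : ℝ => 1 - e * nu) (𝓝 0) (𝓝 (1 - 0 * nu)) := by
      apply Continuous.tendsto; fun_prop
    rw [zero_mul, sub_zero] at this
    exact this.mono_left nhdsWithin_le_nhds
  have t2 : Tendsto (fun e : ℝ => s + e * mu / (1 - e * nu)) (𝓝[>] 0) (𝓝 s) := by
    have h1 : Tendsto (fun e : ℝ => e * mu) (𝓝[>] 0) (𝓝 0) := by
      have : Tendsto (fun e : ℝ => e * mu) (𝓝 0) (𝓝 (0 * mu)) := by
        apply Continuous.tendsto; fun_prop
      rw [zero_mul] at this
      exact this.mono_left nhdsWithin_le_nhds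
    have h2 := (h1.div t1 one_ne_zero).const_add s
    simpa using h2
  filter_upwards [t1.eventually (lt_mem_nhds (show (0:ℝ) < 1 by norm_num)),
    t2.eventually (lt_mem_nhds hs0), t2.eventually (gt_mem_nhds hs1), self_mem_nhdsWithin]
    with e h1 h2 h3 h4
  have h4' : (0:ℝ) < e := h4
  have hm' : a + ((s + e * mu / (1 - e * nu) : ℝ) : ℂ) * D ∈ K := by
    apply hK.segment_subset ha hb
    rw [mem_segment_iff_real]
    exact ⟨_, h2.le, h3.le, rfl⟩
  have := hK.combo_interior_self_mem_interior hc hm' (mul_pos h4' hnu0) h1.le (by ring)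
  convert this using 1
  rw [hdec, hv, Complex.real_smul, Complex.real_smul]
  have h5 : ((1 - e * nu : ℝ) : ℂ) ≠ 0 := by exact_mod_cast h1.ne'
  have h6 : ((1 - e * nu : ℝ) : ℂ) * ((e * mu / (1 - e * nu) : ℝ) : ℂ) = (e * mu : ℝ) := by
    rw [← Complex.ofReal_mul]
    congr 1
    field_simp
  have h7 : ((1 - e * nu : ℝ) : ℂ) * (a + ((s + e * mu / (1 - e * nu) : ℝ) : ℂ) * D)
      = ((1 - e * nu : ℝ) : ℂ) * m + ((e * mu : ℝ) : ℂ) * D := by
    rw [← h6, hmdef]
    push_cast
    ring
  rw [h7]
  push_cast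
  ring

/-- A point of a closed convex set which is not interior has a supporting functional. -/
theorem support_dt {K : Set ℂ} (hK : Convex ℝ K) (hne : (interior K).Nonempty) {m : ℂ}
    (hm : m ∉ interior K) :
    ∃ n : ℂ, n ≠ 0 ∧ (∀ x ∈ K, dt n x ≤ dt n m) ∧ ∀ x ∈ interior K, dt n x < dt n m := by
  obtain ⟨f, hf⟩ := geometric_hahn_banach_open_point hK.interior isOpen_interior hm
  obtain ⟨n, hn⟩ := functional_dt f
  have h2 : ∀ x ∈ interior K, dt n x < dt n m := fun x hx => by
    rw [← hn, ← hn]; exact hf x hx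
  refine ⟨n, ?_, ?_, h2⟩
  · rintro rfl
    obtain ⟨x, hx⟩ := hne
    have := h2 x hx
    simp [dt] at this
  · intro x hx
    have hcl : x ∈ closure (interior K) := by
      rw [hK.closure_interior_eq_closure_of_nonempty_interior hne]
      exact subset_closure hx
    have : closure (interior K) ⊆ {x | dt n x ≤ dt n m} := by
      apply closure_minimal (fun x hx => (h2 x hx).le)
      exact isClosed_le (continuous_dt_right n) continuous_const
    exact this hcl

theorem dt_add_right (u v w : ℂ) : dt u (v + w) = dt u v + dt u w := by simp [dt]; ring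
theorem dt_sub_right (u v w : ℂ) : dt u (v - w) = dt u v - dt u w := by simp [dt]; ring
theorem dt_smul_right (s : ℝ) (u v : ℂ) : dt u ((s : ℂ) * v) = s * dt u v := by
  simp [dt]; ring
theorem dt_neg_left (u v : ℂ) : dt (-u) v = - dt u v := by simp [dt]; ring
theorem dt_comm (u v : ℂ) : dt u v = dt v u := by simp [dt]; ring
theorem dt_self_pos {n : ℂ} (h : n ≠ 0) : 0 < dt n n := by
  have : 0 < Complex.normSq n := Complex.normSq_pos.2 h
  rw [Complex.normSq_apply] at this
  simpa [dt] using this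

theorem dt_le (u v : ℂ) : |dt u v| ≤ ‖u‖ * ‖v‖ := by
  have h1 : dt u v = (u * (starRingEnd ℂ v)).re := by simp [dt]
  rw [h1, ← norm_conj v, ← norm_mul]
  exact Complex.abs_re_le_norm _

theorem cr_le (u v : ℂ) : |cr u v| ≤ ‖u‖ * ‖v‖ := by
  have h1 : cr u v = ((starRingEnd ℂ u) * v).im := by simp [cr]; ring
  rw [h1, ← norm_conj u, ← norm_mul]
  exact Complex.abs_im_le_norm _

/-- If a chord of a convex set has a non-interior inner point, the set lies on one side. -/
theorem one_side {K : Set ℂ} (hK : Convex ℝ K) {c a b m : ℂ} (hc : c ∈ interior K)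
    (ha : a ∈ K) (hb : b ∈ K) (hab : a ≠ b) (hm : m ∈ openSegment ℝ a b) (hmi : m ∉ interior K) :
    cr (b - a) (c - a) ≠ 0 ∧ ∀ x ∈ K, 0 ≤ cr (b - a) (x - a) * cr (b - a) (c - a) := by
  obtain ⟨n, hn0, hn1, hn2⟩ := support_dt hK ⟨c, hc⟩ hmi
  obtain ⟨s, hs0, hs1, rfl⟩ := mem_openSegment_iff_real.1 hm
  have h1 := hn1 a ha
  have h2 := hn1 b hb
  have hd : dt n (b - a) = 0 := by
    rw [dt_add_right, dt_smul_right] at h1 h2
    rw [dt_sub_right] at *
    have k1 : 0 ≤ s * (dt n b - dt n a) := by linarith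
    have k2 : (1 - s) * (dt n b - dt n a) ≤ 0 := by nlinarith
    have k3 : 0 ≤ dt n b - dt n a := by
      by_contra hc'
      push Not at hc'
      nlinarith
    have k4 : dt n b - dt n a ≤ 0 := by
      by_contra hc'
      push Not at hc'
      nlinarith
    linarith
  have hba : b - a ≠ 0 := sub_ne_zero.2 hab.symm
  have hN : 0 < Complex.normSq (b - a) := Complex.normSq_pos.2 hba
  set l : ℝ := dt n (Complex.I * (b - a)) / Complex.normSq (b - a) with hl
  have hrep : ∀ w, dt n w = l * cr (b - a) w := by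
    intro w
    conv_lhs => rw [ortho_decomp hba w]
    rw [dt_add_right, dt_smul_right, dt_smul_right, hd, hl]
    ring
  have hma : dt n (a + (s:ℂ) * (b - a)) = dt n a := by
    rw [dt_add_right, dt_smul_right, hd]; ring
  have hc2 : l * cr (b - a) (c - a) < 0 := by
    rw [← hrep, dt_sub_right]
    have := hn2 c hc
    rw [hma] at this; linarith
  have hl0 : l ≠ 0 := by
    rintro h; rw [h] at hc2; simp at hc2
  refine ⟨?_, fun x hx => ?_⟩
  · intro h; rw [h] at hc2; simp at hc2
  · have hx2 : l * cr (b - a) (x - a) ≤ 0 := by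
      rw [← hrep, dt_sub_right]
      have := hn1 x hx
      rw [hma] at this; linarith
    have h5 : 0 ≤ (l * cr (b - a) (x - a)) * (l * cr (b - a) (c - a)) :=
      mul_nonneg_of_nonpos_of_nonpos hx2 hc2.le
    have h6 : (l * cr (b - a) (x - a)) * (l * cr (b - a) (c - a))
        = l ^ 2 * (cr (b - a) (x - a) * cr (b - a) (c - a)) := by ring
    rw [h6] at h5
    have h7 : 0 < l ^ 2 := by positivity
    exact nonneg_of_mul_nonneg_right h5 h7

end Pool.Agent.Helper89.Dual
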