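import Mathlib
set_option autoImplicit false

/-!
Angles subtended by segments in the plane (identified with the complex numbers), and the way the
total angle along a polygonal curve changes when the base point moves along a segment.
-/

namespace Pool.Agent.Helper89.Dual

open Complex

/-- cross product of two plane vectors -/
def cr (u v : ℂ) : ℝ := u.re * v.im - u.im * v.re

/-- scalar product of two plane vectors -/
def dt (u v : ℂ) : ℝ := u.re * v.re + u.im * v.im

/-- signed angle at `z` from `a` to `b` -/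
noncomputable def th (z a b : ℂ) : ℝ := Complex.arg ((b - z) / (a - z))

/-- angle under which the segment from `x` to `y` is seen from `q` -/
noncomputable def ps (x y q : ℂ) : ℝ := Complex.arg ((q - y) / (q - x))

theorem th_coe {z a b : ℂ} (ha : a ≠ z) (hb : b ≠ z) :
    ((th z a b : ℝ) : Real.Angle) = (arg (b - z) : Real.Angle) - (arg (a - z) : Real.Angle) := by
  unfold th
  exact Complex.arg_div_coe_angle (sub_ne_zero.2 hb) (sub_ne_zero.2 ha)

theorem ps_coe {x y q : ℂ} (hx : q ≠ x) (hy : q ≠ y) :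
    ((ps x y q : ℝ) : Real.Angle) = (arg (q - y) : Real.Angle) - (arg (q - x) : Real.Angle) := by
  unfold ps
  exact Complex.arg_div_coe_angle (sub_ne_zero.2 hy) (sub_ne_zero.2 hx)

theorem coe_zero_int {r : ℝ} (h : (r : Real.Angle) = 0) : ∃ k : ℤ, r = 2 * Real.pi * k := by
  have h2 : ((r : ℝ) : Real.Angle) = ((0 : ℝ) : Real.Angle) := by simpa using h
  rw [Real.Angle.angle_eq_iff_two_pi_dvd_sub] at h2
  obtain ⟨k, hk⟩ := h2
  exact ⟨k, by linarith⟩

theorem eq_zero_of_coe {r : ℝ} (h : (r : Real.Angle) = 0) (h1 : -(2 * Real.pi) < r)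
    (h2 : r < 2 * Real.pi) : r = 0 := by
  obtain ⟨k, hk⟩ := coe_zero_int h
  have hpi := Real.pi_pos
  have hk1 : (k : ℝ) < 1 := by
    by_contra hc
    push Not at hc
    nlinarith
  have hk2 : (-1 : ℝ) < k := by
    by_contra hc
    push Not at hc
    nlinarith
  have : k = 0 := by
    have a1 : k < 1 := by exact_mod_cast hk1
    have a2 : -1 < k := by exact_mod_cast hk2
    omega
  rw [hk, this]; simp

theorem im_div_eq (w v : ℂ) : (w / v).im = cr v w / Complex.normSq v := by
  rw [Complex.div_im, cr]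
  ring

theorem arg_pos_lt {w : ℂ} (h : 0 < w.im) : 0 < arg w ∧ arg w < Real.pi := by
  constructor
  · rcases lt_or_eq_of_le ((Complex.arg_nonneg_iff).2 h.le) with h1 | h1
    · exact h1
    · have := (Complex.arg_eq_zero_iff.1 h1.symm).2
      linarith
  · rcases lt_or_eq_of_le (Complex.arg_le_pi w) with h1 | h1
    · exact h1
    · have := (Complex.arg_eq_pi_iff.1 h1).2
      linarith

theorem arg_neg_lt {w : ℂ} (h : w.im < 0) : -Real.pi < arg w ∧ arg w < 0 :=
  ⟨Complex.neg_pi_lt_arg w, (Complex.arg_neg_iff).2 h⟩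

theorem normSq_pos' {a z : ℂ} (h : a ≠ z) : 0 < Complex.normSq (a - z) :=
  Complex.normSq_pos.2 (sub_ne_zero.2 h)

theorem ne_of_cr_left {u v : ℂ} (h : cr u v ≠ 0) : u ≠ 0 := by
  rintro rfl; simp [cr] at h

theorem ne_of_cr_right {u v : ℂ} (h : cr u v ≠ 0) : v ≠ 0 := by
  rintro rfl; simp [cr] at h

theorem th_pos {z a b : ℂ} (h : 0 < cr (a - z) (b - z)) : 0 < th z a b ∧ th z a b < Real.pi := by
  have ha : a - z ≠ 0 := ne_of_cr_left h.ne'
  apply arg_pos_lt
  rw [im_div_eq]
  exact div_pos h (Complex.normSq_pos.2 ha)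

theorem th_neg {z a b : ℂ} (h : cr (a - z) (b - z) < 0) : -Real.pi < th z a b ∧ th z a b < 0 := by
  have ha : a - z ≠ 0 := ne_of_cr_left h.ne
  apply arg_neg_lt
  rw [im_div_eq]
  exact div_neg_of_neg_of_pos h (Complex.normSq_pos.2 ha)

theorem ps_pos {x y q : ℂ} (h : 0 < cr (q - x) (q - y)) : 0 < ps x y q ∧ ps x y q < Real.pi := by
  have ha : q - x ≠ 0 := ne_of_cr_left h.ne'
  apply arg_pos_lt
  rw [im_div_eq]
  exact div_pos h (Complex.normSq_pos.2 ha)

theorem ps_neg {x y q : ℂ} (h : cr (q - x) (q - y) < 0) :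
    -Real.pi < ps x y q ∧ ps x y q < 0 := by
  have ha : q - x ≠ 0 := ne_of_cr_left h.ne
  apply arg_neg_lt
  rw [im_div_eq]
  exact div_neg_of_neg_of_pos h (Complex.normSq_pos.2 ha)

theorem th_bound (z a b : ℂ) : -Real.pi < th z a b ∧ th z a b ≤ Real.pi :=
  ⟨Complex.neg_pi_lt_arg _, Complex.arg_le_pi _⟩

/-- if the ratio is a nonpositive real, `z` lies on the segment -/
theorem slit_of_not_mem {z a q : ℂ} (h : z ∉ segment ℝ a q) : (q - z) / (a - z) ∈ slitPlane := by
  by_contra hc
  rw [Complex.mem_slitPlane_iff] at hc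
  push Not at hc
  obtain ⟨h1, h2⟩ := hc
  apply h
  have haz : a ≠ z := by
    rintro rfl; exact h (left_mem_segment ℝ _ _)
  set w := (q - z) / (a - z) with hw
  have hq : q - z = w * (a - z) := by
    rw [hw, div_mul_cancel₀ _ (sub_ne_zero.2 haz)]
  have hwr : w = ((w.re : ℝ) : ℂ) := by
    apply Complex.ext <;> simp [h2]
  set s : ℝ := -w.re with hs
  have hs0 : 0 ≤ s := by rw [hs]; linarith
  have hz : z = ((s / (1 + s) : ℝ) : ℂ) * a + ((1 / (1 + s) : ℝ) : ℂ) * q := by
    have h1s : (1 + (s : ℂ)) ≠ 0 := by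
      have : (1 + s : ℝ) ≠ 0 := by positivity
      exact_mod_cast this
    have hq2 : q = z - (s : ℂ) * (a - z) := by
      have : q = z + w * (a - z) := by rw [← hq]; ring
      rw [this, hwr, hs]; push_cast; ring
    rw [hq2]
    push_cast
    field_simp
    ring
  rw [segment_eq_image₂]
  refine ⟨(s / (1 + s), 1 / (1 + s)), ⟨by positivity, by positivity, ?_⟩, ?_⟩
  · show s / (1 + s) + 1 / (1 + s) = 1
    have : (1 + s) ≠ 0 := by positivity
    field_simp
    ring
  · show (s / (1 + s)) • a + (1 / (1 + s)) • q = z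
    rw [Complex.real_smul, Complex.real_smul]
    exact hz.symm

theorem slit_of_not_mem' {x y q : ℂ} (h : q ∉ segment ℝ x y) : (q - y) / (q - x) ∈ slitPlane := by
  have h1 := slit_of_not_mem (z := q) (a := x) (q := y) h
  have : (q - y) / (q - x) = (y - q) / (x - q) := by
    rw [← neg_sub y q, ← neg_sub x q, neg_div_neg_eq]
  rw [this]; exact h1

theorem arg_ne_pi_of_slit {w : ℂ} (h : w ∈ slitPlane) : arg w ≠ Real.pi := by
  intro hc
  have := Complex.arg_eq_pi_iff.1 hc
  rw [Complex.mem_slitPlane_iff] at h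
  rcases h with h | h
  · linarith [this.1]
  · exact h this.2

/-- antisymmetry of the subtended angle -/
theorem th_symm {z a b : ℂ} (h : z ∉ segment ℝ a b) : th z b a = - th z a b := by
  unfold th
  have h1 := arg_ne_pi_of_slit (slit_of_not_mem h)
  have : (a - z) / (b - z) = ((b - z) / (a - z))⁻¹ := by rw [inv_div]
  rw [this, Complex.arg_inv, if_neg h1]

theorem th_self {z a : ℂ} (h : a ≠ z) : th z a a = 0 := by
  unfold th
  rw [div_self (sub_ne_zero.2 h)]; simp

/-- a continuous function on the unit interval with values in `2 pi Z` vanishing at `0` vanishes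
at `1` -/
theorem const_two_pi (F : ℝ → ℝ) (hF : ContinuousOn F (Set.Icc 0 1)) (h0 : F 0 = 0)
    (hZ : ∀ t ∈ Set.Icc (0:ℝ) 1, ((F t : ℝ) : Real.Angle) = 0) : F 1 = 0 := by
  obtain ⟨k, hk⟩ := coe_zero_int (hZ 1 (by simp))
  have hpi := Real.pi_pos
  have key : ∀ v : ℝ, v ∈ Set.uIcc (F 0) (F 1) → ∃ t ∈ Set.Icc (0:ℝ) 1, F t = v := by
    intro v hv
    have := intermediate_value_uIcc (a := (0:ℝ)) (b := 1) (f := F) (by
      rw [Set.uIcc_of_le zero_le_one]; exact hF)
    obtain ⟨t, ht, hft⟩ := this hv
    rw [Set.uIcc_of_le zero_le_one] at ht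
    exact ⟨t, ht, hft⟩
  rcases lt_trichotomy k 0 with hk0 | hk0 | hk0
  · exfalso
    have hk1 : (k : ℝ) ≤ -1 := by exact_mod_cast (by omega : k ≤ -1)
    obtain ⟨t, ht, hft⟩ := key (-Real.pi) (by
      rw [Set.mem_uIcc, h0]; right; constructor <;> nlinarith)
    obtain ⟨m, hm⟩ := coe_zero_int (hZ t ht)
    rw [hft] at hm
    have : (2 * m + 1 : ℝ) = 0 := by
      have h3 : Real.pi * (2 * m + 1) = 0 := by linarith
      rcases mul_eq_zero.1 h3 with h4 | h4
      · exact absurd h4 hpi.ne'
      · exact h4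
    have h5 : (2 * m + 1 : ℤ) = 0 := by exact_mod_cast this
    omega
  · rw [hk, hk0]; simp
  · exfalso
    have hk1 : (1 : ℝ) ≤ k := by exact_mod_cast (by omega : 1 ≤ k)
    obtain ⟨t, ht, hft⟩ := key (Real.pi) (by
      rw [Set.mem_uIcc, h0]; left; constructor <;> nlinarith)
    obtain ⟨m, hm⟩ := coe_zero_int (hZ t ht)
    rw [hft] at hm
    have : (2 * m - 1 : ℝ) = 0 := by
      have h3 : Real.pi * (2 * m - 1) = 0 := by linarith
      rcases mul_eq_zero.1 h3 with h4 | h4
      · exact absurd h4 hpi.ne'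
      · exact h4
    have h5 : (2 * m - 1 : ℤ) = 0 := by exact_mod_cast this
    omega

theorem lineMap_mem {a b : ℂ} {t : ℝ} (ht : t ∈ Set.Icc (0:ℝ) 1) :
    a + (t : ℂ) * (b - a) ∈ segment ℝ a b := by
  rw [segment_eq_image']
  exact ⟨t, ht, by simp⟩

theorem seg_sub_left {a b q : ℂ} (hq : q ∈ segment ℝ a b) : segment ℝ a q ⊆ segment ℝ a b :=
  (convex_segment a b).segment_subset (left_mem_segment ℝ a b) hq

theorem seg_sub_right {a b q : ℂ} (hq : q ∈ segment ℝ a b) : segment ℝ q b ⊆ segment ℝ a b :=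
  (convex_segment a b).segment_subset hq (right_mem_segment ℝ a b)

theorem ne_of_not_mem {z a b q : ℂ} (h : z ∉ segment ℝ a b) (hq : q ∈ segment ℝ a b) : q ≠ z := by
  rintro rfl; exact h hq

theorem continuousOn_line (a b : ℂ) : Continuous (fun t : ℝ => a + (t : ℂ) * (b - a)) := by
  fun_prop

/-- Lemma A: the base point moves along `[x,y]`, the curve `[a,b]` does not meet `[x,y]`. -/
theorem th_move {x y a b : ℂ} (h : Disjoint (segment ℝ x y) (segment ℝ a b)) :
    th y a b - th x a b = ps x y b - ps x y a := by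
  have hxm : x ∉ segment ℝ a b := fun hx =>
    Set.disjoint_left.1 h (left_mem_segment ℝ x y) hx
  have hym : y ∉ segment ℝ a b := fun hx =>
    Set.disjoint_left.1 h (right_mem_segment ℝ x y) hx
  let q : ℝ → ℂ := fun t => a + (t : ℂ) * (b - a)
  have hq0 : q 0 = a := by simp [q]
  have hq1 : q 1 = b := by simp [q]
  have hqm : ∀ t ∈ Set.Icc (0:ℝ) 1, q t ∈ segment ℝ a b := fun t ht => lineMap_mem ht
  have hqc : Continuous q := continuousOn_line a b
  let F : ℝ → ℝ := fun t => th y a (q t) - th x a (q t) - ps x y (q t) + ps x y a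
  have hF : ContinuousOn F (Set.Icc 0 1) := by
    have c1 : ∀ z : ℂ, z ∉ segment ℝ a b → ContinuousOn (fun t => th z a (q t)) (Set.Icc 0 1) := by
      intro z hz t ht
      unfold th
      apply ContinuousAt.continuousWithinAt
      have hsl : (q t - z) / (a - z) ∈ slitPlane :=
        slit_of_not_mem (fun hh => hz (seg_sub_left (hqm t ht) hh))
      have : ContinuousAt (fun t : ℝ => (q t - z) / (a - z)) t := by
        apply ContinuousAt.div_const
        exact (hqc.continuousAt).sub continuousAt_const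
      exact ContinuousAt.comp' (g := Complex.arg) (Complex.continuousAt_arg hsl) this
    have c2 : ContinuousOn (fun t => ps x y (q t)) (Set.Icc 0 1) := by
      intro t ht
      unfold ps
      apply ContinuousAt.continuousWithinAt
      have hnm : q t ∉ segment ℝ x y := fun hh => Set.disjoint_left.1 h hh (hqm t ht)
      have hsl : (q t - y) / (q t - x) ∈ slitPlane := slit_of_not_mem' hnm
      have hne : q t - x ≠ 0 := sub_ne_zero.2 (fun he => hnm (he ▸ left_mem_segment ℝ x y))
      have : ContinuousAt (fun t : ℝ => (q t - y) / (q t - x)) t :=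
        ContinuousAt.div ((hqc.continuousAt).sub continuousAt_const)
          ((hqc.continuousAt).sub continuousAt_const) hne
      exact ContinuousAt.comp' (g := Complex.arg) (Complex.continuousAt_arg hsl) this
    exact (((c1 y hym).sub (c1 x hxm)).sub c2).add continuousOn_const
  have hax : a ≠ x := ne_of_not_mem hxm (left_mem_segment ℝ a b)
  have hay : a ≠ y := ne_of_not_mem hym (left_mem_segment ℝ a b)
  have h0 : F 0 = 0 := by
    simp only [F, hq0, th_self hax, th_self hay]; ring
  have hZ : ∀ t ∈ Set.Icc (0:ℝ) 1, ((F t : ℝ) : Real.Angle) = 0 := by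
    intro t ht
    have e1 := th_coe hay (ne_of_not_mem hym (hqm t ht))
    have e2 := th_coe hax (ne_of_not_mem hxm (hqm t ht))
    have e3 := ps_coe (ne_of_not_mem hxm (hqm t ht)) (ne_of_not_mem hym (hqm t ht))
    have e4 := ps_coe hax hay
    simp only [F, Real.Angle.coe_add, Real.Angle.coe_sub, e1, e2, e3, e4]
    abel
  have := const_two_pi F hF h0 hZ
  simp only [F, hq1] at this
  linarith

/-- additivity of the angle along a segment -/
theorem th_add {z a b m : ℂ} (h : z ∉ segment ℝ a b) (hm : m ∈ segment ℝ a b) :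
    th z a m + th z m b = th z a b := by
  have hma : z ∉ segment ℝ a m := fun hh => h (seg_sub_left hm hh)
  let q : ℝ → ℂ := fun t => a + (t : ℂ) * (m - a)
  have hq0 : q 0 = a := by simp [q]
  have hq1 : q 1 = m := by simp [q]
  have hqm : ∀ t ∈ Set.Icc (0:ℝ) 1, q t ∈ segment ℝ a m := fun t ht => lineMap_mem ht
  have hqb : ∀ t ∈ Set.Icc (0:ℝ) 1, q t ∈ segment ℝ a b := fun t ht => seg_sub_left hm (hqm t ht)
  have hqc : Continuous q := continuousOn_line a m
  let F : ℝ → ℝ := fun t => th z a (q t) + th z (q t) b - th z a b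
  have hbz : b ≠ z := ne_of_not_mem h (right_mem_segment ℝ a b)
  have haz : a ≠ z := ne_of_not_mem h (left_mem_segment ℝ a b)
  have hF : ContinuousOn F (Set.Icc 0 1) := by
    have c1 : ContinuousOn (fun t => th z a (q t)) (Set.Icc 0 1) := by
      intro t ht
      unfold th
      apply ContinuousAt.continuousWithinAt
      have hsl : (q t - z) / (a - z) ∈ slitPlane :=
        slit_of_not_mem (fun hh => hma (seg_sub_left (hqm t ht) hh))
      have : ContinuousAt (fun t : ℝ => (q t - z) / (a - z)) t := by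
        apply ContinuousAt.div_const
        exact (hqc.continuousAt).sub continuousAt_const
      exact ContinuousAt.comp' (g := Complex.arg) (Complex.continuousAt_arg hsl) this
    have c2 : ContinuousOn (fun t => th z (q t) b) (Set.Icc 0 1) := by
      intro t ht
      unfold th
      apply ContinuousAt.continuousWithinAt
      have hsl : (b - z) / (q t - z) ∈ slitPlane :=
        slit_of_not_mem (fun hh => h (seg_sub_right (hqb t ht) hh))
      have hne : q t - z ≠ 0 := sub_ne_zero.2 (ne_of_not_mem h (hqb t ht))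
      have : ContinuousAt (fun t : ℝ => (b - z) / (q t - z)) t :=
        ContinuousAt.div continuousAt_const
          ((hqc.continuousAt).sub continuousAt_const) hne
      exact ContinuousAt.comp' (g := Complex.arg) (Complex.continuousAt_arg hsl) this
    exact (c1.add c2).sub continuousOn_const
  have h0 : F 0 = 0 := by
    simp only [F, hq0, th_self haz]; ring
  have hZ : ∀ t ∈ Set.Icc (0:ℝ) 1, ((F t : ℝ) : Real.Angle) = 0 := by
    intro t ht
    have e1 := th_coe haz (ne_of_not_mem h (hqb t ht))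
    have e2 := th_coe (ne_of_not_mem h (hqb t ht)) hbz
    have e3 := th_coe haz hbz
    simp only [F, Real.Angle.coe_add, Real.Angle.coe_sub, e1, e2, e3]
    abel
  have := const_two_pi F hF h0 hZ
  simp only [F, hq1] at this
  linarith

/-- points of the open segment see the end points in opposite directions -/
theorem arg_openSegment {x y m : ℂ} (hm : m ∈ openSegment ℝ x y) (hxy : x ≠ y) :
    ((arg (m - y) : ℝ) : Real.Angle) - (arg (m - x) : Real.Angle) = (Real.pi : Real.Angle) := by
  rw [openSegment_eq_image'] at hm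
  obtain ⟨s, hs, hsm⟩ := hm
  have hmx : m - x = (s : ℂ) * (y - x) := by
    rw [← hsm]; simp
  have hmy : m - y = ((-(1 - s) : ℝ) : ℂ) * (y - x) := by
    rw [← hsm]; push_cast; simp; ring
  have hne : y - x ≠ 0 := sub_ne_zero.2 hxy.symm
  have hs0 : (s : ℂ) ≠ 0 := by exact_mod_cast hs.1.ne'
  have h1s : ((-(1 - s) : ℝ) : ℂ) ≠ 0 := by
    have : (-(1 - s) : ℝ) ≠ 0 := by linarith [hs.2] |> fun h : -(1-s) < 0 => h.ne
    exact_mod_cast this
  have hmx0 : m - x ≠ 0 := by rw [hmx]; exact mul_ne_zero hs0 hne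
  have hmy0 : m - y ≠ 0 := by rw [hmy]; exact mul_ne_zero h1s hne
  rw [← Complex.arg_div_coe_angle hmy0 hmx0]
  have : (m - y) / (m - x) = ((-((1 - s) / s) : ℝ) : ℂ) := by
    rw [hmx, hmy, mul_div_mul_right _ _ hne]
    push_cast
    field_simp
  rw [this, Complex.arg_ofReal_of_neg]
  have := hs.1
  have h2 : 0 < (1 - s) / s := div_pos (by linarith [hs.2]) hs.1
  linarith

theorem cr_smul_left (s : ℝ) (u v : ℂ) : cr ((s : ℂ) * u) v = s * cr u v := by
  simp [cr]; ring

theorem cr_smul_right (s : ℝ) (u v : ℂ) : cr u ((s : ℂ) * v) = s * cr u v := by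
  simp [cr]; ring

theorem cr_comm (u v : ℂ) : cr u v = - cr v u := by
  simp [cr]; ring

/-- Lemma B: the curve crosses `[x,y]` at `m` from the left to the right. -/
theorem th_cross {x y a b m : ℂ} (hm : m ∈ openSegment ℝ x y)
    (ha : 0 < cr (y - x) (a - x)) (hb : cr (y - x) (b - x) < 0) :
    (th y a m - th x a m) + (th y m b - th x m b) = ps x y b - ps x y a + 2 * Real.pi := by
  have hpi := Real.pi_pos
  have hxy : x ≠ y := by
    rintro rfl; simp [cr] at ha
  have hang := arg_openSegment hm hxy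
  rw [openSegment_eq_image'] at hm
  obtain ⟨s, hs, hsm⟩ := hm
  have hmx : m - x = (s : ℂ) * (y - x) := by
    rw [← hsm]; simp
  have hmy : m - y = ((-(1 - s) : ℝ) : ℂ) * (y - x) := by
    rw [← hsm]; push_cast; simp; ring
  have hs1 : 0 < 1 - s := by linarith [hs.2]
  have crm1 : ∀ w : ℂ, cr (w - y) (m - y) = (1 - s) * cr (y - x) (w - x) := by
    intro w
    rw [hmy, cr_smul_right]
    simp [cr]; ring
  have crm2 : ∀ w : ℂ, cr (w - x) (m - x) = - (s * cr (y - x) (w - x)) := by
    intro w
    rw [hmx, cr_smul_right]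
    simp [cr]; ring
  have crm3 : ∀ w : ℂ, cr (w - x) (w - y) = cr (y - x) (w - x) := by
    intro w
    simp [cr]; ring
  -- part 1
  have a1 := th_pos (z := y) (a := a) (b := m) (by rw [crm1]; positivity)
  have a2 := th_neg (z := x) (a := a) (b := m) (by
    rw [crm2]; have := mul_pos hs.1 ha; linarith)
  have a3 := ps_pos (x := x) (y := y) (q := a) (by rw [crm3]; exact ha)
  have b1 := th_pos (z := y) (a := m) (b := b) (by
    rw [cr_comm, crm1]; have := mul_pos hs1 (neg_pos.2 hb); linarith)
  have b2 := th_neg (z := x) (a := m) (b := b) (by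
    rw [cr_comm, crm2]; have := mul_pos hs.1 (neg_pos.2 hb); linarith)
  have b3 := ps_neg (x := x) (y := y) (q := b) (by rw [crm3]; exact hb)
  have hay : a ≠ y := by
    rintro rfl; simp [cr] at ha; linarith
  have hax : a ≠ x := by
    rintro rfl; simp [cr] at ha
  have hby : b ≠ y := by
    rintro rfl; simp [cr] at hb; linarith
  have hbx : b ≠ x := by
    rintro rfl; simp [cr] at hb
  have hne : y - x ≠ 0 := sub_ne_zero.2 hxy.symm
  have hmx0 : m ≠ x := by
    intro h; rw [h, sub_self] at hmx
    have := mul_ne_zero (by exact_mod_cast hs.1.ne' : (s : ℂ) ≠ 0) hne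
    exact this hmx.symm
  have hmy0 : m ≠ y := by
    intro h; rw [h, sub_self] at hmy
    have h1 : (-(1 - s) : ℝ) ≠ 0 := by linarith |> fun h : -(1-s) < 0 => h.ne
    have := mul_ne_zero (by exact_mod_cast h1 : ((-(1 - s) : ℝ) : ℂ) ≠ 0) hne
    exact this hmy.symm
  have p1 : th y a m - th x a m + ps x y a - Real.pi = 0 := by
    apply eq_zero_of_coe
    · have e1 := th_coe hay hmy0
      have e2 := th_coe hax hmx0
      have e3 := ps_coe hax hay
      simp only [Real.Angle.coe_add, Real.Angle.coe_sub, e1, e2, e3]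
      rw [← hang]; abel
    · linarith
    · linarith
  have p2 : th y m b - th x m b - ps x y b - Real.pi = 0 := by
    apply eq_zero_of_coe
    · have e1 := th_coe hmy0 hby
      have e2 := th_coe hmx0 hbx
      have e3 := ps_coe hbx hby
      simp only [Real.Angle.coe_sub, e1, e2, e3]
      have : (Real.pi : Real.Angle) = - (Real.pi : Real.Angle) := by simp
      rw [this, ← hang]; abel
    · linarith
    · linarith
  linarith

/-- Lemma HP: inside a half plane the angle is a difference of arguments. -/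
theorem th_half {z a b n : ℂ} (ha : 0 < dt n (a - z)) (hb : 0 < dt n (b - z)) :
    th z a b = arg ((starRingEnd ℂ n) * (b - z)) - arg ((starRingEnd ℂ n) * (a - z)) := by
  have hn : n ≠ 0 := by rintro rfl; simp [dt] at ha
  have hcn : (starRingEnd ℂ n) ≠ 0 := by simpa using hn
  have haz : a - z ≠ 0 := by intro h; rw [h] at ha; simp [dt] at ha
  have hbz : b - z ≠ 0 := by intro h; rw [h] at hb; simp [dt] at hb
  have key : ∀ w : ℂ, 0 < dt n w → |arg ((starRingEnd ℂ n) * w)| < Real.pi / 2 := by
    intro w hw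
    rw [Complex.abs_arg_lt_pi_div_two_iff]
    left
    simp [dt] at hw ⊢
    linarith
  have h1 := abs_lt.1 (key _ ha)
  have h2 := abs_lt.1 (key _ hb)
  have hpi := Real.pi_pos
  have : th z a b - (arg ((starRingEnd ℂ n) * (b - z)) - arg ((starRingEnd ℂ n) * (a - z))) = 0 := by
    apply eq_zero_of_coe
    · have e1 : ((th z a b : ℝ) : Real.Angle) =
          (arg ((starRingEnd ℂ n) * (b - z)) : Real.Angle)
            - (arg ((starRingEnd ℂ n) * (a - z)) : Real.Angle) := by
        unfold th
        rw [← Complex.arg_div_coe_angle (mul_ne_zero hcn hbz) (mul_ne_zero hcn haz),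
          mul_div_mul_left _ _ hcn]
      simp only [Real.Angle.coe_sub, e1]
      abel
    · have := (th_bound z a b).1
      linarith
    · have := (th_bound z a b).2
      linarith
  linarith

/-- the three angles of a positively oriented triangle around an inner point -/
theorem th_tri {z a b c : ℂ} (h1 : 0 < cr (a - z) (b - z)) (h2 : 0 < cr (b - z) (c - z))
    (h3 : 0 < cr (c - z) (a - z)) : th z a b + th z b c + th z c a = 2 * Real.pi := by
  have hpi := Real.pi_pos
  have a1 := th_pos h1
  have a2 := th_pos h2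
  have a3 := th_pos h3
  have ha : a ≠ z := sub_ne_zero.1 (ne_of_cr_left h1.ne')
  have hb : b ≠ z := sub_ne_zero.1 (ne_of_cr_left h2.ne')
  have hc : c ≠ z := sub_ne_zero.1 (ne_of_cr_left h3.ne')
  have : th z a b + th z b c + th z c a - 2 * Real.pi = 0 := by
    apply eq_zero_of_coe
    · have e1 := th_coe ha hb
      have e2 := th_coe hb hc
      have e3 := th_coe hc ha
      simp only [Real.Angle.coe_sub, Real.Angle.coe_add, e1, e2, e3, Real.Angle.coe_two_pi]
      abel
    · linarith
    · linarith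
  linarith

end Pool.Agent.Helper89.Dual
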